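import Mathlib

/-!
# Products of powers of elliptic curves: definitions of the statement
-/

open NumberField Polynomial Filter Topology
open IsDedekindDomain (HeightOneSpectrum)

namespace TatePole.Fs

/-- The number of elements of the residue field of a prime of a number field. -/
noncomputable def Nv {K : Type*} [Field K] [NumberField K] (v : HeightOneSpectrum (𝓞 K)) : ℕ :=
  Ideal.absNorm v.asIdeal

/-- The `L`-function `∏_v P_v(N v ^ (-s))⁻¹`. -/
noncomputable def LF {K : Type*} [Field K] [NumberField K]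
    (P : HeightOneSpectrum (𝓞 K) → ℂ[X]) (s : ℝ) : ℂ :=
  ∏' v, ((P v).eval ((Nv v : ℂ) ^ (-(s : ℂ))))⁻¹

/-- The order of `LF P` at `s = m + 1` exists and equals `k`: the function
`(s - m - 1)^(-k) * LF P s` has a finite nonzero limit as real `s → (m + 1)+`. -/
def HasOrd {K : Type*} [Field K] [NumberField K] (P : HeightOneSpectrum (𝓞 K) → ℂ[X]) (m : ℕ)
    (k : ℤ) : Prop :=
  ∃ c : ℂ, c ≠ 0 ∧ Tendsto (fun s : ℝ => ((s - (m + 1) : ℝ) : ℂ) ^ (-k) * LF P s)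
    (𝓝[>] ((m : ℝ) + 1)) (𝓝 c)

/-- The set `A` of primes has Dirichlet density zero. -/
def DensZero {K : Type*} [Field K] [NumberField K] (A : Set (HeightOneSpectrum (𝓞 K))) : Prop :=
  Tendsto (fun s : ℝ => (∑' v, A.indicator (fun v => (Nv v : ℝ) ^ (-s)) v) /
    Real.log (1 / (s - 1))) (𝓝[>] 1) (𝓝 0)

section
variable {ι : Type*} [Fintype ι] [DecidableEq ι]

/-- The pairs of exponents `(x, y)` with `x_i, y_i ≤ n_i` and `∑ (x_i + y_i) = 2m`. -/
def expo (n : ι → ℕ) (m : ℕ) : Finset ((ι → ℕ) × (ι → ℕ)) :=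
  ((Fintype.piFinset fun i => Finset.range (n i + 1)) ×ˢ
    (Fintype.piFinset fun i => Finset.range (n i + 1))).filter
      fun e => ∑ i, (e.1 i + e.2 i) = 2 * m

/-- The multiplicity `∏ C(n_i, x_i) C(n_i, y_i)`. -/
def mult (n : ι → ℕ) (e : (ι → ℕ) × (ι → ℕ)) : ℕ :=
  ∏ i, (n i).choose (e.1 i) * (n i).choose (e.2 i)

/-- The polynomial `det (1 - T · Frob | H^{2m}(X))`, for the product `X` of the `n_i`-th powers of
elliptic curves with Frobenius eigenvalues `α_i` and its complex conjugate: the product of the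
`1 - T ∏ α_i^{x_i} (conj α_i)^{y_i}`, with multiplicities. -/
noncomputable def localPoly (α : ι → ℂ) (n : ι → ℕ) (m : ℕ) : ℂ[X] :=
  ∏ e ∈ expo n m,
    (1 - C (∏ i, α i ^ e.1 i * (starRingEnd ℂ) (α i) ^ e.2 i) * X) ^ mult n e

/-- The rank of the group of cycles: the sum over all `k` with `∑ k_i = m` of
`∏ (C(n_i, k_i)² - C(n_i, k_i + 1) C(n_i, k_i - 1))`. -/
def rank (n : ι → ℕ) (m : ℕ) : ℤ :=
  ∑ k ∈ Finset.piAntidiag Finset.univ m,
    ∏ i, (((n i).choose (k i) : ℤ) ^ 2 -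
      (n i).choose (k i + 1) * (n i).choose (n i + 1 - k i))

end

/-- The polynomial `∏_{j ≤ 2n} (1 - a^j (conj a)^(2n-j) T)` of the `2n`-th symmetric power of a
curve with Frobenius eigenvalues `a`, `conj a`. -/
noncomputable def symPoly (a : ℂ) (n : ℕ) : ℂ[X] :=
  ∏ j ∈ Finset.range (2 * n + 1), (1 - C (a ^ j * (starRingEnd ℂ) a ^ (2 * n - j)) * X)

/-- The sequences `c 1, c 2, ...` which are zero, or have exactly one nonzero value `ε = ±1` (at
`k ≥ 1`, the case `k = 1`, `ε = -1` of the Sato-Tate law excluded), or have the value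
`ε ^ (j / p)`, `ε = ±1`, at the multiples `j` of some `p ≥ 1` and are zero elsewhere. -/
def OtherLaw (c : ℕ → ℤ) : Prop :=
  (∀ j, 1 ≤ j → c j = 0) ∨
  (∃ k, 1 ≤ k ∧ ∃ ε : ℤ, (ε = 1 ∨ ε = -1) ∧ ¬ (k = 1 ∧ ε = -1) ∧
    ∀ j, 1 ≤ j → c j = if j = k then ε else 0) ∨
  (∃ p, 1 ≤ p ∧ ∃ ε : ℤ, (ε = 1 ∨ ε = -1) ∧ ∀ j, 1 ≤ j → c j = if p ∣ j then ε ^ (j / p) else 0)

/-- `C(N, m)² + ∑_{1 ≤ j ≤ m} c j C(N, m + j) C(N, m - j)` -/
def lawRank (c : ℕ → ℤ) (N m : ℕ) : ℤ :=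
  (N.choose m : ℤ) ^ 2 + ∑ j ∈ Finset.Icc 1 m, c j * N.choose (m + j) * N.choose (m - j)

end TatePole.Fs
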