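import Mathlib
import Pool.Agent.Lib.MP_058a58_ag.Fs.Defs

/-!
# FourfoldsSuffice: the pieces

`V = HeightOneSpectrum (𝓞 K)`, `N = Nv v`, `t i v = 2 cos (arg (α i v)) ∈ [-2, 2]`.

* `SS g s = ∑_v g(v) N^{-s}`; `Str g c`: `SS g s - c log (1/(s-1))` converges as `s → 1+`;
  `HasD g c`: `SS g s / log (1/(s-1)) → c`.
* `Par t b g`: `g` is a polynomial in the `t i` with integer coefficients all of whose monomials
  have total degree `≡ b (mod 2)`.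
* `sp n x`: the Chebyshev polynomial `sin ((n+1)θ)/sin θ`, `x = 2 cos θ`; `XX t a = ∏ sp (a i) (t i)`.
* `Gf t n m`: the coefficient of `T^{2m}` in `∏ (1 + t_i T + T²)^{n_i}`, which is the trace of
  Frobenius on `H^{2m}(X_n)(m)`.
-/

open NumberField Polynomial Filter Topology
open IsDedekindDomain (HeightOneSpectrum)

namespace TatePole.Fs

section
variable {K : Type*} [Field K] [NumberField K]

/-- `∑_v g(v) N^{-s}` -/
noncomputable def SS (g : HeightOneSpectrum (𝓞 K) → ℝ) (s : ℝ) : ℝ :=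
  ∑' v, g v * (Nv v : ℝ) ^ (-s)

/-- bounded -/
def Bd (g : HeightOneSpectrum (𝓞 K) → ℝ) : Prop := ∃ C : ℝ, ∀ v, |g v| ≤ C

/-- `SS g s - c log (1/(s-1))` converges -/
def Str (g : HeightOneSpectrum (𝓞 K) → ℝ) (c : ℝ) : Prop :=
  ∃ l : ℝ, Tendsto (fun s : ℝ => SS g s - c * Real.log (1 / (s - 1))) (𝓝[>] 1) (𝓝 l)

/-- `g` has (logarithmic) density `c` -/
def HasD (g : HeightOneSpectrum (𝓞 K) → ℝ) (c : ℝ) : Prop :=
  Tendsto (fun s : ℝ => SS g s / Real.log (1 / (s - 1))) (𝓝[>] 1) (𝓝 c)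

end

/-- Polynomials in the functions `t i` with integer coefficients and monomials of total degree
`≡ b (mod 2)`. -/
inductive Par {ι V : Type*} (t : ι → V → ℝ) : ZMod 2 → (V → ℝ) → Prop
  | one : Par t 0 (fun _ => 1)
  | var (i : ι) : Par t 1 (t i)
  | add {b : ZMod 2} {g h : V → ℝ} : Par t b g → Par t b h → Par t b (fun v => g v + h v)
  | neg {b : ZMod 2} {g : V → ℝ} : Par t b g → Par t b (fun v => - g v)
  | mul {b c : ZMod 2} {g h : V → ℝ} : Par t b g → Par t c h → Par t (b + c) (fun v => g v * h v)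

/-- Chebyshev polynomials: `sp n (2 cos θ) = sin ((n + 1) θ) / sin θ` -/
def sp : ℕ → ℝ → ℝ
  | 0, _ => 1
  | 1, x => x
  | (n + 2), x => x * sp (n + 1) x - sp n x

/-- `∏ sp (a i) (t i v)` -/
def XX {ι V : Type*} [Fintype ι] (t : ι → V → ℝ) (a : ι → ℕ) (v : V) : ℝ :=
  ∏ i, sp (a i) (t i v)

/-- the coefficient of `T^{2m}` in `∏ (1 + t_i T + T²)^{n_i}` -/
noncomputable def Gf {ι V : Type*} [Fintype ι] (t : ι → V → ℝ) (n : ι → ℕ) (m : ℕ) (v : V) : ℝ :=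
  (∏ i, (1 + C (t i v) * X + X ^ 2 : ℝ[X]) ^ n i).coeff (2 * m)

/-- [ZK] the primes of `K` -/
def StmZK (K : Type*) [Field K] [NumberField K] : Prop :=
  (∀ v : HeightOneSpectrum (𝓞 K), 2 ≤ Nv v) ∧
  (∀ s : ℝ, 1 < s → Summable fun v : HeightOneSpectrum (𝓞 K) => (Nv v : ℝ) ^ (-s)) ∧
  Str (fun _ : HeightOneSpectrum (𝓞 K) => 1) 1

/-- [LOG] the order of an Euler product and the sum of its traces.  `J` indexes the eigenvalues
(normalised to absolute value at most one), `c` are multiplicities, `σ` is complex conjugation. -/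
def StmLOG (K : Type*) [Field K] [NumberField K] : Prop :=
  StmZK K → ∀ (S : Finset (HeightOneSpectrum (𝓞 K))) (J : Type) (_ : Fintype J)
    (w : J → HeightOneSpectrum (𝓞 K) → ℂ) (c : J → ℕ) (σ : Equiv.Perm J)
    (P : HeightOneSpectrum (𝓞 K) → ℂ[X]) (m : ℕ),
    (∀ j v, ‖w j v‖ ≤ 1) →
    (∀ j, c (σ j) = c j ∧ ∀ v, w (σ j) v = (starRingEnd ℂ) (w j v)) →
    (∀ v ∉ S, ∀ s : ℝ, 1 < s → (P v).eval ((Nv v : ℂ) ^ (-((s + m : ℝ) : ℂ))) =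
      ∏ j, (1 - w j v * (Nv v : ℂ) ^ (-(s : ℂ))) ^ c j) →
    (∀ v ∈ S, (P v).eval ((Nv v : ℂ) ^ (-((m : ℂ) + 1))) ≠ 0) →
    ∀ k : ℤ, HasOrd P m k ↔ Str (fun v => ∑ j, (c j : ℝ) * (w j v).re) (-(k : ℝ))

/-- [COEF] the trace of Frobenius: for `z_i` of absolute value one,
`∑ mult · Re ∏ z_i^{x_i} conj(z_i)^{y_i}` is the coefficient of `T^{2m}` in
`∏ (1 + 2 Re(z_i) T + T²)^{n_i}`. -/
def StmCOEF : Prop :=
  ∀ (ι : Type) (_ : Fintype ι) (_ : DecidableEq ι) (z : ι → ℂ) (n : ι → ℕ) (m : ℕ),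
    (∀ i, ‖z i‖ = 1) →
    ∑ e ∈ expo n m, (mult n e : ℝ) *
      (∏ i, z i ^ e.1 i * (starRingEnd ℂ) (z i) ^ e.2 i).re =
    (∏ i, (1 + C (2 * (z i).re) * X + X ^ 2 : ℝ[X]) ^ n i).coeff (2 * m)

/-- [TRI] if the `Gf t n m` with `∑ n_i = 2m` have integral strict sizes, then all polynomials of
even degree have. -/
def StmTRI (K : Type*) [Field K] [NumberField K] : Prop :=
  StmZK K → ∀ (ι : Type) (_ : Fintype ι) (_ : DecidableEq ι) (t : ι → HeightOneSpectrum (𝓞 K) → ℝ),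
    (∀ i v, |t i v| ≤ 2) →
    (∀ (n : ι → ℕ) (m : ℕ), ∑ i, n i = 2 * m → ∃ k : ℤ, Str (Gf t n m) k) →
    ∀ g, Par t 0 g → ∃ k : ℤ, Str g k

/-- [GPAR] `Gf t n m` is a polynomial of even degree -/
def StmGPAR (V : Type*) : Prop :=
  ∀ (ι : Type) (_ : Fintype ι) (t : ι → V → ℝ) (n : ι → ℕ) (m : ℕ), Par t 0 (Gf t n m)

/-- [CS] the equality case of the Cauchy-Schwarz inequality -/
def StmCS (K : Type*) [Field K] [NumberField K] : Prop :=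
  StmZK K → ∀ f g h : HeightOneSpectrum (𝓞 K) → ℝ, Bd f → Bd g → Bd h →
    HasD (fun v => f v ^ 2) 1 → HasD (fun v => g v ^ 2) 1 →
    ∀ k : ℤ, HasD (fun v => f v * g v) k → k ≠ 0 →
    (k = 1 ∨ k = -1) ∧ HasD (fun v => (f v ^ 2 - g v ^ 2) * h v) 0

/-- [ONE] one curve: Sato-Tate or concentration.  Uses `PD.main` of `Fs/Tree`. -/
def StmONE (K : Type*) [Field K] [NumberField K] : Prop :=
  StmZK K → ∀ θ : HeightOneSpectrum (𝓞 K) → ℝ,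
    (∀ n : ℕ, ∃ k : ℤ, HasD (fun v => 2 * Real.cos (2 * n * θ v)) k) →
    HasD (fun v => (2 * Real.cos (θ v)) ^ 4 + 12 * (2 * Real.cos (θ v)) ^ 2 + 6) 20 →
    (∀ n : ℕ, 1 ≤ n → HasD (fun v => sp (2 * n) (2 * Real.cos (θ v))) 0) ∨
    ∃ q : ℕ, 1 ≤ q ∧ ∀ ε : ℝ, 0 < ε → DensZero {v | ε ≤ |Real.sin (q * θ v)|}

/-- [PAIR] two curves -/
def StmPAIR (K : Type*) [Field K] [NumberField K] : Prop :=
  StmZK K → ∀ t u : HeightOneSpectrum (𝓞 K) → ℝ, (∀ v, |t v| ≤ 2) → (∀ v, |u v| ≤ 2) →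
    (∀ n : ℕ, 1 ≤ n → HasD (fun v => sp (2 * n) (t v)) 0) →
    (∀ n : ℕ, 1 ≤ n → HasD (fun v => sp (2 * n) (u v)) 0) →
    (∃ k : ℤ, HasD (fun v => t v * u v) k) →
    (∃ k : ℤ, HasD (fun v => t v ^ 2 * u v ^ 2) k) →
    HasD (fun v => t v ^ 2 * u v ^ 2 + 2 * t v ^ 2 + 2 * u v ^ 2 + 8 * (t v * u v) + 6) 11 →
    HasD (fun v => sp 2 (t v) * sp 2 (u v)) 0

/-- [GOUR] the Goursat-Ribet step: from one and two curves to all -/
def StmGOUR (K : Type*) [Field K] [NumberField K] : Prop :=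
  StmZK K → ∀ (ι : Type) (_ : Fintype ι) (_ : DecidableEq ι) (t : ι → HeightOneSpectrum (𝓞 K) → ℝ),
    (∀ i v, |t i v| ≤ 2) →
    (∀ g, Par t 0 g → ∃ k : ℤ, HasD g k) →
    (∀ i (n : ℕ), 1 ≤ n → HasD (fun v => sp (2 * n) (t i v)) 0) →
    (∀ i j, i ≠ j → HasD (fun v => sp 2 (t i v) * sp 2 (t j v)) 0) →
    ∀ a : ι → ℕ, a ≠ 0 → Even (∑ i, a i) → HasD (XX t a) 0

/-- [NAR] the expansion of `(1 + x T + T²)^n` in Chebyshev polynomials -/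
def StmNAR : Prop :=
  ∀ n k : ℕ, ∃ b : ℕ → ℤ,
    (∀ x : ℝ, ((1 + C x * X + X ^ 2 : ℝ[X]) ^ n).coeff k =
      ∑ a ∈ Finset.range (k + 1), (b a : ℝ) * sp a x) ∧
    (∀ a, b a ≠ 0 → (a : ZMod 2) = k) ∧
    b 0 = if Even k then ((n.choose (k / 2) : ℤ) ^ 2 -
      n.choose (k / 2 + 1) * n.choose (n + 1 - k / 2)) else 0

/-- [RANK] the density of the trace of Frobenius for independent Sato-Tate angles -/
def StmRANK (K : Type*) [Field K] [NumberField K] : Prop :=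
  StmZK K → ∀ (ι : Type) (_ : Fintype ι) (_ : DecidableEq ι) (t : ι → HeightOneSpectrum (𝓞 K) → ℝ),
    (∀ i v, |t i v| ≤ 2) →
    (∀ a : ι → ℕ, a ≠ 0 → Even (∑ i, a i) → HasD (XX t a) 0) →
    ∀ (n : ι → ℕ) (m : ℕ), HasD (Gf t n m) (rank n m)

/-- [EVAL] the two types of fourfolds -/
def StmEVAL (V : Type*) : Prop :=
  ∀ (ι : Type) (_ : Fintype ι) (_ : DecidableEq ι) (t : ι → V → ℝ),
    (∀ i v, Gf t (Pi.single i 4) 2 v = t i v ^ 4 + 12 * t i v ^ 2 + 6) ∧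
    (∀ i j, i ≠ j → ∀ v, Gf t (Pi.single i 2 + Pi.single j 2) 2 v =
      t i v ^ 2 * t j v ^ 2 + 2 * t i v ^ 2 + 2 * t j v ^ 2 + 8 * (t i v * t j v) + 6)

end TatePole.Fs
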