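import Mathlib
import Pool.Agent.Lib.MP_058a58_ag.Fs.Stm

/-!
# The traces of Frobenius are polynomials in the `t i`; the two types of fourfolds
-/

open NumberField Polynomial Filter Topology
open IsDedekindDomain (HeightOneSpectrum)

namespace TatePole.Fs

variable {ι V : Type*} {t : ι → V → ℝ}

/-- `Par` or zero -/
def Qar (t : ι → V → ℝ) (b : ZMod 2) (g : V → ℝ) : Prop := Par t b g ∨ ∀ v, g v = 0

lemma Par.ofEq {b : ZMod 2} {g h : V → ℝ} (hg : Par t b g) (e : ∀ v, g v = h v) :
    Par t b h := by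
  have : g = h := funext e
  rwa [this] at hg

lemma Par.zero : Par t 0 (fun _ => 0) :=
  (Par.add Par.one (Par.neg Par.one)).ofEq fun v => by norm_num

lemma Par.int (n : ℤ) : Par t 0 (fun _ => (n : ℝ)) := by
  have key : ∀ n : ℕ, Par t 0 (fun _ => (n : ℝ)) := by
    intro n
    induction n with
    | zero => simpa using Par.zero (t := t)
    | succ n ih => exact (Par.add ih Par.one).ofEq fun v => by push_cast; ring
  rcases Int.eq_nat_or_neg n with ⟨k, rfl | rfl⟩
  · simpa using key k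
  · simpa using Par.neg (key k)

lemma Par.int_mul (n : ℤ) {b : ZMod 2} {g : V → ℝ} (hg : Par t b g) :
    Par t b (fun v => (n : ℝ) * g v) := by
  have := Par.mul (Par.int (t := t) n) hg
  rwa [zero_add] at this

lemma Qar.congr {b : ZMod 2} {g h : V → ℝ} (hg : Qar t b g) (e : ∀ v, g v = h v) :
    Qar t b h := by
  have : g = h := funext e
  rwa [this] at hg

lemma Qar.add {b : ZMod 2} {g h : V → ℝ} (hg : Qar t b g) (hh : Qar t b h) :
    Qar t b (fun v => g v + h v) := by
  rcases hg with hg | hg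
  · rcases hh with hh | hh
    · exact Or.inl (Par.add hg hh)
    · exact Or.inl (hg.ofEq fun v => by rw [hh v, add_zero])
  · exact hh.congr fun v => by rw [hg v, zero_add]

lemma Qar.mul {b c : ZMod 2} {g h : V → ℝ} (hg : Qar t b g) (hh : Qar t c h) :
    Qar t (b + c) (fun v => g v * h v) := by
  rcases hg with hg | hg
  · rcases hh with hh | hh
    · exact Or.inl (Par.mul hg hh)
    · exact Or.inr fun v => by simp only [hh v, mul_zero]
  · exact Or.inr fun v => by simp only [hg v, zero_mul]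

lemma Qar.sum {κ : Type*} (s : Finset κ) {b : ZMod 2} {g : κ → V → ℝ}
    (hg : ∀ i ∈ s, Qar t b (g i)) : Qar t b (fun v => ∑ i ∈ s, g i v) := by
  classical
  induction s using Finset.induction_on with
  | empty => exact Or.inr fun v => by simp
  | insert a s ha ih =>
    have h1 := (hg a (Finset.mem_insert_self a s)).add
      (ih fun i hi => hg i (Finset.mem_insert_of_mem hi))
    simpa only [Finset.sum_insert ha] using h1

/-- polynomials with coefficients in `Par` -/
def Pol (t : ι → V → ℝ) (P : V → ℝ[X]) : Prop := ∀ k : ℕ, Qar t k (fun v => (P v).coeff k)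

lemma Pol.one : Pol t (fun _ => 1) := by
  intro k
  rcases Nat.eq_zero_or_pos k with rfl | hk
  · refine Or.inl ?_
    rw [Nat.cast_zero]
    exact Par.one.ofEq fun v => by simp
  · refine Or.inr fun v => ?_
    simp only [coeff_one, if_neg hk.ne']

lemma Pol.mul {P Q : V → ℝ[X]} (hP : Pol t P) (hQ : Pol t Q) : Pol t (fun v => P v * Q v) := by
  intro k
  simp only [coeff_mul]
  refine Qar.sum _ fun x hx => ?_
  have h := (hP x.1).mul (hQ x.2)
  rw [← Finset.HasAntidiagonal.mem_antidiagonal.mp hx]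
  push_cast
  exact h

lemma Pol.pow {P : V → ℝ[X]} (hP : Pol t P) (n : ℕ) : Pol t (fun v => P v ^ n) := by
  induction n with
  | zero => simpa only [pow_zero] using Pol.one (t := t)
  | succ n ih => simpa only [pow_succ] using ih.mul hP

lemma Pol.prod {κ : Type*} (s : Finset κ) {P : κ → V → ℝ[X]} (hP : ∀ i ∈ s, Pol t (P i)) :
    Pol t (fun v => ∏ i ∈ s, P i v) := by
  classical
  induction s using Finset.induction_on with
  | empty => simpa only [Finset.prod_empty] using Pol.one (t := t)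
  | insert a s ha ih =>
    have h1 := (hP a (Finset.mem_insert_self a s)).mul
      (ih fun i hi => hP i (Finset.mem_insert_of_mem hi))
    simpa only [Finset.prod_insert ha] using h1

lemma Pol.base (i : ι) : Pol t (fun v => (1 + C (t i v) * X + X ^ 2 : ℝ[X])) := by
  intro k
  simp only [coeff_add, coeff_one, coeff_C_mul, coeff_X, coeff_X_pow]
  rcases k with _ | _ | _ | k
  · exact Or.inl (by simpa using Par.one (t := t))
  · refine Or.inl ?_
    have := Par.var (t := t) i
    simpa using this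
  · refine Or.inl ?_
    have h2 : (((0 + 1 + 1 : ℕ)) : ZMod 2) = 0 := by decide
    rw [h2]
    simpa using Par.one (t := t)
  · exact Or.inr fun v => by simp

theorem GPAR (V : Type*) : StmGPAR V := by
  intro ι _ t n m
  have h := Pol.prod (t := t) Finset.univ (fun i _ => (Pol.base (t := t) i).pow (n i)) (2 * m)
  have h2 : (((2 * m : ℕ)) : ZMod 2) = 0 := by
    rw [ZMod.natCast_eq_zero_iff]
    exact dvd_mul_right 2 m
  rw [h2] at h
  rcases h with h | h
  · exact h
  · exact Par.zero.ofEq fun v => (h v).symm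

lemma coeff4_one (x : ℝ) : ((1 + C x * X + X ^ 2 : ℝ[X]) ^ 4).coeff 4 = x ^ 4 + 12 * x ^ 2 + 6 := by
  have h : (1 + C x * X + X ^ 2 : ℝ[X]) ^ 4 =
      C 1 * X ^ 0 + C (4 * x) * X ^ 1 + C (6 * x ^ 2 + 4) * X ^ 2 + C (4 * x ^ 3 + 12 * x) * X ^ 3 +
      C (x ^ 4 + 12 * x ^ 2 + 6) * X ^ 4 + C (4 * x ^ 3 + 12 * x) * X ^ 5 +
      C (6 * x ^ 2 + 4) * X ^ 6 + C (4 * x) * X ^ 7 + C 1 * X ^ 8 := by
    simp only [C_add, C_mul, C_pow, C_1, map_ofNat]
    ring
  rw [h]
  simp only [coeff_add, coeff_C_mul, coeff_X_pow]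
  norm_num

lemma coeff4_two (x y : ℝ) :
    ((1 + C x * X + X ^ 2 : ℝ[X]) ^ 2 * (1 + C y * X + X ^ 2 : ℝ[X]) ^ 2).coeff 4 =
      x ^ 2 * y ^ 2 + 2 * x ^ 2 + 2 * y ^ 2 + 8 * (x * y) + 6 := by
  have h : (1 + C x * X + X ^ 2 : ℝ[X]) ^ 2 * (1 + C y * X + X ^ 2 : ℝ[X]) ^ 2 =
      C 1 * X ^ 0 + C (2 * x + 2 * y) * X ^ 1 + C (x ^ 2 + y ^ 2 + 4 * x * y + 4) * X ^ 2 +
      C (2 * x ^ 2 * y + 2 * x * y ^ 2 + 6 * x + 6 * y) * X ^ 3 +
      C (x ^ 2 * y ^ 2 + 2 * x ^ 2 + 2 * y ^ 2 + 8 * (x * y) + 6) * X ^ 4 +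
      C (2 * x ^ 2 * y + 2 * x * y ^ 2 + 6 * x + 6 * y) * X ^ 5 +
      C (x ^ 2 + y ^ 2 + 4 * x * y + 4) * X ^ 6 + C (2 * x + 2 * y) * X ^ 7 + C 1 * X ^ 8 := by
    simp only [C_add, C_mul, C_pow, C_1, map_ofNat]
    ring
  rw [h]
  simp only [coeff_add, coeff_C_mul, coeff_X_pow]
  norm_num

theorem EVAL (V : Type*) : StmEVAL V := by
  intro ι _ _ t
  constructor
  · intro i v
    unfold Gf
    rw [Finset.prod_eq_single i (fun j _ hj => by rw [Pi.single_eq_of_ne hj, pow_zero])
      (fun h => absurd (Finset.mem_univ i) h), Pi.single_eq_same]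
    exact coeff4_one (t i v)
  · intro i j hij v
    unfold Gf
    rw [← Finset.prod_subset (Finset.subset_univ {i, j}) (fun k _ hk => ?_), Finset.prod_pair hij]
    · simp only [Pi.add_apply, Pi.single_eq_same]
      rw [Pi.single_eq_of_ne hij, Pi.single_eq_of_ne hij.symm, add_zero, zero_add]
      exact coeff4_two (t i v) (t j v)
    · simp only [Finset.mem_insert, Finset.mem_singleton, not_or] at hk
      rw [Pi.add_apply, Pi.single_eq_of_ne hk.1, Pi.single_eq_of_ne hk.2, add_zero, pow_zero]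

end TatePole.Fs
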