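import Mathlib
import Pool.Agent.Lib.MP_058a58_ag.Fs.Stm

/-!
# Calculus of densities
-/

open NumberField Polynomial Filter Topology
open IsDedekindDomain (HeightOneSpectrum)

namespace TatePole.Fs

set_option linter.unusedSectionVars false

variable {K : Type*} [Field K] [NumberField K]

/-! ### bounded functions -/

lemma Bd.const (c : ℝ) : Bd (fun _ : HeightOneSpectrum (𝓞 K) => c) := ⟨|c|, fun _ => le_rfl⟩

lemma Bd.add {g h : HeightOneSpectrum (𝓞 K) → ℝ} (bg : Bd g) (bh : Bd h) :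
    Bd (fun v => g v + h v) := by
  obtain ⟨C, hC⟩ := bg
  obtain ⟨D, hD⟩ := bh
  exact ⟨C + D, fun v => (abs_add_le _ _).trans (add_le_add (hC v) (hD v))⟩

lemma Bd.neg {g : HeightOneSpectrum (𝓞 K) → ℝ} (bg : Bd g) : Bd (fun v => - g v) := by
  obtain ⟨C, hC⟩ := bg
  exact ⟨C, fun v => by rw [abs_neg]; exact hC v⟩

lemma Bd.sub {g h : HeightOneSpectrum (𝓞 K) → ℝ} (bg : Bd g) (bh : Bd h) :
    Bd (fun v => g v - h v) := by
  simpa only [sub_eq_add_neg] using bg.add bh.neg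

lemma Bd.mul {g h : HeightOneSpectrum (𝓞 K) → ℝ} (bg : Bd g) (bh : Bd h) :
    Bd (fun v => g v * h v) := by
  obtain ⟨C, hC⟩ := bg
  obtain ⟨D, hD⟩ := bh
  refine ⟨C * D, fun v => ?_⟩
  rw [abs_mul]
  exact mul_le_mul (hC v) (hD v) (abs_nonneg _) ((abs_nonneg _).trans (hC v))

lemma Bd.const_mul {g : HeightOneSpectrum (𝓞 K) → ℝ} (c : ℝ) (bg : Bd g) :
    Bd (fun v => c * g v) := (Bd.const c).mul bg

lemma Bd.pow {g : HeightOneSpectrum (𝓞 K) → ℝ} (bg : Bd g) (n : ℕ) :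
    Bd (fun v => g v ^ n) := by
  obtain ⟨C, hC⟩ := bg
  exact ⟨C ^ n, fun v => by rw [abs_pow]; exact pow_le_pow_left₀ (abs_nonneg _) (hC v) n⟩

lemma Bd.abs {g : HeightOneSpectrum (𝓞 K) → ℝ} (bg : Bd g) : Bd (fun v => |g v|) := by
  obtain ⟨C, hC⟩ := bg
  exact ⟨C, fun v => by rw [abs_abs]; exact hC v⟩

lemma Bd.sum {ι : Type*} (s : Finset ι) {g : ι → HeightOneSpectrum (𝓞 K) → ℝ}
    (bg : ∀ i ∈ s, Bd (g i)) : Bd (fun v => ∑ i ∈ s, g i v) := by
  classical
  induction s using Finset.induction_on with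
  | empty => simpa using Bd.const 0
  | insert a s ha ih =>
    have h1 := (bg a (Finset.mem_insert_self a s)).add
      (ih fun i hi => bg i (Finset.mem_insert_of_mem hi))
    simpa only [Finset.sum_insert ha] using h1

lemma Bd.prod {ι : Type*} (s : Finset ι) {g : ι → HeightOneSpectrum (𝓞 K) → ℝ}
    (bg : ∀ i ∈ s, Bd (g i)) : Bd (fun v => ∏ i ∈ s, g i v) := by
  classical
  induction s using Finset.induction_on with
  | empty => simpa using Bd.const 1
  | insert a s ha ih =>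
    have h1 := (bg a (Finset.mem_insert_self a s)).mul
      (ih fun i hi => bg i (Finset.mem_insert_of_mem hi))
    simpa only [Finset.prod_insert ha] using h1

lemma Bd.sp {g : HeightOneSpectrum (𝓞 K) → ℝ} (bg : Bd g) :
    ∀ n : ℕ, Bd (fun v => sp n (g v))
  | 0 => Bd.const 1
  | 1 => bg
  | (n + 2) => (bg.mul (Bd.sp bg (n + 1))).sub (Bd.sp bg n)

/-! ### sums over the primes -/

lemma Nv_pos (hz : StmZK K) (v : HeightOneSpectrum (𝓞 K)) : (0 : ℝ) < Nv v := by
  have := hz.1 v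
  exact_mod_cast (by omega : 0 < Nv v)

lemma summable_SS (hz : StmZK K) {g : HeightOneSpectrum (𝓞 K) → ℝ} (bg : Bd g) {s : ℝ}
    (hs : 1 < s) : Summable fun v => g v * (Nv v : ℝ) ^ (-s) := by
  obtain ⟨C, hC⟩ := bg
  refine Summable.of_norm_bounded ((hz.2.1 s hs).mul_left C) fun v => ?_
  rw [norm_mul, Real.norm_eq_abs, Real.norm_of_nonneg (Real.rpow_nonneg (Nat.cast_nonneg _) _)]
  exact mul_le_mul_of_nonneg_right (hC v) (Real.rpow_nonneg (Nat.cast_nonneg _) _)

lemma SS_add (hz : StmZK K) {g h : HeightOneSpectrum (𝓞 K) → ℝ} (bg : Bd g) (bh : Bd h) {s : ℝ}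
    (hs : 1 < s) : SS (fun v => g v + h v) s = SS g s + SS h s := by
  unfold SS
  rw [← (summable_SS hz bg hs).tsum_add (summable_SS hz bh hs)]
  exact tsum_congr fun v => by ring

lemma SS_const_mul (c : ℝ) (g : HeightOneSpectrum (𝓞 K) → ℝ) (s : ℝ) :
    SS (fun v => c * g v) s = c * SS g s := by
  unfold SS
  rw [← tsum_mul_left]
  exact tsum_congr fun v => by ring

lemma SS_mono (hz : StmZK K) {g h : HeightOneSpectrum (𝓞 K) → ℝ} (bg : Bd g) (bh : Bd h)
    (hle : ∀ v, g v ≤ h v) {s : ℝ} (hs : 1 < s) : SS g s ≤ SS h s := by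
  unfold SS
  exact (summable_SS hz bg hs).tsum_le_tsum (fun v => mul_le_mul_of_nonneg_right (hle v)
    (Real.rpow_nonneg (Nat.cast_nonneg _) _)) (summable_SS hz bh hs)

lemma SS_nonneg {g : HeightOneSpectrum (𝓞 K) → ℝ} (hg : ∀ v, 0 ≤ g v) (s : ℝ) : 0 ≤ SS g s :=
  tsum_nonneg fun v => mul_nonneg (hg v) (Real.rpow_nonneg (Nat.cast_nonneg _) _)

lemma SS_sum (hz : StmZK K) {ι : Type*} (s' : Finset ι) {g : ι → HeightOneSpectrum (𝓞 K) → ℝ}
    (bg : ∀ i ∈ s', Bd (g i)) {s : ℝ} (hs : 1 < s) :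
    SS (fun v => ∑ i ∈ s', g i v) s = ∑ i ∈ s', SS (g i) s := by
  classical
  induction s' using Finset.induction_on with
  | empty => simp [SS]
  | insert a s' ha ih =>
    have h1 := SS_add hz (bg a (Finset.mem_insert_self a s'))
      (Bd.sum s' fun i hi => bg i (Finset.mem_insert_of_mem hi)) hs
    rw [ih fun i hi => bg i (Finset.mem_insert_of_mem hi)] at h1
    simpa only [Finset.sum_insert ha] using h1

/-! ### the logarithm -/

lemma tendsto_logL : Tendsto (fun s : ℝ => Real.log (1 / (s - 1))) (𝓝[>] 1) atTop := by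
  have h1 : Tendsto (fun s : ℝ => s - 1) (𝓝[>] 1) (𝓝[>] 0) := by
    refine tendsto_nhdsWithin_iff.mpr ⟨?_, ?_⟩
    · have : Tendsto (fun s : ℝ => s - 1) (𝓝 1) (𝓝 (1 - 1)) :=
        (continuous_id.sub continuous_const).tendsto 1
      rw [sub_self] at this
      exact this.mono_left nhdsWithin_le_nhds
    · filter_upwards [self_mem_nhdsWithin] with s hs
      exact sub_pos.mpr (Set.mem_Ioi.mp hs)
  have h2 := tendsto_inv_nhdsGT_zero.comp h1
  have h3 := Real.tendsto_log_atTop.comp h2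
  refine h3.congr fun s => ?_
  simp [Function.comp, one_div]

lemma logL_pos : ∀ᶠ s : ℝ in 𝓝[>] 1, 0 < Real.log (1 / (s - 1)) :=
  tendsto_logL.eventually_gt_atTop 0

lemma one_lt_ev : ∀ᶠ s : ℝ in 𝓝[>] 1, (1 : ℝ) < s := self_mem_nhdsWithin

/-! ### densities -/

lemma HasD.unique {g : HeightOneSpectrum (𝓞 K) → ℝ} {c d : ℝ} (h : HasD g c) (h' : HasD g d) :
    c = d := tendsto_nhds_unique h h'

lemma HasD.congr {g h : HeightOneSpectrum (𝓞 K) → ℝ} {c : ℝ} (hg : HasD g c)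
    (e : ∀ v, g v = h v) : HasD h c := by
  have : g = h := funext e
  rwa [this] at hg

lemma HasD.add (hz : StmZK K) {g h : HeightOneSpectrum (𝓞 K) → ℝ} {c d : ℝ} (bg : Bd g)
    (bh : Bd h) (hg : HasD g c) (hh : HasD h d) : HasD (fun v => g v + h v) (c + d) := by
  refine (Tendsto.add hg hh).congr' ?_
  filter_upwards [one_lt_ev] with s hs
  rw [SS_add hz bg bh hs, add_div]

lemma HasD.const_mul {g : HeightOneSpectrum (𝓞 K) → ℝ} {c : ℝ} (a : ℝ) (hg : HasD g c) :
    HasD (fun v => a * g v) (a * c) := by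
  refine (Tendsto.const_mul a hg).congr fun s => ?_
  rw [SS_const_mul, mul_div_assoc]

lemma HasD.neg {g : HeightOneSpectrum (𝓞 K) → ℝ} {c : ℝ} (hg : HasD g c) :
    HasD (fun v => - g v) (-c) := by
  have h := hg.const_mul (-1)
  simpa only [neg_one_mul] using h

lemma HasD.sub (hz : StmZK K) {g h : HeightOneSpectrum (𝓞 K) → ℝ} {c d : ℝ} (bg : Bd g)
    (bh : Bd h) (hg : HasD g c) (hh : HasD h d) : HasD (fun v => g v - h v) (c - d) := by
  simpa only [sub_eq_add_neg] using HasD.add hz bg bh.neg hg hh.neg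

lemma HasD.one (hz : StmZK K) : HasD (fun _ : HeightOneSpectrum (𝓞 K) => (1 : ℝ)) 1 := by
  obtain ⟨l, hl⟩ := hz.2.2
  have h1 := (hl.div_atTop tendsto_logL).add_const 1
  rw [zero_add] at h1
  refine h1.congr' ?_
  filter_upwards [logL_pos] with s hs
  field_simp
  ring

lemma HasD.const (hz : StmZK K) (c : ℝ) : HasD (fun _ : HeightOneSpectrum (𝓞 K) => c) c := by
  have h := (HasD.one hz).const_mul c
  simpa only [mul_one] using h

lemma HasD.sum (hz : StmZK K) {ι : Type*} (s : Finset ι)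
    {g : ι → HeightOneSpectrum (𝓞 K) → ℝ} {c : ι → ℝ}
    (bg : ∀ i ∈ s, Bd (g i)) (hg : ∀ i ∈ s, HasD (g i) (c i)) :
    HasD (fun v => ∑ i ∈ s, g i v) (∑ i ∈ s, c i) := by
  classical
  induction s using Finset.induction_on with
  | empty =>
    have h := HasD.const hz 0
    simpa using h
  | insert a s ha ih =>
    have h1 := HasD.add hz (bg a (Finset.mem_insert_self a s))
      (Bd.sum s fun i hi => bg i (Finset.mem_insert_of_mem hi))
      (hg a (Finset.mem_insert_self a s))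
      (ih (fun i hi => bg i (Finset.mem_insert_of_mem hi))
        fun i hi => hg i (Finset.mem_insert_of_mem hi))
    rw [Finset.sum_insert ha]
    simpa only [Finset.sum_insert ha] using h1

lemma HasD.le (hz : StmZK K) {g h : HeightOneSpectrum (𝓞 K) → ℝ} {c d : ℝ} (bg : Bd g)
    (bh : Bd h) (hle : ∀ v, g v ≤ h v) (hg : HasD g c) (hh : HasD h d) : c ≤ d := by
  refine le_of_tendsto_of_tendsto hg hh ?_
  filter_upwards [one_lt_ev, logL_pos] with s hs hL
  exact div_le_div_of_nonneg_right (SS_mono hz bg bh hle hs) hL.le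

lemma HasD.nonneg {g : HeightOneSpectrum (𝓞 K) → ℝ} {c : ℝ} (hg0 : ∀ v, 0 ≤ g v)
    (hg : HasD g c) : 0 ≤ c := by
  refine ge_of_tendsto hg ?_
  filter_upwards [logL_pos] with s hL
  exact div_nonneg (SS_nonneg hg0 s) hL.le

/-- squeeze -/
lemma HasD.zero_of_le (hz : StmZK K) {g h : HeightOneSpectrum (𝓞 K) → ℝ} (bg : Bd g) (bh : Bd h)
    (hle : ∀ v, |g v| ≤ h v) (hh : HasD h 0) : HasD g 0 := by
  refine squeeze_zero_norm' ?_ hh
  filter_upwards [one_lt_ev, logL_pos] with s hs hL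
  rw [Real.norm_eq_abs, abs_div, abs_of_pos hL]
  refine div_le_div_of_nonneg_right ?_ hL.le
  rw [abs_le]
  constructor
  · have h1 := SS_mono hz bh.neg bg (fun v => (abs_le.mp (hle v)).1) hs
    have h2 : SS (fun v => - h v) s = - SS h s := by
      have := SS_const_mul (-1) h s
      simpa only [neg_one_mul] using this
    rw [h2] at h1
    exact h1
  · exact SS_mono hz bg bh (fun v => (abs_le.mp (hle v)).2) hs

/-- if `HasD (g²) 0` then `HasD |g| 0` -/
lemma HasD.abs_of_sq (hz : StmZK K) {g : HeightOneSpectrum (𝓞 K) → ℝ} (bg : Bd g)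
    (hg : HasD (fun v => g v ^ 2) 0) : HasD (fun v => |g v|) 0 := by
  have key : ∀ δ : ℝ, 0 < δ → ∀ᶠ s : ℝ in 𝓝[>] 1,
      SS (fun v => |g v|) s / Real.log (1 / (s - 1)) ≤ 2 * δ := by
    intro δ hδ
    have h1 : HasD (fun v : HeightOneSpectrum (𝓞 K) => δ⁻¹ * g v ^ 2 + δ) (δ⁻¹ * 0 + δ) :=
      HasD.add hz ((bg.pow 2).const_mul _) (Bd.const δ) (hg.const_mul _) (HasD.const hz δ)
    rw [mul_zero, zero_add] at h1
    have h2 : ∀ᶠ s : ℝ in 𝓝[>] 1, SS (fun v : HeightOneSpectrum (𝓞 K) => δ⁻¹ * g v ^ 2 + δ) s /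
        Real.log (1 / (s - 1)) < 2 * δ := h1.eventually_lt_const (by linarith)
    filter_upwards [h2, one_lt_ev, logL_pos] with s h3 hs hL
    refine le_trans (div_le_div_of_nonneg_right ?_ hL.le) h3.le
    refine SS_mono hz bg.abs (((bg.pow 2).const_mul _).add (Bd.const δ)) (fun v => ?_) hs
    have h4 : 0 ≤ δ⁻¹ * (|g v| - δ) ^ 2 := by positivity
    have h5 : δ⁻¹ * (|g v| - δ) ^ 2 = δ⁻¹ * g v ^ 2 - 2 * |g v| + δ := by
      have : g v ^ 2 = |g v| ^ 2 := (sq_abs _).symm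
      rw [this]
      field_simp
      ring
    rw [h5] at h4
    have h6 : 0 ≤ |g v| := abs_nonneg _
    linarith
  refine tendsto_order.mpr ⟨fun a ha => ?_, fun a ha => ?_⟩
  · filter_upwards [logL_pos] with s hL
    exact lt_of_lt_of_le ha (div_nonneg (SS_nonneg (fun v => abs_nonneg _) s) hL.le)
  · filter_upwards [key (a / 4) (by linarith)] with s hs
    linarith

/-- if `HasD (g²) 0` then `HasD (g h) 0` for bounded `h` -/
lemma HasD.mul_of_sq (hz : StmZK K) {g h : HeightOneSpectrum (𝓞 K) → ℝ} (bg : Bd g) (bh : Bd h)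
    (hg : HasD (fun v => g v ^ 2) 0) : HasD (fun v => g v * h v) 0 := by
  obtain ⟨C, hC⟩ := bh
  have h1 := (HasD.abs_of_sq hz bg hg).const_mul C
  rw [mul_zero] at h1
  refine HasD.zero_of_le hz (bg.mul ⟨C, hC⟩) (bg.abs.const_mul C) (fun v => ?_) h1
  rw [abs_mul, mul_comm]
  exact mul_le_mul_of_nonneg_right (hC v) (abs_nonneg _)

/-! ### strict sizes -/

lemma Str.hasD {g : HeightOneSpectrum (𝓞 K) → ℝ} {c : ℝ} (h : Str g c) : HasD g c := by
  obtain ⟨l, hl⟩ := h
  have h1 := (hl.div_atTop tendsto_logL).add_const c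
  rw [zero_add] at h1
  refine h1.congr' ?_
  filter_upwards [logL_pos] with s hs
  field_simp
  ring

lemma Str.congr {g h : HeightOneSpectrum (𝓞 K) → ℝ} {c : ℝ} (hg : Str g c)
    (e : ∀ v, g v = h v) : Str h c := by
  have : g = h := funext e
  rwa [this] at hg

lemma Str.add (hz : StmZK K) {g h : HeightOneSpectrum (𝓞 K) → ℝ} {c d : ℝ} (bg : Bd g)
    (bh : Bd h) (hg : Str g c) (hh : Str h d) : Str (fun v => g v + h v) (c + d) := by
  obtain ⟨l, hl⟩ := hg
  obtain ⟨l', hl'⟩ := hh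
  refine ⟨l + l', (hl.add hl').congr' ?_⟩
  filter_upwards [one_lt_ev] with s hs
  rw [SS_add hz bg bh hs]
  ring

lemma Str.const_mul {g : HeightOneSpectrum (𝓞 K) → ℝ} {c : ℝ} (a : ℝ) (hg : Str g c) :
    Str (fun v => a * g v) (a * c) := by
  obtain ⟨l, hl⟩ := hg
  refine ⟨a * l, (hl.const_mul a).congr fun s => ?_⟩
  rw [SS_const_mul]
  ring

lemma Str.neg {g : HeightOneSpectrum (𝓞 K) → ℝ} {c : ℝ} (hg : Str g c) :
    Str (fun v => - g v) (-c) := by
  have h := hg.const_mul (-1)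
  simpa only [neg_one_mul] using h

lemma Str.const (hz : StmZK K) (c : ℝ) : Str (fun _ : HeightOneSpectrum (𝓞 K) => c) c := by
  have h := Str.const_mul c hz.2.2
  simpa only [mul_one] using h

lemma Str.sum (hz : StmZK K) {ι : Type*} (s : Finset ι)
    {g : ι → HeightOneSpectrum (𝓞 K) → ℝ} {c : ι → ℝ}
    (bg : ∀ i ∈ s, Bd (g i)) (hg : ∀ i ∈ s, Str (g i) (c i)) :
    Str (fun v => ∑ i ∈ s, g i v) (∑ i ∈ s, c i) := by
  classical
  induction s using Finset.induction_on with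
  | empty =>
    have h := Str.const hz 0
    simpa using h
  | insert a s ha ih =>
    have h1 := Str.add hz (bg a (Finset.mem_insert_self a s))
      (Bd.sum s fun i hi => bg i (Finset.mem_insert_of_mem hi))
      (hg a (Finset.mem_insert_self a s))
      (ih (fun i hi => bg i (Finset.mem_insert_of_mem hi))
        fun i hi => hg i (Finset.mem_insert_of_mem hi))
    rw [Finset.sum_insert ha]
    simpa only [Finset.sum_insert ha] using h1

lemma Par.bd {ι : Type*} {t : ι → HeightOneSpectrum (𝓞 K) → ℝ} (ht : ∀ i v, |t i v| ≤ 2)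
    {b : ZMod 2} {g : HeightOneSpectrum (𝓞 K) → ℝ} (hg : Par t b g) : Bd g := by
  induction hg with
  | one => exact Bd.const 1
  | var i => exact ⟨2, ht i⟩
  | add _ _ h1 h2 => exact h1.add h2
  | neg _ h1 => exact h1.neg
  | mul _ _ h1 h2 => exact h1.mul h2

end TatePole.Fs
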