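import Mathlib

/-!
# Integer valued positive definite sequences

`d : ℕ → ℤ` with `d 0 = 2` is positive definite if the Toeplitz form `∑ w_i w_j d (|i - j|)` is
nonnegative.  The vectors `u_i` of the form have norm `2` and integer inner products, i.e. they
generate a root lattice.  If `d 1 = -1` and `d 2 = 0` then either `d n = 0` for all `n ≥ 2`, or `d`
is periodic (`d q = 2` for some `q ≥ 1`).
-/

namespace TatePole.Fs

/-- `∑ l_k d (n + k)` -/
def lin (d : ℕ → ℤ) : List ℤ → ℕ → ℤ
  | [], _ => 0
  | a :: l, n => a * d n + lin d l (n + 1)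

/-- the Toeplitz form `∑ l_i l_j d (|i - j|)`, for `d 0 = 2` -/
def form (d : ℕ → ℤ) : List ℤ → ℤ
  | [] => 0
  | a :: l => 2 * a * a + 2 * a * lin d l 1 + form d l

/-- positive definite sequences with `d 0 = 2` -/
structure PD (d : ℕ → ℤ) : Prop where
  zero : d 0 = 2
  psd : ∀ l : List ℤ, 0 ≤ form d l

variable {d : ℕ → ℤ}

lemma lin_replicate (k : ℕ) (l : List ℤ) (n : ℕ) :
    lin d (List.replicate k 0 ++ l) n = lin d l (n + k) := by
  induction k generalizing n with
  | zero => rfl
  | succ k ih =>
    rw [List.replicate_succ, List.cons_append, lin, ih, zero_mul, zero_add]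
    congr 1
    ring

lemma form_replicate (k : ℕ) (l : List ℤ) :
    form d (List.replicate k 0 ++ l) = form d l := by
  induction k with
  | zero => rfl
  | succ k ih =>
    rw [List.replicate_succ, List.cons_append, form, ih]
    ring

lemma lin_map_mul (t : ℤ) (l : List ℤ) (n : ℕ) :
    lin d (l.map (t * ·)) n = t * lin d l n := by
  induction l generalizing n with
  | nil => simp [lin]
  | cons a l ih =>
    rw [List.map_cons, lin, lin, ih]
    ring

lemma form_map_mul (t : ℤ) (l : List ℤ) : form d (l.map (t * ·)) = t * t * form d l := by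
  induction l with
  | nil => simp [form]
  | cons a l ih =>
    rw [List.map_cons, form, form, ih, lin_map_mul]
    ring

lemma sq_lin_zero {A B C : ℤ} (h : ∀ t : ℤ, 0 ≤ C + 2 * t * B + t * t * A) (hA : A = 0) :
    B = 0 := by
  subst hA
  by_contra hB
  have h1 := h (-(B * (C ^ 2 + 1)))
  have h2 : 0 < B * B := mul_self_pos.mpr hB
  nlinarith [sq_nonneg (C - 1), sq_nonneg (C + 1), mul_pos h2 (by positivity : 0 < C ^ 2 + 1)]

/-- a null vector of the form is orthogonal to everything -/
theorem PD.null (hd : PD d) {l : List ℤ} (hl : form d l = 0) (n : ℕ) (hn : 1 ≤ n) :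
    lin d l n = 0 := by
  obtain ⟨k, rfl⟩ := Nat.exists_eq_add_of_le hn
  refine sq_lin_zero (A := form d l) (C := 2) (fun t => ?_) hl
  have h := hd.psd (1 :: (List.replicate k 0 ++ l.map (t * ·)))
  rw [form, lin_replicate, form_replicate, lin_map_mul, form_map_mul] at h
  linarith

theorem PD.null_zero (hd : PD d) {a : ℤ} {l : List ℤ} (hl : form d (a :: l) = 0) :
    lin d (a :: l) 0 = 0 := by
  refine sq_lin_zero (A := form d (a :: l)) (C := 2) (fun t => ?_) hl
  have h := hd.psd ((t * a + 1) :: l.map (t * ·))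
  rw [form, lin_map_mul, form_map_mul] at h
  rw [form] at hl ⊢
  rw [lin, hd.zero]
  nlinarith

theorem PD.null' (hd : PD d) {a : ℤ} {l : List ℤ} (hl : form d (a :: l) = 0) (n : ℕ) :
    lin d (a :: l) n = 0 := by
  rcases Nat.eq_zero_or_pos n with rfl | h
  · exact hd.null_zero hl
  · exact hd.null hl n h

lemma PD.abs_le (hd : PD d) (n : ℕ) : |d n| ≤ 2 := by
  rcases Nat.eq_zero_or_pos n with rfl | h
  · rw [hd.zero]; norm_num
  · obtain ⟨k, rfl⟩ := Nat.exists_eq_add_of_le h
    have h1 := hd.psd (1 :: (List.replicate k 0 ++ [1]))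
    have h2 := hd.psd (1 :: (List.replicate k 0 ++ [-1]))
    rw [form, lin_replicate, form_replicate] at h1 h2
    simp only [lin, form] at h1 h2
    rw [_root_.abs_le]
    constructor <;> linarith

/-- the linear form only depends on the next values -/
lemma lin_congr (l : List ℤ) (n n' : ℕ) (h : ∀ i : ℕ, i < l.length → d (n + i) = d (n' + i)) :
    lin d l n = lin d l n' := by
  induction l generalizing n n' with
  | nil => rfl
  | cons a l ih =>
    rw [lin, lin]
    have h0 := h 0 (by simp)
    rw [Nat.add_zero, Nat.add_zero] at h0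
    rw [h0, ih (n + 1) (n' + 1) fun i hi => ?_]
    have h1 := h (i + 1) (by simpa using hi)
    rw [show n + 1 + i = n + (i + 1) by ring, show n' + 1 + i = n' + (i + 1) by ring]
    exact h1

/-- a null vector makes the sequence periodic -/
theorem PD.periodic (hd : PD d) {a : ℤ} (ha : a ≠ 0) {l : List ℤ} (hl : form d (a :: l) = 0) :
    ∃ q : ℕ, 1 ≤ q ∧ d q = 2 := by
  -- pigeonhole
  have hfin : Set.Finite {g : Fin l.length → ℤ | ∀ i, g i ∈ Set.Icc (-2 : ℤ) 2} := by
    have : {g : Fin l.length → ℤ | ∀ i, g i ∈ Set.Icc (-2 : ℤ) 2} =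
        Set.pi Set.univ (fun _ => Set.Icc (-2 : ℤ) 2) := by
      ext g
      simp only [Set.mem_ofPred_eq, Set.mem_univ_pi]
    rw [this]
    exact Set.Finite.pi fun _ => Set.finite_Icc _ _
  obtain ⟨n, n', hlt, heq⟩ : ∃ n n' : ℕ, n < n' ∧
      (fun i : Fin l.length => d (n + i)) = fun i : Fin l.length => d (n' + i) := by
    have hmaps : ∀ n : ℕ, (fun i : Fin l.length => d (n + i)) ∈
        {g : Fin l.length → ℤ | ∀ i, g i ∈ Set.Icc (-2 : ℤ) 2} := by
      intro n i
      exact _root_.abs_le.mp (hd.abs_le (n + i))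
    obtain ⟨n, -, n', -, hne, heq⟩ := Set.infinite_univ.exists_ne_map_eq_of_mapsTo
      (fun n _ => hmaps n) hfin
    rcases lt_or_gt_of_ne hne with h | h
    · exact ⟨n, n', h, heq⟩
    · exact ⟨n', n, h, heq.symm⟩
  -- go backwards
  have key : ∀ k : ℕ, k ≤ n → ∀ i : ℕ, i < l.length + k →
      d (n - k + i) = d (n' - k + i) := by
    intro k
    induction k with
    | zero =>
      intro _ i hi
      exact congrFun heq ⟨i, by simpa using hi⟩
    | succ k ih =>
      intro hk i hi
      have ih' := ih (by omega)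
      rcases Nat.eq_zero_or_pos i with rfl | hi0
      · have h1 := hd.null' hl (n - (k + 1))
        have h2 := hd.null' hl (n' - (k + 1))
        rw [lin] at h1 h2
        have h3 : lin d l (n - (k + 1) + 1) = lin d l (n' - (k + 1) + 1) := by
          refine lin_congr l _ _ fun i hi => ?_
          have h4 := ih' i (by omega)
          rw [show n - (k + 1) + 1 = n - k by omega, show n' - (k + 1) + 1 = n' - k by omega]
          exact h4
        rw [h3] at h1
        have h4 : a * d (n - (k + 1)) = a * d (n' - (k + 1)) := by linarith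
        simpa using mul_left_cancel₀ ha h4
      · have h4 := ih' (i - 1) (by omega)
        rw [show n - (k + 1) + i = n - k + (i - 1) by omega,
          show n' - (k + 1) + i = n' - k + (i - 1) by omega]
        exact h4
  refine ⟨n' - n, by omega, ?_⟩
  rcases Nat.eq_zero_or_pos l.length with h0 | h0
  · -- then the form is `2 a² ≠ 0`
    rw [List.length_eq_zero_iff] at h0
    subst h0
    simp only [form, lin] at hl
    exact absurd (by nlinarith [sq_nonneg a] : a * a = 0) (mul_ne_zero ha ha)
  · have h1 := key n le_rfl 0 (by omega)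
    simp only [Nat.sub_self, Nat.add_zero] at h1
    rw [← h1, hd.zero]

lemma PD.of_two (hd : PD d) {n : ℕ} (hn : 1 ≤ n) (h : d n = 2 ∨ d n = -2) :
    ∃ q : ℕ, 1 ≤ q ∧ d q = 2 := by
  rcases h with h | h
  · exact ⟨n, hn, h⟩
  · obtain ⟨k, rfl⟩ := Nat.exists_eq_add_of_le hn
    refine hd.periodic (a := 1) one_ne_zero (l := List.replicate k 0 ++ [1]) ?_
    rw [form, lin_replicate, form_replicate]
    simp only [lin, form]
    rw [h]
    norm_num

/-- the five possible values -/
lemma PD.cases (hd : PD d) (n : ℕ) (hn : 1 ≤ n) :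
    (∃ q : ℕ, 1 ≤ q ∧ d q = 2) ∨ d n = -1 ∨ d n = 0 ∨ d n = 1 := by
  have h := _root_.abs_le.mp (hd.abs_le n)
  have h5 : d n = -2 ∨ d n = -1 ∨ d n = 0 ∨ d n = 1 ∨ d n = 2 := by omega
  rcases h5 with h | h | h | h | h
  · exact Or.inl (hd.of_two hn (Or.inr h))
  · exact Or.inr (Or.inl h)
  · exact Or.inr (Or.inr (Or.inl h))
  · exact Or.inr (Or.inr (Or.inr h))
  · exact Or.inl (hd.of_two hn (Or.inl h))

end TatePole.Fs
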