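import Mathlib
import Pool.Agent.Lib.MP_058a58_ag.Fs.Core

/-!
# Positive definite sequences with `d 1 = -1`, `d 2 = 0`

Either `d n = 0` for all `n ≥ 2`, or `d` is periodic.  The certificates of the first nonzero value
`d a = 1`, `3 ≤ a ≤ 7`, form a finite tree; for `a ≥ 8` there are three test vectors.
-/

namespace TatePole.Fs

variable {d : ℕ → ℤ}

theorem PD.tree3 (hd : PD d) (h1 : d 1 = -1) (h2 : d 2 = 0) (h3 : d 3 = 1) :
    ∃ q : ℕ, 1 ≤ q ∧ d q = 2 := by
  rcases hd.cases 4 (by norm_num) with h4 | h4 | h4 | h4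
  · exact h4
  · rcases hd.cases 5 (by norm_num) with h5 | h5 | h5 | h5
    · exact h5
    · have hh := hd.psd [6, 3, -2, -3, 2, 4]
      simp only [form, lin, Nat.reduceAdd, h1, h2, h3, h4, h5] at hh
      norm_num at hh
    · rcases hd.cases 6 (by norm_num) with h6 | h6 | h6 | h6
      · exact h6
      · have hh := hd.psd [7, 5, -1, -5, 1, 5, 3]
        simp only [form, lin, Nat.reduceAdd, h1, h2, h3, h4, h5, h6] at hh
        norm_num at hh
      · exact hd.periodic (a := 1) (by norm_num) (l := [1, 0, -1, 0, 1, 1]) (by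
            simp only [form, lin, Nat.reduceAdd, h1, h2, h3, h4, h5, h6]
            norm_num)
      · rcases hd.cases 7 (by norm_num) with h7 | h7 | h7 | h7
        · exact h7
        · rcases hd.cases 8 (by norm_num) with h8 | h8 | h8 | h8
          · exact h8
          · have hh := hd.psd [3, 1, -2, -1, 2, 1, -2, -1, 1]
            simp only [form, lin, Nat.reduceAdd, h1, h2, h3, h4, h5, h6, h7, h8] at hh
            norm_num at hh
          · exact hd.periodic (a := 1) (by norm_num) (l := [0, -1, 0, 1, 0, -1, 0, 1]) (by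
                simp only [form, lin, Nat.reduceAdd, h1, h2, h3, h4, h5, h6, h7, h8]
                norm_num)
          · exact hd.periodic (a := -1) (by norm_num) (l := [-1, 0, 1, 0, -1, 0, 1, 1]) (by
                simp only [form, lin, Nat.reduceAdd, h1, h2, h3, h4, h5, h6, h7, h8]
                norm_num)
        · have hh := hd.psd [-2, -1, 1, 1, -1, -1, 1, 1]
          simp only [form, lin, Nat.reduceAdd, h1, h2, h3, h4, h5, h6, h7] at hh
          norm_num at hh
        · have hh := hd.psd [-7, -3, 3, 3, -3, -3, 3, 2]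
          simp only [form, lin, Nat.reduceAdd, h1, h2, h3, h4, h5, h6, h7] at hh
          norm_num at hh
    · rcases hd.cases 6 (by norm_num) with h6 | h6 | h6 | h6
      · exact h6
      · exact hd.periodic (a := 1) (by norm_num) (l := [0, 0, -1, 0, 0, 1]) (by
            simp only [form, lin, Nat.reduceAdd, h1, h2, h3, h4, h5, h6]
            norm_num)
      · rcases hd.cases 7 (by norm_num) with h7 | h7 | h7 | h7
        · exact h7
        · rcases hd.cases 8 (by norm_num) with h8 | h8 | h8 | h8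
          · exact h8
          · have hh := hd.psd [5, 3, 0, -3, -3, -3, 0, 3, 1]
            simp only [form, lin, Nat.reduceAdd, h1, h2, h3, h4, h5, h6, h7, h8] at hh
            norm_num at hh
          · have hh := hd.psd [3, 2, 0, -2, -2, -2, 0, 2, 1]
            simp only [form, lin, Nat.reduceAdd, h1, h2, h3, h4, h5, h6, h7, h8] at hh
            norm_num at hh
          · exact hd.periodic (a := 1) (by norm_num) (l := [1, 0, -1, -1, -1, 0, 1, 1]) (by
                simp only [form, lin, Nat.reduceAdd, h1, h2, h3, h4, h5, h6, h7, h8]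
                norm_num)
        · exact hd.periodic (a := -1) (by norm_num) (l := [-1, -1, 0, 0, 1, 1, 1]) (by
              simp only [form, lin, Nat.reduceAdd, h1, h2, h3, h4, h5, h6, h7]
              norm_num)
        · have hh := hd.psd [-5, -4, -3, 1, 1, 4, 3, 2]
          simp only [form, lin, Nat.reduceAdd, h1, h2, h3, h4, h5, h6, h7] at hh
          norm_num at hh
      · have hh := hd.psd [-5, -4, -2, 1, 2, 4, 3]
        simp only [form, lin, Nat.reduceAdd, h1, h2, h3, h4, h5, h6] at hh
        norm_num at hh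
  · exact hd.periodic (a := -1) (by norm_num) (l := [-1, 0, 1, 1]) (by
        simp only [form, lin, Nat.reduceAdd, h1, h2, h3, h4]
        norm_num)
  · have hh := hd.psd [-4, -3, 0, 3, 2]
    simp only [form, lin, Nat.reduceAdd, h1, h2, h3, h4] at hh
    norm_num at hh

theorem PD.tree4 (hd : PD d) (h1 : d 1 = -1) (h2 : d 2 = 0) (h3 : d 3 = 0) (h4 : d 4 = 1) :
    ∃ q : ℕ, 1 ≤ q ∧ d q = 2 := by
  rcases hd.cases 5 (by norm_num) with h5 | h5 | h5 | h5
  · exact h5
  · rcases hd.cases 6 (by norm_num) with h6 | h6 | h6 | h6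
    · exact h6
    · have hh := hd.psd [5, 3, -1, -2, -3, 1, 3]
      simp only [form, lin, Nat.reduceAdd, h1, h2, h3, h4, h5, h6] at hh
      norm_num at hh
    · rcases hd.cases 7 (by norm_num) with h7 | h7 | h7 | h7
      · exact h7
      · have hh := hd.psd [5, 4, 0, -3, -4, 0, 3, 2]
        simp only [form, lin, Nat.reduceAdd, h1, h2, h3, h4, h5, h6, h7] at hh
        norm_num at hh
      · exact hd.periodic (a := 1) (by norm_num) (l := [1, 0, -1, -1, 0, 1, 1]) (by
            simp only [form, lin, Nat.reduceAdd, h1, h2, h3, h4, h5, h6, h7]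
            norm_num)
      · rcases hd.cases 8 (by norm_num) with h8 | h8 | h8 | h8
        · exact h8
        · exact hd.periodic (a := 1) (by norm_num) (l := [0, 0, 0, -1, 0, 0, 0, 1]) (by
              simp only [form, lin, Nat.reduceAdd, h1, h2, h3, h4, h5, h6, h7, h8]
              norm_num)
        · exact hd.periodic (a := -1) (by norm_num) (l := [-1, 0, 0, 0, 0, 0, 1, 1]) (by
              simp only [form, lin, Nat.reduceAdd, h1, h2, h3, h4, h5, h6, h7, h8]
              norm_num)
        · have hh := hd.psd [-3, -2, 0, 0, 1, 0, 0, 2, 1]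
          simp only [form, lin, Nat.reduceAdd, h1, h2, h3, h4, h5, h6, h7, h8] at hh
          norm_num at hh
    · exact hd.periodic (a := -1) (by norm_num) (l := [-1, -1, 0, 1, 1, 1]) (by
          simp only [form, lin, Nat.reduceAdd, h1, h2, h3, h4, h5, h6]
          norm_num)
  · have hh := hd.psd [-3, -3, -1, 1, 3, 2]
    simp only [form, lin, Nat.reduceAdd, h1, h2, h3, h4, h5] at hh
    norm_num at hh
  · have hh := hd.psd [-11, -9, -3, 3, 9, 4]
    simp only [form, lin, Nat.reduceAdd, h1, h2, h3, h4, h5] at hh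
    norm_num at hh

theorem PD.tree5 (hd : PD d) (h1 : d 1 = -1) (h2 : d 2 = 0) (h3 : d 3 = 0) (h4 : d 4 = 0) (h5 : d 5 = 1) :
    ∃ q : ℕ, 1 ≤ q ∧ d q = 2 := by
  rcases hd.cases 6 (by norm_num) with h6 | h6 | h6 | h6
  · exact h6
  · rcases hd.cases 7 (by norm_num) with h7 | h7 | h7 | h7
    · exact h7
    · have hh := hd.psd [4, 3, 0, -1, -2, -3, 0, 2]
      simp only [form, lin, Nat.reduceAdd, h1, h2, h3, h4, h5, h6, h7] at hh
      norm_num at hh
    · rcases hd.cases 8 (by norm_num) with h8 | h8 | h8 | h8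
      · exact h8
      · have hh := hd.psd [3, 3, 1, -1, -2, -3, -1, 1, 1]
        simp only [form, lin, Nat.reduceAdd, h1, h2, h3, h4, h5, h6, h7, h8] at hh
        norm_num at hh
      · exact hd.periodic (a := 1) (by norm_num) (l := [1, 0, -1, -1, -1, 0, 1, 1]) (by
            simp only [form, lin, Nat.reduceAdd, h1, h2, h3, h4, h5, h6, h7, h8]
            norm_num)
      · exact hd.periodic (a := -1) (by norm_num) (l := [-1, -1, -1, 0, 1, 1, 1, 1]) (by
            simp only [form, lin, Nat.reduceAdd, h1, h2, h3, h4, h5, h6, h7, h8]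
            norm_num)
    · have hh := hd.psd [-4, -5, -4, -1, 2, 5, 4, 2]
      simp only [form, lin, Nat.reduceAdd, h1, h2, h3, h4, h5, h6, h7] at hh
      norm_num at hh
  · have hh := hd.psd [-2, -2, -1, 0, 1, 2, 1]
    simp only [form, lin, Nat.reduceAdd, h1, h2, h3, h4, h5, h6] at hh
    norm_num at hh
  · have hh := hd.psd [-7, -6, -3, 0, 3, 6, 2]
    simp only [form, lin, Nat.reduceAdd, h1, h2, h3, h4, h5, h6] at hh
    norm_num at hh

theorem PD.tree6 (hd : PD d) (h1 : d 1 = -1) (h2 : d 2 = 0) (h3 : d 3 = 0) (h4 : d 4 = 0) (h5 : d 5 = 0) (h6 : d 6 = 1) :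
    ∃ q : ℕ, 1 ≤ q ∧ d q = 2 := by
  rcases hd.cases 7 (by norm_num) with h7 | h7 | h7 | h7
  · exact h7
  · rcases hd.cases 8 (by norm_num) with h8 | h8 | h8 | h8
    · exact h8
    · have hh := hd.psd [3, 3, 1, 0, -1, -2, -3, -1, 1]
      simp only [form, lin, Nat.reduceAdd, h1, h2, h3, h4, h5, h6, h7, h8] at hh
      norm_num at hh
    · exact hd.periodic (a := -1) (by norm_num) (l := [-2, -2, -1, 0, 1, 2, 2, 1]) (by
          simp only [form, lin, Nat.reduceAdd, h1, h2, h3, h4, h5, h6, h7, h8]
          norm_num)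
    · have hh := hd.psd [-5, -7, -5, -2, 1, 4, 7, 5, 1]
      simp only [form, lin, Nat.reduceAdd, h1, h2, h3, h4, h5, h6, h7, h8] at hh
      norm_num at hh
  · have hh := hd.psd [-5, -5, -3, -1, 1, 3, 5, 2]
    simp only [form, lin, Nat.reduceAdd, h1, h2, h3, h4, h5, h6, h7] at hh
    norm_num at hh
  · have hh := hd.psd [-17, -15, -9, -3, 3, 9, 15, 4]
    simp only [form, lin, Nat.reduceAdd, h1, h2, h3, h4, h5, h6, h7] at hh
    norm_num at hh

theorem PD.tree7 (hd : PD d) (h1 : d 1 = -1) (h2 : d 2 = 0) (h3 : d 3 = 0) (h4 : d 4 = 0) (h5 : d 5 = 0) (h6 : d 6 = 0) (h7 : d 7 = 1) :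
    ∃ q : ℕ, 1 ≤ q ∧ d q = 2 := by
  rcases hd.cases 8 (by norm_num) with h8 | h8 | h8 | h8
  · exact h8
  · exact hd.periodic (a := -2) (by norm_num) (l := [-3, -2, -1, 0, 1, 2, 3, 2]) (by
        simp only [form, lin, Nat.reduceAdd, h1, h2, h3, h4, h5, h6, h7, h8]
        norm_num)
  · have hh := hd.psd [-3, -3, -2, -1, 0, 1, 2, 3, 1]
    simp only [form, lin, Nat.reduceAdd, h1, h2, h3, h4, h5, h6, h7, h8] at hh
    norm_num at hh
  · have hh := hd.psd [-10, -9, -6, -3, 0, 3, 6, 9, 2]
    simp only [form, lin, Nat.reduceAdd, h1, h2, h3, h4, h5, h6, h7, h8] at hh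
    norm_num at hh


/-- the first nonzero value is `1`, far out -/
theorem PD.far (hd : PD d) (k : ℕ) (h1 : d 1 = -1) (hz : ∀ n, 2 ≤ n → n < k + 8 → d n = 0)
    (ha : d (k + 8) = 1) : ∃ q : ℕ, 1 ≤ q ∧ d q = 2 := by
  rcases hd.cases (k + 9) (by omega) with h | h | h | h
  · exact h
  · have hh := hd.psd (-11 :: -15 :: -10 :: -5 :: (List.replicate (k + 1) 0 ++ [4, 8, 12, 16, 9]))
    simp only [form, lin, lin_replicate, form_replicate, Nat.reduceAdd] at hh
    have e2 := hz 2 (by omega) (by omega)
    have e3 := hz 3 (by omega) (by omega)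
    have e4 := hz 4 (by omega) (by omega)
    have f1 : d (k + 5) = 0 := hz _ (by omega) (by omega)
    have f2 : d (k + 6) = 0 := hz _ (by omega) (by omega)
    have f3 : d (k + 7) = 0 := hz _ (by omega) (by omega)
    have f4 : d (k + 4) = 0 := hz _ (by omega) (by omega)
    have f5 : d (k + 3) = 0 := hz _ (by omega) (by omega)
    have f6 : d (k + 2) = 0 := hz _ (by omega) (by omega)
    have g : ∀ a b : ℕ, a + (k + 1) + b = k + (a + b + 1) := fun a b => by ring
    have g' : ∀ a : ℕ, a + (k + 1) = k + (a + 1) := fun a => by ring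
    have g'' : ∀ a b : ℕ, k + a + b = k + (a + b) := fun a b => by ring
    simp only [g', g'', Nat.reduceAdd, h1, e2, e3, e4, f1, f2, f3, f4, f5, f6, ha, h] at hh
    norm_num at hh
  · have hh := hd.psd (-7 :: -6 :: (List.replicate (k + 5) 0 ++ [4, 8, 5]))
    simp only [form, lin, lin_replicate, form_replicate, Nat.reduceAdd] at hh
    have e2 := hz 2 (by omega) (by omega)
    have f1 : d (k + 6) = 0 := hz _ (by omega) (by omega)
    have f2 : d (k + 7) = 0 := hz _ (by omega) (by omega)
    have g' : ∀ a : ℕ, a + (k + 5) = k + (a + 5) := fun a => by ring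
    have g'' : ∀ a b : ℕ, k + a + b = k + (a + b) := fun a b => by ring
    simp only [g', g'', Nat.reduceAdd, h1, e2, f1, f2, ha, h] at hh
    norm_num at hh
  · have hh := hd.psd (-4 :: -3 :: (List.replicate (k + 6) 0 ++ [3, 2]))
    simp only [form, lin, lin_replicate, form_replicate, Nat.reduceAdd] at hh
    have f2 : d (k + 7) = 0 := hz _ (by omega) (by omega)
    have g' : ∀ a : ℕ, a + (k + 6) = k + (a + 6) := fun a => by ring
    have g'' : ∀ a b : ℕ, k + a + b = k + (a + b) := fun a b => by ring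
    simp only [g', g'', Nat.reduceAdd, h1, f2, ha, h] at hh
    norm_num at hh

lemma lin_ones_zero (k n : ℕ) (hz : ∀ i, n ≤ i → i < n + k → d i = 0) (l : List ℤ) :
    lin d (List.replicate k 1 ++ l) n = lin d l (n + k) := by
  induction k generalizing n with
  | zero => rfl
  | succ k ih =>
    rw [List.replicate_succ, List.cons_append, lin, ih (n + 1) fun i hi hi' => hz i (by omega)
      (by omega), hz n le_rfl (by omega), mul_zero, zero_add]
    congr 1
    ring

/-- `k + 1` ones -/
lemma form_ones (h1 : d 1 = -1) (a : ℕ) (hz : ∀ n, 2 ≤ n → n < a → d n = 0) :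
    ∀ k, k < a → form d (List.replicate (k + 1) 1) = 2 := by
  intro k
  induction k with
  | zero => intro _; simp [form, lin]
  | succ k ih =>
    intro hk
    rw [List.replicate_succ, form, ih (by omega), List.replicate_succ, lin]
    have h := lin_ones_zero (d := d) k 2 (fun i hi hi' => hz i hi (by omega)) []
    rw [List.append_nil, lin] at h
    rw [h, h1]
    norm_num

theorem PD.minus (hd : PD d) (a : ℕ) (h3 : 3 ≤ a) (h1 : d 1 = -1)
    (hz : ∀ n, 2 ≤ n → n < a → d n = 0) (ha : d a = -1) : ∃ q : ℕ, 1 ≤ q ∧ d q = 2 := by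
  obtain ⟨k, rfl⟩ := Nat.exists_eq_add_of_le' (show 1 ≤ a by omega)
  refine hd.periodic (a := 1) one_ne_zero (l := List.replicate (k + 1) 1) ?_
  rw [form, form_ones h1 (k + 1) hz k (by omega), List.replicate_succ, lin]
  have h := lin_ones_zero (d := d) (k - 1) 2 (fun i hi hi' => hz i hi (by omega)) [1]
  have e : List.replicate (k - 1) (1 : ℤ) ++ [1] = List.replicate k 1 := by
    rw [← List.replicate_succ']
    congr 1
    omega
  rw [e] at h
  simp only [lin] at h
  rw [show 2 + (k - 1) = k + 1 by omega, ha] at h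
  rw [h, h1]
  norm_num

/-- the dichotomy -/
theorem PD.main (hd : PD d) (h1 : d 1 = -1) (h2 : d 2 = 0) :
    (∀ n : ℕ, 2 ≤ n → d n = 0) ∨ ∃ q : ℕ, 1 ≤ q ∧ d q = 2 := by
  by_cases hall : ∀ n : ℕ, 2 ≤ n → d n = 0
  · exact Or.inl hall
  · right
    push Not at hall
    classical
    have hex : ∃ n, 2 ≤ n ∧ d n ≠ 0 := hall
    obtain ⟨a, ha, hmin⟩ : ∃ a, (2 ≤ a ∧ d a ≠ 0) ∧ ∀ n, n < a → ¬ (2 ≤ n ∧ d n ≠ 0) :=
      ⟨Nat.find hex, Nat.find_spec hex, fun n hn => Nat.find_min hex hn⟩
    have hz : ∀ n, 2 ≤ n → n < a → d n = 0 := fun n hn hna => by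
      by_contra hne
      exact hmin n hna ⟨hn, hne⟩
    have ha3 : 3 ≤ a := by
      rcases Nat.lt_or_ge a 3 with h | h
      · have : a = 2 := by omega
        subst this
        exact absurd h2 ha.2
      · exact h
    rcases hd.cases a (by omega) with h | h | h | h
    · exact h
    · exact hd.minus a ha3 h1 hz h
    · exact absurd h ha.2
    · rcases Nat.lt_or_ge a 8 with h8 | h8
      · interval_cases a
        · exact hd.tree3 h1 h2 h
        · exact hd.tree4 h1 h2 (hz 3 (by omega) (by omega)) h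
        · exact hd.tree5 h1 h2 (hz 3 (by omega) (by omega)) (hz 4 (by omega) (by omega)) h
        · exact hd.tree6 h1 h2 (hz 3 (by omega) (by omega)) (hz 4 (by omega) (by omega))
            (hz 5 (by omega) (by omega)) h
        · exact hd.tree7 h1 h2 (hz 3 (by omega) (by omega)) (hz 4 (by omega) (by omega))
            (hz 5 (by omega) (by omega)) (hz 6 (by omega) (by omega)) h
      · obtain ⟨k, rfl⟩ := Nat.exists_eq_add_of_le' h8
        exact hd.far k h1 hz h

end TatePole.Fs
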