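import Mathlib
import Pool.Agent.Lib.MP_058a58_ag.Fs.Dens
import Pool.Agent.Lib.MP_058a58_ag.Fs.Tree

/-!
# One curve: Sato-Tate or concentration
-/

open NumberField Polynomial Filter Topology
open IsDedekindDomain (HeightOneSpectrum)

namespace TatePole.Fs

/-- real version of `lin` -/
def linR (d : ℕ → ℝ) : List ℤ → ℕ → ℝ
  | [], _ => 0
  | a :: l, n => a * d n + linR d l (n + 1)

/-- real version of `form` -/
def formR (d : ℕ → ℝ) : List ℤ → ℝ
  | [] => 0
  | a :: l => 2 * a * a + 2 * a * linR d l 1 + formR d l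

lemma linR_cos (θ : ℝ) (n : ℕ) (l : List ℤ) (m : ℕ) :
    2 * (Real.cos (2 * n * θ) * linR (fun k => Real.cos (2 * k * θ)) l (n + m) +
      Real.sin (2 * n * θ) * linR (fun k => Real.sin (2 * k * θ)) l (n + m)) =
    linR (fun k => 2 * Real.cos (2 * k * θ)) l m := by
  induction l generalizing m with
  | nil => simp [linR]
  | cons a l ih =>
    have h1 := ih (m + 1)
    simp only [linR]
    rw [← h1, ← add_assoc]
    have h2 : Real.cos (2 * m * θ) = Real.cos (2 * n * θ) * Real.cos (2 * ((n + m : ℕ) : ℝ) * θ) +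
        Real.sin (2 * n * θ) * Real.sin (2 * ((n + m : ℕ) : ℝ) * θ) := by
      rw [mul_comm (Real.cos (2 * n * θ)), mul_comm (Real.sin (2 * n * θ)), ← Real.cos_sub]
      congr 1
      push_cast
      ring
    rw [h2]
    ring

lemma formR_eq (θ : ℝ) (l : List ℤ) (n : ℕ) :
    formR (fun k => 2 * Real.cos (2 * k * θ)) l =
      2 * (linR (fun k => Real.cos (2 * k * θ)) l n ^ 2 +
        linR (fun k => Real.sin (2 * k * θ)) l n ^ 2) := by
  induction l generalizing n with
  | nil => simp [linR, formR]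
  | cons a l ih =>
    have h1 := linR_cos θ n l 1
    have h2 : Real.cos (2 * n * θ) ^ 2 + Real.sin (2 * n * θ) ^ 2 = 1 := Real.cos_sq_add_sin_sq _
    simp only [linR, formR]
    rw [← h1, ih (n + 1)]
    linear_combination (-2 * (a : ℝ) ^ 2) * h2

lemma formR_nonneg (θ : ℝ) (l : List ℤ) : 0 ≤ formR (fun k => 2 * Real.cos (2 * k * θ)) l := by
  rw [formR_eq θ l 0]
  positivity

set_option linter.unusedSectionVars false

variable {K : Type*} [Field K] [NumberField K]

lemma bd_cos (θ : HeightOneSpectrum (𝓞 K) → ℝ) (n : ℕ) :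
    Bd (fun v => 2 * Real.cos (2 * n * θ v)) :=
  ⟨2, fun v => by
    have := Real.abs_cos_le_one (2 * n * θ v)
    rw [abs_mul, abs_two]
    linarith⟩

lemma bd_linR (θ : HeightOneSpectrum (𝓞 K) → ℝ) (l : List ℤ) (n : ℕ) :
    Bd (fun v => linR (fun k => 2 * Real.cos (2 * k * θ v)) l n) := by
  induction l generalizing n with
  | nil => exact Bd.const 0
  | cons a l ih => exact ((bd_cos θ n).const_mul (a : ℝ)).add (ih (n + 1))

lemma bd_formR (θ : HeightOneSpectrum (𝓞 K) → ℝ) (l : List ℤ) :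
    Bd (fun v => formR (fun k => 2 * Real.cos (2 * k * θ v)) l) := by
  induction l with
  | nil => exact Bd.const 0
  | cons a l ih =>
    exact ((Bd.const (2 * (a : ℝ) * a)).add ((bd_linR θ l 1).const_mul (2 * (a : ℝ)))).add ih

lemma hasD_linR (hz : StmZK K) (θ : HeightOneSpectrum (𝓞 K) → ℝ) (d : ℕ → ℤ)
    (hd : ∀ n : ℕ, HasD (fun v => 2 * Real.cos (2 * n * θ v)) (d n)) (l : List ℤ) (n : ℕ) :
    HasD (fun v => linR (fun k => 2 * Real.cos (2 * k * θ v)) l n) (lin d l n : ℤ) := by
  induction l generalizing n with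
  | nil => simpa [linR, lin] using HasD.const (K := K) hz 0
  | cons a l ih =>
    have h := HasD.add hz ((bd_cos θ n).const_mul (a : ℝ)) (bd_linR θ l (n + 1))
      ((hd n).const_mul (a : ℝ)) (ih (n + 1))
    rw [lin]
    push_cast
    exact h

lemma hasD_formR (hz : StmZK K) (θ : HeightOneSpectrum (𝓞 K) → ℝ) (d : ℕ → ℤ)
    (hd : ∀ n : ℕ, HasD (fun v => 2 * Real.cos (2 * n * θ v)) (d n)) (l : List ℤ) :
    HasD (fun v => formR (fun k => 2 * Real.cos (2 * k * θ v)) l) (form d l : ℤ) := by
  induction l with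
  | nil => simpa [formR, form] using HasD.const (K := K) hz 0
  | cons a l ih =>
    have h := HasD.add hz ((Bd.const (2 * (a : ℝ) * a)).add
      ((bd_linR θ l 1).const_mul (2 * (a : ℝ)))) (bd_formR θ l)
      (HasD.add hz (Bd.const (2 * (a : ℝ) * a)) ((bd_linR θ l 1).const_mul (2 * (a : ℝ)))
        (HasD.const hz (2 * (a : ℝ) * a))
        ((hasD_linR hz θ d hd l 1).const_mul (2 * (a : ℝ)))) ih
    rw [form]
    push_cast
    exact h

lemma pd_of_hasD (hz : StmZK K) (θ : HeightOneSpectrum (𝓞 K) → ℝ) (d : ℕ → ℤ)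
    (hd : ∀ n : ℕ, HasD (fun v => 2 * Real.cos (2 * n * θ v)) (d n)) : PD d := by
  constructor
  · have h0 := hd 0
    have h1 : HasD (fun v => 2 * Real.cos (2 * ((0 : ℕ) : ℝ) * θ v)) (2 : ℝ) :=
      (HasD.const hz 2).congr fun v => by simp
    exact_mod_cast h0.unique h1
  · intro l
    have h := HasD.nonneg (fun v => formR_nonneg (θ v) l) (hasD_formR hz θ d hd l)
    exact_mod_cast h

lemma sp_even_cos (θ : ℝ) (n : ℕ) :
    sp (2 * (n + 1)) (2 * Real.cos θ) =
      sp (2 * n) (2 * Real.cos θ) + 2 * Real.cos (2 * (n + 1 : ℕ) * θ) := by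
  have key : ∀ n : ℕ, sp (n + 2) (2 * Real.cos θ) = sp n (2 * Real.cos θ) +
      2 * Real.cos ((n + 2 : ℕ) * θ) := by
    intro n
    induction n using Nat.twoStepInduction with
    | zero =>
      simp only [sp]
      rw [show (((0 + 2 : ℕ)) : ℝ) * θ = 2 * θ by push_cast; ring, Real.cos_two_mul]
      ring
    | one =>
      simp only [sp]
      rw [show (((1 + 2 : ℕ)) : ℝ) * θ = 3 * θ by push_cast; ring, Real.cos_three_mul]
      ring
    | more n ih1 ih2 =>
      have e1 : sp (n + 2 + 2) (2 * Real.cos θ) = 2 * Real.cos θ * sp (n + 1 + 2) (2 * Real.cos θ)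
        - sp (n + 2) (2 * Real.cos θ) := rfl
      have e2 : sp (n + 2) (2 * Real.cos θ) = 2 * Real.cos θ * sp (n + 1) (2 * Real.cos θ)
        - sp n (2 * Real.cos θ) := rfl
      have e3 : Real.cos (((n + 2 + 2 : ℕ) : ℝ) * θ) = 2 * Real.cos θ *
          Real.cos (((n + 1 + 2 : ℕ) : ℝ) * θ) - Real.cos (((n + 2 : ℕ) : ℝ) * θ) := by
        have a1 := Real.cos_add (((n + 1 + 2 : ℕ) : ℝ) * θ) θ
        have a2 := Real.cos_sub (((n + 1 + 2 : ℕ) : ℝ) * θ) θ
        have b1 : ((n + 1 + 2 : ℕ) : ℝ) * θ + θ = ((n + 2 + 2 : ℕ) : ℝ) * θ := by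
          push_cast; ring
        have b2 : ((n + 1 + 2 : ℕ) : ℝ) * θ - θ = ((n + 2 : ℕ) : ℝ) * θ := by
          push_cast; ring
        rw [b1] at a1
        rw [b2] at a2
        rw [a1, a2]
        ring
      rw [e1, ih2, ih1, e3]
      linear_combination (-1 : ℝ) * e2 + ih1
  have h := key (2 * n)
  rw [show 2 * (n + 1) = 2 * n + 2 by ring, h]
  congr 2
  push_cast
  ring_nf

theorem ONE (K : Type*) [Field K] [NumberField K] : StmONE K := by
  intro hz θ hint h20
  choose d hd using hint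
  have hpd := pd_of_hasD hz θ d hd
  -- the values `d 1` and `d 2`
  have h12 : 16 * (d 1 + 1) + d 2 = 0 := by
    have h1 : HasD (fun v => (2 * Real.cos (θ v)) ^ 4 + 12 * (2 * Real.cos (θ v)) ^ 2 + 6)
        (36 + 16 * (d 1 : ℝ) + d 2) := by
      refine HasD.congr (HasD.add hz ((Bd.const 36).add ((bd_cos θ 1).const_mul 16)) (bd_cos θ 2)
        (HasD.add hz (Bd.const 36) ((bd_cos θ 1).const_mul 16) (HasD.const hz 36)
          ((hd 1).const_mul 16)) (hd 2)) fun v => ?_
      push_cast
      have e1 : Real.cos (2 * 1 * θ v) = 2 * Real.cos (θ v) ^ 2 - 1 := by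
        rw [mul_one, Real.cos_two_mul]
      have e2 : Real.cos (2 * 2 * θ v) = 2 * (2 * Real.cos (θ v) ^ 2 - 1) ^ 2 - 1 := by
        rw [mul_assoc, Real.cos_two_mul, Real.cos_two_mul]
      rw [e1, e2]
      ring
    have h2 := h1.unique h20
    have h3 : (16 * (d 1 + 1) + d 2 : ℤ) = ((0 : ℤ) : ℝ) := by
      push_cast
      linarith
    exact_mod_cast h3
  have hb := abs_le.mp (hpd.abs_le 2)
  have hd1 : d 1 = -1 := by omega
  have hd2 : d 2 = 0 := by omega
  rcases hpd.main hd1 hd2 with hall | ⟨q, hq, hdq⟩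
  · left
    intro n hn
    have key : ∀ n : ℕ, HasD (fun v => sp (2 * n) (2 * Real.cos (θ v)))
        (if n = 0 then 1 else 0) := by
      intro n
      induction n with
      | zero => simpa [sp] using HasD.const (K := K) hz 1
      | succ n ih =>
        have hbn : Bd (fun v => sp (2 * n) (2 * Real.cos (θ v))) := by
          have h1 := (bd_cos θ 0)
          have h2 : Bd (fun v => 2 * Real.cos (θ v)) := ⟨2, fun v => by
            have := Real.abs_cos_le_one (θ v)
            rw [abs_mul, abs_two]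
            linarith⟩
          exact h2.sp _
        have h3 := HasD.add hz hbn (bd_cos θ (n + 1)) ih (hd (n + 1))
        have h4 := h3.congr fun v => (sp_even_cos (θ v) n).symm
        rw [if_neg (Nat.succ_ne_zero n)]
        rcases Nat.eq_zero_or_pos n with rfl | hn
        · rw [if_pos rfl] at h4
          rw [show (1 : ℝ) + ((d (0 + 1) : ℤ) : ℝ) = 0 by rw [zero_add, hd1]; norm_num] at h4
          exact h4
        · rw [if_neg hn.ne', hall (n + 1) (by omega)] at h4
          simpa using h4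
    have h := key n
    rwa [if_neg (by omega)] at h
  · right
    refine ⟨q, hq, fun ε hε => ?_⟩
    have h1 := hd q
    rw [hdq] at h1
    have h2 : HasD (fun v => 4 * Real.sin (q * θ v) ^ 2) 0 := by
      have h3 := HasD.sub hz (Bd.const 2) (bd_cos θ q) (HasD.const hz 2) h1
      have h4 : (2 : ℝ) - ((2 : ℤ) : ℝ) = 0 := by norm_num
      rw [h4] at h3
      refine h3.congr fun v => ?_
      rw [show 2 * (q : ℝ) * θ v = 2 * (q * θ v) by ring, Real.cos_two_mul]
      have := Real.sin_sq_add_cos_sq (q * θ v)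
      linarith
    have hbs : Bd (fun v => 4 * Real.sin (q * θ v) ^ 2) := ⟨4, fun v => by
      have := Real.sin_sq_le_one (q * θ v)
      rw [abs_of_nonneg (by positivity)]
      linarith⟩
    classical
    have hind : Bd (fun v => (({v | ε ≤ |Real.sin (q * θ v)|} :
        Set (HeightOneSpectrum (𝓞 K))).indicator (fun _ => (1 : ℝ)) v)) :=
      ⟨1, fun v => by
        show |({v | ε ≤ |Real.sin (q * θ v)|} : Set (HeightOneSpectrum (𝓞 K))).indicator
          (fun _ => (1 : ℝ)) v| ≤ 1
        rw [Set.indicator_apply]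
        split_ifs <;> simp⟩
    have h5 : HasD (fun v => (({v | ε ≤ |Real.sin (q * θ v)|} :
        Set (HeightOneSpectrum (𝓞 K))).indicator (fun _ => (1 : ℝ)) v)) 0 := by
      have h6 := h2.const_mul (1 / (4 * ε ^ 2))
      rw [mul_zero] at h6
      refine HasD.zero_of_le hz hind (hbs.const_mul _) (fun v => ?_) h6
      rw [Set.indicator_apply]
      split_ifs with hv
      · rw [abs_one]
        have hv' : ε ≤ |Real.sin (q * θ v)| := hv
        have h7 : ε ^ 2 ≤ Real.sin (q * θ v) ^ 2 := by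
          rw [← sq_abs (Real.sin (q * θ v))]
          exact pow_le_pow_left₀ hε.le hv' 2
        rw [div_mul_eq_mul_div, le_div_iff₀ (by positivity)]
        linarith
      · rw [abs_zero]
        positivity
    refine Tendsto.congr (fun s => ?_) h5
    unfold SS
    congr 1
    refine tsum_congr fun v => ?_
    show ({v | ε ≤ |Real.sin (q * θ v)|} : Set (HeightOneSpectrum (𝓞 K))).indicator
          (fun _ => (1 : ℝ)) v * (Nv v : ℝ) ^ (-s) = _
    rw [Set.indicator_apply, Set.indicator_apply]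
    split_ifs
    · rw [one_mul]
    · rw [zero_mul]

end TatePole.Fs
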