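import Mathlib
import Pool.Agent.Lib.MP_058a58_ag.Fs.Stm

/-!
# The trace of Frobenius as a coefficient
-/

open NumberField Polynomial Filter Topology
open IsDedekindDomain (HeightOneSpectrum)

namespace TatePole.Fs

section
variable {ι : Type} [Fintype ι] [DecidableEq ι]

lemma one_add_pow_expand (z : ℂ) (n : ℕ) :
    (1 + C z * X : ℂ[X]) ^ n = ∑ x ∈ Finset.range (n + 1), C ((n.choose x : ℂ) * z ^ x) * X ^ x := by
  rw [add_comm, add_pow]
  refine Finset.sum_congr rfl fun x _ => ?_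
  rw [mul_pow, one_pow, mul_one, C_mul, C_pow]
  have : (C ((n.choose x : ℂ)) : ℂ[X]) = (n.choose x : ℂ[X]) := map_natCast C _
  rw [this]
  ring

lemma prod_expand (z : ι → ℂ) (n : ι → ℕ) :
    (∏ i, (1 + C (z i) * X : ℂ[X]) ^ n i) =
      ∑ p ∈ Fintype.piFinset fun i => Finset.range (n i + 1),
        C (∏ i, ((n i).choose (p i) : ℂ) * z i ^ p i) * X ^ (∑ i, p i) := by
  simp only [one_add_pow_expand]
  rw [Finset.prod_univ_sum]
  refine Finset.sum_congr rfl fun p _ => ?_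
  rw [Finset.prod_mul_distrib, Finset.prod_pow_eq_pow_sum, map_prod]

lemma factor_eq (z : ℂ) (hz : ‖z‖ = 1) :
    (1 + C z * X : ℂ[X]) * (1 + C ((starRingEnd ℂ) z) * X) =
      (1 + C (2 * z.re) * X + X ^ 2 : ℝ[X]).map Complex.ofRealHom := by
  have h1 : z * (starRingEnd ℂ) z = 1 := by
    rw [Complex.mul_conj, Complex.normSq_eq_norm_sq, hz]
    norm_num
  have h2 : z + (starRingEnd ℂ) z = ((2 * z.re : ℝ) : ℂ) := Complex.add_conj z
  simp only [Polynomial.map_add, Polynomial.map_one, Polynomial.map_mul, Polynomial.map_C,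
    Polynomial.map_X, Polynomial.map_pow, Complex.ofRealHom_eq_coe]
  rw [← h2]
  have h3 : (C z : ℂ[X]) * C ((starRingEnd ℂ) z) = 1 := by rw [← C_mul, h1, C_1]
  rw [C_add]
  linear_combination (X : ℂ[X]) ^ 2 * h3

end

theorem COEF : StmCOEF := by
  intro ι _ _ z n m hz
  have h1 : ((∏ i, (1 + C (2 * (z i).re) * X + X ^ 2 : ℝ[X]) ^ n i).map Complex.ofRealHom) =
      (∏ i, (1 + C (z i) * X : ℂ[X]) ^ n i) *
        ∏ i, (1 + C ((starRingEnd ℂ) (z i)) * X : ℂ[X]) ^ n i := by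
    rw [Polynomial.map_prod, ← Finset.prod_mul_distrib]
    refine Finset.prod_congr rfl fun i _ => ?_
    rw [Polynomial.map_pow, ← factor_eq (z i) (hz i), mul_pow]
  have h2 : (((∏ i, (1 + C (2 * (z i).re) * X + X ^ 2 : ℝ[X]) ^ n i).coeff (2 * m) : ℝ) : ℂ) =
      ∑ e ∈ expo n m, (mult n e : ℂ) * ∏ i, z i ^ e.1 i * (starRingEnd ℂ) (z i) ^ e.2 i := by
    have h3 : (((∏ i, (1 + C (2 * (z i).re) * X + X ^ 2 : ℝ[X]) ^ n i).coeff (2 * m) : ℝ) : ℂ) =
        ((∏ i, (1 + C (2 * (z i).re) * X + X ^ 2 : ℝ[X]) ^ n i).map Complex.ofRealHom).coeff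
          (2 * m) := by
      rw [Polynomial.coeff_map]
      rfl
    rw [h3, h1, prod_expand, prod_expand, Finset.sum_mul_sum, ← Finset.sum_product',
      Polynomial.finsetSum_coeff, expo, Finset.sum_filter]
    refine Finset.sum_congr rfl fun e _ => ?_
    have h4 : ∀ a b : ℂ, ∀ k l : ℕ, (C a * X ^ k : ℂ[X]) * (C b * X ^ l) = C (a * b) * X ^ (k + l) :=
      fun a b k l => by rw [C_mul, pow_add]; ring
    rw [h4, coeff_C_mul, coeff_X_pow, ← Finset.sum_add_distrib]
    by_cases h : ∑ i, (e.1 i + e.2 i) = 2 * m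
    · rw [if_pos h.symm, if_pos h, mul_one, ← Finset.prod_mul_distrib, mult]
      push_cast
      rw [← Finset.prod_mul_distrib]
      refine Finset.prod_congr rfl fun i _ => ?_
      ring
    · rw [if_neg (fun h' => h h'.symm), if_neg h, mul_zero]
  have h5 := congrArg Complex.re h2
  rw [Complex.ofReal_re] at h5
  rw [h5, Complex.re_sum]
  refine Finset.sum_congr rfl fun e _ => ?_
  rw [← Complex.ofReal_natCast, Complex.re_ofReal_mul]

end TatePole.Fs
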