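import Mathlib
import Pool.Agent.Lib.MP_058a58_ag.Fs.Coef

/-!
# The order of the `L`-function and the sum of the traces of Frobenius
-/

open NumberField Polynomial Filter Topology
open IsDedekindDomain (HeightOneSpectrum)

namespace TatePole.Fs

variable {K : Type*} [Field K] [NumberField K]

/-- the direction of a complex number -/
noncomputable def dir (x : ℂ) : ℂ := Complex.exp (Complex.arg x * Complex.I)

lemma norm_dir (x : ℂ) : ‖dir x‖ = 1 := by
  unfold dir
  rw [Complex.norm_exp_ofReal_mul_I]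

lemma dir_re (x : ℂ) : (dir x).re = Real.cos (Complex.arg x) := by
  unfold dir
  rw [Complex.exp_ofReal_mul_I_re]

lemma eq_dir (x : ℂ) : x = (‖x‖ : ℂ) * dir x := (Complex.norm_mul_exp_arg_mul_I x).symm

lemma expo_swap {ι : Type} [Fintype ι] [DecidableEq ι] {n : ι → ℕ} {m : ℕ}
    {e : (ι → ℕ) × (ι → ℕ)} (he : e ∈ expo n m) : (e.2, e.1) ∈ expo n m := by
  unfold expo at he ⊢
  simp only [Finset.mem_filter, Finset.mem_product, Fintype.mem_piFinset, Finset.mem_range]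
    at he ⊢
  refine ⟨⟨he.1.2, he.1.1⟩, ?_⟩
  rw [← he.2]
  exact Finset.sum_congr rfl fun i _ => add_comm _ _

/-- swapping the two exponents -/
def swapE {ι : Type} [Fintype ι] [DecidableEq ι] (n : ι → ℕ) (m : ℕ) :
    Equiv.Perm {e // e ∈ expo n m} where
  toFun e := ⟨(e.1.2, e.1.1), expo_swap e.2⟩
  invFun e := ⟨(e.1.2, e.1.1), expo_swap e.2⟩
  left_inv _ := rfl
  right_inv _ := rfl

lemma mult_swap {ι : Type} [Fintype ι] (n : ι → ℕ) (e : (ι → ℕ) × (ι → ℕ)) :
    mult n (e.2, e.1) = mult n e := by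
  unfold mult
  exact Finset.prod_congr rfl fun i _ => mul_comm _ _

theorem ORD (hL : StmLOG K) (hz : StmZK K) {r : ℕ}
    (S : Finset (HeightOneSpectrum (𝓞 K)))
    (α : Fin r → HeightOneSpectrum (𝓞 K) → ℂ) (hα : ∀ i, ∀ v ∉ S, ‖α i v‖ ^ 2 = Nv v)
    (P : HeightOneSpectrum (𝓞 K) → ℂ[X]) (n : Fin r → ℕ) (m : ℕ)
    (hP : ∀ v ∉ S, P v = localPoly (fun i => α i v) n m)
    (hbad : ∀ v ∈ S, (P v).eval ((Nv v : ℂ) ^ (-((m : ℂ) + 1))) ≠ 0) (k : ℤ) :
    HasOrd P m k ↔ Str (Gf (fun i v => 2 * Real.cos (Complex.arg (α i v))) n m) (-(k : ℝ)) := by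
  have h := hL hz S {e // e ∈ expo n m} inferInstance
    (fun e v => ∏ i, dir (α i v) ^ e.1.1 i * (starRingEnd ℂ) (dir (α i v)) ^ e.1.2 i)
    (fun e => mult n e.1) (swapE n m) P m ?_ ?_ ?_ hbad k
  · rw [h]
    have h2 : (fun v => ∑ j : {e // e ∈ expo n m}, ((mult n j.1 : ℕ) : ℝ) *
        (∏ i, dir (α i v) ^ j.1.1 i * (starRingEnd ℂ) (dir (α i v)) ^ j.1.2 i).re) =
        Gf (fun i v => 2 * Real.cos (Complex.arg (α i v))) n m := by
      funext v
      have h3 := COEF (Fin r) inferInstance inferInstance (fun i => dir (α i v)) n m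
        fun i => norm_dir _
      rw [Finset.sum_coe_sort (expo n m) fun e => ((mult n e : ℕ) : ℝ) *
        (∏ i, dir (α i v) ^ e.1 i * (starRingEnd ℂ) (dir (α i v)) ^ e.2 i).re, h3]
      unfold Gf
      simp only [dir_re]
    rw [h2]
  · intro e v
    rw [norm_prod]
    refine (Finset.prod_le_one (fun i _ => norm_nonneg _) fun i _ => ?_)
    rw [norm_mul, norm_pow, norm_pow, RCLike.norm_conj, norm_dir, one_pow, one_pow, one_mul]
  · intro e
    refine ⟨mult_swap n e.1, fun v => ?_⟩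
    rw [map_prod]
    refine Finset.prod_congr rfl fun i _ => ?_
    rw [map_mul, map_pow, map_pow, Complex.conj_conj]
    exact mul_comm _ _
  · intro v hv s hs
    rw [hP v hv, localPoly, Polynomial.eval_prod]
    rw [Finset.prod_coe_sort (expo n m) fun e => (1 - (∏ i, dir (α i v) ^ e.1 i *
      (starRingEnd ℂ) (dir (α i v)) ^ e.2 i) * (Nv v : ℂ) ^ (-(s : ℂ))) ^ mult n e]
    refine Finset.prod_congr rfl fun e he => ?_
    rw [Polynomial.eval_pow]
    congr 1
    simp only [eval_sub, eval_one, eval_mul, eval_C, eval_X]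
    congr 1
    have hN : (Nv v : ℝ) ≠ 0 := by
      have := hz.1 v
      exact_mod_cast (by omega : Nv v ≠ 0)
    have hNC : (Nv v : ℂ) ≠ 0 := by exact_mod_cast hN
    have e1 : ∀ i, α i v ^ e.1 i * (starRingEnd ℂ) (α i v) ^ e.2 i =
        (‖α i v‖ : ℂ) ^ (e.1 i + e.2 i) *
          (dir (α i v) ^ e.1 i * (starRingEnd ℂ) (dir (α i v)) ^ e.2 i) := by
      intro i
      have h1 := eq_dir (α i v)
      have h2 : (starRingEnd ℂ) (α i v) = (‖α i v‖ : ℂ) * (starRingEnd ℂ) (dir (α i v)) := by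
        conv_lhs => rw [h1]
        rw [map_mul, Complex.conj_ofReal]
      rw [h2]
      conv_lhs => rw [show α i v ^ e.1 i = ((‖α i v‖ : ℂ) * dir (α i v)) ^ e.1 i by rw [← h1]]
      rw [mul_pow, mul_pow, pow_add]
      ring
    have e2 : ∀ i, ‖α i v‖ = Real.sqrt (Nv v) := fun i => by
      rw [← hα i v hv, Real.sqrt_sq (norm_nonneg _)]
    have e3 : (∏ i, α i v ^ e.1 i * (starRingEnd ℂ) (α i v) ^ e.2 i) = (Nv v : ℂ) ^ m *
        ∏ i, dir (α i v) ^ e.1 i * (starRingEnd ℂ) (dir (α i v)) ^ e.2 i := by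
      rw [Finset.prod_congr rfl fun i _ => e1 i, Finset.prod_mul_distrib]
      congr 1
      have hs : ∑ i, (e.1 i + e.2 i) = 2 * m := (Finset.mem_filter.mp he).2
      simp only [e2]
      rw [Finset.prod_pow_eq_pow_sum, hs, pow_mul]
      congr 1
      rw [← Complex.ofReal_pow, Real.sq_sqrt (Nat.cast_nonneg _), Complex.ofReal_natCast]
    rw [e3]
    have e4 : (Nv v : ℂ) ^ (-((s + m : ℝ) : ℂ)) = (Nv v : ℂ) ^ (-(s : ℂ)) * ((Nv v : ℂ) ^ m)⁻¹ := by
      rw [← Complex.cpow_natCast, ← Complex.cpow_neg, ← Complex.cpow_add _ _ hNC]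
      congr 1
      push_cast
      ring
    rw [e4]
    have h5 : (Nv v : ℂ) ^ m ≠ 0 := pow_ne_zero _ hNC
    field_simp

end TatePole.Fs
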