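import Mathlib
import Pool.Agent.Lib.MP_058a58_ag.Fs.One
import Pool.Agent.Lib.MP_058a58_ag.Fs.Gpar
import Pool.Agent.Lib.MP_058a58_ag.Fs.Ord

/-!
# Assembly
-/

open NumberField Polynomial Filter Topology
open IsDedekindDomain (HeightOneSpectrum)

namespace TatePole.Fs

lemma Par.sub {ι V : Type*} {t : ι → V → ℝ} {b : ZMod 2} {g h : V → ℝ} (hg : Par t b g)
    (hh : Par t b h) : Par t b (fun v => g v - h v) :=
  (Par.add hg hh.neg).ofEq fun v => by ring

lemma Par.spA {ι V : Type*} {t : ι → V → ℝ} (i : ι) :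
    ∀ n : ℕ, Par t (n : ZMod 2) (fun v => sp n (t i v))
  | 0 => by
    rw [Nat.cast_zero]
    exact Par.one
  | 1 => by
    rw [Nat.cast_one]
    exact Par.var i
  | (n + 2) => by
    have h1 := Par.mul (Par.var (t := t) i) (Par.spA i (n + 1))
    have h2 : (1 : ZMod 2) + ((n + 1 : ℕ) : ZMod 2) = ((n + 2 : ℕ) : ZMod 2) := by
      push_cast
      ring
    have h3 : ((n : ℕ) : ZMod 2) = ((n + 2 : ℕ) : ZMod 2) := by
      push_cast
      have : (2 : ZMod 2) = 0 := by decide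
      rw [this, add_zero]
    rw [h2] at h1
    have h4 := Par.spA (t := t) i n
    rw [h3] at h4
    exact Par.sub h1 h4

lemma natCast_even_zmod2 (n : ℕ) : ((2 * n : ℕ) : ZMod 2) = 0 := by
  rw [ZMod.natCast_eq_zero_iff]
  exact dvd_mul_right 2 n

lemma Par.cos {ι V : Type*} {θ : ι → V → ℝ} (i : ι) (n : ℕ) :
    Par (fun i v => 2 * Real.cos (θ i v)) 0 (fun v => 2 * Real.cos (2 * n * θ i v)) := by
  rcases n with _ | n
  · exact (Par.int 2).ofEq fun v => by simp
  · have h1 := Par.spA (t := fun i v => 2 * Real.cos (θ i v)) i (2 * (n + 1))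
    have h2 := Par.spA (t := fun i v => 2 * Real.cos (θ i v)) i (2 * n)
    rw [natCast_even_zmod2] at h1 h2
    exact (Par.sub h1 h2).ofEq fun v => by
      rw [sp_even_cos]
      ring

variable {K : Type*} [Field K] [NumberField K]

theorem assembly (hz : StmZK K) (hL : StmLOG K) (hT : StmTRI K) (hPair : StmPAIR K)
    (hG : StmGOUR K) (hR : StmRANK K) (r : ℕ)
    (S : Finset (HeightOneSpectrum (𝓞 K)))
    (α : Fin r → HeightOneSpectrum (𝓞 K) → ℂ) (hα : ∀ i, ∀ v ∉ S, ‖α i v‖ ^ 2 = Nv v)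
    (P : (Fin r → ℕ) → ℕ → HeightOneSpectrum (𝓞 K) → ℂ[X])
    (hP : ∀ n m, ∀ v ∉ S, P n m v = localPoly (fun i => α i v) n m)
    (hbad : ∀ n m, ∀ v ∈ S, (P n m v).eval ((Nv v : ℂ) ^ (-((m : ℂ) + 1))) ≠ 0)
    (hord : ∀ (n : Fin r → ℕ) (m : ℕ), ∑ i, n i = 2 * m → ∃ k : ℤ, HasOrd (P n m) m k)
    (h4 : ∀ i, HasOrd (P (Pi.single i 4) 2) 2 (-20))
    (h22 : ∀ i j, i ≠ j → HasOrd (P (Pi.single i 2 + Pi.single j 2) 2) 2 (-11)) :
    (∀ n m, HasOrd (P n m) m (-rank n m)) ∨
      ∃ i, ∃ q : ℕ, 1 ≤ q ∧ ∀ ε : ℝ, 0 < ε →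
        DensZero {v | ε ≤ |Real.sin (q * Complex.arg (α i v))|} := by
  have key := fun n m k => ORD hL hz S α hα (P n m) n m (hP n m) (hbad n m) k
  have ht : ∀ (i : Fin r) (v : HeightOneSpectrum (𝓞 K)),
      |2 * Real.cos (Complex.arg (α i v))| ≤ 2 := fun i v => by
    have := Real.abs_cos_le_one (Complex.arg (α i v))
    rw [abs_mul, abs_two]
    linarith
  have hStr := hT hz (Fin r) inferInstance inferInstance
    (fun i v => 2 * Real.cos (Complex.arg (α i v))) ht fun n m hnm => by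
      obtain ⟨k, hk⟩ := hord n m hnm
      refine ⟨-k, ?_⟩
      rw [Int.cast_neg]
      exact (key n m k).mp hk
  have hHas : ∀ g, Par (fun i v => 2 * Real.cos (Complex.arg (α i v))) 0 g →
      ∃ k : ℤ, HasD g k := fun g hg => by
    obtain ⟨k, hk⟩ := hStr g hg
    exact ⟨k, hk.hasD⟩
  have hev := EVAL (HeightOneSpectrum (𝓞 K)) (Fin r) inferInstance inferInstance
    (fun i v => 2 * Real.cos (Complex.arg (α i v)))
  by_cases hcon : ∃ i, ∃ q : ℕ, 1 ≤ q ∧ ∀ ε : ℝ, 0 < ε →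
        DensZero {v | ε ≤ |Real.sin (q * Complex.arg (α i v))|}
  · exact Or.inr hcon
  left
  -- Sato-Tate for each curve
  have hone : ∀ i (n : ℕ), 1 ≤ n →
      HasD (fun v => sp (2 * n) (2 * Real.cos (Complex.arg (α i v)))) 0 := by
    intro i
    have h1 := (((key _ _ _).mp (h4 i)).hasD).congr fun v => hev.1 i v
    have h3 : (-(((-20 : ℤ)) : ℝ)) = 20 := by norm_num
    rw [h3] at h1
    rcases ONE K hz (fun v => Complex.arg (α i v)) (fun n => hHas _ (Par.cos i n)) h1 with h | h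
    · exact h
    · exact absurd ⟨i, h⟩ hcon
  -- pairs
  have hpair : ∀ i j, i ≠ j → HasD (fun v => sp 2 (2 * Real.cos (Complex.arg (α i v))) *
      sp 2 (2 * Real.cos (Complex.arg (α j v)))) 0 := by
    intro i j hij
    refine hPair hz _ _ (ht i) (ht j) (hone i) (hone j) (hHas _ ?_) (hHas _ ?_) ?_
    · exact Par.mul (Par.var (t := fun i v => 2 * Real.cos (Complex.arg (α i v))) i) (Par.var j)
    · have h1 := Par.mul (Par.var (t := fun i v => 2 * Real.cos (Complex.arg (α i v))) i)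
        (Par.var j)
      exact (Par.mul h1 h1).ofEq fun v => by ring
    · have h1 := ((key _ _ _).mp (h22 i j hij)).hasD
      have h2 := h1.congr fun v => hev.2 i j hij v
      have h3 : (-(((-11 : ℤ)) : ℝ)) = 11 := by norm_num
      rw [h3] at h2
      exact h2
  have hall := hG hz (Fin r) inferInstance inferInstance
    (fun i v => 2 * Real.cos (Complex.arg (α i v))) ht hHas hone hpair
  have hrank := hR hz (Fin r) inferInstance inferInstance
    (fun i v => 2 * Real.cos (Complex.arg (α i v))) ht hall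
  intro n m
  rw [key n m (-rank n m), Int.cast_neg, neg_neg]
  obtain ⟨k, hk⟩ := hStr _ (GPAR _ (Fin r) inferInstance
    (fun i v => 2 * Real.cos (Complex.arg (α i v))) n m)
  rw [(hk.hasD.unique (hrank n m))] at hk
  exact hk

end TatePole.Fs
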