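import Mathlib
import Pool.Agent.Lib.MP_058a58_ag.Fs.Dens

/-!
# The equality case of the Cauchy-Schwarz inequality
-/

open NumberField Polynomial Filter Topology
open IsDedekindDomain (HeightOneSpectrum)

namespace TatePole.Fs

variable {K : Type*} [Field K] [NumberField K]

/-- the density of `(f - e g)²` -/
lemma HasD.sq_sub (hz : StmZK K) {f g : HeightOneSpectrum (𝓞 K) → ℝ} (bf : Bd f) (bg : Bd g)
    {a b k : ℝ} (hf : HasD (fun v => f v ^ 2) a) (hg : HasD (fun v => g v ^ 2) b)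
    (hk : HasD (fun v => f v * g v) k) (e : ℝ) :
    HasD (fun v => (f v - e * g v) ^ 2) (a - 2 * e * k + e ^ 2 * b) := by
  have h1 := HasD.add hz ((bf.pow 2).sub ((bf.mul bg).const_mul (2 * e))) ((bg.pow 2).const_mul _)
    (HasD.sub hz (bf.pow 2) ((bf.mul bg).const_mul (2 * e)) hf (hk.const_mul (2 * e)))
    (hg.const_mul (e ^ 2))
  exact h1.congr fun v => by ring

/-- [CS] -/
theorem cs (K : Type*) [Field K] [NumberField K] : StmCS K := by
  intro hz f g h bf bg bh hf hg k hk hk0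
  have h1 := HasD.nonneg (fun v => sq_nonneg _) (HasD.sq_sub hz bf bg hf hg hk 1)
  have h2 := HasD.nonneg (fun v => sq_nonneg _) (HasD.sq_sub hz bf bg hf hg hk (-1))
  have h3 : (k : ℝ) ≤ 1 := by linarith
  have h4 : (-1 : ℝ) ≤ k := by linarith
  have h5 : k ≤ 1 := by exact_mod_cast h3
  have h6 : -1 ≤ k := by exact_mod_cast h4
  have h7 : k = 1 ∨ k = -1 := by omega
  refine ⟨h7, ?_⟩
  have h8 : HasD (fun v => (f v - (k : ℝ) * g v) ^ 2) 0 := by
    have h9 := HasD.sq_sub hz bf bg hf hg hk k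
    have h10 : (1 : ℝ) - 2 * k * k + k ^ 2 * 1 = 0 := by
      rcases h7 with rfl | rfl <;> norm_num
    rwa [h10] at h9
  have h9 := HasD.mul_of_sq hz (bf.sub (bg.const_mul k))
    ((bf.add (bg.const_mul k)).mul bh) h8
  refine h9.congr fun v => ?_
  rcases h7 with rfl | rfl <;> push_cast <;> ring

end TatePole.Fs
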