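import Mathlib
import Pool.Agent.Lib.MP_058a58_ag.Fs.Dens

/-!
# Chebyshev polynomials: expansions in even characters
-/

open NumberField Polynomial Filter Topology
open IsDedekindDomain (HeightOneSpectrum)

namespace TatePole.Fs

/-- `p` is a combination of the `sp (2 c)` with coefficient `m` at `c = 0`. -/
def Ev (p : ℝ → ℝ) (m : ℝ) : Prop :=
  ∃ (N : ℕ) (b : ℕ → ℝ), (∀ x, p x = ∑ c ∈ Finset.range (N + 1), b c * sp (2 * c) x) ∧ b 0 = m

lemma Ev.congr {p q : ℝ → ℝ} {m m' : ℝ} (h : Ev p m) (e : ∀ x, p x = q x) (e' : m = m') :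
    Ev q m' := by
  obtain ⟨N, b, h1, h2⟩ := h
  exact ⟨N, b, fun x => by rw [← e, h1], h2.trans e'⟩

lemma Ev.zero : Ev (fun _ => 0) 0 := ⟨0, fun _ => 0, fun x => by simp, rfl⟩

lemma Ev.sp2 (n : ℕ) : Ev (sp (2 * n)) (if n = 0 then 1 else 0) := by
  refine ⟨n, fun c => if c = n then 1 else 0, fun x => ?_, ?_⟩
  · rw [Finset.sum_eq_single n]
    · simp
    · intro c _ hc; simp [hc]
    · intro h; simp at h
  · by_cases h : n = 0
    · simp [h]
    · simp [h, Ne.symm h]

lemma Ev.add {p q : ℝ → ℝ} {m m' : ℝ} (h : Ev p m) (h' : Ev q m') :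
    Ev (fun x => p x + q x) (m + m') := by
  obtain ⟨N, b, h1, h2⟩ := h
  obtain ⟨N', b', h1', h2'⟩ := h'
  refine ⟨N + N', fun c => (if c ≤ N then b c else 0) + (if c ≤ N' then b' c else 0), fun x => ?_, ?_⟩
  · have e : ∀ (N L : ℕ) (b : ℕ → ℝ), N ≤ L → ∑ c ∈ Finset.range (N + 1), b c * sp (2 * c) x =
        ∑ c ∈ Finset.range (L + 1), (if c ≤ N then b c else 0) * sp (2 * c) x := by
      intro N L b hNL
      rw [← Finset.sum_subset (Finset.range_subset_range.2 (by omega : N + 1 ≤ L + 1))]
      · refine Finset.sum_congr rfl fun c hc => ?_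
        rw [if_pos (by simpa [Nat.lt_succ_iff] using hc)]
      · intro c _ hc
        rw [if_neg (by simpa [Nat.lt_succ_iff] using hc), zero_mul]
    show p x + q x = _
    rw [h1, h1', e N (N + N') b (by omega), e N' (N + N') b' (by omega), ← Finset.sum_add_distrib]
    refine Finset.sum_congr rfl fun c _ => ?_
    ring
  · simp [h2, h2']

lemma Ev.neg {p : ℝ → ℝ} {m : ℝ} (h : Ev p m) : Ev (fun x => - p x) (-m) := by
  obtain ⟨N, b, h1, h2⟩ := h
  refine ⟨N, fun c => - b c, fun x => ?_, by show - b 0 = -m; rw [h2]⟩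
  show - p x = _
  rw [h1, ← Finset.sum_neg_distrib]
  exact Finset.sum_congr rfl fun c _ => by ring

lemma Ev.sum {ι : Type*} (s : Finset ι) (p : ι → ℝ → ℝ) (m : ι → ℝ) (h : ∀ i ∈ s, Ev (p i) (m i)) :
    Ev (fun x => ∑ i ∈ s, p i x) (∑ i ∈ s, m i) := by
  classical
  induction s using Finset.induction_on with
  | empty => simpa using Ev.zero
  | insert a s ha ih =>
    have h1 := (h a (Finset.mem_insert_self a s)).add (ih fun i hi => h i (Finset.mem_insert_of_mem hi))
    refine h1.congr (fun x => ?_) ?_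
    · rw [Finset.sum_insert ha]
    · rw [Finset.sum_insert ha]

lemma sp_rec (n : ℕ) (x : ℝ) : sp (n + 2) x = x * sp (n + 1) x - sp n x := rfl

lemma Ev.prod (m : ℕ) : ∀ n : ℕ, (m : ZMod 2) = n → Ev (fun x => sp m x * sp n x) (if m = n then 1 else 0) := by
  induction m using Nat.strong_induction_on with
  | _ m ih =>
    intro n hmn
    match m, ih with
    | 0, _ =>
      have : Even n := by
        rw [← ZMod.natCast_eq_zero_iff_even]; simpa using hmn.symm
      obtain ⟨c, hc⟩ := this
      have hc' : n = 2 * c := by omega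
      subst hc'
      refine (Ev.sp2 c).congr (fun x => by simp [sp]) ?_
      by_cases h : c = 0
      · simp [h]
      · have : ¬ (0 = 2 * c) := by omega
        simp [h]
    | 1, _ =>
      have hodd : Odd n := by
        rw [← ZMod.natCast_eq_one_iff_odd]; simpa using hmn.symm
      obtain ⟨c, hc⟩ := hodd
      subst hc
      have h1 := (Ev.sp2 (c + 1)).add (Ev.sp2 c)
      refine h1.congr (fun x => ?_) ?_
      · have e := sp_rec (2 * c) x
        have e2 : 2 * (c + 1) = 2 * c + 2 := by ring
        rw [e2, e]; simp [sp]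
      · by_cases h : c = 0
        · simp [h]
        · have : ¬ (1 = 2 * c + 1) := by omega
          simp [h]
    | (m + 2), ih =>
      rcases n with _ | n
      · have : Even m := by
          rw [← ZMod.natCast_eq_zero_iff_even]
          have h2 : ((m + 2 : ℕ) : ZMod 2) = m := by
            push_cast; rw [show (2 : ZMod 2) = 0 from rfl, add_zero]
          rw [← h2, hmn]; simp
        obtain ⟨c, hc⟩ := this
        have hc' : m + 2 = 2 * (c + 1) := by omega
        rw [hc']
        refine (Ev.sp2 (c + 1)).congr (fun x => by simp [sp]) ?_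
        simp
      · have p2 : (2 : ZMod 2) = 0 := rfl
        have q : ((m : ℕ) : ZMod 2) = ((n + 1 : ℕ) : ZMod 2) := by
          have : ((m + 2 : ℕ) : ZMod 2) = m := by push_cast; rw [p2, add_zero]
          rw [← this]; exact hmn
        have a1 := ih (m + 1) (by omega) (n + 2) (by push_cast at q ⊢; rw [q, p2]; ring_nf; rw [p2]; ring)
        have a2 := ih (m + 1) (by omega) n (by push_cast at q ⊢; rw [q]; ring_nf; rw [p2]; ring)
        have a3 := ih m (by omega) (n + 1) q
        refine ((a1.add a2).add a3.neg).congr (fun x => ?_) ?_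
        · have e1 := sp_rec m x
          have e2 := sp_rec n x
          rw [e1]
          linear_combination (sp (m + 1) x) * e2
        · by_cases h1 : m = n + 1
          · have : ¬ (m + 1 = n) := by omega
            have h3 : ¬ (m + 2 = n + 1) := by omega
            have h4 : m + 1 = n + 2 := by omega
            rw [if_pos h4, if_neg this, if_pos h1, if_neg h3]; ring
          · by_cases h2 : m + 1 = n
            · have h4 : m + 2 = n + 1 := by omega
              have h5 : ¬ (m + 1 = n + 2) := by omega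
              rw [if_neg h5, if_pos h2, if_neg h1, if_pos h4]; ring
            · have h4 : ¬ (m + 2 = n + 1) := by omega
              have h5 : ¬ (m + 1 = n + 2) := by omega
              rw [if_neg h5, if_neg h2, if_neg h1, if_neg h4]; ring

lemma sp_joint (n : ℕ) (x : ℝ) : sp (n + 1) x ^ 2 - sp n x ^ 2 = sp (2 * n + 2) x ∧
    sp (n + 1) x * sp (n + 2) x - sp n x * sp (n + 1) x = sp (2 * n + 3) x := by
  induction n with
  | zero =>
    refine ⟨?_, ?_⟩
    · simp only [sp]; ring
    · simp only [sp]; ring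
  | succ n ih =>
    obtain ⟨h1, h2⟩ := ih
    have e1 := sp_rec n x
    have e2 := sp_rec (n + 1) x
    have f1 : sp (2 * (n + 1) + 2) x = x * sp (2 * n + 3) x - sp (2 * n + 2) x := sp_rec (2 * n + 2) x
    have f2 : sp (2 * (n + 1) + 3) x = x * sp (2 * (n + 1) + 2) x - sp (2 * n + 3) x :=
      sp_rec (2 * n + 3) x
    have g1 : sp (n + 1 + 1) x ^ 2 - sp (n + 1) x ^ 2 = sp (2 * (n + 1) + 2) x := by
      rw [f1, ← h1, ← h2]
      rw [show sp (n + 2) x = x * sp (n + 1) x - sp n x from e1]
      ring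
    refine ⟨g1, ?_⟩
    rw [f2, ← g1, ← h2]
    have a : sp (n + 1 + 1) x = x * sp (n + 1) x - sp n x := e1
    have b : sp (n + 1 + 2) x = x * (x * sp (n + 1) x - sp n x) - sp (n + 1) x := by
      rw [← a]; exact e2
    rw [b, a]
    ring

lemma sp_sq (n : ℕ) (x : ℝ) : sp n x ^ 2 = ∑ c ∈ Finset.range (n + 1), sp (2 * c) x := by
  induction n with
  | zero => simp [sp]
  | succ n ih =>
    rw [Finset.sum_range_succ, ← ih]
    have := (sp_joint n x).1
    have e : 2 * (n + 1) = 2 * n + 2 := by ring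
    rw [e]; linarith

lemma Ev.sq (n : ℕ) : Ev (fun x => sp n x ^ 2) 1 := by
  refine (Ev.prod n n rfl).congr (fun x => by ring) (by simp)

lemma Ev.four (n : ℕ) : Ev (fun x => sp n x ^ 4) (n + 1) := by
  have h : Ev (fun x => ∑ c ∈ Finset.range (n + 1), ∑ d ∈ Finset.range (n + 1),
      sp (2 * c) x * sp (2 * d) x) (∑ c ∈ Finset.range (n + 1), ∑ d ∈ Finset.range (n + 1),
      (if 2 * c = 2 * d then (1 : ℝ) else 0)) := by
    refine Ev.sum _ _ _ fun c _ => Ev.sum _ _ _ fun d _ => Ev.prod (2 * c) (2 * d) ?_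
    push_cast
    rw [show (2 : ZMod 2) = 0 from rfl]; ring
  refine h.congr (fun x => ?_) ?_
  · have e : sp n x ^ 4 = (sp n x ^ 2) * (sp n x ^ 2) := by ring
    rw [e, sp_sq, Finset.sum_mul_sum]
  · have : ∀ c ∈ Finset.range (n + 1), ∑ d ∈ Finset.range (n + 1),
        (if 2 * c = 2 * d then (1 : ℝ) else 0) = 1 := by
      intro c hc
      rw [Finset.sum_eq_single c]
      · simp
      · intro d _ hd
        rw [if_neg]; omega
      · intro h; exact (h hc).elim
    rw [Finset.sum_congr rfl this]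
    simp

lemma Ev.sqtwo (n : ℕ) (hn : 1 ≤ n) : Ev (fun x => sp n x ^ 2 * sp 2 x) 1 := by
  have h : Ev (fun x => ∑ c ∈ Finset.range (n + 1), sp (2 * c) x * sp 2 x)
      (∑ c ∈ Finset.range (n + 1), (if 2 * c = 2 then (1 : ℝ) else 0)) := by
    refine Ev.sum _ _ _ fun c _ => Ev.prod (2 * c) 2 ?_
    push_cast
    rw [show (2 : ZMod 2) = 0 from rfl]; ring
  refine h.congr (fun x => ?_) ?_
  · rw [sp_sq, Finset.sum_mul]
  · rw [Finset.sum_eq_single 1]
    · simp
    · intro c _ hc
      rw [if_neg]; omega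
    · intro h; exfalso; apply h; simp; omega

end TatePole.Fs
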