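import Mathlib
import Pool.Agent.Lib.MP_058a58_ag.Fs.SpOne

/-!
# The Goursat-Ribet step: from one and two curves to all
-/

open NumberField Polynomial Filter Topology
open IsDedekindDomain (HeightOneSpectrum)

namespace TatePole.Fs

variable {K : Type*} [Field K] [NumberField K]

lemma Par.congr {ι V : Type*} {t : ι → V → ℝ} {b c : ZMod 2} {g h : V → ℝ} (hg : Par t b g)
    (e : ∀ v, g v = h v) (ebc : b = c) : Par t c h := by
  have : g = h := funext e
  rw [this, ebc] at hg; exact hg

lemma Par.sp {ι V : Type*} {t : ι → V → ℝ} (i : ι) : ∀ n : ℕ, Par t n (fun v => sp n (t i v))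
  | 0 => Par.one.congr (fun _ => rfl) (by simp)
  | 1 => (Par.var i).congr (fun _ => rfl) (by simp)
  | (n + 2) => by
    have h1 := (Par.var (t := t) i).mul (Par.sp i (n + 1))
    have h2 := (Par.sp (t := t) i n).neg
    have e : (1 : ZMod 2) + ((n + 1 : ℕ) : ZMod 2) = (n : ZMod 2) := by
      push_cast
      have : (2 : ZMod 2) = 0 := rfl
      linear_combination this
    have h3 := (h1.congr (fun _ => rfl) e).add h2
    refine h3.congr (fun v => ?_) ?_
    · rw [sp_rec]; ring
    · push_cast
      have : (2 : ZMod 2) = 0 := rfl
      linear_combination -this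

lemma Par.prodsp {ι V : Type*} {t : ι → V → ℝ} (s : Finset ι) (a : ι → ℕ) :
    Par t ((∑ i ∈ s, a i : ℕ) : ZMod 2) (fun v => ∏ i ∈ s, TatePole.Fs.sp (a i) (t i v)) := by
  classical
  induction s using Finset.induction_on with
  | empty => exact Par.one.congr (fun v => by simp) (by simp)
  | insert r s hr ih =>
    refine ((Par.sp r (a r)).mul ih).congr (fun v => ?_) ?_
    · rw [Finset.prod_insert hr]
    · rw [Finset.sum_insert hr]; push_cast; rfl

lemma Par.XX {ι V : Type*} [Fintype ι] {t : ι → V → ℝ} (a : ι → ℕ) (ha : Even (∑ i, a i)) :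
    Par t 0 (TatePole.Fs.XX t a) := by
  refine (Par.prodsp (t := t) Finset.univ a).congr (fun v => rfl) ?_
  rw [ZMod.natCast_eq_zero_iff_even]; exact ha

section
variable {ι : Type} [Fintype ι] [DecidableEq ι] {t : ι → HeightOneSpectrum (𝓞 K) → ℝ}

omit [DecidableEq ι] in
lemma Bd.XX (ht : ∀ i v, |t i v| ≤ 2) (a : ι → ℕ) : Bd (XX t a) :=
  Bd.prod Finset.univ fun i _ => Bd.sp ⟨2, ht i⟩ (a i)

/-- All even characters supported in `B` have density zero. -/
def Ind (t : ι → HeightOneSpectrum (𝓞 K) → ℝ) (B : Finset ι) : Prop :=
  ∀ c : ι → ℕ, (∀ i ∉ B, c i = 0) → c ≠ 0 → HasD (XX t (fun i => 2 * c i)) 0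

/-- Products of functions of one variable. -/
lemma Ind.prod (hz : StmZK K) (ht : ∀ i v, |t i v| ≤ 2) {B : Finset ι} (hB : Ind t B)
    (p : ι → ℝ → ℝ) (m : ι → ℝ) (hp : ∀ i ∈ B, Ev (p i) (m i)) :
    HasD (fun v => ∏ i ∈ B, p i (t i v)) (∏ i ∈ B, m i) := by
  classical
  have hp' : ∀ i : ι, ∃ (N : ℕ) (b : ℕ → ℝ),
      (∀ x, (if i ∈ B then p i x else 1) = ∑ c ∈ Finset.range (N + 1), b c * sp (2 * c) x) ∧
      b 0 = (if i ∈ B then m i else 1) ∧ (i ∉ B → N = 0) := by
    intro i
    by_cases hi : i ∈ B
    · obtain ⟨N, b, h1, h2⟩ := hp i hi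
      exact ⟨N, b, fun x => by rw [if_pos hi, h1], by rw [if_pos hi, h2], fun h => (h hi).elim⟩
    · refine ⟨0, fun _ => 1, fun x => ?_, by rw [if_neg hi], fun _ => rfl⟩
      rw [if_neg hi]; simp [sp]
  choose N b h1 h2 h3 using hp'
  have e1 : ∀ v, ∏ i ∈ B, p i (t i v) =
      ∑ c ∈ Fintype.piFinset fun i => Finset.range (N i + 1),
        (∏ i, b i (c i)) * XX t (fun i => 2 * c i) v := by
    intro v
    have a1 : ∏ i ∈ B, p i (t i v) = ∏ i, (if i ∈ B then p i (t i v) else 1) := by
      rw [Finset.prod_ite_mem, Finset.univ_inter]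
    rw [a1]
    simp only [h1]
    rw [Finset.prod_univ_sum]
    refine Finset.sum_congr rfl fun c _ => ?_
    unfold XX
    rw [← Finset.prod_mul_distrib]
  have e2 : ∏ i ∈ B, m i = ∏ i, b i 0 := by
    simp only [h2]
    rw [Finset.prod_ite_mem, Finset.univ_inter]
  have h4 : ∀ c ∈ Fintype.piFinset fun i => Finset.range (N i + 1),
      HasD (fun v => (∏ i, b i (c i)) * XX t (fun i => 2 * c i) v)
        (if c = 0 then ∏ i, b i 0 else 0) := by
    intro c hc
    by_cases h0 : c = 0
    · subst h0
      rw [if_pos rfl]
      have : HasD (XX t (fun i => 2 * (0 : ι → ℕ) i)) 1 := by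
        refine (HasD.one hz).congr fun v => ?_
        simp [XX, sp]
      have h5 := this.const_mul (∏ i, b i ((0 : ι → ℕ) i))
      rw [mul_one] at h5
      exact h5
    · rw [if_neg h0]
      have hsupp : ∀ i ∉ B, c i = 0 := by
        intro i hi
        have h6 := Fintype.mem_piFinset.1 hc i
        rw [h3 i hi] at h6
        simpa using h6
      have h5 := (hB c hsupp h0).const_mul (∏ i, b i (c i))
      rw [mul_zero] at h5
      exact h5
  have h5 := HasD.sum hz (Fintype.piFinset fun i => Finset.range (N i + 1))
    (g := fun c v => (∏ i, b i (c i)) * XX t (fun i => 2 * c i) v)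
    (fun c _ => (Bd.XX ht _).const_mul _) h4
  have e3 : ∑ c ∈ Fintype.piFinset fun i => Finset.range (N i + 1),
      (if c = 0 then ∏ i, b i 0 else 0) = ∏ i, b i 0 := by
    rw [Finset.sum_ite_eq']
    rw [if_pos]
    rw [Fintype.mem_piFinset]
    intro i; simp
  rw [e3, ← e2] at h5
  exact h5.congr fun v => (e1 v).symm

lemma Ind.single (i : ι) (h : ∀ n : ℕ, 1 ≤ n → HasD (fun v => sp (2 * n) (t i v)) 0) :
    Ind t {i} := by
  intro c hc h0
  have hci : 1 ≤ c i := by
    rw [Nat.one_le_iff_ne_zero]
    intro h1
    apply h0
    funext j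
    by_cases hj : j = i
    · rw [hj]; exact h1
    · exact hc j (by simpa using hj)
  refine (h (c i) hci).congr fun v => ?_
  unfold XX
  rw [Finset.prod_eq_single i]
  · intro j _ hj
    show sp (2 * c j) (t j v) = 1
    rw [hc j (by simpa using hj)]; rfl
  · intro h; simp at h

lemma Ind.one (hz : StmZK K) (ht : ∀ i v, |t i v| ≤ 2) (i : ι)
    (h : ∀ n : ℕ, 1 ≤ n → HasD (fun v => sp (2 * n) (t i v)) 0) {p : ℝ → ℝ} {m : ℝ} (hp : Ev p m) :
    HasD (fun v => p (t i v)) m := by
  have h1 := (Ind.single i h).prod hz ht (fun _ => p) (fun _ => m) (fun _ _ => hp)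
  simpa using h1

end

theorem GOUR (K : Type*) [Field K] [NumberField K] (hCS : StmCS K) : StmGOUR K := by
  intro hz ι _ _ t ht hpar hone hpair
  have bt : ∀ i, Bd (t i) := fun i => ⟨2, ht i⟩
  have main : ∀ B : Finset ι, ∀ a : ι → ℕ, (∀ i ∉ B, a i = 0) → a ≠ 0 → Even (∑ i, a i) →
      HasD (XX t a) 0 := by
    intro B
    induction B using Finset.induction_on with
    | empty =>
      intro a ha h0
      exact (h0 (funext fun i => ha i (by simp))).elim
    | insert r B hr ih =>
      intro a ha h0 hev
      by_cases har : a r = 0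
      · refine ih a (fun i hi => ?_) h0 hev
        by_cases hir : i = r
        · rw [hir]; exact har
        · exact ha i (by simp [hir, hi])
      -- the factor at `r`
      have har1 : 1 ≤ a r := Nat.one_le_iff_ne_zero.2 har
      have hfac : ∀ v, XX t a v = (∏ i ∈ B, sp (a i) (t i v)) * sp (a r) (t r v) := by
        intro v
        unfold XX
        have : ∏ i, sp (a i) (t i v) = ∏ i ∈ insert r B, sp (a i) (t i v) := by
          symm
          refine Finset.prod_subset (Finset.subset_univ _) fun i _ hi => ?_
          rw [ha i hi]; rfl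
        rw [this, Finset.prod_insert hr, mul_comm]
      by_cases hB0 : ∀ i ∈ B, a i = 0
      · -- only `r`
        have hall : ∀ i, i ≠ r → a i = 0 := by
          intro i hi
          by_cases hiB : i ∈ B
          · exact hB0 i hiB
          · exact ha i (by simp [hi, hiB])
        have hsum : ∑ i, a i = a r := by
          rw [Finset.sum_eq_single r]
          · intro i _ hi; exact hall i hi
          · intro h; simp at h
        rw [hsum] at hev
        obtain ⟨c, hc⟩ := hev
        have hc2 : a r = 2 * c := by omega
        refine (hone r c (by omega)).congr fun v => ?_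
        rw [hfac v, Finset.prod_eq_one fun i hi => by rw [hB0 i hi]; rfl, one_mul, hc2]
      · push Not at hB0
        obtain ⟨i0, hi0, hai0⟩ := hB0
        have hInd : Ind t B := by
          intro c hc hc0
          refine ih (fun i => 2 * c i) (fun i hi => by simp [hc i hi]) ?_ ?_
          · intro h
            apply hc0
            funext i
            have := congrFun h i
            simpa using this
          · rw [← Finset.mul_sum]; exact even_two_mul _
        obtain ⟨k, hk⟩ := hpar _ (Par.XX a hev)
        by_cases hk0 : k = 0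
        · rw [hk0] at hk; simpa using hk
        exfalso
        -- f, g, h
        set f : HeightOneSpectrum (𝓞 K) → ℝ := fun v => ∏ i ∈ B, sp (a i) (t i v) with hf
        set g : HeightOneSpectrum (𝓞 K) → ℝ := fun v => sp (a r) (t r v) with hg
        set h : HeightOneSpectrum (𝓞 K) → ℝ := fun v => sp 2 (t r v) with hh
        have bf : Bd f := Bd.prod B fun i _ => Bd.sp (bt i) (a i)
        have bg : Bd g := Bd.sp (bt r) (a r)
        have bh : Bd h := Bd.sp (bt r) 2
        have f2 : HasD (fun v => f v ^ 2) 1 := by
          have := hInd.prod hz ht (fun i x => sp (a i) x ^ 2) (fun _ => 1) (fun i _ => Ev.sq (a i))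
          rw [Finset.prod_const_one] at this
          refine this.congr fun v => ?_
          rw [hf]; simp only []; rw [Finset.prod_pow]
        have g2 : HasD (fun v => g v ^ 2) 1 := Ind.one hz ht r (hone r) (Ev.sq (a r))
        have g2h : HasD (fun v => g v ^ 2 * h v) 1 := Ind.one hz ht r (hone r) (Ev.sqtwo (a r) har1)
        have fg : HasD (fun v => f v * g v) k := hk.congr hfac
        obtain ⟨_, h5⟩ := hCS hz f g h bf bg bh f2 g2 k fg hk0
        have f2h : HasD (fun v => f v ^ 2 * h v) 1 := by
          have := HasD.add hz ((bf.pow 2).sub (bg.pow 2) |>.mul bh) ((bg.pow 2).mul bh) h5 g2h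
          rw [zero_add] at this
          exact this.congr fun v => by ring
        -- expansion of `f² h`
        set a' : ι → ℕ := fun i => if i ∈ B then a i else 0 with ha'
        have hexp : ∀ v, f v ^ 2 * h v = ∑ c ∈ Fintype.piFinset fun i => Finset.range (a' i + 1),
            XX t (fun i => 2 * c i) v * h v := by
          intro v
          rw [← Finset.sum_mul]
          congr 1
          have e1 : f v ^ 2 = ∏ i, sp (a' i) (t i v) ^ 2 := by
            rw [Finset.prod_pow]
            congr 1
            rw [hf]
            simp only []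
            rw [ha']
            have : ∏ i ∈ B, sp (a i) (t i v) = ∏ i ∈ B, sp (if i ∈ B then a i else 0) (t i v) :=
              Finset.prod_congr rfl fun i hi => by rw [if_pos hi]
            rw [this]
            refine Finset.prod_subset (Finset.subset_univ _) fun i _ hi => ?_
            rw [if_neg hi]; rfl
          rw [e1]
          simp only [sp_sq]
          rw [Finset.prod_univ_sum]
          rfl
        have hkc : ∀ c : ι → ℕ, ∃ k : ℤ, HasD (fun v => XX t (fun i => 2 * c i) v * h v) k := by
          intro c
          have p1 : Par t 0 (XX t (fun i => 2 * c i)) := Par.XX _ (by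
            rw [← Finset.mul_sum]; exact even_two_mul _)
          have p2 : Par t ((2 : ℕ) : ZMod 2) h := Par.sp r 2
          exact hpar _ ((p1.mul p2).congr (fun _ => rfl) (by
            have : ((2 : ℕ) : ZMod 2) = 0 := rfl
            rw [this, add_zero]))
        choose kc hkc' using hkc
        have hne : ∃ c ∈ Fintype.piFinset fun i => Finset.range (a' i + 1), kc c ≠ 0 := by
          by_contra hcon
          push Not at hcon
          have h6 := HasD.sum hz (Fintype.piFinset fun i => Finset.range (a' i + 1))
            (g := fun c v => XX t (fun i => 2 * c i) v * h v) (c := fun _ => 0)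
            (fun c _ => (Bd.XX ht _).mul bh) (fun c hc => by
              have h7 := hkc' c
              rw [hcon c hc] at h7
              simpa using h7)
          rw [Finset.sum_const_zero] at h6
          have h8 := f2h.unique (h6.congr fun v => (hexp v).symm)
          exact one_ne_zero h8
        obtain ⟨c, hc, hcne⟩ := hne
        have hcB : ∀ i ∉ B, c i = 0 := by
          intro i hi
          have h6 := Fintype.mem_piFinset.1 hc i
          rw [ha'] at h6
          simp only [if_neg hi] at h6
          simpa using h6
        have hc0 : c ≠ 0 := by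
          intro hc0
          have h7 := hkc' c
          have h8 : HasD (fun v => XX t (fun i => 2 * c i) v * h v) 0 := by
            refine (hone r 1 le_rfl).congr fun v => ?_
            rw [hc0]
            simp [XX, hh, sp]
          have h9 := h7.unique h8
          exact hcne (by exact_mod_cast h9)
        set f' : HeightOneSpectrum (𝓞 K) → ℝ := XX t (fun i => 2 * c i) with hf'
        have hf'B : ∀ v, f' v = ∏ i ∈ B, sp (2 * c i) (t i v) := by
          intro v
          rw [hf']
          unfold XX
          symm
          refine Finset.prod_subset (Finset.subset_univ _) fun i _ hi => ?_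
          rw [hcB i hi]; rfl
        have bf' : Bd f' := Bd.XX ht _
        have f'2 : HasD (fun v => f' v ^ 2) 1 := by
          have := hInd.prod hz ht (fun i x => sp (2 * c i) x ^ 2) (fun _ => 1)
            (fun i _ => Ev.sq (2 * c i))
          rw [Finset.prod_const_one] at this
          refine this.congr fun v => ?_
          rw [hf'B, Finset.prod_pow]
        have f'4 : HasD (fun v => f' v ^ 4) (∏ i ∈ B, ((2 * c i : ℕ) + 1 : ℝ)) := by
          have := hInd.prod hz ht (fun i x => sp (2 * c i) x ^ 4) (fun i => ((2 * c i : ℕ) : ℝ) + 1)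
            (fun i _ => Ev.four (2 * c i))
          refine this.congr fun v => ?_
          rw [hf'B, Finset.prod_pow]
        have h2 : HasD (fun v => h v ^ 2) 1 := Ind.one hz ht r (hone r) (Ev.sq 2)
        have h4 : HasD (fun v => h v ^ 4) 3 := by
          have := Ind.one hz ht r (hone r) (Ev.four 2)
          norm_num at this
          exact this
        obtain ⟨_, q1⟩ := hCS hz f' h (fun v => f' v ^ 2) bf' bh (bf'.pow 2) f'2 h2 (kc c)
          (hkc' c) hcne
        obtain ⟨_, q2⟩ := hCS hz f' h (fun v => h v ^ 2) bf' bh (bh.pow 2) f'2 h2 (kc c)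
          (hkc' c) hcne
        have q3 : HasD (fun v => f' v ^ 4 - h v ^ 4) 0 := by
          have := HasD.add hz (((bf'.pow 2).sub (bh.pow 2)).mul (bf'.pow 2))
            (((bf'.pow 2).sub (bh.pow 2)).mul (bh.pow 2)) q1 q2
          rw [zero_add] at this
          exact this.congr fun v => by ring
        have q4 := HasD.sub hz (bf'.pow 4) (bh.pow 4) f'4 h4
        have q5 := q4.unique q3
        have q6 : (∏ i ∈ B, (2 * c i + 1) : ℕ) = 3 := by
          have : ((∏ i ∈ B, (2 * c i + 1) : ℕ) : ℝ) = 3 := by
            push_cast
            have h9 : ∏ i ∈ B, ((2 * c i : ℕ) + 1 : ℝ) = ∏ i ∈ B, (2 * (c i : ℝ) + 1) :=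
              Finset.prod_congr rfl fun i _ => by push_cast; ring
            rw [← h9]; linarith
          exact_mod_cast this
        -- exactly one `c i` equals one
        obtain ⟨j, hj⟩ : ∃ j, c j ≠ 0 := by
          by_contra hcon
          push Not at hcon
          exact hc0 (funext hcon)
        have hjB : j ∈ B := by
          by_contra hjB
          exact hj (hcB j hjB)
        have q7 := Finset.mul_prod_erase B (fun i => 2 * c i + 1) hjB
        rw [q6] at q7
        have q8 : 1 ≤ ∏ i ∈ B.erase j, (2 * c i + 1) := Finset.one_le_prod' fun i _ => by omega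
        have q9 : c j = 1 := by
          have : 2 * c j + 1 ≤ 3 := by
            calc 2 * c j + 1 ≤ (2 * c j + 1) * ∏ i ∈ B.erase j, (2 * c i + 1) :=
                  Nat.le_mul_of_pos_right _ (by omega)
              _ = 3 := q7
          omega
        have q10 : ∏ i ∈ B.erase j, (2 * c i + 1) = 1 := by
          simp only [q9] at q7
          omega
        have q11 : ∀ i ∈ B.erase j, c i = 0 := by
          intro i hi
          have h9 := Finset.mul_prod_erase (B.erase j) (fun i => 2 * c i + 1) hi
          rw [q10] at h9
          have h10 := Nat.eq_one_of_mul_eq_one_right h9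
          omega
        have hjr : j ≠ r := fun h => hr (h ▸ hjB)
        have q12 : HasD (fun v => f' v * h v) 0 := by
          refine (hpair j r hjr).congr fun v => ?_
          have : f' v = sp 2 (t j v) := by
            rw [hf'B, ← Finset.mul_prod_erase B _ hjB, q9]
            rw [Finset.prod_eq_one fun i hi => by rw [q11 i hi]; rfl, mul_one]
          rw [this]
        have q13 := (hkc' c).unique q12
        exact hcne (by exact_mod_cast q13)
  intro a h0 hev
  exact main Finset.univ a (fun i hi => (hi (Finset.mem_univ i)).elim) h0 hev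

end TatePole.Fs
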