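import Mathlib
import Pool.Agent.Lib.MP_058a58_ag.Fs.Stm

/-!
# The expansion of `(1 + x T + T²)^n` in Chebyshev polynomials
-/

open NumberField Polynomial Filter Topology
open IsDedekindDomain (HeightOneSpectrum)

namespace TatePole.Fs

theorem nar_pow (x : ℝ) (z z' : ℂ) (h1 : z * z' = 1) (h2 : z + z' = x) : ∀ k : ℕ,
    z ^ (k + 2) + z' ^ (k + 2) = ((sp (k + 2) x : ℝ) : ℂ) - ((sp k x : ℝ) : ℂ)
  | 0 => by
    have e : z ^ (0 + 2) + z' ^ (0 + 2) = (z + z') ^ 2 - 2 * (z * z') := by ring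
    rw [e, h1, h2]
    simp only [sp]
    push_cast
    ring
  | 1 => by
    have e : z ^ (1 + 2) + z' ^ (1 + 2) = (z + z') ^ 3 - 3 * (z * z') * (z + z') := by ring
    rw [e, h1, h2]
    simp only [sp]
    push_cast
    ring
  | (k + 2) => by
    have e : z ^ (k + 2 + 2) + z' ^ (k + 2 + 2) =
        (z + z') * (z ^ (k + 1 + 2) + z' ^ (k + 1 + 2)) -
          (z * z') * (z ^ (k + 2) + z' ^ (k + 2)) := by ring
    rw [e, h1, h2, nar_pow x z z' h1 h2 (k + 1), nar_pow x z z' h1 h2 k]
    have e1 : sp (k + 2 + 2) x = x * sp (k + 2 + 1) x - sp (k + 2) x := rfl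
    have e2 : sp (k + 2) x = x * sp (k + 1) x - sp k x := rfl
    have e3 : sp (k + 1 + 2) x = sp (k + 2 + 1) x := rfl
    rw [e1, e3, e2]
    push_cast
    ring

theorem nar_sum : ∀ (k : ℕ) (c : ℕ → ℕ → ℤ), (∀ i j, c i j = c j i) → ∃ b : ℕ → ℤ,
    (∀ (x : ℝ) (z z' : ℂ), z * z' = 1 → z + z' = x →
      ∑ p ∈ Finset.HasAntidiagonal.antidiagonal k, (c p.1 p.2 : ℂ) * (z ^ p.1 * z' ^ p.2) =
        ∑ a ∈ Finset.range (k + 1), (b a : ℂ) * ((sp a x : ℝ) : ℂ)) ∧
    (∀ a, b a ≠ 0 → a ≤ k ∧ (a : ZMod 2) = k) ∧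
    b 0 = if Even k then c (k / 2) (k / 2) -
      (if k / 2 = 0 then 0 else c (k / 2 + 1) (k / 2 - 1)) else 0
  | 0, c, hc => by
    refine ⟨fun a => if a = 0 then c 0 0 else 0, ?_, ?_, ?_⟩
    · intro x z z' h1 h2
      simp [sp]
    · intro a ha
      have : a = 0 := by
        by_contra h
        exact ha (if_neg h)
      subst this
      simp
    · simp
  | 1, c, hc => by
    refine ⟨fun a => if a = 1 then c 1 0 else 0, ?_, ?_, ?_⟩
    · intro x z z' h1 h2
      rw [Finset.Nat.sum_antidiagonal_succ]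
      simp only [Finset.sum_range_succ, Finset.range_zero, Finset.sum_empty,
        Finset.Nat.antidiagonal_zero, Finset.sum_singleton, sp]
      rw [hc 0 1]
      simp only [← h2]
      simp
      ring
    · intro a ha
      have : a = 1 := by
        by_contra h
        exact ha (if_neg h)
      subst this
      simp
    · simp
  | (k + 2), c, hc => by
    obtain ⟨b, hb1, hb2, hb3⟩ := nar_sum k (fun i j => c (i + 1) (j + 1))
      (fun i j => hc (i + 1) (j + 1))
    refine ⟨fun a => b a + (if a = k + 2 then c (k + 2) 0 else 0) -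
      (if a = k then c (k + 2) 0 else 0), ?_, ?_, ?_⟩
    · intro x z z' h1 h2
      rw [Finset.Nat.sum_antidiagonal_succ, Finset.Nat.sum_antidiagonal_succ']
      have h3 := hb1 x z z' h1 h2
      have h4 : ∑ p ∈ Finset.HasAntidiagonal.antidiagonal k,
          ((c (p.1 + 1) (p.2 + 1) : ℤ) : ℂ) * (z ^ (p.1 + 1) * z' ^ (p.2 + 1)) =
          ∑ a ∈ Finset.range (k + 1), (b a : ℂ) * ((sp a x : ℝ) : ℂ) := by
        rw [← h3]
        refine Finset.sum_congr rfl fun p _ => ?_
        have e : z ^ (p.1 + 1) * z' ^ (p.2 + 1) = (z * z') * (z ^ p.1 * z' ^ p.2) := by ring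
        rw [e, h1, one_mul]
      have h5 := nar_pow x z z' h1 h2 k
      have hbig : ∀ a, k < a → b a = 0 := by
        intro a ha
        by_contra h
        have := (hb2 a h).1
        omega
      have h6 : ∑ a ∈ Finset.range (k + 2 + 1), ((b a + (if a = k + 2 then c (k + 2) 0 else 0) -
          (if a = k then c (k + 2) 0 else 0) : ℤ) : ℂ) * ((sp a x : ℝ) : ℂ) =
          ∑ a ∈ Finset.range (k + 1), (b a : ℂ) * ((sp a x : ℝ) : ℂ) +
          (c (k + 2) 0 : ℂ) * (((sp (k + 2) x : ℝ) : ℂ) - ((sp k x : ℝ) : ℂ)) := by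
        have e1 : ∀ a ∈ Finset.range (k + 2 + 1),
            ((b a + (if a = k + 2 then c (k + 2) 0 else 0) -
              (if a = k then c (k + 2) 0 else 0) : ℤ) : ℂ) * ((sp a x : ℝ) : ℂ) =
            (b a : ℂ) * ((sp a x : ℝ) : ℂ) +
            (if a = k + 2 then (c (k + 2) 0 : ℂ) * ((sp a x : ℝ) : ℂ) else 0) -
            (if a = k then (c (k + 2) 0 : ℂ) * ((sp a x : ℝ) : ℂ) else 0) := by
          intro a _
          split_ifs <;> push_cast <;> ring
        rw [Finset.sum_congr rfl e1, Finset.sum_sub_distrib, Finset.sum_add_distrib,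
          Finset.sum_ite_eq', Finset.sum_ite_eq', if_pos (Finset.mem_range.mpr (by omega)),
          if_pos (Finset.mem_range.mpr (by omega))]
        have e2 : ∑ a ∈ Finset.range (k + 2 + 1), (b a : ℂ) * ((sp a x : ℝ) : ℂ) =
            ∑ a ∈ Finset.range (k + 1), (b a : ℂ) * ((sp a x : ℝ) : ℂ) := by
          rw [Finset.sum_range_succ, Finset.sum_range_succ, hbig (k + 2) (by omega),
            hbig (k + 1) (by omega)]
          simp
        rw [e2]
        ring
      rw [h6, ← h5, ← h4, hc 0 (k + 2)]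
      simp only [pow_zero, one_mul, mul_one]
      ring
    · intro a ha
      have hpar : ((k + 2 : ℕ) : ZMod 2) = (k : ZMod 2) := by
        push_cast
        have : (2 : ZMod 2) = 0 := rfl
        rw [this, add_zero]
      by_cases ha1 : a = k + 2
      · subst ha1
        exact ⟨le_refl _, rfl⟩
      by_cases ha2 : a = k
      · subst ha2
        exact ⟨by omega, hpar.symm⟩
      · simp only [if_neg ha1, if_neg ha2, add_zero, sub_zero] at ha
        obtain ⟨h1, h2⟩ := hb2 a ha
        exact ⟨by omega, by rw [h2, hpar]⟩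
    · have e0 : ¬ (0 : ℕ) = k + 2 := by omega
      have e3 : (k + 2) / 2 = k / 2 + 1 := by omega
      have e4 : Even (k + 2) ↔ Even k := by
        rw [Nat.even_add]
        simp
      simp only [if_neg e0, add_zero, hb3, e3, e4]
      by_cases hk : Even k
      · rw [if_pos hk, if_pos hk, if_neg (by omega : ¬ k / 2 + 1 = 0)]
        by_cases hk0 : k = 0
        · subst hk0
          simp
        · have hk2 : ¬ k / 2 = 0 := by
            obtain ⟨l, hl⟩ := hk
            omega
          rw [if_neg hk2, if_neg (by omega : ¬ (0 : ℕ) = k), sub_zero]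
          have e5 : k / 2 - 1 + 1 = k / 2 + 1 - 1 := by omega
          rw [e5]
      · rw [if_neg hk, if_neg hk, if_neg, sub_zero]
        rintro rfl
        exact hk (by simp)

theorem nar_coeff (z : ℂ) (n i : ℕ) :
    ((1 + C z * X : ℂ[X]) ^ n).coeff i = (n.choose i : ℂ) * z ^ i := by
  have h : (1 + C z * X : ℂ[X]) ^ n = ∑ m ∈ Finset.range (n + 1),
      (C (z ^ m * (n.choose m : ℂ)) * X ^ m : ℂ[X]) := by
    rw [add_comm, add_pow]
    refine Finset.sum_congr rfl fun m _ => ?_
    rw [one_pow, mul_one, mul_pow, map_mul, C_pow]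
    simp only [map_natCast]
    ring
  rw [h, finsetSum_coeff]
  simp only [coeff_C_mul_X_pow]
  rw [Finset.sum_ite_eq]
  by_cases hi : i ∈ Finset.range (n + 1)
  · rw [if_pos hi]
    ring
  · rw [if_neg hi, Nat.choose_eq_zero_of_lt (by
      rw [Finset.mem_range] at hi
      omega)]
    simp

theorem NAR : StmNAR := by
  intro n k
  obtain ⟨b, hb1, hb2, hb3⟩ := nar_sum k (fun i j => (n.choose i : ℤ) * (n.choose j : ℤ))
    (fun i j => mul_comm _ _)
  refine ⟨b, ?_, fun a ha => (hb2 a ha).2, ?_⟩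
  · intro x
    obtain ⟨w, hw⟩ := IsAlgClosed.exists_pow_nat_eq ((x : ℂ) ^ 2 - 4) (show 0 < 2 by norm_num)
    set z : ℂ := (x + w) / 2 with hz
    set z' : ℂ := (x - w) / 2 with hz'
    have h1 : z * z' = 1 := by
      have : z * z' = ((x : ℂ) ^ 2 - w ^ 2) / 4 := by
        rw [hz, hz']
        ring
      rw [this, hw]
      ring
    have h2 : z + z' = x := by
      rw [hz, hz']
      ring
    have h3 := hb1 x z z' h1 h2
    have h4 : (1 + C (x : ℂ) * X + X ^ 2 : ℂ[X]) = (1 + C z * X) * (1 + C z' * X) := by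
      have e : (1 + C z * X) * (1 + C z' * X) =
          (1 + (C z + C z') * X + (C z * C z') * X ^ 2 : ℂ[X]) := by ring
      rw [e, ← C_add, ← C_mul, h1, h2]
      simp
    have h5 : (((1 + C x * X + X ^ 2 : ℝ[X]) ^ n).coeff k : ℂ) =
        ((1 + C (x : ℂ) * X + X ^ 2 : ℂ[X]) ^ n).coeff k := by
      have e : (1 + C (x : ℂ) * X + X ^ 2 : ℂ[X]) ^ n =
          ((1 + C x * X + X ^ 2 : ℝ[X]) ^ n).map Complex.ofRealHom := by
        simp [Polynomial.map_pow, Polynomial.map_add, Polynomial.map_mul]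
      rw [e, coeff_map]
      rfl
    have h6 : (((1 + C x * X + X ^ 2 : ℝ[X]) ^ n).coeff k : ℂ) =
        ∑ a ∈ Finset.range (k + 1), (b a : ℂ) * ((sp a x : ℝ) : ℂ) := by
      rw [h5, h4, mul_pow, coeff_mul, ← h3]
      refine Finset.sum_congr rfl fun p _ => ?_
      rw [nar_coeff, nar_coeff]
      push_cast
      ring
    have h7 : (((1 + C x * X + X ^ 2 : ℝ[X]) ^ n).coeff k : ℂ) =
        ((∑ a ∈ Finset.range (k + 1), (b a : ℝ) * sp a x : ℝ) : ℂ) := by
      rw [h6]
      push_cast
      rfl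
    exact_mod_cast h7
  · rw [hb3]
    by_cases hk : Even k
    · rw [if_pos hk, if_pos hk]
      by_cases h0 : k / 2 = 0
      · rw [if_pos h0, h0]
        simp
      · rw [if_neg h0, sq]
        by_cases hle : k / 2 ≤ n + 1
        · have e1 : n.choose (n + 1 - k / 2) = n.choose (k / 2 - 1) := by
            have e2 : n + 1 - k / 2 = n - (k / 2 - 1) := by omega
            rw [e2, Nat.choose_symm (by omega)]
          rw [e1]
        · rw [Nat.choose_eq_zero_of_lt (by omega : n < k / 2 + 1)]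
          simp
    · rw [if_neg hk, if_neg hk]

end TatePole.Fs
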