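import Mathlib
import Pool.Agent.Lib.MP_058a58_ag.Fs.Dens

/-!
# Triangularity: from the traces in the middle degree to all polynomials of even degree
-/

open NumberField Polynomial Filter Topology
open IsDedekindDomain (HeightOneSpectrum)

namespace TatePole.Fs

section mono
variable {ι V : Type*} [Fintype ι]

/-- the monomial -/
def MM (t : ι → V → ℝ) (a : ι → ℕ) (v : V) : ℝ := ∏ i, t i v ^ a i

/-- the coefficients -/
noncomputable def qq (A B k : ℕ) : ℤ := (X ^ A * (1 + X ^ 2) ^ B : ℤ[X]).coeff k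

lemma qq_self (A : ℕ) : qq A 0 A = 1 := by
  unfold qq
  rw [pow_zero, mul_one, coeff_X_pow, if_pos rfl]

lemma qq_odd {A B k : ℕ} (hA : Odd A) (hk : Even k) : qq A B k = 0 := by
  unfold qq
  rw [coeff_X_pow_mul']
  by_cases h : A ≤ k
  · rw [if_pos h]
    have h1 : ((1 + X ^ 2) ^ B : ℤ[X]) = expand ℤ 2 ((1 + X) ^ B) := by
      rw [map_pow, map_add, map_one, expand_X]
    rw [h1, coeff_expand (by norm_num), if_neg]
    intro h2
    have h3 : Even (k - A) := even_iff_two_dvd.2 h2
    rw [Nat.even_sub h] at h3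
    exact (Nat.not_even_iff_odd.2 hA) (h3.1 hk)
  · rw [if_neg h]

lemma coeff_real (A B k : ℕ) : (X ^ A * (1 + X ^ 2) ^ B : ℝ[X]).coeff k = (qq A B k : ℝ) := by
  unfold qq
  have h : (X ^ A * (1 + X ^ 2) ^ B : ℝ[X]) =
      (X ^ A * (1 + X ^ 2) ^ B : ℤ[X]).map (Int.castRingHom ℝ) := by
    simp
  rw [h, coeff_map]
  rfl

lemma expand_one (x : ℝ) (n : ℕ) : (1 + C x * X + X ^ 2 : ℝ[X]) ^ n =
    ∑ a ∈ Finset.range (n + 1), C ((n.choose a : ℝ) * x ^ a) * (X ^ a * (1 + X ^ 2) ^ (n - a)) := by
  have h : (1 + C x * X + X ^ 2 : ℝ[X]) = C x * X + (1 + X ^ 2) := by ring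
  rw [h, add_pow]
  refine Finset.sum_congr rfl fun a _ => ?_
  rw [mul_pow, map_mul, map_pow, map_natCast]
  ring

lemma Gf_expand [DecidableEq ι] (t : ι → V → ℝ) (n : ι → ℕ) (m : ℕ) (v : V) : Gf t n m v =
    ∑ a ∈ Fintype.piFinset fun i => Finset.range (n i + 1),
      (((∏ i, ((n i).choose (a i) : ℤ)) * qq (∑ i, a i) (∑ i, (n i - a i)) (2 * m) : ℤ) : ℝ) *
        MM t a v := by
  unfold Gf
  have h1 : (∏ i, (1 + C (t i v) * X + X ^ 2 : ℝ[X]) ^ n i) =
      ∑ a ∈ Fintype.piFinset fun i => Finset.range (n i + 1),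
        ∏ i, (C (((n i).choose (a i) : ℝ) * t i v ^ a i) *
          (X ^ a i * (1 + X ^ 2) ^ (n i - a i))) := by
    rw [Finset.prod_congr rfl fun i _ => expand_one (t i v) (n i), Finset.prod_univ_sum]
  rw [h1, finsetSum_coeff]
  refine Finset.sum_congr rfl fun a _ => ?_
  rw [Finset.prod_mul_distrib, Finset.prod_mul_distrib, Finset.prod_pow_eq_pow_sum,
    Finset.prod_pow_eq_pow_sum, ← map_prod, coeff_C_mul, coeff_real, Finset.prod_mul_distrib]
  unfold MM
  push_cast
  ring

end mono

section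
variable {K : Type*} [Field K] [NumberField K]

/-- bounded, with an integral strict size -/
def IS (g : HeightOneSpectrum (𝓞 K) → ℝ) : Prop := Bd g ∧ ∃ k : ℤ, Str g k

lemma IS.add (hz : StmZK K) {g h : HeightOneSpectrum (𝓞 K) → ℝ} (hg : IS g) (hh : IS h) :
    IS (fun v => g v + h v) := by
  obtain ⟨bg, k, hk⟩ := hg
  obtain ⟨bh, l, hl⟩ := hh
  refine ⟨bg.add bh, k + l, ?_⟩
  push_cast
  exact Str.add hz bg bh hk hl

lemma IS.int_mul (c : ℤ) {g : HeightOneSpectrum (𝓞 K) → ℝ} (hg : IS g) :
    IS (fun v => (c : ℝ) * g v) := by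
  obtain ⟨bg, k, hk⟩ := hg
  refine ⟨bg.const_mul _, c * k, ?_⟩
  push_cast
  exact hk.const_mul _

lemma IS.zero (hz : StmZK K) : IS (fun _ : HeightOneSpectrum (𝓞 K) => (0 : ℝ)) := by
  refine ⟨Bd.const 0, 0, ?_⟩
  push_cast
  exact Str.const hz 0

lemma IS.sum (hz : StmZK K) {κ : Type*} (s : Finset κ) {g : κ → HeightOneSpectrum (𝓞 K) → ℝ}
    (hg : ∀ i ∈ s, IS (g i)) : IS (fun v => ∑ i ∈ s, g i v) := by
  classical
  induction s using Finset.induction_on with
  | empty =>
    simp only [Finset.sum_empty]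
    exact IS.zero hz
  | insert a s ha ih =>
    simp only [Finset.sum_insert ha]
    exact IS.add hz (hg a (Finset.mem_insert_self a s))
      (ih fun i hi => hg i (Finset.mem_insert_of_mem hi))

variable {ι : Type} [Fintype ι] [DecidableEq ι] {t : ι → HeightOneSpectrum (𝓞 K) → ℝ}

omit [DecidableEq ι] in
lemma MM_bd (ht : ∀ i v, |t i v| ≤ 2) (a : ι → ℕ) : Bd (MM t a) :=
  Bd.prod Finset.univ fun i _ => Bd.pow ⟨2, ht i⟩ (a i)

/-- all monomials of even degree -/
lemma MM_IS (hz : StmZK K) (ht : ∀ i v, |t i v| ≤ 2)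
    (hG : ∀ (n : ι → ℕ) (m : ℕ), ∑ i, n i = 2 * m → ∃ k : ℤ, Str (Gf t n m) k) :
    ∀ (m : ℕ) (n : ι → ℕ), ∑ i, n i = 2 * m → IS (MM t n) := by
  intro m
  induction m using Nat.strong_induction_on with
  | _ m ih =>
    intro n hn
    set S := Fintype.piFinset fun i => Finset.range (n i + 1) with hS
    have hnS : n ∈ S := by
      rw [hS, Fintype.mem_piFinset]
      intro i
      rw [Finset.mem_range]
      omega
    let c : (ι → ℕ) → ℤ := fun a =>
      (∏ i, ((n i).choose (a i) : ℤ)) * qq (∑ i, a i) (∑ i, (n i - a i)) (2 * m)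
    have hc1 : c n = 1 := by
      show (∏ i, ((n i).choose (n i) : ℤ)) * qq (∑ i, n i) (∑ i, (n i - n i)) (2 * m) = 1
      have h1 : ∑ i, (n i - n i) = 0 := Finset.sum_eq_zero fun i _ => Nat.sub_self _
      have h2 : (∏ i, ((n i).choose (n i) : ℤ)) = 1 :=
        Finset.prod_eq_one fun i _ => by rw [Nat.choose_self, Nat.cast_one]
      rw [h1, h2, hn, qq_self, one_mul]
    have hrest : IS (fun v => ∑ a ∈ S.erase n, (c a : ℝ) * MM t a v) := by
      refine IS.sum hz _ fun a ha => ?_
      obtain ⟨hne, haS⟩ := Finset.mem_erase.1 ha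
      rw [hS, Fintype.mem_piFinset] at haS
      have hle : ∀ i, a i ≤ n i := fun i => Nat.lt_succ_iff.1 (Finset.mem_range.1 (haS i))
      have hlt : ∑ i, a i < ∑ i, n i := by
        obtain ⟨i, hi⟩ := Function.ne_iff.1 hne
        exact Finset.sum_lt_sum (fun j _ => hle j) ⟨i, Finset.mem_univ i, lt_of_le_of_ne (hle i) hi⟩
      rcases Nat.even_or_odd (∑ i, a i) with he | ho
      · obtain ⟨r, hr⟩ := he
        exact (ih r (by omega) a (by omega)).int_mul _
      · have h0 : c a = 0 := by
          show (∏ i, ((n i).choose (a i) : ℤ)) * qq (∑ i, a i) (∑ i, (n i - a i)) (2 * m) = 0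
          rw [qq_odd ho ⟨m, two_mul m⟩, mul_zero]
        rw [h0]
        simp only [Int.cast_zero, zero_mul]
        exact IS.zero hz
    have hG' : IS (Gf t n m) := by
      refine ⟨?_, hG n m hn⟩
      have h1 : Gf t n m = fun v => ∑ a ∈ S, (c a : ℝ) * MM t a v := funext fun v => Gf_expand t n m v
      rw [h1]
      exact Bd.sum S fun a _ => (MM_bd ht a).const_mul _
    have h2 := IS.add hz hG' (hrest.int_mul (-1))
    have h3 : (fun v => Gf t n m v + ((-1 : ℤ) : ℝ) * ∑ a ∈ S.erase n, (c a : ℝ) * MM t a v) =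
        MM t n := by
      funext v
      rw [Gf_expand t n m v, ← Finset.add_sum_erase S _ hnS]
      show (c n : ℝ) * MM t n v + (∑ a ∈ S.erase n, (c a : ℝ) * MM t a v) +
        ((-1 : ℤ) : ℝ) * ∑ a ∈ S.erase n, (c a : ℝ) * MM t a v = MM t n v
      rw [hc1]
      push_cast
      ring
    rwa [h3] at h2

omit [NumberField K] [DecidableEq ι] in
/-- `Par` in terms of monomials -/
lemma Par.mem [DecidableEq ι] {b : ZMod 2} {g : HeightOneSpectrum (𝓞 K) → ℝ} (h : Par t b g) :
    g ∈ AddSubgroup.closure {g | ∃ a : ι → ℕ, ((∑ i, a i : ℕ) : ZMod 2) = b ∧ g = MM t a} := by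
  induction h with
  | one =>
    refine AddSubgroup.subset_closure ⟨0, by simp, ?_⟩
    funext v
    simp [MM]
  | var i =>
    refine AddSubgroup.subset_closure ⟨Pi.single i 1, by simp, ?_⟩
    funext v
    unfold MM
    rw [Finset.prod_eq_single i]
    · simp
    · intro j _ hj
      rw [Pi.single_eq_of_ne hj, pow_zero]
    · intro hi
      exact absurd (Finset.mem_univ i) hi
  | add _ _ ih1 ih2 => exact add_mem ih1 ih2
  | neg _ ih => exact neg_mem ih
  | @mul b c g h _ _ ih1 ih2 =>
    refine AddSubgroup.closure_induction (p := fun g _ => (fun v => g v * h v) ∈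
      AddSubgroup.closure {g | ∃ a : ι → ℕ, ((∑ i, a i : ℕ) : ZMod 2) = b + c ∧ g = MM t a})
      ?_ ?_ ?_ ?_ ih1
    · rintro _ ⟨a, ha, rfl⟩
      refine AddSubgroup.closure_induction (p := fun h _ => (fun v => MM t a v * h v) ∈
        AddSubgroup.closure {g | ∃ a : ι → ℕ, ((∑ i, a i : ℕ) : ZMod 2) = b + c ∧ g = MM t a})
        ?_ ?_ ?_ ?_ ih2
      · rintro _ ⟨a', ha', rfl⟩
        refine AddSubgroup.subset_closure ⟨a + a', ?_, ?_⟩
        · rw [← ha, ← ha', ← Nat.cast_add, ← Finset.sum_add_distrib]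
          rfl
        · funext v
          unfold MM
          rw [← Finset.prod_mul_distrib]
          exact Finset.prod_congr rfl fun i _ => by rw [Pi.add_apply, pow_add]
      · have h0 : (fun v => MM t a v * (0 : HeightOneSpectrum (𝓞 K) → ℝ) v) = 0 := by
          funext v
          simp
        rw [h0]
        exact zero_mem _
      · intro x y _ _ hx hy
        have h0 : (fun v => MM t a v * (x + y) v) =
            (fun v => MM t a v * x v) + fun v => MM t a v * y v := by
          funext v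
          simp [mul_add]
        rw [h0]
        exact add_mem hx hy
      · intro x _ hx
        have h0 : (fun v => MM t a v * (-x) v) = -fun v => MM t a v * x v := by
          funext v
          simp
        rw [h0]
        exact neg_mem hx
    · have h0 : (fun v => (0 : HeightOneSpectrum (𝓞 K) → ℝ) v * h v) = 0 := by
        funext v
        simp
      rw [h0]
      exact zero_mem _
    · intro x y _ _ hx hy
      have h0 : (fun v => (x + y) v * h v) = (fun v => x v * h v) + fun v => y v * h v := by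
        funext v
        simp [add_mul]
      rw [h0]
      exact add_mem hx hy
    · intro x _ hx
      have h0 : (fun v => (-x) v * h v) = -fun v => x v * h v := by
        funext v
        simp
      rw [h0]
      exact neg_mem hx

end

/-- [TRI] -/
theorem TRI (K : Type*) [Field K] [NumberField K] : StmTRI K := by
  intro hz ι _ _ t ht hG g hg
  have h1 := Par.mem hg
  have h2 : IS g := by
    refine AddSubgroup.closure_induction (p := fun g _ => IS g) ?_ ?_ ?_ ?_ h1
    · rintro _ ⟨a, ha, rfl⟩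
      have h3 : Even (∑ i, a i) := (ZMod.natCast_eq_zero_iff_even).1 ha
      obtain ⟨r, hr⟩ := h3
      exact MM_IS hz ht hG r a (by omega)
    · exact IS.zero hz
    · intro x y _ _ hx hy
      exact IS.add hz hx hy
    · intro x _ hx
      have h4 := hx.int_mul (-1)
      have h5 : (fun v => ((-1 : ℤ) : ℝ) * x v) = -x := by
        funext v
        simp
      rwa [h5] at h4
  exact h2.2

end TatePole.Fs
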