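import Mathlib
import Pool.Agent.Lib.MP_058a58_ag.Fs.SpOne
import Pool.Agent.Lib.MP_058a58_ag.Fs.Nar
import Pool.Agent.Lib.MP_058a58_ag.Fs.Tri

/-!
# Chebyshev polynomials: expansions of bounded degree
-/

open NumberField Polynomial Filter Topology
open IsDedekindDomain (HeightOneSpectrum)

namespace TatePole.Fs

/-- The Chebyshev polynomials as polynomials. -/
noncomputable def spP : ℕ → ℤ[X]
  | 0 => 1
  | 1 => X
  | (n + 2) => X * spP (n + 1) - spP n

lemma spP_rec (n : ℕ) : spP (n + 2) = X * spP (n + 1) - spP n := rfl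

lemma spP_coeff_big : ∀ (n a : ℕ), n < a → (spP n).coeff a = 0
  | 0, a, h => by
    show (1 : ℤ[X]).coeff a = 0
    rw [coeff_one, if_neg (by omega)]
  | 1, a, h => by
    show (X : ℤ[X]).coeff a = 0
    rw [coeff_X, if_neg (by omega)]
  | (n + 2), a, h => by
    obtain ⟨a, rfl⟩ := Nat.exists_eq_add_of_lt (Nat.zero_lt_of_lt h)
    rw [spP_rec, coeff_sub, zero_add, coeff_X_mul, spP_coeff_big (n + 1) a (by omega),
      spP_coeff_big n (a + 1) (by omega), sub_zero]

lemma spP_coeff_self : ∀ n : ℕ, (spP n).coeff n = 1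
  | 0 => by
    show (1 : ℤ[X]).coeff 0 = 1
    rw [coeff_one_zero]
  | 1 => by
    show (X : ℤ[X]).coeff 1 = 1
    rw [coeff_X_one]
  | (n + 2) => by
    rw [spP_rec, coeff_sub, show n + 2 = (n + 1) + 1 from rfl, coeff_X_mul,
      spP_coeff_self (n + 1), spP_coeff_big n (n + 1 + 1) (by omega), sub_zero]

lemma spP_parity : ∀ (n a : ℕ), (spP n).coeff a ≠ 0 → (a : ZMod 2) = n
  | 0, a, h => by
    have h1 : (1 : ℤ[X]).coeff a ≠ 0 := h
    rw [coeff_one] at h1
    have : a = 0 := by
      by_contra h2
      exact h1 (if_neg h2)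
    rw [this]
  | 1, a, h => by
    have h1 : (X : ℤ[X]).coeff a ≠ 0 := h
    rw [coeff_X] at h1
    have : a = 1 := by
      by_contra h2
      exact h1 (if_neg (fun h3 => h2 h3.symm))
    rw [this]
  | (n + 2), a, h => by
    have p2 : ((n + 2 : ℕ) : ZMod 2) = n := by
      push_cast
      rw [show (2 : ZMod 2) = 0 from rfl, add_zero]
    rw [p2]
    rw [spP_rec, coeff_sub] at h
    rcases a with _ | a
    · rw [coeff_X_mul_zero, zero_sub] at h
      exact spP_parity n 0 (fun h1 => h (by rw [h1, neg_zero]))
    · rw [coeff_X_mul] at h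
      by_cases h1 : (spP n).coeff (a + 1) = 0
      · rw [h1, sub_zero] at h
        have h2 := spP_parity (n + 1) a h
        push_cast at h2 ⊢
        rw [h2]
        ring_nf
        rw [show (2 : ZMod 2) = 0 from rfl, zero_add]
      · exact spP_parity n (a + 1) h1

lemma sp_eval : ∀ (n : ℕ) (x : ℝ), sp n x = ((spP n).map (Int.castRingHom ℝ)).eval x
  | 0, x => by
    show (1 : ℝ) = ((1 : ℤ[X]).map (Int.castRingHom ℝ)).eval x
    simp
  | 1, x => by
    show x = ((X : ℤ[X]).map (Int.castRingHom ℝ)).eval x
    simp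
  | (n + 2), x => by
    rw [sp_rec, spP_rec, Polynomial.map_sub, Polynomial.map_mul, map_X, eval_sub, eval_mul,
      eval_X, ← sp_eval (n + 1) x, ← sp_eval n x]

lemma sp_sum (n : ℕ) (x : ℝ) :
    sp n x = ∑ a ∈ Finset.range (n + 1), ((spP n).coeff a : ℝ) * x ^ a := by
  rw [sp_eval, eval_eq_sum_range' (n := n + 1)]
  · refine Finset.sum_congr rfl fun a _ => ?_
    rw [coeff_map]
    rfl
  · rw [Nat.lt_succ_iff, natDegree_le_iff_coeff_eq_zero]
    intro a ha
    rw [coeff_map, spP_coeff_big n a ha, map_zero]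

/-- Trimming: an expansion of a polynomial of degree `≤ n`. -/
lemma trim (n : ℕ) : ∀ (k : ℕ) (b e : ℕ → ℝ)
    (_ : ∀ x : ℝ, ∑ a ∈ Finset.range (n + 1), e a * x ^ a =
      ∑ a ∈ Finset.range (k + 1), b a * sp a x), ∀ a, n < a → a ≤ k → b a = 0 := by
  intro k
  induction k with
  | zero =>
    intro b e h a h1 h2
    omega
  | succ k ih =>
    intro b e h a h1 h2
    have htop : n < k + 1 → b (k + 1) = 0 := by
      intro hn
      have h3 : (∑ a ∈ Finset.range (n + 1), C (e a) * X ^ a : ℝ[X]) =
          ∑ a ∈ Finset.range (k + 1 + 1), C (b a) * (spP a).map (Int.castRingHom ℝ) := by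
        refine Polynomial.funext fun x => ?_
        rw [eval_finsetSum, eval_finsetSum]
        have h4 := h x
        rw [Finset.sum_congr rfl fun a _ => (by simp : eval x (C (e a) * X ^ a) = e a * x ^ a),
          h4]
        refine Finset.sum_congr rfl fun a _ => ?_
        rw [eval_mul, eval_C, ← sp_eval]
      have h5 := congrArg (fun p : ℝ[X] => p.coeff (k + 1)) h3
      simp only [finsetSum_coeff, coeff_C_mul, coeff_map, coeff_X_pow] at h5
      rw [Finset.sum_eq_zero (fun a ha => by
        rw [if_neg, mul_zero]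
        rw [Finset.mem_range] at ha
        omega)] at h5
      rw [Finset.sum_range_succ, Finset.sum_eq_zero (fun a ha => by
        rw [spP_coeff_big a (k + 1) (by rw [Finset.mem_range] at ha; omega)]
        simp), spP_coeff_self] at h5
      simpa using h5.symm
    by_cases hak : a = k + 1
    · subst hak
      exact htop h1
    · refine ih b e (fun x => ?_) a h1 (by omega)
      rw [h x, Finset.sum_range_succ, htop (by omega), zero_mul, add_zero]

/-- `p` is a combination of the `sp (2 c)`, `c ≤ D`, with coefficient `m` at `c = 0`. -/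
def EvD (p : ℝ → ℝ) (m : ℝ) (D : ℕ) : Prop :=
  ∃ (b : ℕ → ℝ), (∀ x, p x = ∑ c ∈ Finset.range (D + 1), b c * sp (2 * c) x) ∧ b 0 = m

lemma EvD.sq (n : ℕ) : EvD (fun x => sp n x ^ 2) 1 n :=
  ⟨fun _ => 1, fun x => by
    show sp n x ^ 2 = ∑ c ∈ Finset.range (n + 1), 1 * sp (2 * c) x
    rw [sp_sq]
    exact Finset.sum_congr rfl fun c _ => by rw [one_mul], rfl⟩

/-- From `Ev` to `EvD`. -/
lemma Ev.toD {p : ℝ → ℝ} {m : ℝ} (h : Ev p m) (D : ℕ) (P : ℝ[X]) (hP : P.natDegree ≤ 2 * D)
    (hp : ∀ x, p x = P.eval x) : EvD p m D := by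
  obtain ⟨N, b, h1, h2⟩ := h
  have h3 : ∀ x : ℝ, ∑ a ∈ Finset.range (2 * D + 1), P.coeff a * x ^ a =
      ∑ a ∈ Finset.range (2 * N + 1), (if Even a then b (a / 2) else 0) * sp a x := by
    intro x
    rw [← eval_eq_sum_range' (Nat.lt_succ_of_le hP), ← hp, h1]
    have e : ∑ a ∈ (Finset.range (N + 1)).image (fun c => 2 * c),
        (if Even a then b (a / 2) else 0) * sp a x =
        ∑ a ∈ Finset.range (2 * N + 1), (if Even a then b (a / 2) else 0) * sp a x := by
      refine Finset.sum_subset ?_ ?_
      · intro a ha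
        obtain ⟨c, hc, rfl⟩ := Finset.mem_image.1 ha
        rw [Finset.mem_range] at hc ⊢
        omega
      · intro a ha ha'
        rw [if_neg, zero_mul]
        intro he
        obtain ⟨c, hc⟩ := he
        apply ha'
        rw [Finset.mem_range] at ha
        exact Finset.mem_image.2 ⟨c, Finset.mem_range.2 (by omega), by omega⟩
    rw [← e, Finset.sum_image (fun a _ b _ h => by simpa using h)]
    refine Finset.sum_congr rfl fun c _ => ?_
    rw [if_pos (even_two_mul c), Nat.mul_div_cancel_left c two_pos]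
  have h4 := trim (2 * D) (2 * N) _ _ h3
  refine ⟨fun c => if c ≤ N then b c else 0, fun x => ?_, by simpa using h2⟩
  rw [h1]
  have e1 : ∀ L : ℕ, ∑ c ∈ Finset.range (L + 1), (if c ≤ N then b c else 0) * sp (2 * c) x =
      ∑ c ∈ (Finset.range (L + 1)).filter (fun c => c ≤ N), b c * sp (2 * c) x := by
    intro L
    rw [Finset.sum_filter]
    refine Finset.sum_congr rfl fun c _ => ?_
    split_ifs <;> simp
  rw [e1]
  by_cases hND : N ≤ D
  · refine Finset.sum_congr ?_ fun _ _ => rfl
    ext c
    simp only [Finset.mem_range, Finset.mem_filter]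
    omega
  · symm
    refine Finset.sum_subset ?_ ?_
    · intro c hc
      simp only [Finset.mem_range, Finset.mem_filter] at hc ⊢
      omega
    · intro c hc hc'
      simp only [Finset.mem_range, Finset.mem_filter] at hc hc'
      have h5 := h4 (2 * c) (by omega) (by omega)
      rw [if_pos (even_two_mul c), Nat.mul_div_cancel_left c two_pos] at h5
      rw [h5, zero_mul]

lemma spP_natDegree (n : ℕ) : ((spP n).map (Int.castRingHom ℝ)).natDegree ≤ n := by
  rw [natDegree_le_iff_coeff_eq_zero]
  intro a ha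
  rw [coeff_map, spP_coeff_big n a ha, map_zero]

lemma EvD.four (n : ℕ) : EvD (fun x => sp n x ^ 4) (n + 1) (2 * n) := by
  refine (Ev.four n).toD (2 * n) (((spP n).map (Int.castRingHom ℝ)) ^ 4) ?_ (fun x => ?_)
  · refine natDegree_pow_le.trans ?_
    have := spP_natDegree n
    omega
  · rw [eval_pow, ← sp_eval]

/-- The mean of `sp_n⁴ sp_2`. -/
lemma Ev.foursp (n : ℕ) : Ev (fun x => sp n x ^ 4 * sp 2 x) (3 * n) := by
  have key : ∀ c d : ℕ, Ev (fun x => sp (2 * c) x * sp (2 * d) x * sp 2 x)
      (if c = d then (if c = 0 then 0 else 1) else (if c = d + 1 then 1 else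
        (if d = c + 1 then 1 else 0))) := by
    intro c d
    rcases c with _ | c
    · have h1 := Ev.prod (2 * d) 2 (by push_cast; rw [show (2 : ZMod 2) = 0 from rfl]; ring)
      refine h1.congr (fun x => by simp [sp]) ?_
      by_cases hd : d = 1
      · subst hd; simp
      · rcases d with _ | d
        · simp
        · have e1 : ¬ (2 * (d + 1) = 2) := by omega
          have e2 : ¬ (0 = d + 1) := by omega
          have e3 : ¬ (0 = d + 1 + 1) := by omega
          have e4 : ¬ (d + 1 = 0 + 1) := by omega
          rw [if_neg e1, if_neg e2, if_neg e3, if_neg e4]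
    · -- `sp (2c+2) sp 2 = sp (2c+4) + sp (2c+2) + sp (2c)`
      have hrec : ∀ x : ℝ, sp (2 * (c + 1)) x * sp 2 x =
          sp (2 * (c + 2)) x + sp (2 * (c + 1)) x + sp (2 * c) x := by
        intro x
        have r1 : sp (2 * (c + 2)) x = x * sp (2 * c + 3) x - sp (2 * c + 2) x := sp_rec (2 * c + 2) x
        have r2 : sp (2 * c + 3) x = x * sp (2 * c + 2) x - sp (2 * c + 1) x := sp_rec (2 * c + 1) x
        have r3 : sp (2 * c + 2) x = x * sp (2 * c + 1) x - sp (2 * c) x := sp_rec (2 * c) x
        have r4 : sp (2 * (c + 1)) x = sp (2 * c + 2) x := rfl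
        have r5 : sp 2 x = x ^ 2 - 1 := by simp only [sp]; ring
        rw [r4, r1, r2, r5, r3]
        ring
      have par : ∀ a b : ℕ, ((2 * a : ℕ) : ZMod 2) = ((2 * b : ℕ) : ZMod 2) := fun a b => by
        push_cast; rw [show (2 : ZMod 2) = 0 from rfl]; ring
      have h1 := ((Ev.prod (2 * (c + 2)) (2 * d) (par _ _)).add
        (Ev.prod (2 * (c + 1)) (2 * d) (par _ _))).add (Ev.prod (2 * c) (2 * d) (par _ _))
      refine h1.congr (fun x => ?_) ?_
      · have := hrec x
        linear_combination (- sp (2 * d) x) * this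
      · by_cases h1 : c + 1 = d
        · subst h1
          rw [if_neg (by omega), if_pos rfl, if_neg (by omega), if_pos rfl, if_neg (by omega)]
          norm_num
        · by_cases h2 : c + 1 = d + 1
          · have h3 : c = d := by omega
            subst h3
            rw [if_neg (by omega), if_neg (by omega), if_pos rfl, if_neg (by omega), if_pos rfl]
            norm_num
          · by_cases h3 : d = c + 1 + 1
            · subst h3
              rw [if_pos rfl, if_neg (by omega), if_neg (by omega), if_neg (by omega),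
                if_neg (by omega), if_pos rfl]
              norm_num
            · rw [if_neg (by omega), if_neg (by omega), if_neg (by omega), if_neg h1, if_neg h2,
                if_neg h3]
              norm_num
  have h : Ev (fun x => ∑ c ∈ Finset.range (n + 1), ∑ d ∈ Finset.range (n + 1),
      sp (2 * c) x * sp (2 * d) x * sp 2 x) (∑ c ∈ Finset.range (n + 1),
        ∑ d ∈ Finset.range (n + 1),
      (if c = d then (if c = 0 then (0 : ℝ) else 1) else (if c = d + 1 then 1 else
        (if d = c + 1 then 1 else 0)))) :=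
    Ev.sum _ _ _ fun c _ => Ev.sum _ _ _ fun d _ => key c d
  refine h.congr (fun x => ?_) ?_
  · have e : sp n x ^ 4 = (sp n x ^ 2) * (sp n x ^ 2) := by ring
    rw [e, sp_sq, Finset.sum_mul_sum, Finset.sum_mul]
    refine Finset.sum_congr rfl fun c _ => ?_
    rw [Finset.sum_mul]
  · have e1 : ∀ c d : ℕ, (if c = d then (if c = 0 then (0 : ℝ) else 1) else
        (if c = d + 1 then 1 else (if d = c + 1 then 1 else 0))) =
        (if c = d then (if c = 0 then (0 : ℝ) else 1) else 0) + (if c = d + 1 then 1 else 0) +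
        (if d = c + 1 then 1 else 0) := by
      intro c d
      by_cases h1 : c = d
      · subst h1
        have h3 : ¬ (c = c + 1) := by omega
        rw [if_pos rfl, if_pos rfl, if_neg h3]
        ring
      · rw [if_neg h1, if_neg h1]
        by_cases h2 : c = d + 1
        · have h3 : ¬ (d = c + 1) := by omega
          rw [if_pos h2, if_pos h2, if_neg h3]
          ring
        · rw [if_neg h2, if_neg h2]
          ring
    simp only [e1, Finset.sum_add_distrib]
    have s1 : ∑ c ∈ Finset.range (n + 1), ∑ d ∈ Finset.range (n + 1),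
        (if c = d then (if c = 0 then (0 : ℝ) else 1) else 0) = n := by
      have : ∀ c ∈ Finset.range (n + 1), ∑ d ∈ Finset.range (n + 1),
          (if c = d then (if c = 0 then (0 : ℝ) else 1) else 0) = if c = 0 then (0 : ℝ) else 1 := by
        intro c hc
        rw [Finset.sum_ite_eq, if_pos hc]
      rw [Finset.sum_congr rfl this, Finset.sum_range_succ']
      simp
    have s2 : ∑ c ∈ Finset.range (n + 1), ∑ d ∈ Finset.range (n + 1),
        (if d = c + 1 then (1 : ℝ) else 0) = n := by
      have : ∀ c ∈ Finset.range (n + 1), ∑ d ∈ Finset.range (n + 1),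
          (if d = c + 1 then (1 : ℝ) else 0) = if c < n then 1 else 0 := by
        intro c hc
        rw [Finset.sum_ite_eq']
        simp
      rw [Finset.sum_congr rfl this, Finset.sum_range_succ, if_neg (lt_irrefl n), add_zero,
        Finset.sum_congr rfl (fun c hc => if_pos (Finset.mem_range.1 hc))]
      simp
    have s3 : ∑ c ∈ Finset.range (n + 1), ∑ d ∈ Finset.range (n + 1),
        (if c = d + 1 then (1 : ℝ) else 0) = n := by
      rw [Finset.sum_comm]
      exact s2
    rw [s1, s2, s3]
    ring

end TatePole.Fs
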