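import Mathlib
import Pool.Agent.Lib.MP_058a58_ag.Fs.Loc1
import Pool.Agent.Lib.MP_058a58_ag.Fs.GOUR
import Pool.Agent.Lib.MP_058a58_ag.Fs.CS

/-!
# The Goursat-Ribet step, local version
-/

open NumberField Polynomial Filter Topology
open IsDedekindDomain (HeightOneSpectrum)

namespace TatePole.Fs

variable {K : Type*} [Field K] [NumberField K]

/-- the support -/
def supp {ι : Type} [Fintype ι] (a : ι → ℕ) : Finset ι := Finset.univ.filter fun i => a i ≠ 0

lemma mem_supp {ι : Type} [Fintype ι] {a : ι → ℕ} {i : ι} : i ∈ supp a ↔ a i ≠ 0 := by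
  simp [supp]

section
variable {ι : Type} [Fintype ι] [DecidableEq ι] {t : ι → HeightOneSpectrum (𝓞 K) → ℝ}

/-- Products of functions of one variable of bounded degree. -/
lemma prodD (hz : StmZK K) (ht : ∀ i v, |t i v| ≤ 2) {B : Finset ι} (D : ι → ℕ)
    (hB : ∀ c : ι → ℕ, (∀ i ∉ B, c i = 0) → (∀ i ∈ B, c i ≤ D i) → c ≠ 0 →
      HasD (XX t (fun i => 2 * c i)) 0)
    (p : ι → ℝ → ℝ) (m : ι → ℝ) (hp : ∀ i ∈ B, EvD (p i) (m i) (D i)) :
    HasD (fun v => ∏ i ∈ B, p i (t i v)) (∏ i ∈ B, m i) := by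
  classical
  have hp' : ∀ i : ι, ∃ (N : ℕ) (b : ℕ → ℝ),
      (∀ x, (if i ∈ B then p i x else 1) = ∑ c ∈ Finset.range (N + 1), b c * sp (2 * c) x) ∧
      b 0 = (if i ∈ B then m i else 1) ∧ (i ∉ B → N = 0) ∧ (i ∈ B → N = D i) := by
    intro i
    by_cases hi : i ∈ B
    · obtain ⟨b, h1, h2⟩ := hp i hi
      exact ⟨D i, b, fun x => by rw [if_pos hi, h1], by rw [if_pos hi, h2], fun h => (h hi).elim,
        fun _ => rfl⟩
    · refine ⟨0, fun _ => 1, fun x => ?_, by rw [if_neg hi], fun _ => rfl, fun h => (hi h).elim⟩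
      rw [if_neg hi]; simp [sp]
  choose N b h1 h2 h3 h3' using hp'
  have e1 : ∀ v, ∏ i ∈ B, p i (t i v) =
      ∑ c ∈ Fintype.piFinset fun i => Finset.range (N i + 1),
        (∏ i, b i (c i)) * XX t (fun i => 2 * c i) v := by
    intro v
    have a1 : ∏ i ∈ B, p i (t i v) = ∏ i, (if i ∈ B then p i (t i v) else 1) := by
      rw [Finset.prod_ite_mem, Finset.univ_inter]
    rw [a1]
    simp only [h1]
    rw [Finset.prod_univ_sum]
    refine Finset.sum_congr rfl fun c _ => ?_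
    unfold XX
    rw [← Finset.prod_mul_distrib]
  have e2 : ∏ i ∈ B, m i = ∏ i, b i 0 := by
    simp only [h2]
    rw [Finset.prod_ite_mem, Finset.univ_inter]
  have h4 : ∀ c ∈ Fintype.piFinset fun i => Finset.range (N i + 1),
      HasD (fun v => (∏ i, b i (c i)) * XX t (fun i => 2 * c i) v)
        (if c = 0 then ∏ i, b i 0 else 0) := by
    intro c hc
    by_cases h0 : c = 0
    · subst h0
      rw [if_pos rfl]
      have : HasD (XX t (fun i => 2 * (0 : ι → ℕ) i)) 1 := by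
        refine (HasD.one hz).congr fun v => ?_
        simp [XX, sp]
      have h5 := this.const_mul (∏ i, b i ((0 : ι → ℕ) i))
      rw [mul_one] at h5
      exact h5
    · rw [if_neg h0]
      have hsupp : ∀ i ∉ B, c i = 0 := by
        intro i hi
        have h6 := Fintype.mem_piFinset.1 hc i
        rw [h3 i hi] at h6
        simpa using h6
      have hdeg : ∀ i ∈ B, c i ≤ D i := by
        intro i hi
        have h6 := Fintype.mem_piFinset.1 hc i
        rw [h3' i hi, Finset.mem_range] at h6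
        omega
      have h5 := (hB c hsupp hdeg h0).const_mul (∏ i, b i (c i))
      rw [mul_zero] at h5
      exact h5
  have h5 := HasD.sum hz (Fintype.piFinset fun i => Finset.range (N i + 1))
    (g := fun c v => (∏ i, b i (c i)) * XX t (fun i => 2 * c i) v)
    (fun c _ => (Bd.XX ht _).const_mul _) h4
  have e3 : ∑ c ∈ Fintype.piFinset fun i => Finset.range (N i + 1),
      (if c = 0 then ∏ i, b i 0 else 0) = ∏ i, b i 0 := by
    rw [Finset.sum_ite_eq']
    rw [if_pos]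
    rw [Fintype.mem_piFinset]
    intro i; simp
  rw [e3, ← e2] at h5
  exact h5.congr fun v => (e1 v).symm

/-- Products of two functions of one variable. -/
lemma Ind.two (hz : StmZK K) (ht : ∀ i v, |t i v| ≤ 2) {i j : ι} (hij : i ≠ j)
    (hI : Ind t {i, j}) {P Q : ℝ → ℝ} {m m' : ℝ} (hP : Ev P m) (hQ : Ev Q m') :
    HasD (fun v => P (t i v) * Q (t j v)) (m * m') := by
  have h1 := hI.prod hz ht (fun l => if l = i then P else Q) (fun l => if l = i then m else m')
    (fun l _ => by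
      by_cases hl : l = i
      · simp only [if_pos hl]
        exact hP
      · simp only [if_neg hl]
        exact hQ)
  rw [Finset.prod_pair hij, if_pos rfl, if_neg hij.symm] at h1
  refine h1.congr fun v => ?_
  rw [Finset.prod_pair hij, if_pos rfl, if_neg hij.symm]

/-- The relation for four curves. -/
lemma four_rel (hz : StmZK K) (ht : ∀ i v, |t i v| ≤ 2)
    (hI : ∀ i j, i ≠ j → Ind t {i, j}) (a : ι → ℕ) {p q u w : ι} (hpq : p ≠ q) (hpu : p ≠ u)
    (hpw : p ≠ w) (hqu : q ≠ u) (hqw : q ≠ w) (huw : u ≠ w) (hap : 1 ≤ a p) {k : ℤ} (hk0 : k ≠ 0)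
    (hk : HasD (fun v => sp (a p) (t p v) * sp (a q) (t q v) *
      (sp (a u) (t u v) * sp (a w) (t w v))) k) : 3 * a p = a w + 1 := by
  have bt : ∀ i, Bd (t i) := fun i => ⟨2, ht i⟩
  obtain ⟨x1, hx1⟩ : ∃ x : HeightOneSpectrum (𝓞 K) → ℝ, x = fun v => sp (a p) (t p v) := ⟨_, rfl⟩
  obtain ⟨x2, hx2⟩ : ∃ x : HeightOneSpectrum (𝓞 K) → ℝ, x = fun v => sp (a q) (t q v) := ⟨_, rfl⟩
  obtain ⟨x3, hx3⟩ : ∃ x : HeightOneSpectrum (𝓞 K) → ℝ, x = fun v => sp (a u) (t u v) := ⟨_, rfl⟩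
  obtain ⟨x4, hx4⟩ : ∃ x : HeightOneSpectrum (𝓞 K) → ℝ, x = fun v => sp (a w) (t w v) := ⟨_, rfl⟩
  obtain ⟨y, hy⟩ : ∃ x : HeightOneSpectrum (𝓞 K) → ℝ, x = fun v => sp 2 (t p v) := ⟨_, rfl⟩
  have b1 : Bd x1 := by rw [hx1]; exact Bd.sp (bt p) _
  have b2 : Bd x2 := by rw [hx2]; exact Bd.sp (bt q) _
  have b3 : Bd x3 := by rw [hx3]; exact Bd.sp (bt u) _
  have b4 : Bd x4 := by rw [hx4]; exact Bd.sp (bt w) _
  have by' : Bd y := by rw [hy]; exact Bd.sp (bt p) _
  have hk' : HasD (fun v => x1 v * x2 v * (x3 v * x4 v)) k := by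
    rw [hx1, hx2, hx3, hx4]; exact hk
  -- squares of products of two
  have sq12 : HasD (fun v => (x1 v * x2 v) ^ 2) 1 := by
    have := (hI p q hpq).two hz ht hpq (Ev.sq (a p)) (Ev.sq (a q))
    rw [mul_one] at this
    exact this.congr fun v => by rw [hx1, hx2]; ring
  have sq34 : HasD (fun v => (x3 v * x4 v) ^ 2) 1 := by
    have := (hI u w huw).two hz ht huw (Ev.sq (a u)) (Ev.sq (a w))
    rw [mul_one] at this
    exact this.congr fun v => by rw [hx3, hx4]; ring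
  have sq13 : HasD (fun v => (x1 v * x3 v) ^ 2) 1 := by
    have := (hI p u hpu).two hz ht hpu (Ev.sq (a p)) (Ev.sq (a u))
    rw [mul_one] at this
    exact this.congr fun v => by rw [hx1, hx3]; ring
  have sq24 : HasD (fun v => (x2 v * x4 v) ^ 2) 1 := by
    have := (hI q w hqw).two hz ht hqw (Ev.sq (a q)) (Ev.sq (a w))
    rw [mul_one] at this
    exact this.congr fun v => by rw [hx2, hx4]; ring
  have sq14 : HasD (fun v => (x1 v * x4 v) ^ 2) 1 := by
    have := (hI p w hpw).two hz ht hpw (Ev.sq (a p)) (Ev.sq (a w))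
    rw [mul_one] at this
    exact this.congr fun v => by rw [hx1, hx4]; ring
  have sq23 : HasD (fun v => (x2 v * x3 v) ^ 2) 1 := by
    have := (hI q u hqu).two hz ht hqu (Ev.sq (a q)) (Ev.sq (a u))
    rw [mul_one] at this
    exact this.congr fun v => by rw [hx2, hx3]; ring
  obtain ⟨hk1, _⟩ := cs K hz (fun v => x1 v * x2 v) (fun v => x3 v * x4 v) (fun _ => 1)
    (b1.mul b2) (b3.mul b4) (Bd.const 1) sq12 sq34 k hk' hk0
  have hkk : (k : ℝ) * k = 1 := by
    rcases hk1 with rfl | rfl <;> norm_num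
  have hval : (1 : ℝ) - 2 * k * k + k ^ 2 * 1 = 0 := by
    rw [sq, mul_assoc, hkk]; norm_num
  have F1 : HasD (fun v => (x1 v * x2 v - (k : ℝ) * (x3 v * x4 v)) ^ 2) 0 := by
    have h := HasD.sq_sub hz (b1.mul b2) (b3.mul b4) sq12 sq34 hk' k
    rwa [hval] at h
  have F2 : HasD (fun v => (x1 v * x3 v - (k : ℝ) * (x2 v * x4 v)) ^ 2) 0 := by
    have h := HasD.sq_sub hz (b1.mul b3) (b2.mul b4) sq13 sq24
      (hk'.congr fun v => by ring) k
    rwa [hval] at h
  have F3 : HasD (fun v => (x1 v * x4 v - (k : ℝ) * (x2 v * x3 v)) ^ 2) 0 := by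
    have h := HasD.sq_sub hz (b1.mul b4) (b2.mul b3) sq14 sq23
      (hk'.congr fun v => by ring) k
    rwa [hval] at h
  have bh : Bd (fun v => x1 v * x4 v * y v) := (b1.mul b4).mul by'
  have bF1 : Bd (fun v => x1 v * x2 v - (k : ℝ) * (x3 v * x4 v)) :=
    (b1.mul b2).sub ((b3.mul b4).const_mul k)
  have bF2 : Bd (fun v => x1 v * x3 v - (k : ℝ) * (x2 v * x4 v)) :=
    (b1.mul b3).sub ((b2.mul b4).const_mul k)
  have bF3 : Bd (fun v => x1 v * x4 v - (k : ℝ) * (x2 v * x3 v)) :=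
    (b1.mul b4).sub ((b2.mul b3).const_mul k)
  have c1 : Bd (fun v => x1 v * x3 v * (x1 v * x4 v * y v)) := (b1.mul b3).mul bh
  have c2 : Bd (fun v => x3 v * x4 v * (x1 v * x4 v * y v)) := (b3.mul b4).mul bh
  have c3 : Bd (fun v => (x1 v ^ 2 - x4 v ^ 2) * (x1 v * x4 v * y v)) :=
    ((b1.pow 2).sub (b4.pow 2)).mul bh
  have g1 := HasD.mul_of_sq hz bF1 c1 F1
  have g2 := HasD.mul_of_sq hz bF2 c2 F2
  have g3 := HasD.mul_of_sq hz bF3 c3 F3
  have g4 := HasD.add hz (bF3.mul c3) ((bF1.mul c1).const_mul k) g3 (g1.const_mul k)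
  have g5 := HasD.add hz ((bF3.mul c3).add ((bF1.mul c1).const_mul k)) (bF2.mul c2) g4 g2
  have g6 : HasD (fun v => x1 v ^ 4 * y v * x4 v ^ 2 - x1 v ^ 2 * y v * x4 v ^ 4) 0 := by
    have : (0 : ℝ) + k * 0 + 0 = 0 := by ring
    rw [this] at g5
    refine g5.congr fun v => ?_
    linear_combination (-(x1 v * x3 v ^ 2 * x4 v * (x1 v * x4 v * y v))) * hkk
  have m1 : HasD (fun v => x1 v ^ 4 * y v * x4 v ^ 2) (3 * a p * 1) := by
    have := (hI p w hpw).two hz ht hpw (Ev.foursp (a p)) (Ev.sq (a w))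
    exact this.congr fun v => by rw [hx1, hx4, hy]
  have m2 : HasD (fun v => x1 v ^ 2 * y v * x4 v ^ 4) (1 * (a w + 1)) := by
    have := (hI p w hpw).two hz ht hpw (Ev.sqtwo (a p) hap) (Ev.four (a w))
    exact this.congr fun v => by rw [hx1, hx4, hy]
  have m3 := HasD.sub hz (((b1.pow 4).mul by').mul (b4.pow 2)) (((b1.pow 2).mul by').mul (b4.pow 4))
    m1 m2
  have m4 := m3.unique g6
  have m5 : (3 * a p : ℝ) = a w + 1 := by linarith
  exact_mod_cast m5

end

end TatePole.Fs
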