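import Mathlib
import Pool.Agent.Lib.MP_058a58_ag.Fs.Loc2

/-!
# The Goursat-Ribet step, local version: the induction
-/

open NumberField Polynomial Filter Topology
open IsDedekindDomain (HeightOneSpectrum)

namespace TatePole.Fs

variable {K : Type*} [Field K] [NumberField K]
variable {ι : Type} [Fintype ι] [DecidableEq ι] {t : ι → HeightOneSpectrum (𝓞 K) → ℝ}

omit [NumberField K] [DecidableEq ι] in
lemma XX_supp (a : ι → ℕ) (v : HeightOneSpectrum (𝓞 K)) :
    XX t a v = ∏ i ∈ supp a, sp (a i) (t i v) := by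
  unfold XX
  symm
  refine Finset.prod_subset (Finset.subset_univ _) fun i _ hi => ?_
  have : a i = 0 := by
    by_contra h
    exact hi (mem_supp.2 h)
  rw [this]
  rfl

/-- The generic step. -/
lemma step_rel (hz : StmZK K) (ht : ∀ i v, |t i v| ≤ 2) (a : ι → ℕ) {r : ι} (hr : r ∈ supp a)
    (hB : ∀ c : ι → ℕ, (∀ i ∉ (supp a).erase r, c i = 0) → (∀ i, c i ≤ 2 * a i) → c ≠ 0 →
      HasD (XX t (fun i => 2 * c i)) 0)
    (hR : Ind t {r}) {k : ℤ} (hk0 : k ≠ 0) (hk : HasD (XX t a) k) :
    ∏ i ∈ (supp a).erase r, (a i + 1) = a r + 1 := by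
  have bt : ∀ i, Bd (t i) := fun i => ⟨2, ht i⟩
  obtain ⟨f, hf⟩ : ∃ f : HeightOneSpectrum (𝓞 K) → ℝ,
    f = fun v => ∏ i ∈ (supp a).erase r, sp (a i) (t i v) := ⟨_, rfl⟩
  obtain ⟨g, hg⟩ : ∃ g : HeightOneSpectrum (𝓞 K) → ℝ, g = fun v => sp (a r) (t r v) := ⟨_, rfl⟩
  have bf : Bd f := by rw [hf]; exact Bd.prod _ fun i _ => Bd.sp (bt i) (a i)
  have bg : Bd g := by rw [hg]; exact Bd.sp (bt r) (a r)
  have f2 : HasD (fun v => f v ^ 2) 1 := by
    have := prodD hz ht (B := (supp a).erase r) a (fun c h1 h2 h3 => hB c h1 (fun i => by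
      by_cases hi : i ∈ (supp a).erase r
      · have := h2 i hi; omega
      · rw [h1 i hi]; omega) h3) (fun i x => sp (a i) x ^ 2) (fun _ => 1)
      (fun i _ => EvD.sq (a i))
    rw [Finset.prod_const_one] at this
    refine this.congr fun v => ?_
    rw [hf]
    show _ = (∏ i ∈ (supp a).erase r, sp (a i) (t i v)) ^ 2
    rw [Finset.prod_pow]
  have f4 : HasD (fun v => f v ^ 4) (∏ i ∈ (supp a).erase r, ((a i : ℝ) + 1)) := by
    have := prodD hz ht (B := (supp a).erase r) (fun i => 2 * a i) (fun c h1 h2 h3 => hB c h1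
      (fun i => by
      by_cases hi : i ∈ (supp a).erase r
      · exact h2 i hi
      · rw [h1 i hi]; omega) h3) (fun i x => sp (a i) x ^ 4) (fun i => (a i : ℝ) + 1)
      (fun i _ => EvD.four (a i))
    refine this.congr fun v => ?_
    rw [hf]
    show _ = (∏ i ∈ (supp a).erase r, sp (a i) (t i v)) ^ 4
    rw [Finset.prod_pow]
  have g2 : HasD (fun v => g v ^ 2) 1 := by
    have := hR.prod hz ht (fun i x => sp (a i) x ^ 2) (fun _ => 1) (fun i _ => Ev.sq (a i))
    rw [Finset.prod_const_one] at this
    exact this.congr fun v => by rw [Finset.prod_singleton, hg]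
  have g4 : HasD (fun v => g v ^ 4) (a r + 1) := by
    have := hR.prod hz ht (fun i x => sp (a i) x ^ 4) (fun i => (a i : ℝ) + 1)
      (fun i _ => Ev.four (a i))
    rw [Finset.prod_singleton] at this
    exact this.congr fun v => by rw [Finset.prod_singleton, hg]
  have fg : HasD (fun v => f v * g v) k := by
    refine hk.congr fun v => ?_
    rw [XX_supp, hf, hg, ← Finset.mul_prod_erase _ _ hr, mul_comm]
  obtain ⟨_, q1⟩ := cs K hz f g (fun v => f v ^ 2) bf bg (bf.pow 2) f2 g2 k fg hk0
  obtain ⟨_, q2⟩ := cs K hz f g (fun v => g v ^ 2) bf bg (bg.pow 2) f2 g2 k fg hk0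
  have q3 : HasD (fun v => f v ^ 4 - g v ^ 4) 0 := by
    have := HasD.add hz (((bf.pow 2).sub (bg.pow 2)).mul (bf.pow 2))
      (((bf.pow 2).sub (bg.pow 2)).mul (bg.pow 2)) q1 q2
    rw [zero_add] at this
    exact this.congr fun v => by ring
  have q4 := HasD.sub hz (bf.pow 4) (bg.pow 4) f4 g4
  have q5 := q4.unique q3
  have q6 : ((∏ i ∈ (supp a).erase r, (a i + 1) : ℕ) : ℝ) = ((a r + 1 : ℕ) : ℝ) := by
    push_cast
    linarith
  exact_mod_cast q6

/-- [GOUR], local version -/
theorem GOURL (hz : StmZK K) (ht : ∀ i v, |t i v| ≤ 2)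
    (hpair : ∀ a : ι → ℕ, (supp a).card ≤ 2 → a ≠ 0 → Even (∑ i, a i) → HasD (XX t a) 0) :
    ∀ (s : ℕ) (a : ι → ℕ), (supp a).card = s → a ≠ 0 → Even (∑ i, a i) →
      (∀ b : ι → ℕ, (∀ i, b i ≤ 4 ^ (s - 4) * a i) → Even (∑ i, b i) →
        ∃ k : ℤ, HasD (XX t b) k) → HasD (XX t a) 0 := by
  intro s
  induction s using Nat.strong_induction_on with
  | _ s ih =>
    intro a hs ha0 hev hex
    by_cases h2 : s ≤ 2
    · exact hpair a (by omega) ha0 hev
    obtain ⟨k, hk⟩ := hex a (fun i => Nat.le_mul_of_pos_left _ (by positivity)) hev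
    by_cases hk0 : k = 0
    · rw [hk0, Int.cast_zero] at hk
      exact hk
    exfalso
    have hIset : ∀ B : Finset ι, B.card ≤ 2 → Ind t B := by
      intro B hBc c hc hc0
      refine hpair (fun i => 2 * c i) ?_ ?_ ?_
      · refine (Finset.card_le_card ?_).trans hBc
        intro i hi
        rw [mem_supp] at hi
        by_contra h
        exact hi (by rw [hc i h])
      · intro h
        apply hc0
        funext i
        have := congrFun h i
        simpa using this
      · rw [← Finset.mul_sum]; exact even_two_mul _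
    by_cases h4 : s = 4
    · -- four curves
      subst h4
      obtain ⟨p, T, hpT, hT, hTc⟩ := Finset.card_eq_succ.1 hs
      obtain ⟨q, u, w, hqu, hqw, huw, rfl⟩ := Finset.card_eq_three.1 hTc
      have hpq : p ≠ q := fun h => hpT (by rw [h]; simp)
      have hpu : p ≠ u := fun h => hpT (by rw [h]; simp)
      have hpw : p ≠ w := fun h => hpT (by rw [h]; simp)
      have hI : ∀ i j, i ≠ j → Ind t {i, j} := fun i j _ => hIset _ (Finset.card_le_two)
      have hX : ∀ v, XX t a v = sp (a p) (t p v) * (sp (a q) (t q v) *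
          (sp (a u) (t u v) * sp (a w) (t w v))) := by
        intro v
        rw [XX_supp, ← hT, Finset.prod_insert hpT, Finset.prod_insert (by simp [hqu, hqw]),
          Finset.prod_pair huw]
      have hap : 1 ≤ a p := by
        have : p ∈ supp a := by rw [← hT]; simp
        exact Nat.one_le_iff_ne_zero.2 (mem_supp.1 this)
      have haw : 1 ≤ a w := by
        have : w ∈ supp a := by rw [← hT]; simp
        exact Nat.one_le_iff_ne_zero.2 (mem_supp.1 this)
      have e1 := four_rel hz ht hI a hpq hpu hpw hqu hqw huw hap hk0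
        (hk.congr fun v => by rw [hX]; ring)
      have e2 := four_rel hz ht hI a hqw.symm huw.symm hpw.symm hqu hpq.symm hpu.symm haw hk0
        (hk.congr fun v => by rw [hX]; ring)
      omega
    -- the generic step
    have hrel : ∀ r ∈ supp a, ∏ i ∈ (supp a).erase r, (a i + 1) = a r + 1 := by
      intro r hr
      refine step_rel hz ht a hr (fun c hc1 hc2 hc0 => ?_)
        (hIset {r} (by rw [Finset.card_singleton]; omega)) hk0 hk
      have hcard : (supp (fun i => 2 * c i)).card ≤ s - 1 := by
        have h5 := Finset.card_erase_of_mem hr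
        rw [hs] at h5
        rw [← h5]
        refine Finset.card_le_card ?_
        intro i hi
        rw [mem_supp] at hi
        by_contra h
        exact hi (by rw [hc1 i h])
      have hne : (fun i => 2 * c i) ≠ (0 : ι → ℕ) := by
        intro h
        apply hc0
        funext i
        have := congrFun h i
        simpa using this
      have hevc : Even (∑ i, 2 * c i) := by
        rw [← Finset.mul_sum]; exact even_two_mul _
      by_cases h3 : s = 3
      · exact hpair _ (by omega) hne hevc
      · refine ih (supp (fun i => 2 * c i)).card (by omega) _ rfl hne hevc fun b hb hbe => ?_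
        refine hex b (fun i => ?_) hbe
        have h6 := hb i
        have h7 := hc2 i
        have h8 : 4 ^ ((supp (fun i => 2 * c i)).card - 4) * 4 ≤ 4 ^ (s - 4) := by
          rw [← pow_succ]
          exact Nat.pow_le_pow_right (by norm_num) (by omega)
        calc b i ≤ 4 ^ ((supp (fun i => 2 * c i)).card - 4) * (2 * c i) := h6
          _ ≤ 4 ^ ((supp (fun i => 2 * c i)).card - 4) * (4 * a i) :=
            Nat.mul_le_mul_left _ (by omega)
          _ = 4 ^ ((supp (fun i => 2 * c i)).card - 4) * 4 * a i := by ring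
          _ ≤ 4 ^ (s - 4) * a i := Nat.mul_le_mul_right _ h8
    have hlt : ∀ r ∈ supp a, ∀ r' ∈ supp a, r ≠ r' → a r' < a r := by
      intro r hr r' hr' hrr
      have h5 := hrel r hr
      have h6 : r' ∈ (supp a).erase r := Finset.mem_erase.2 ⟨hrr.symm, hr'⟩
      rw [← Finset.mul_prod_erase _ _ h6] at h5
      have h7 : 0 < (((supp a).erase r).erase r').card := by
        rw [Finset.card_erase_of_mem h6, Finset.card_erase_of_mem hr, hs]
        omega
      obtain ⟨r'', hr''⟩ := Finset.card_pos.1 h7
      have h8 : a r'' ≠ 0 := mem_supp.1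
        (Finset.mem_of_mem_erase (Finset.mem_of_mem_erase hr''))
      rw [← Finset.mul_prod_erase _ _ hr''] at h5
      have h9 : 1 ≤ ∏ i ∈ (((supp a).erase r).erase r').erase r'', (a i + 1) :=
        Finset.one_le_prod' fun i _ => by omega
      have h10 : 2 ≤ (a r'' + 1) * ∏ i ∈ (((supp a).erase r).erase r').erase r'', (a i + 1) :=
        calc 2 ≤ (a r'' + 1) * 1 := by omega
          _ ≤ _ := Nat.mul_le_mul_left _ h9
      have h11 : (a r' + 1) * 2 ≤ a r + 1 := by
        rw [← h5]
        exact Nat.mul_le_mul_left _ h10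
      omega
    have hc1 : 1 < (supp a).card := by omega
    obtain ⟨r, hr, r', hr', hrr⟩ := Finset.one_lt_card.1 hc1
    have := hlt r hr r' hr' hrr
    have := hlt r' hr' r hr hrr.symm
    omega

end TatePole.Fs
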