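import Mathlib
import Pool.Agent.Lib.MP_058a58_ag.Fs.Loc3
import Pool.Agent.Lib.MP_058a58_ag.Fs.One

/-!
# Cancelling a factor `sp a (t)` of a Sato-Tate function
-/

open NumberField Polynomial Filter Topology
open IsDedekindDomain (HeightOneSpectrum)

namespace TatePole.Fs

lemma sp_mul_sin (θ : ℝ) : ∀ n : ℕ,
    sp n (2 * Real.cos θ) * Real.sin θ = Real.sin ((n + 1 : ℕ) * θ)
  | 0 => by simp [sp]
  | 1 => by
    have h : (((1 + 1 : ℕ)) : ℝ) * θ = 2 * θ := by push_cast; ring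
    rw [h, Real.sin_two_mul]
    simp only [sp]
    ring
  | (n + 2) => by
    have h1 := sp_mul_sin θ (n + 1)
    have h2 := sp_mul_sin θ n
    have h3 : (((n + 2 + 1 : ℕ)) : ℝ) * θ = ((n + 1 + 1 : ℕ) : ℝ) * θ + θ := by push_cast; ring
    have h4 : (((n + 1 : ℕ)) : ℝ) * θ = ((n + 1 + 1 : ℕ) : ℝ) * θ - θ := by push_cast; ring
    rw [h3, Real.sin_add]
    rw [h4, Real.sin_sub] at h2
    rw [sp_rec]
    linear_combination (2 * Real.cos θ) * h1 - h2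

lemma abs_sin_nat (φ : ℝ) : ∀ n : ℕ, |Real.sin (n * φ)| ≤ n * |Real.sin φ|
  | 0 => by simp
  | (n + 1) => by
    have h1 := abs_sin_nat φ n
    have h2 : (((n + 1 : ℕ)) : ℝ) * φ = n * φ + φ := by push_cast; ring
    rw [h2, Real.sin_add]
    have h3 := abs_add_le (Real.sin (n * φ) * Real.cos φ) (Real.cos (n * φ) * Real.sin φ)
    rw [abs_mul, abs_mul] at h3
    have h4 : |Real.sin (n * φ)| * |Real.cos φ| ≤ |Real.sin (n * φ)| * 1 :=
      mul_le_mul_of_nonneg_left (Real.abs_cos_le_one φ) (abs_nonneg _)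
    have h5 : |Real.cos (n * φ)| * |Real.sin φ| ≤ 1 * |Real.sin φ| :=
      mul_le_mul_of_nonneg_right (Real.abs_cos_le_one _) (abs_nonneg _)
    push_cast
    linarith

/-- The Fejer kernel (up to the factor `N²`). -/
noncomputable def QQ (N : ℕ) (φ : ℝ) : ℝ :=
  ∑ j ∈ Finset.range N, ∑ l ∈ Finset.range N, Real.cos (2 * j * φ - 2 * l * φ)

lemma QQ_nonneg (N : ℕ) (φ : ℝ) : 0 ≤ QQ N φ := by
  have h : QQ N φ = (∑ j ∈ Finset.range N, Real.cos (2 * j * φ)) ^ 2 +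
      (∑ j ∈ Finset.range N, Real.sin (2 * j * φ)) ^ 2 := by
    unfold QQ
    rw [sq, sq, Finset.sum_mul_sum, Finset.sum_mul_sum, ← Finset.sum_add_distrib]
    refine Finset.sum_congr rfl fun j _ => ?_
    rw [← Finset.sum_add_distrib]
    refine Finset.sum_congr rfl fun l _ => ?_
    rw [Real.cos_sub]
  rw [h]
  positivity

lemma QQ_ge (N : ℕ) (φ : ℝ) : (N : ℝ) ^ 2 ≤ QQ N φ + 2 * N ^ 4 * Real.sin φ ^ 2 := by
  have h1 : ∀ j ∈ Finset.range N, ∀ l ∈ Finset.range N,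
      (1 : ℝ) - 2 * N ^ 2 * Real.sin φ ^ 2 ≤ Real.cos (2 * j * φ - 2 * l * φ) := by
    intro j hj l hl
    rw [Finset.mem_range] at hj hl
    obtain ⟨n, hn, hc⟩ : ∃ n : ℕ, n ≤ N ∧
        Real.cos (2 * j * φ - 2 * l * φ) = Real.cos (2 * (n * φ)) := by
      rcases le_total l j with h | h
      · refine ⟨j - l, by omega, ?_⟩
        congr 1
        rw [Nat.cast_sub h]
        ring
      · refine ⟨l - j, by omega, ?_⟩
        rw [← Real.cos_neg]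
        congr 1
        rw [Nat.cast_sub h]
        ring
    rw [hc, Real.cos_two_mul']
    have h2 := abs_sin_nat φ n
    have h3 : Real.sin (n * φ) ^ 2 ≤ (N : ℝ) ^ 2 * Real.sin φ ^ 2 := by
      rw [← sq_abs (Real.sin (n * φ)), ← sq_abs (Real.sin φ), ← mul_pow]
      refine pow_le_pow_left₀ (abs_nonneg _) (h2.trans ?_) 2
      exact mul_le_mul_of_nonneg_right (by exact_mod_cast hn) (abs_nonneg _)
    have h4 := Real.sin_sq_add_cos_sq (n * φ)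
    linarith
  have h2 : ∑ j ∈ Finset.range N, ∑ l ∈ Finset.range N,
      ((1 : ℝ) - 2 * N ^ 2 * Real.sin φ ^ 2) ≤ QQ N φ :=
    Finset.sum_le_sum fun j hj => Finset.sum_le_sum fun l hl => h1 j hj l hl
  simp only [Finset.sum_const, Finset.card_range, nsmul_eq_mul] at h2
  linarith [h2, (by ring : (N : ℝ) * (N * (1 - 2 * N ^ 2 * Real.sin φ ^ 2)) =
    (N : ℝ) ^ 2 - 2 * N ^ 4 * Real.sin φ ^ 2)]

variable {K : Type*} [Field K] [NumberField K]

/-- The mean of `cos (2 n θ)`, `n ≥ 2`, for a Sato-Tate angle. -/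
lemma hasD_cos (hz : StmZK K) {θ : HeightOneSpectrum (𝓞 K) → ℝ}
    (hone : ∀ n : ℕ, 1 ≤ n → HasD (fun v => sp (2 * n) (2 * Real.cos (θ v))) 0) (n : ℕ)
    (hn : 2 ≤ n) : HasD (fun v => Real.cos (2 * n * θ v)) 0 := by
  obtain ⟨m, rfl⟩ : ∃ m, n = m + 1 := ⟨n - 1, by omega⟩
  have bt : Bd (fun v => 2 * Real.cos (θ v)) := ⟨2, fun v => by
    have := Real.abs_cos_le_one (θ v)
    rw [abs_mul, abs_two]
    linarith⟩
  have h1 := HasD.sub hz (Bd.sp bt _) (Bd.sp bt _) (hone (m + 1) (by omega)) (hone m (by omega))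
  have h2 := h1.const_mul (1 / 2)
  rw [sub_zero, mul_zero] at h2
  refine h2.congr fun v => ?_
  rw [sp_even_cos]
  ring

lemma hasD_QQ (hz : StmZK K) {θ : HeightOneSpectrum (𝓞 K) → ℝ}
    (hone : ∀ n : ℕ, 1 ≤ n → HasD (fun v => sp (2 * n) (2 * Real.cos (θ v))) 0) (a : ℕ)
    (ha : 1 ≤ a) (N : ℕ) :
    Bd (fun v => QQ N ((a + 1 : ℕ) * θ v)) ∧ HasD (fun v => QQ N ((a + 1 : ℕ) * θ v)) N := by
  have hb : ∀ j l : ℕ, Bd (fun v => Real.cos (2 * j * ((a + 1 : ℕ) * θ v) -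
      2 * l * ((a + 1 : ℕ) * θ v))) := fun j l => ⟨1, fun v => Real.abs_cos_le_one _⟩
  have h1 : ∀ j l : ℕ, HasD (fun v => Real.cos (2 * j * ((a + 1 : ℕ) * θ v) -
      2 * l * ((a + 1 : ℕ) * θ v))) (if j = l then 1 else 0) := by
    intro j l
    by_cases h : j = l
    · subst h
      rw [if_pos rfl]
      refine (HasD.one hz).congr fun v => ?_
      rw [sub_self, Real.cos_zero]
    · rw [if_neg h]
      rcases lt_or_gt_of_ne h with h2 | h2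
      · have h3 : 2 ≤ (l - j) * (a + 1) := by
          calc 2 ≤ 1 * (a + 1) := by omega
            _ ≤ (l - j) * (a + 1) := Nat.mul_le_mul_right _ (by omega)
        refine (hasD_cos hz hone _ h3).congr fun v => ?_
        rw [← Real.cos_neg]
        congr 1
        rw [Nat.cast_mul, Nat.cast_sub h2.le]
        ring
      · have h3 : 2 ≤ (j - l) * (a + 1) := by
          calc 2 ≤ 1 * (a + 1) := by omega
            _ ≤ (j - l) * (a + 1) := Nat.mul_le_mul_right _ (by omega)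
        refine (hasD_cos hz hone _ h3).congr fun v => ?_
        congr 1
        rw [Nat.cast_mul, Nat.cast_sub h2.le]
        ring
  refine ⟨Bd.sum _ fun j _ => Bd.sum _ fun l _ => hb j l, ?_⟩
  have h2 := HasD.sum hz (Finset.range N)
    (g := fun j v => ∑ l ∈ Finset.range N, Real.cos (2 * j * ((a + 1 : ℕ) * θ v) -
      2 * l * ((a + 1 : ℕ) * θ v)))
    (fun j _ => Bd.sum _ fun l _ => hb j l)
    (fun j _ => HasD.sum hz (Finset.range N) (fun l _ => hb j l) (fun l _ => h1 j l))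
  have h3 : ∑ j ∈ Finset.range N, ∑ l ∈ Finset.range N, (if j = l then (1 : ℝ) else 0) = N := by
    rw [Finset.sum_congr rfl (fun j hj => by
      rw [Finset.sum_ite_eq, if_pos hj] : ∀ j ∈ Finset.range N,
        ∑ l ∈ Finset.range N, (if j = l then (1 : ℝ) else 0) = 1)]
    simp
  rw [h3] at h2
  exact h2

/-- A nonnegative function with small majorants. -/
lemma HasD.zero_of_approx (hz : StmZK K) {g : HeightOneSpectrum (𝓞 K) → ℝ} (bg : Bd g)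
    (hg0 : ∀ v, 0 ≤ g v)
    (h : ∀ ε : ℝ, 0 < ε → ∃ (f : HeightOneSpectrum (𝓞 K) → ℝ) (c : ℝ), Bd f ∧ (∀ v, g v ≤ f v) ∧
      HasD f c ∧ c < ε) : HasD g 0 := by
  refine tendsto_order.mpr ⟨fun a ha => ?_, fun a ha => ?_⟩
  · filter_upwards [logL_pos] with s hL
    exact lt_of_lt_of_le ha (div_nonneg (SS_nonneg hg0 s) hL.le)
  · obtain ⟨f, c, bf, hf, hfc, hc⟩ := h a ha
    have h2 : ∀ᶠ s : ℝ in 𝓝[>] 1, SS f s / Real.log (1 / (s - 1)) < a :=
      hfc.eventually_lt_const hc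
    filter_upwards [h2, one_lt_ev, logL_pos] with s h3 hs hL
    exact lt_of_le_of_lt (div_le_div_of_nonneg_right (SS_mono hz bg bf hf hs) hL.le) h3

/-- Cancelling a factor `sp a t`. -/
lemma cancel (hz : StmZK K) {t : HeightOneSpectrum (𝓞 K) → ℝ} (ht : ∀ v, |t v| ≤ 2)
    (hone : ∀ n : ℕ, 1 ≤ n → HasD (fun v => sp (2 * n) (t v)) 0) (a : ℕ)
    {F : HeightOneSpectrum (𝓞 K) → ℝ} (bF : Bd F)
    (h : HasD (fun v => (F v * sp a (t v)) ^ 2) 0) : HasD (fun v => F v ^ 2) 0 := by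
  by_cases ha : a = 0
  · subst ha
    refine h.congr fun v => ?_
    show (F v * 1) ^ 2 = F v ^ 2
    rw [mul_one]
  have ha1 : 1 ≤ a := Nat.one_le_iff_ne_zero.2 ha
  -- the angle
  obtain ⟨θ, hθ⟩ : ∃ θ : HeightOneSpectrum (𝓞 K) → ℝ, ∀ v, t v = 2 * Real.cos (θ v) := by
    refine ⟨fun v => Real.arccos (t v / 2), fun v => ?_⟩
    have := abs_le.1 (ht v)
    rw [Real.cos_arccos (by linarith) (by linarith)]
    ring
  have ht' : t = fun v => 2 * Real.cos (θ v) := funext hθ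
  subst ht'
  obtain ⟨C, hC⟩ := bF
  have hC0 : 0 ≤ C ^ 2 := sq_nonneg C
  refine HasD.zero_of_approx hz (Bd.pow ⟨C, hC⟩ 2) (fun v => sq_nonneg _) fun ε hε => ?_
  obtain ⟨N, hN⟩ := exists_nat_gt (C ^ 2 / ε)
  have hN0 : (0 : ℝ) < N := lt_of_le_of_lt (by positivity) hN
  obtain ⟨bQ, hQ⟩ := hasD_QQ hz hone a ha1 N
  have bt : Bd (fun v => 2 * Real.cos (θ v)) := ⟨2, ht⟩
  have bx : Bd (fun v => F v * sp a (2 * Real.cos (θ v))) := Bd.mul ⟨C, hC⟩ (Bd.sp bt a)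
  refine ⟨fun v => (C ^ 2 / (N : ℝ) ^ 2) * QQ N ((a + 1 : ℕ) * θ v) +
    (2 * (N : ℝ) ^ 2) * (F v * sp a (2 * Real.cos (θ v))) ^ 2,
    (C ^ 2 / (N : ℝ) ^ 2) * N + (2 * (N : ℝ) ^ 2) * 0, (bQ.const_mul _).add ((bx.pow 2).const_mul _),
    fun v => ?_, HasD.add hz (bQ.const_mul _) ((bx.pow 2).const_mul _) (hQ.const_mul _)
      (h.const_mul _), ?_⟩
  · have h1 := QQ_ge N ((a + 1 : ℕ) * θ v)
    have h2 := QQ_nonneg N ((a + 1 : ℕ) * θ v)
    have h3 := sp_mul_sin (θ v) a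
    have h4 : Real.sin ((a + 1 : ℕ) * θ v) ^ 2 ≤ sp a (2 * Real.cos (θ v)) ^ 2 := by
      rw [← h3, mul_pow]
      have h5 : Real.sin (θ v) ^ 2 ≤ 1 := Real.sin_sq_le_one _
      have h6 : 0 ≤ sp a (2 * Real.cos (θ v)) ^ 2 := sq_nonneg _
      nlinarith
    have h7 : F v ^ 2 ≤ C ^ 2 := by
      rw [← sq_abs (F v)]
      exact pow_le_pow_left₀ (abs_nonneg _) (hC v) 2
    have h8 : 0 ≤ F v ^ 2 := sq_nonneg _
    -- `N² F² ≤ C² Q + 2 N⁴ F² x²`
    have h9 : (N : ℝ) ^ 2 * F v ^ 2 ≤ C ^ 2 * QQ N ((a + 1 : ℕ) * θ v) +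
        2 * (N : ℝ) ^ 4 * (F v * sp a (2 * Real.cos (θ v))) ^ 2 := by
      have e1 : (N : ℝ) ^ 2 * F v ^ 2 ≤
          (QQ N ((a + 1 : ℕ) * θ v) + 2 * N ^ 4 * Real.sin ((a + 1 : ℕ) * θ v) ^ 2) * F v ^ 2 :=
        mul_le_mul_of_nonneg_right h1 h8
      have e2 : QQ N ((a + 1 : ℕ) * θ v) * F v ^ 2 ≤ QQ N ((a + 1 : ℕ) * θ v) * C ^ 2 :=
        mul_le_mul_of_nonneg_left h7 h2
      have e3 : (2 * (N : ℝ) ^ 4 * F v ^ 2) * Real.sin ((a + 1 : ℕ) * θ v) ^ 2 ≤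
          (2 * (N : ℝ) ^ 4 * F v ^ 2) * sp a (2 * Real.cos (θ v)) ^ 2 :=
        mul_le_mul_of_nonneg_left h4 (by positivity)
      rw [mul_pow]
      linarith [(by ring : (QQ N ((a + 1 : ℕ) * θ v) + 2 * (N : ℝ) ^ 4 *
        Real.sin ((a + 1 : ℕ) * θ v) ^ 2) * F v ^ 2 = QQ N ((a + 1 : ℕ) * θ v) * F v ^ 2 +
        (2 * (N : ℝ) ^ 4 * F v ^ 2) * Real.sin ((a + 1 : ℕ) * θ v) ^ 2)]
    have h10 : (C ^ 2 / (N : ℝ) ^ 2) * QQ N ((a + 1 : ℕ) * θ v) +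
        (2 * (N : ℝ) ^ 2) * (F v * sp a (2 * Real.cos (θ v))) ^ 2 =
        (C ^ 2 * QQ N ((a + 1 : ℕ) * θ v) +
        2 * (N : ℝ) ^ 4 * (F v * sp a (2 * Real.cos (θ v))) ^ 2) / (N : ℝ) ^ 2 := by
      field_simp
    beta_reduce
    rw [h10, le_div_iff₀ (by positivity)]
    linarith
  · rw [mul_zero, add_zero]
    have h1 : C ^ 2 / (N : ℝ) ^ 2 * N = C ^ 2 / N := by
      field_simp
    rw [h1, div_lt_iff₀ hN0]
    rw [div_lt_iff₀ hε] at hN
    linarith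

end TatePole.Fs
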