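import Mathlib
import Pool.Agent.Lib.MP_058a58_ag.Fs.Core

/-!
# The Hilbert space of a positive definite sequence, and weak limits
-/

open Filter Topology

namespace TatePole.Fs

variable {d : ℕ → ℤ}

/-- the symmetric extension -/
def DD (d : ℕ → ℤ) (n : ℤ) : ℤ := d n.natAbs

lemma DD_neg (n : ℤ) : DD d (-n) = DD d n := by
  unfold DD
  rw [Int.natAbs_neg]

lemma DD_natCast (n : ℕ) : DD d n = d n := rfl

lemma lin_range (L : ℕ) (g : ℕ → ℤ) (n : ℕ) :
    lin d ((List.range L).map g) n = ∑ j ∈ Finset.range L, g j * d (n + j) := by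
  induction L generalizing g n with
  | zero => simp [lin]
  | succ L ih =>
    rw [List.range_succ_eq_map, List.map_cons, List.map_map, lin, ih, Finset.sum_range_succ']
    simp only [Function.comp, Nat.add_zero]
    rw [add_comm]
    congr 1
    exact Finset.sum_congr rfl fun j _ => by rw [Nat.succ_eq_add_one, add_assoc, add_comm 1 j]

lemma form_range (h0 : d 0 = 2) (L : ℕ) (g : ℕ → ℤ) :
    form d ((List.range L).map g) =
      ∑ i ∈ Finset.range L, ∑ j ∈ Finset.range L, g i * g j * DD d ((i : ℤ) - j) := by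
  induction L generalizing g with
  | zero => simp [form]
  | succ L ih =>
    rw [List.range_succ_eq_map, List.map_cons, List.map_map, form, ih, lin_range,
      Finset.sum_range_succ']
    simp only [Finset.sum_range_succ', Function.comp, Nat.succ_eq_add_one]
    have e1 : ∀ i j : ℕ, (((i + 1 : ℕ) : ℤ) - ((j + 1 : ℕ) : ℤ)) = (i : ℤ) - j := fun i j => by
      push_cast; ring
    have e2 : ∀ i : ℕ, DD d (((i + 1 : ℕ) : ℤ) - ((0 : ℕ) : ℤ)) = d (1 + i) := fun i => by
      unfold DD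
      congr 1
      omega
    have e3 : ∀ i : ℕ, DD d (((0 : ℕ) : ℤ) - ((i + 1 : ℕ) : ℤ)) = d (1 + i) := fun i => by
      unfold DD
      congr 1
      omega
    have e4 : DD d (((0 : ℕ) : ℤ) - ((0 : ℕ) : ℤ)) = 2 := h0
    simp only [e1, e2, e3, e4]
    rw [Finset.sum_add_distrib]
    have s1 : ∑ x ∈ Finset.range L, g (x + 1) * g 0 * d (1 + x) =
        g 0 * ∑ j ∈ Finset.range L, g (j + 1) * d (1 + j) := by
      rw [Finset.mul_sum]
      exact Finset.sum_congr rfl fun j _ => by ring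
    have s2 : ∑ x ∈ Finset.range L, g 0 * g (x + 1) * d (1 + x) =
        g 0 * ∑ j ∈ Finset.range L, g (j + 1) * d (1 + j) := by
      rw [Finset.mul_sum]
      exact Finset.sum_congr rfl fun j _ => by ring
    rw [s1, s2]
    ring

/-- positivity for integer valued functions on the integers -/
lemma PD.psdInt (hd : PD d) (s : Finset ℤ) (f : ℤ → ℤ) :
    0 ≤ ∑ x ∈ s, ∑ y ∈ s, f x * f y * DD d (x - y) := by
  classical
  obtain ⟨N, hN⟩ : ∃ N : ℕ, ∀ x ∈ s, -(N : ℤ) ≤ x ∧ x < N := by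
    refine ⟨(s.sup Int.natAbs) + 1, fun x hx => ?_⟩
    have h1 : x.natAbs ≤ s.sup Int.natAbs := Finset.le_sup (f := Int.natAbs) hx
    constructor <;> omega
  have h1 := hd.psd ((List.range (2 * N)).map fun k : ℕ =>
    if ((k : ℤ) - N) ∈ s then f ((k : ℤ) - N) else 0)
  rw [form_range hd.zero] at h1
  have key : ∀ F : ℤ → ℤ, ∑ k ∈ Finset.range (2 * N),
      (if ((k : ℤ) - N) ∈ s then F ((k : ℤ) - N) else 0) = ∑ x ∈ s, F x := by
    intro F
    rw [← Finset.sum_filter]
    refine Finset.sum_bij (fun k _ => (k : ℤ) - N) ?_ ?_ ?_ ?_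
    · intro k hk
      exact (Finset.mem_filter.mp hk).2
    · intro a _ b _ hab
      have : (a : ℤ) = b := by linarith
      exact_mod_cast this
    · intro x hx
      obtain ⟨ha, hb⟩ := hN x hx
      refine ⟨(x + N).toNat, ?_, ?_⟩
      · rw [Finset.mem_filter, Finset.mem_range]
        have : ((x + N).toNat : ℤ) = x + N := Int.toNat_of_nonneg (by linarith)
        refine ⟨?_, ?_⟩
        · omega
        · rw [this]
          simpa using hx
      · have : ((x + N).toNat : ℤ) = x + N := Int.toNat_of_nonneg (by linarith)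
        rw [this]
        ring
    · intro k _
      rfl
  have h2 : ∑ i ∈ Finset.range (2 * N), ∑ j ∈ Finset.range (2 * N),
      (if ((i : ℤ) - N) ∈ s then f ((i : ℤ) - N) else 0) *
        (if ((j : ℤ) - N) ∈ s then f ((j : ℤ) - N) else 0) * DD d ((i : ℤ) - j) =
      ∑ x ∈ s, ∑ y ∈ s, f x * f y * DD d (x - y) := by
    rw [← key fun x => ∑ y ∈ s, f x * f y * DD d (x - y)]
    refine Finset.sum_congr rfl fun i _ => ?_
    split_ifs with hi
    · rw [← key fun y => f ((i : ℤ) - N) * f y * DD d ((i : ℤ) - N - y)]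
      refine Finset.sum_congr rfl fun j _ => ?_
      split_ifs with hj
      · congr 2
        ring
      · ring
    · exact Finset.sum_eq_zero fun j _ => by ring
  rw [h2] at h1
  exact h1

lemma tendsto_floor_div (a : ℝ) :
    Tendsto (fun n : ℕ => ((⌊a * n⌋ : ℝ) / n)) atTop (𝓝 a) := by
  have h1 : Tendsto (fun n : ℕ => (1 : ℝ) / n) atTop (𝓝 0) := tendsto_one_div_atTop_nhds_zero_nat
  have h2 : Tendsto (fun n : ℕ => ((⌊a * n⌋ : ℝ) / n) - a) atTop (𝓝 0) := by
    refine squeeze_zero_norm' ?_ h1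
    filter_upwards [eventually_gt_atTop 0] with n hn
    have hn' : (0 : ℝ) < n := by exact_mod_cast hn
    rw [Real.norm_eq_abs, show ((⌊a * n⌋ : ℝ) / n) - a = -((a * n - ⌊a * n⌋) / n) by
      field_simp; ring, abs_neg, abs_div, abs_of_pos hn', abs_of_nonneg (by
        have := Int.floor_le (a * n); linarith)]
    refine div_le_div_of_nonneg_right ?_ hn'.le
    have := Int.lt_floor_add_one (a * n)
    linarith
  have h3 := h2.add_const a
  simpa using h3

/-- positivity for real valued functions on the integers -/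
lemma PD.psdReal (hd : PD d) (s : Finset ℤ) (f : ℤ → ℝ) :
    0 ≤ ∑ x ∈ s, ∑ y ∈ s, f x * f y * (DD d (x - y) : ℝ) := by
  have h1 : ∀ n : ℕ, 0 ≤ ∑ x ∈ s, ∑ y ∈ s, ((⌊f x * n⌋ : ℝ) / n) * ((⌊f y * n⌋ : ℝ) / n) *
      (DD d (x - y) : ℝ) := by
    intro n
    have h2 := hd.psdInt s fun x => ⌊f x * n⌋
    have h3 : (0 : ℝ) ≤ ((∑ x ∈ s, ∑ y ∈ s, ⌊f x * n⌋ * ⌊f y * n⌋ * DD d (x - y) : ℤ) : ℝ) := by
      exact_mod_cast h2
    have h4 : ∑ x ∈ s, ∑ y ∈ s, ((⌊f x * n⌋ : ℝ) / n) * ((⌊f y * n⌋ : ℝ) / n) *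
        (DD d (x - y) : ℝ) =
        ((∑ x ∈ s, ∑ y ∈ s, ⌊f x * n⌋ * ⌊f y * n⌋ * DD d (x - y) : ℤ) : ℝ) / (n * n) := by
      push_cast
      rw [Finset.sum_div]
      refine Finset.sum_congr rfl fun x _ => ?_
      rw [Finset.sum_div]
      refine Finset.sum_congr rfl fun y _ => ?_
      rw [div_mul_div_comm]
      ring
    rw [h4]
    positivity
  have h2 : Tendsto (fun n : ℕ => ∑ x ∈ s, ∑ y ∈ s, ((⌊f x * n⌋ : ℝ) / n) *
      ((⌊f y * n⌋ : ℝ) / n) * (DD d (x - y) : ℝ)) atTop
      (𝓝 (∑ x ∈ s, ∑ y ∈ s, f x * f y * (DD d (x - y) : ℝ))) := by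
    refine tendsto_finsetSum _ fun x _ => tendsto_finsetSum _ fun y _ => ?_
    have h3 : ∀ z : ℤ, Tendsto (fun n : ℕ => ((⌊f z * n⌋ : ℝ) / n)) atTop (𝓝 (f z)) := by
      intro z
      exact tendsto_floor_div (f z)
    exact ((h3 x).mul (h3 y)).mul_const _
  exact ge_of_tendsto' h2 h1

/-- the Hilbert space of `d` -/
theorem PD.hilbert (hd : PD d) : ∃ (H : Type) (_ : NormedAddCommGroup H)
    (_ : InnerProductSpace ℝ H) (_ : CompleteSpace H) (u : ℤ → H),
    ∀ i j, inner ℝ (u i) (u j) = (DD d (i - j) : ℝ) := by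
  classical
  let K : Matrix ℤ ℤ (ℝ →L[ℝ] ℝ) := Matrix.of fun i j => (DD d (i - j) : ℝ) •
    (1 : ℝ →L[ℝ] ℝ)
  have hK : K.PosSemidef := by
    have htfae := (RKHS.posSemidef_tfae (𝕜 := ℝ) (K := K)).out 0 2
    refine htfae.mpr ⟨?_, fun vv => ?_⟩
    · ext i j
      simp only [K, Matrix.conjTranspose_apply, Matrix.of_apply, star_smul, star_trivial]
      rw [show j - i = -(i - j) by ring, DD_neg]
      simp
    · have h1 := hd.psdReal vv.support fun x => vv x
      refine h1.trans_eq ?_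
      simp only [Finsupp.sum, K, Matrix.of_apply]
      refine Finset.sum_congr rfl fun x _ => Finset.sum_congr rfl fun y _ => ?_
      simp
      rw [show y - x = -(x - y) by ring, DD_neg]
      ring
  have : Fact K.PosSemidef := ⟨hK⟩
  refine ⟨RKHS.OfKernel K, inferInstance, inferInstance, inferInstance,
    fun i => RKHS.kerFun (RKHS.OfKernel K) i 1, fun i j => ?_⟩
  rw [← RKHS.kernel_inner, RKHS.OfKernel.kernel_ofKernel]
  simp only [K, Matrix.of_apply]
  simp
  rw [show j - i = -(i - j) by ring, DD_neg]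

/-- weak limits along an ultrafilter -/
theorem weak_lim {H : Type} [NormedAddCommGroup H] [InnerProductSpace ℝ H] [CompleteSpace H]
    (U : Ultrafilter ℕ) (x : ℕ → H) (C : ℝ) (hx : ∀ n, ‖x n‖ ≤ C) :
    ∃ w : H, ∀ y, Tendsto (fun n => inner ℝ y (x n)) U (𝓝 (inner ℝ y w)) := by
  have h1 : ∀ y : H, ∃ a : ℝ, Tendsto (fun n => inner ℝ y (x n)) U (𝓝 a) ∧ |a| ≤ C * ‖y‖ := by
    intro y
    have hb : ∀ n, inner ℝ y (x n) ∈ Set.Icc (-(C * ‖y‖)) (C * ‖y‖) := by
      intro n
      have h2 := abs_real_inner_le_norm y (x n)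
      have h3 : ‖y‖ * ‖x n‖ ≤ C * ‖y‖ := by
        rw [mul_comm]
        exact mul_le_mul_of_nonneg_right (hx n) (norm_nonneg _)
      exact abs_le.mp (h2.trans h3)
    obtain ⟨a, ha, hle⟩ := (isCompact_Icc (a := -(C * ‖y‖)) (b := C * ‖y‖)).ultrafilter_le_nhds
      (U.map fun n => inner ℝ y (x n)) (by
        rw [le_principal_iff, Ultrafilter.mem_coe, Ultrafilter.mem_map]
        exact Filter.univ_mem' hb)
    exact ⟨a, hle, abs_le.mpr ha⟩
  choose φ hφ hb using h1
  let f : H →ₗ[ℝ] ℝ :=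
    { toFun := φ
      map_add' := fun y z => by
        refine tendsto_nhds_unique (hφ (y + z)) ?_
        simpa only [inner_add_left] using (hφ y).add (hφ z)
      map_smul' := fun c y => by
        refine tendsto_nhds_unique (hφ (c • y)) ?_
        simpa only [real_inner_smul_left, smul_eq_mul, RingHom.id_apply] using (hφ y).const_mul c }
  let g : H →L[ℝ] ℝ := f.mkContinuous C fun y => by
    rw [Real.norm_eq_abs]
    exact hb y
  refine ⟨(InnerProductSpace.toDual ℝ H).symm g, fun y => ?_⟩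
  have h2 : inner ℝ y ((InnerProductSpace.toDual ℝ H).symm g) = φ y := by
    rw [real_inner_comm, InnerProductSpace.toDual_symm_apply]
    rfl
  rw [h2]
  exact hφ y

end TatePole.Fs
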