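import Mathlib
import Pool.Agent.Lib.MP_058a58_ag.Fs.Hilb

/-!
# Shift invariant families of unit vectors with integral inner products
-/

open Filter Topology

namespace TatePole.Fs

variable {H : Type} [NormedAddCommGroup H] [InnerProductSpace ℝ H]

lemma unit_cases {x y : H} (hx : inner ℝ x x = 1) (hy : inner ℝ y y = 1)
    (h : ∃ n : ℤ, inner ℝ x y = (n : ℝ)) :
    inner ℝ x y = 0 ∨ (inner ℝ x y = 1 ∧ x = y) ∨ (inner ℝ x y = -1 ∧ x = -y) := by
  obtain ⟨n, hn⟩ := h
  have h1 : inner ℝ (x - y) (x - y) = 2 - 2 * inner ℝ x y := by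
    rw [inner_sub_left, inner_sub_right, inner_sub_right, hx, hy, real_inner_comm x y]
    ring
  have h2 : inner ℝ (x + y) (x + y) = 2 + 2 * inner ℝ x y := by
    rw [inner_add_left, inner_add_right, inner_add_right, hx, hy, real_inner_comm x y]
    ring
  have h3 : 0 ≤ inner ℝ (x - y) (x - y) := real_inner_self_nonneg
  have h4 : 0 ≤ inner ℝ (x + y) (x + y) := real_inner_self_nonneg
  rw [h1, hn] at h3
  rw [h2, hn] at h4
  have h5 : (n : ℝ) ≤ 1 := by linarith
  have h6 : (-1 : ℝ) ≤ n := by linarith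
  have h7 : n ≤ 1 := by exact_mod_cast h5
  have h8 : -1 ≤ n := by exact_mod_cast h6
  have h9 : n = -1 ∨ n = 0 ∨ n = 1 := by omega
  rcases h9 with rfl | rfl | rfl
  · right; right
    refine ⟨by rw [hn]; norm_num, ?_⟩
    rw [hn] at h2
    have : inner ℝ (x + y) (x + y) = 0 := by rw [h2]; norm_num
    exact eq_neg_of_add_eq_zero_left (inner_self_eq_zero.mp this)
  · left
    rw [hn]; norm_num
  · right; left
    refine ⟨by rw [hn]; norm_num, ?_⟩
    rw [hn] at h1
    have : inner ℝ (x - y) (x - y) = 0 := by rw [h1]; norm_num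
    exact sub_eq_zero.mp (inner_self_eq_zero.mp this)

/-- a shift invariant family of unit vectors with integral inner products -/
structure Fam (b : ℤ → H) : Prop where
  one : ∀ i, inner ℝ (b i) (b i) = 1
  shift : ∀ i j k, inner ℝ (b (i + k)) (b (j + k)) = inner ℝ (b i) (b j)
  int : ∀ i j, ∃ n : ℤ, inner ℝ (b i) (b j) = (n : ℝ)

/-- finite orbit up to sign -/
def FO (b : ℤ → H) : Prop :=
  ∃ p : ℕ, 1 ≤ p ∧ ∃ ε : ℝ, (ε = 1 ∨ ε = -1) ∧ ∀ i : ℤ, b (i + p) = ε • b i

lemma Fam.rel {b : ℤ → H} (hb : Fam b) {p : ℤ} {ε : ℝ} (hε : ε = 1 ∨ ε = -1)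
    (h : inner ℝ (b p) (b 0) = ε) (i : ℤ) : b (i + p) = ε • b i := by
  have h1 : inner ℝ (b (i + p)) (b i) = ε := by
    have := hb.shift p 0 i
    rw [zero_add, h, add_comm p i] at this
    exact this
  rcases unit_cases (hb.one _) (hb.one _) (hb.int (i + p) i) with h2 | ⟨h2, h3⟩ | ⟨h2, h3⟩
  · rw [h1] at h2
    rcases hε with rfl | rfl <;> norm_num at h2
  · rw [h1] at h2
    rw [h2, one_smul]
    exact h3
  · rw [h1] at h2
    rw [h2, neg_one_smul]
    exact h3

lemma Fam.fo_of_ne {b : ℤ → H} (hb : Fam b) {i : ℤ} (hi : i ≠ 0)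
    (h : inner ℝ (b i) (b 0) ≠ 0) : FO b := by
  obtain ⟨p, hp, hne⟩ : ∃ p : ℕ, 1 ≤ p ∧ inner ℝ (b p) (b 0) ≠ 0 := by
    rcases lt_or_gt_of_ne hi with h1 | h1
    · refine ⟨(-i).toNat, by omega, ?_⟩
      have h2 : (((-i).toNat : ℕ) : ℤ) = -i := Int.toNat_of_nonneg (by omega)
      rw [h2, real_inner_comm]
      have h3 := hb.shift i 0 (-i)
      rw [add_neg_cancel, zero_add] at h3
      rw [h3]
      exact h
    · refine ⟨i.toNat, by omega, ?_⟩
      have h2 : ((i.toNat : ℕ) : ℤ) = i := Int.toNat_of_nonneg (by omega)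
      rw [h2]
      exact h
  rcases unit_cases (hb.one _) (hb.one _) (hb.int p 0) with h2 | ⟨h2, _⟩ | ⟨h2, _⟩
  · exact absurd h2 hne
  · exact ⟨p, hp, 1, Or.inl rfl, fun i => hb.rel (Or.inl rfl) h2 i⟩
  · exact ⟨p, hp, -1, Or.inr rfl, fun i => hb.rel (Or.inr rfl) h2 i⟩

lemma Fam.tendsto_zero {b : ℤ → H} (hb : Fam b) (hn : ¬ FO b) (x : H) :
    Tendsto (fun n : ℕ => inner ℝ x (b n)) atTop (𝓝 0) := by
  have horth : Orthonormal ℝ (fun n : ℕ => b n) := by
    refine ⟨fun n => ?_, fun i j hij => ?_⟩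
    · have h1 := hb.one n
      rw [real_inner_self_eq_norm_sq] at h1
      have h2 : 0 ≤ ‖b n‖ := norm_nonneg _
      nlinarith
    · by_contra hne
      refine hn (hb.fo_of_ne (i := (i : ℤ) - j) ?_ ?_)
      · intro h
        apply hij
        have : (i : ℤ) = j := by linarith
        exact_mod_cast this
      · have h2 := hb.shift (i - j) 0 j
        rw [sub_add_cancel, zero_add] at h2
        rw [← h2]
        exact hne
  have h1 : Summable fun n : ℕ => ‖inner ℝ (b n) x‖ ^ 2 := horth.inner_products_summable x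
  have h2 := h1.tendsto_atTop_zero
  have h3 : Tendsto (fun n : ℕ => ‖inner ℝ (b n) x‖) atTop (𝓝 0) := by
    have h4 := h2.sqrt
    rw [Real.sqrt_zero] at h4
    refine h4.congr fun n => ?_
    rw [Real.sqrt_sq (norm_nonneg _)]
  have h4 := tendsto_zero_iff_norm_tendsto_zero.mpr h3
  refine h4.congr fun n => ?_
  rw [real_inner_comm]

lemma FO.period {b : ℤ → H} (hb : FO b) : ∃ q : ℕ, 1 ≤ q ∧ ∀ (k : ℕ) (i : ℤ),
    b (i + (q * k : ℕ)) = b i := by
  obtain ⟨p, hp, ε, hε, h⟩ := hb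
  refine ⟨2 * p, by omega, fun k => ?_⟩
  have h2 : ∀ i : ℤ, b (i + (2 * p : ℕ)) = b i := by
    intro i
    have : i + (2 * p : ℕ) = i + p + p := by push_cast; ring
    rw [this, h, h, smul_smul]
    rcases hε with rfl | rfl <;> norm_num
  induction k with
  | zero => intro i; simp
  | succ k ih =>
    intro i
    have : i + ((2 * p * (k + 1) : ℕ) : ℤ) = (i + ((2 * p * k : ℕ) : ℤ)) + ((2 * p : ℕ) : ℤ) := by
      push_cast; ring
    rw [this, h2, ih]

/-- integral limits -/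
lemma int_lim {F : Filter ℕ} [F.NeBot] {g : ℕ → ℝ} (hg : ∀ n, ∃ k : ℤ, g n = (k : ℝ)) {a : ℝ}
    (h : Tendsto g F (𝓝 a)) : (∃ k : ℤ, a = (k : ℝ)) ∧ ∀ᶠ n in F, g n = a := by
  choose k hk using hg
  have h1 : ∀ᶠ n in F, |g n - a| < 1 / 2 := by
    have := (Metric.tendsto_nhds.mp h) (1 / 2) (by norm_num)
    simpa [Real.dist_eq] using this
  obtain ⟨n0, hn0⟩ := h1.exists
  have h2 : ∀ᶠ n in F, g n = g n0 := by
    filter_upwards [h1] with n hn
    have h3 : |g n - g n0| < 1 := by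
      have : g n - g n0 = (g n - a) - (g n0 - a) := by ring
      rw [this]
      exact (abs_sub _ _).trans_lt (by linarith)
    rw [hk n, hk n0] at h3 ⊢
    have h4 : |k n - k n0| < 1 := by exact_mod_cast h3
    have h5 : k n - k n0 = 0 := Int.abs_lt_one_iff.mp h4
    have : k n = k n0 := by omega
    rw [this]
  have h3 : a = g n0 := by
    refine tendsto_nhds_unique h ?_
    exact tendsto_const_nhds.congr' (h2.mono fun n hn => hn.symm)
  refine ⟨⟨k n0, by rw [h3, hk n0]⟩, ?_⟩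
  rw [h3]
  exact h2

end TatePole.Fs
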