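import Mathlib
import Pool.Agent.Lib.MP_058a58_ag.Fs.Fam

/-!
# Classification of integer valued positive definite sequences with `d 0 = 2`
-/

open Filter Topology

namespace TatePole.Fs

/-- the possible laws -/
def Law (d : ℕ → ℤ) : Prop :=
  (∀ n, 1 ≤ n → d n = 0) ∨
  (∃ k, 1 ≤ k ∧ ∃ ε : ℤ, (ε = 1 ∨ ε = -1) ∧ ∀ n, 1 ≤ n → d n = if n = k then ε else 0) ∨
  (∃ p, 1 ≤ p ∧ ∃ ε : ℤ, (ε = 1 ∨ ε = -1) ∧ ∀ n, 1 ≤ n → d n = if p ∣ n then ε ^ (n / p) else 0)

section
variable {H : Type} [NormedAddCommGroup H] [InnerProductSpace ℝ H] {d : ℕ → ℤ}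

/-- the case of a decomposition `u = b + e` into unit vectors, `b` with a finite orbit -/
theorem law_of_split {u b e : ℤ → H} (h0 : d 0 = 2)
    (hu : ∀ i j, inner ℝ (u i) (u j) = (DD d (i - j) : ℝ))
    (hnp : ¬ ∃ q : ℕ, 1 ≤ q ∧ d q = 2) (hb : Fam b) (he : Fam e) (n0 : ℤ)
    (hsum : ∀ i, u (n0 + i) = b i + e i)
    (hcs : ∀ i j k, inner ℝ (e (i + k)) (b (j + k)) = inner ℝ (e i) (b j))
    (hci : ∀ i j, ∃ n : ℤ, inner ℝ (e i) (b j) = (n : ℝ)) (hfb : FO b) : Law d := by
  have hD : ∀ n : ℕ, ((d n : ℤ) : ℝ) = inner ℝ (b n + e n) (b 0 + e 0) := by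
    intro n
    rw [← hsum, ← hsum, hu]
    unfold DD
    congr 2
    omega
  have hfe : ¬ FO e := by
    intro hfe
    obtain ⟨q, hq, hqb⟩ := hfb.period
    obtain ⟨q', hq', hqe⟩ := hfe.period
    refine hnp ⟨q * q', Nat.mul_pos hq hq', ?_⟩
    have h1 := hqb q' 0
    have h2 := hqe q 0
    rw [zero_add] at h1 h2
    rw [mul_comm q' q] at h2
    have h3 := hD (q * q')
    have h4 := hD 0
    rw [h0] at h4
    rw [h1, h2] at h3
    rw [Nat.cast_zero] at h4
    rw [← h4] at h3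
    exact_mod_cast h3
  have hee : ∀ i : ℤ, i ≠ 0 → inner ℝ (e i) (e 0) = 0 := by
    intro i hi
    by_contra h
    exact hfe (he.fo_of_ne hi h)
  have heb : ∀ i j : ℤ, inner ℝ (e i) (b j) = 0 := by
    intro i j
    by_contra h
    obtain ⟨p, hp, ε, hε, hbp⟩ := hfb
    refine hfe ⟨p, hp, ε, hε, ?_⟩
    have key : ∃ η : ℝ, ∀ k : ℤ, e (i + k) = η • b (j + k) := by
      rcases unit_cases (he.one i) (hb.one j) (hci i j) with h2 | ⟨h2, _⟩ | ⟨h2, _⟩
      · exact absurd h2 h
      · refine ⟨1, fun k => ?_⟩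
        rcases unit_cases (he.one (i + k)) (hb.one (j + k)) (hci _ _) with h3 | ⟨_, h4⟩ | ⟨h3, _⟩
        · rw [hcs, h2] at h3
          norm_num at h3
        · rw [one_smul]
          exact h4
        · rw [hcs, h2] at h3
          norm_num at h3
      · refine ⟨-1, fun k => ?_⟩
        rcases unit_cases (he.one (i + k)) (hb.one (j + k)) (hci _ _) with h3 | ⟨h3, _⟩ | ⟨_, h4⟩
        · rw [hcs, h2] at h3
          norm_num at h3
        · rw [hcs, h2] at h3
          norm_num at h3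
        · rw [neg_one_smul]
          exact h4
    obtain ⟨η, hη⟩ := key
    intro k
    have h1 := hη (k - i)
    have h2 := hη (k + p - i)
    rw [add_sub_cancel] at h1 h2
    rw [h1, h2, show j + (k + (p : ℤ) - i) = (j + (k - i)) + p by ring, hbp, smul_comm]
  have hdn : ∀ n : ℕ, 1 ≤ n → ((d n : ℤ) : ℝ) = inner ℝ (b n) (b 0) := by
    intro n hn
    rw [hD n, inner_add_left, inner_add_right, inner_add_right, heb,
      real_inner_comm (e 0) (b n), heb, hee n (by exact_mod_cast (by omega : n ≠ 0))]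
    ring
  -- the minimal period
  right; right
  classical
  have hex : ∃ p : ℕ, 1 ≤ p ∧ inner ℝ (b p) (b 0) ≠ 0 := by
    obtain ⟨p, hp, ε, hε, hbp⟩ := hfb
    refine ⟨p, hp, ?_⟩
    have h1 := hbp 0
    rw [zero_add] at h1
    rw [h1, real_inner_smul_left, hb.one, mul_one]
    rcases hε with rfl | rfl <;> norm_num
  obtain ⟨p, ⟨hp, hpne⟩, hmin⟩ : ∃ p : ℕ, (1 ≤ p ∧ inner ℝ (b p) (b 0) ≠ 0) ∧
      ∀ m : ℕ, m < p → ¬ (1 ≤ m ∧ inner ℝ (b m) (b 0) ≠ 0) :=
    ⟨Nat.find hex, Nat.find_spec hex, fun n hn => Nat.find_min hex hn⟩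
  have hr : ∀ r : ℕ, 1 ≤ r → r < p → inner ℝ (b r) (b 0) = 0 := by
    intro r hr hrp
    by_contra h
    exact hmin r hrp ⟨hr, h⟩
  have hpn := hdn p hp
  have hdp : d p = 1 ∨ d p = -1 := by
    rcases unit_cases (hb.one p) (hb.one 0) (hb.int p 0) with h2 | ⟨h2, _⟩ | ⟨h2, _⟩
    · exact absurd h2 hpne
    · left
      rw [h2] at hpn
      exact_mod_cast hpn
    · right
      rw [h2] at hpn
      exact_mod_cast hpn
  have hrel : ∀ i : ℤ, b (i + p) = ((d p : ℤ) : ℝ) • b i := by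
    refine hb.rel ?_ hpn.symm
    rcases hdp with h | h
    · left; rw [h]; norm_num
    · right; rw [h]; norm_num
  have hrel' : ∀ (q : ℕ) (i : ℤ), b (i + (p * q : ℕ)) = (((d p : ℤ) : ℝ) ^ q) • b i := by
    intro q
    induction q with
    | zero => intro i; simp
    | succ q ih =>
      intro i
      have : i + ((p * (q + 1) : ℕ) : ℤ) = (i + ((p * q : ℕ) : ℤ)) + p := by push_cast; ring
      rw [this, hrel, ih, smul_smul, pow_succ, mul_comm]
  refine ⟨p, hp, d p, hdp, fun n hn => ?_⟩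
  have h1 := hdn n hn
  have h2 : (n : ℤ) = ((n % p : ℕ) : ℤ) + ((p * (n / p) : ℕ) : ℤ) := by
    have := Nat.mod_add_div n p
    exact_mod_cast this.symm
  rw [h2, hrel', real_inner_smul_left] at h1
  split_ifs with hdvd
  · have h3 : n % p = 0 := Nat.mod_eq_zero_of_dvd hdvd
    rw [h3, Nat.cast_zero, hb.one, mul_one] at h1
    exact_mod_cast h1
  · have h3 : 1 ≤ n % p := by
      rcases Nat.eq_zero_or_pos (n % p) with h | h
      · exact absurd (Nat.dvd_of_mod_eq_zero h) hdvd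
      · exact h
    rw [hr (n % p) h3 (Nat.mod_lt n (by omega)), mul_zero] at h1
    exact_mod_cast h1

end

section
variable {H : Type} [NormedAddCommGroup H] [InnerProductSpace ℝ H] [CompleteSpace H] {d : ℕ → ℤ}

/-- infinitely many nonzero values -/
theorem law_of_infinite {u : ℤ → H} (h0 : d 0 = 2)
    (hu : ∀ i j, inner ℝ (u i) (u j) = (DD d (i - j) : ℝ))
    (hnp : ¬ ∃ q : ℕ, 1 ≤ q ∧ d q = 2) (hbd : ∀ n : ℕ, 1 ≤ n → |d n| ≤ 1)
    (hinf : ∃ᶠ n in atTop, d n ≠ 0) : Law d := by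
  have hFne : (atTop ⊓ 𝓟 {n : ℕ | d n ≠ 0}).NeBot := by
    rw [← frequently_iff_neBot]
    exact hinf
  let U : Ultrafilter ℕ := Ultrafilter.of (atTop ⊓ 𝓟 {n : ℕ | d n ≠ 0})
  have hUle : (U : Filter ℕ) ≤ atTop ⊓ 𝓟 {n : ℕ | d n ≠ 0} := Ultrafilter.of_le _
  have hUat : (U : Filter ℕ) ≤ atTop := hUle.trans inf_le_left
  have hUne : ∀ᶠ n in (U : Filter ℕ), d n ≠ 0 := hUle.trans inf_le_right (mem_principal_self _)
  have hnorm : ∀ i, ‖u i‖ ≤ 2 := by
    intro i
    have h1 := hu i i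
    rw [sub_self, real_inner_self_eq_norm_sq] at h1
    have h2 : DD d 0 = 2 := h0
    rw [h2] at h1
    push_cast at h1
    nlinarith [norm_nonneg (u i)]
  have hw : ∀ i : ℤ, ∃ w : H, ∀ y, Tendsto (fun n : ℕ => inner ℝ y (u (n + i))) U
      (𝓝 (inner ℝ y w)) := fun i => weak_lim U (fun n => u (n + i)) 2 fun n => hnorm _
  choose w hw using hw
  -- shift invariance
  have hG : ∀ m i k, inner ℝ (u (m + k)) (w (i + k)) = inner ℝ (u m) (w i) := by
    intro m i k
    refine tendsto_nhds_unique (hw (i + k) (u (m + k))) ((hw i (u m)).congr fun n => ?_)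
    rw [hu, hu]
    congr 2
    ring
  have hC : ∀ j i k, inner ℝ (w (j + k)) (w (i + k)) = inner ℝ (w j) (w i) := by
    intro j i k
    refine tendsto_nhds_unique (hw (i + k) (w (j + k))) ((hw i (w j)).congr fun n => ?_)
    rw [real_inner_comm, real_inner_comm (u (n + (i + k))), ← hG (n + i) j k]
    congr 2
    ring
  have hGi : ∀ m i, ∃ k : ℤ, inner ℝ (u m) (w i) = (k : ℝ) := by
    intro m i
    exact (int_lim (F := (U : Filter ℕ)) (fun n => ⟨_, hu _ _⟩) (hw i (u m))).1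
  have hCi : ∀ j i, ∃ k : ℤ, inner ℝ (w j) (w i) = (k : ℝ) := by
    intro j i
    refine (int_lim (F := (U : Filter ℕ)) (fun n => ?_) (hw i (w j))).1
    obtain ⟨k, hk⟩ := hGi (n + i) j
    exact ⟨k, by rw [real_inner_comm]; exact hk⟩
  -- the bound by one
  have hGb : ∀ m i, |inner ℝ (u m) (w i)| ≤ 1 := by
    intro m i
    have h1 := (hw i (u m)).abs
    refine le_of_tendsto h1 ?_
    have h2 : ∀ᶠ n : ℕ in atTop, (m - i).natAbs < n := eventually_gt_atTop _
    filter_upwards [hUat h2] with n hn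
    rw [hu]
    have h3 := hbd (m - (n + i)).natAbs (by omega)
    unfold DD
    exact_mod_cast h3
  have hw00 : inner ℝ (w 0) (w 0) = 1 := by
    -- `w 0` is not orthogonal to `u 0`
    have h1 : inner ℝ (u 0) (w 0) ≠ 0 := by
      have h2 := (int_lim (F := (U : Filter ℕ)) (fun n => ⟨_, hu _ _⟩) (hw 0 (u 0))).2
      obtain ⟨n, hn1, hn2⟩ := (h2.and hUne).exists
      rw [← hn1, hu]
      unfold DD
      have h3 : (0 - ((n : ℤ) + 0)).natAbs = n := by omega
      rw [h3]
      exact_mod_cast hn2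
    have h2 : w 0 ≠ 0 := by
      intro h
      rw [h, inner_zero_right] at h1
      exact h1 rfl
    have h3 : inner ℝ (w 0) (w 0) ≤ 1 := by
      refine le_of_tendsto (hw 0 (w 0)) (Filter.Eventually.of_forall fun n => ?_)
      rw [real_inner_comm]
      exact (le_abs_self _).trans (hGb _ _)
    have h4 : 0 < inner ℝ (w 0) (w 0) := real_inner_self_pos.mpr h2
    obtain ⟨k, hk⟩ := hCi 0 0
    rw [hk] at h3 h4 ⊢
    have h5 : k ≤ 1 := by exact_mod_cast h3
    have h6 : 0 < k := by exact_mod_cast h4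
    have : k = 1 := by omega
    rw [this]
    norm_num
  have hww : ∀ i, inner ℝ (w i) (w i) = 1 := by
    intro i
    have h1 := hC 0 0 i
    rw [zero_add] at h1
    rw [h1, hw00]
  -- a place where the inner product is one
  obtain ⟨n0, hn0⟩ : ∃ n0 : ℕ, inner ℝ (u n0) (w 0) = 1 := by
    have h1 := (int_lim (F := (U : Filter ℕ)) (fun n => by
      obtain ⟨k, hk⟩ := hGi (n + 0) 0
      exact ⟨k, by rw [real_inner_comm]; exact hk⟩) (hw 0 (w 0))).2
    obtain ⟨n, hn⟩ := h1.exists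
    refine ⟨n, ?_⟩
    rw [real_inner_comm, hw00, add_zero] at hn
    exact hn
  have hn0' : ∀ i : ℤ, inner ℝ (u (n0 + i)) (w i) = 1 := by
    intro i
    have h1 := hG n0 0 i
    rw [zero_add] at h1
    rw [h1, hn0]
  -- the second family
  set v : ℤ → H := fun i => u (n0 + i) - w i with hv
  have hvw : ∀ i j, inner ℝ (v i) (w j) = inner ℝ (u (n0 + i)) (w j) - inner ℝ (w i) (w j) :=
    fun i j => inner_sub_left _ _ _
  have hvv : ∀ i j, inner ℝ (v i) (v j) = (DD d (i - j) : ℝ) - inner ℝ (u (n0 + i)) (w j) -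
      inner ℝ (u (n0 + j)) (w i) + inner ℝ (w i) (w j) := by
    intro i j
    simp only [hv]
    rw [inner_sub_left, inner_sub_right, inner_sub_right, hu, real_inner_comm (u (n0 + j)) (w i)]
    rw [show (n0 : ℤ) + i - (n0 + j) = i - j by ring]
    ring
  have hFw : Fam w := ⟨hww, hC, hCi⟩
  have hFv : Fam v := by
    refine ⟨fun i => ?_, fun i j k => ?_, fun i j => ?_⟩
    · rw [hvv, hn0', hww, sub_self]
      have : DD d 0 = 2 := h0
      rw [this]
      norm_num
    · rw [hvv, hvv, hC, ← add_assoc, ← add_assoc, hG, hG, add_sub_add_right_eq_sub]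
    · rw [hvv]
      obtain ⟨a, ha⟩ := hGi (n0 + i) j
      obtain ⟨b, hb⟩ := hGi (n0 + j) i
      obtain ⟨c, hc⟩ := hCi i j
      exact ⟨DD d (i - j) - a - b + c, by rw [ha, hb, hc]; push_cast; ring⟩
  have hcs : ∀ i j k, inner ℝ (v (i + k)) (w (j + k)) = inner ℝ (v i) (w j) := by
    intro i j k
    rw [hvw, hvw, hC, ← add_assoc, hG]
  have hci : ∀ i j, ∃ n : ℤ, inner ℝ (v i) (w j) = (n : ℝ) := by
    intro i j
    rw [hvw]
    obtain ⟨a, ha⟩ := hGi (n0 + i) j
    obtain ⟨c, hc⟩ := hCi i j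
    exact ⟨a - c, by rw [ha, hc]; push_cast; ring⟩
  have hsum : ∀ i, u (n0 + i) = w i + v i := fun i => by simp only [hv]; abel
  by_cases hFOw : FO w
  · exact law_of_split h0 hu hnp hFw hFv n0 hsum hcs hci hFOw
  · by_cases hFOv : FO v
    · refine law_of_split h0 hu hnp hFv hFw n0 (fun i => by rw [hsum, add_comm]) ?_ ?_ hFOv
      · intro i j k
        rw [real_inner_comm, hcs, real_inner_comm]
      · intro i j
        obtain ⟨n, hn⟩ := hci j i
        exact ⟨n, by rw [real_inner_comm]; exact hn⟩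
    · -- both orbits infinite: the weak limit would be zero
      exfalso
      have h1 := hFw.tendsto_zero hFOw (w 0)
      have h2 := hFv.tendsto_zero hFOv (w 0)
      have h3 : Tendsto (fun n : ℕ => inner ℝ (w 0) (u ((n0 : ℤ) + n))) atTop (𝓝 0) := by
        have h4 := h1.add h2
        rw [add_zero] at h4
        refine h4.congr fun n => ?_
        rw [hsum, inner_add_right]
      have h5 : Tendsto (fun n : ℕ => inner ℝ (w 0) (u ((n : ℤ) + 0))) atTop (𝓝 0) := by
        rw [← tendsto_add_atTop_iff_nat n0]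
        refine h3.congr fun n => ?_
        congr 2
        push_cast
        ring
      have h6 := tendsto_nhds_unique (h5.mono_left hUat) (hw 0 (w 0))
      rw [hw00] at h6
      norm_num at h6

end

end TatePole.Fs
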