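import Mathlib
import Pool.Agent.Lib.MP_058a58_ag.Fs.Cls

/-!
# Classification, the case of finite support
-/

open Filter Topology

namespace TatePole.Fs

set_option linter.unusedSectionVars false

section
variable {H : Type} [NormedAddCommGroup H] [InnerProductSpace ℝ H] [CompleteSpace H] {d : ℕ → ℤ}

/-- the partial sums `∑_{k ≤ K} (-ε)^k u (i + k N)` -/
def SK (u : ℤ → H) (N : ℕ) (ε : ℝ) : ℕ → ℤ → H
  | 0, i => u i
  | (K + 1), i => SK u N ε K i + ((-ε) ^ (K + 1)) • u (i + ((K + 1) * N : ℕ))

lemma SK_shift (u : ℤ → H) (N : ℕ) (ε : ℝ) (K : ℕ) (i : ℤ) :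
    SK u N ε K i + ε • SK u N ε K (i + N) =
      u i - ((-ε) ^ (K + 1)) • u (i + ((K + 1) * N : ℕ)) := by
  induction K with
  | zero =>
    simp only [SK]
    rw [show i + ((0 + 1) * N : ℕ) = i + N by push_cast; ring]
    simp
  | succ K ih =>
    simp only [SK]
    have e : i + (N : ℤ) + ((K + 1) * N : ℕ) = i + ((K + 1 + 1) * N : ℕ) := by push_cast; ring
    rw [e, smul_add, smul_smul]
    have h1 : SK u N ε K i + (-ε) ^ (K + 1) • u (i + ((K + 1) * N : ℕ)) +
        (ε • SK u N ε K (i + N) + (ε * (-ε) ^ (K + 1)) • u (i + ((K + 1 + 1) * N : ℕ))) =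
        (SK u N ε K i + ε • SK u N ε K (i + N)) + (-ε) ^ (K + 1) • u (i + ((K + 1) * N : ℕ)) +
        (ε * (-ε) ^ (K + 1)) • u (i + ((K + 1 + 1) * N : ℕ)) := by abel
    rw [h1, ih, sub_add_cancel, sub_eq_add_neg, ← neg_smul]
    congr 2
    ring

/-- finite support: exactly one nonzero value -/
theorem law_of_finite {u : ℤ → H} (h0 : d 0 = 2)
    (hu : ∀ i j, inner ℝ (u i) (u j) = (DD d (i - j) : ℝ))
    (hnp : ¬ ∃ q : ℕ, 1 ≤ q ∧ d q = 2) (N : ℕ) (hN : 1 ≤ N) (hdN : d N = 1 ∨ d N = -1)
    (hmax : ∀ n, N < n → d n = 0) : ∀ n, 1 ≤ n → d n = if n = N then d N else 0 := by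
  set ε : ℝ := ((d N : ℤ) : ℝ) with hε
  have hε2 : ε * ε = 1 := by
    rw [hε]
    rcases hdN with h | h <;> rw [h] <;> norm_num
  have hεc : ε = 1 ∨ ε = -1 := by
    rw [hε]
    rcases hdN with h | h <;> rw [h] <;> norm_num
  have hεK : ∀ K : ℕ, (-ε) ^ K * (-ε) ^ K = 1 := by
    intro K
    rw [← mul_pow, neg_mul_neg, hε2, one_pow]
  have hD0 : DD d 0 = 2 := h0
  -- the inner product with the next vector
  have hSu : ∀ (K : ℕ) (i j : ℤ) (L : ℕ), K + 2 ≤ L → j = i + (L * N : ℕ) →
      inner ℝ (SK u N ε K i) (u j) = 0 := by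
    intro K
    induction K with
    | zero =>
      intro i j L hL hj
      simp only [SK]
      rw [hu, hj, show i - (i + ((L * N : ℕ) : ℤ)) = -((L * N : ℕ) : ℤ) by ring, DD_neg,
        DD_natCast, hmax _ (by nlinarith)]
      norm_num
    | succ K ih =>
      intro i j L hL hj
      simp only [SK]
      rw [inner_add_left, ih i j L (by omega) hj, real_inner_smul_left, hu, hj]
      have e : i + (((K + 1) * N : ℕ) : ℤ) - (i + ((L * N : ℕ) : ℤ)) =
          -(((L - (K + 1)) * N : ℕ) : ℤ) := by
        rw [Nat.cast_mul, Nat.cast_mul, Nat.cast_mul, Nat.cast_sub (by omega)]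
        push_cast
        ring
      have h2 : 2 ≤ L - (K + 1) := by omega
      rw [e, DD_neg, DD_natCast, hmax _ (by nlinarith)]
      norm_num
  have hSu1 : ∀ (K : ℕ) (i : ℤ), inner ℝ (SK u N ε K i) (u (i + ((K + 1) * N : ℕ))) =
      (-ε) ^ K * ε := by
    intro K i
    rcases K with _ | K
    · simp only [SK]
      rw [hu, show i - (i + (((0 + 1) * N : ℕ) : ℤ)) = -((N : ℕ) : ℤ) by push_cast; ring, DD_neg,
        DD_natCast, pow_zero, one_mul]
    · simp only [SK]
      rw [inner_add_left, hSu K i _ (K + 1 + 1) le_rfl rfl, real_inner_smul_left, hu]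
      have e : i + (((K + 1) * N : ℕ) : ℤ) - (i + (((K + 1 + 1) * N : ℕ) : ℤ)) = -((N : ℕ) : ℤ) := by
        push_cast; ring
      rw [e, DD_neg, DD_natCast, zero_add]
  have hSS : ∀ (K : ℕ) (i : ℤ), inner ℝ (SK u N ε K i) (SK u N ε K i) = 2 := by
    intro K i
    induction K with
    | zero =>
      simp only [SK]
      rw [hu, sub_self, hD0]
      norm_num
    | succ K ih =>
      simp only [SK]
      rw [inner_add_left, inner_add_right, inner_add_right, ih, real_inner_smul_right, hSu1,
        real_inner_comm, real_inner_smul_right, real_inner_smul_left, real_inner_smul_right, hSu1,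
        hu, sub_self, hD0, pow_succ]
      have h1 := hεK K
      push_cast
      linear_combination (-2 * ε * ε + 2 * ε * ε) * h1 +
        (2 * ((-ε) ^ K * (-ε) ^ K) * 0) * h1
  have hSn : ∀ (K : ℕ) (i : ℤ), ‖SK u N ε K i‖ ≤ 2 := by
    intro K i
    have h1 := hSS K i
    rw [real_inner_self_eq_norm_sq] at h1
    nlinarith [norm_nonneg (SK u N ε K i)]
  -- the weak limits
  let U : Ultrafilter ℕ := Ultrafilter.of atTop
  have hUat : (U : Filter ℕ) ≤ atTop := Ultrafilter.of_le _
  have he : ∀ i : ℤ, ∃ w : H, ∀ y, Tendsto (fun K : ℕ => inner ℝ y (SK u N ε K i)) U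
      (𝓝 (inner ℝ y w)) := fun i => weak_lim U (fun K => SK u N ε K i) 2 fun K => hSn K i
  choose e he using he
  have hεi : ∀ K : ℕ, (-ε) ^ K = (((-(d N)) ^ K : ℤ) : ℝ) := by
    intro K
    rw [hε]
    push_cast
    ring
  have huS : ∀ (K : ℕ) (m i : ℤ), ∃ k : ℤ, inner ℝ (u m) (SK u N ε K i) = (k : ℝ) := by
    intro K m i
    induction K with
    | zero => exact ⟨_, hu _ _⟩
    | succ K ih =>
      obtain ⟨k, hk⟩ := ih
      simp only [SK]
      rw [inner_add_right, hk, real_inner_smul_right, hu, hεi]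
      exact ⟨k + (-(d N)) ^ (K + 1) * DD d (m - (i + ((K + 1) * N : ℕ))), by push_cast; ring⟩
  have huSs : ∀ (K : ℕ) (m i k : ℤ), inner ℝ (u (m + k)) (SK u N ε K (i + k)) =
      inner ℝ (u m) (SK u N ε K i) := by
    intro K m i k
    induction K with
    | zero =>
      simp only [SK]
      rw [hu, hu]
      congr 2
      ring
    | succ K ih =>
      simp only [SK]
      rw [inner_add_right, inner_add_right, ih, real_inner_smul_right, real_inner_smul_right, hu, hu]
      congr 4
      ring
  have hue : ∀ m i, ∃ k : ℤ, inner ℝ (u m) (e i) = (k : ℝ) := fun m i =>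
    (int_lim (F := (U : Filter ℕ)) (fun K => huS K m i) (he i (u m))).1
  have hues : ∀ m i k, inner ℝ (u (m + k)) (e (i + k)) = inner ℝ (u m) (e i) := by
    intro m i k
    refine tendsto_nhds_unique (he (i + k) (u (m + k))) ((he i (u m)).congr fun K => ?_)
    rw [huSs]
  have heS : ∀ (K : ℕ) (j i : ℤ), ∃ k : ℤ, inner ℝ (e j) (SK u N ε K i) = (k : ℝ) := by
    intro K j i
    induction K with
    | zero =>
      obtain ⟨k, hk⟩ := hue i j
      exact ⟨k, by simp only [SK]; rw [real_inner_comm]; exact hk⟩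
    | succ K ih =>
      obtain ⟨k, hk⟩ := ih
      obtain ⟨l, hl⟩ := hue (i + ((K + 1) * N : ℕ)) j
      simp only [SK]
      rw [inner_add_right, hk, real_inner_smul_right, real_inner_comm, hl, hεi]
      exact ⟨k + (-(d N)) ^ (K + 1) * l, by push_cast; ring⟩
  have heu : ∀ j m k : ℤ, inner ℝ (e (j + k)) (u (m + k)) = inner ℝ (e j) (u m) := by
    intro j m k
    rw [real_inner_comm, hues, real_inner_comm]
  have heSs : ∀ (K : ℕ) (j i k : ℤ), inner ℝ (e (j + k)) (SK u N ε K (i + k)) =
      inner ℝ (e j) (SK u N ε K i) := by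
    intro K j i k
    induction K with
    | zero =>
      simp only [SK]
      exact heu _ _ _
    | succ K ih =>
      simp only [SK]
      rw [inner_add_right, inner_add_right, ih, real_inner_smul_right, real_inner_smul_right,
        ← heu j (i + ((K + 1) * N : ℕ)) k, add_right_comm i k]
  have hees : ∀ j i k, inner ℝ (e (j + k)) (e (i + k)) = inner ℝ (e j) (e i) := by
    intro j i k
    refine tendsto_nhds_unique (he (i + k) (e (j + k))) ((he i (e j)).congr fun K => ?_)
    rw [heSs]
  have hei : ∀ j i, ∃ k : ℤ, inner ℝ (e j) (e i) = (k : ℝ) := fun j i =>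
    (int_lim (F := (U : Filter ℕ)) (fun K => heS K j i) (he i (e j))).1
  -- `u i = e i + ε e (i + N)`
  have hzu : ∀ m i, inner ℝ (u m) (u i - e i - ε • e (i + N)) = 0 := by
    intro m i
    rw [inner_sub_right, inner_sub_right, real_inner_smul_right]
    have h1 := (he i (u m)).add ((he (i + N) (u m)).const_mul ε)
    have h2 : ∀ᶠ K in (U : Filter ℕ), inner ℝ (u m) (SK u N ε K i) +
        ε * inner ℝ (u m) (SK u N ε K (i + N)) = inner ℝ (u m) (u i) := by
      have h3 : ∀ᶠ K : ℕ in atTop, (m - i).natAbs + N < K := eventually_gt_atTop _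
      filter_upwards [hUat h3] with K hK
      rw [← real_inner_smul_right, ← inner_add_right, SK_shift, inner_sub_right,
        real_inner_smul_right, hu m (i + ((K + 1) * N : ℕ))]
      have h4 : DD d (m - (i + (((K + 1) * N : ℕ) : ℤ))) = 0 := by
        unfold DD
        refine hmax _ ?_
        have h5 : K ≤ (K + 1) * N := by nlinarith
        omega
      rw [h4]
      norm_num
    have h3 := tendsto_nhds_unique (h1.congr' h2) tendsto_const_nhds
    linarith
  have hzS : ∀ (K : ℕ) (j i : ℤ), inner ℝ (SK u N ε K j) (u i - e i - ε • e (i + N)) = 0 := by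
    intro K j i
    induction K with
    | zero => exact hzu _ _
    | succ K ih =>
      simp only [SK]
      rw [inner_add_left, ih, real_inner_smul_left, hzu]
      ring
  have hze : ∀ j i, inner ℝ (u i - e i - ε • e (i + N)) (e j) = 0 := by
    intro j i
    refine tendsto_nhds_unique (he j _) (tendsto_const_nhds.congr fun K => ?_)
    rw [real_inner_comm, hzS]
  have hue' : ∀ i, u i = e i + ε • e (i + N) := by
    intro i
    have h1 : inner ℝ (u i - e i - ε • e (i + N)) (u i - e i - ε • e (i + N)) = 0 := by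
      rw [inner_sub_right, inner_sub_right, real_inner_smul_right, hze, hze, real_inner_comm, hzu]
      ring
    have h2 := inner_self_eq_zero.mp h1
    rw [sub_sub, sub_eq_zero] at h2
    exact h2
  have hSe : ∀ (K : ℕ), SK u N ε K 0 = e 0 - ((-ε) ^ (K + 1)) • e ((K + 1) * N : ℕ) := by
    intro K
    induction K with
    | zero =>
      simp only [SK]
      rw [hue' 0, zero_add, show (((0 + 1) * N : ℕ) : ℤ) = N by push_cast; ring]
      simp
    | succ K ih =>
      simp only [SK]
      rw [ih, zero_add, hue' ((K + 1) * N : ℕ),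
        show ((((K + 1) * N : ℕ) : ℤ) + N) = (((K + 1 + 1) * N : ℕ) : ℤ) by push_cast; ring,
        smul_add, smul_smul]
      have h1 : ((-ε) ^ (K + 1) * ε) • e (((K + 1 + 1) * N : ℕ) : ℤ) =
          -(((-ε) ^ (K + 1 + 1)) • e (((K + 1 + 1) * N : ℕ) : ℤ)) := by
        rw [← neg_smul]
        congr 1
        ring
      rw [h1]
      abel
  have hc0 : inner ℝ (e 0) (e 0) = 1 := by
    have h1 := he 0 (e 0)
    have h2 : ∀ K : ℕ, inner ℝ (e 0) (SK u N ε K 0) = inner ℝ (e 0) (e 0) -
        (-ε) ^ (K + 1) * inner ℝ (e 0) (e ((K + 1) * N : ℕ)) := by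
      intro K
      rw [hSe, inner_sub_right, real_inner_smul_right]
    have h3 : ∀ K : ℕ, (2 : ℝ) = 2 * inner ℝ (e 0) (e 0) -
        2 * ((-ε) ^ (K + 1) * inner ℝ (e 0) (e ((K + 1) * N : ℕ))) := by
      intro K
      have h4 := hSS K 0
      rw [hSe, inner_sub_left, inner_sub_right, inner_sub_right, real_inner_smul_left,
        real_inner_smul_right, real_inner_smul_left, real_inner_smul_right] at h4
      have h5 : inner ℝ (e ((K + 1) * N : ℕ)) (e ((K + 1) * N : ℕ)) = inner ℝ (e 0) (e 0) := by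
        have := hees 0 0 ((K + 1) * N : ℕ)
        rw [zero_add] at this
        exact this
      rw [h5, real_inner_comm (e 0) (e ((K + 1) * N : ℕ))] at h4
      have h6 := hεK (K + 1)
      linear_combination (-1 : ℝ) * h4 + (inner ℝ (e 0) (e 0)) * h6
    have h4 : ∀ K : ℕ, inner ℝ (e 0) (SK u N ε K 0) = 1 := by
      intro K
      have := h3 K
      rw [h2]
      linarith
    exact tendsto_nhds_unique h1 (tendsto_const_nhds.congr fun K => (h4 K).symm)
  have hF : Fam e := by
    refine ⟨fun i => ?_, hees, hei⟩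
    have h1 := hees 0 0 i
    rw [zero_add] at h1
    rw [h1, hc0]
  have hnFO : ¬ FO e := by
    intro h
    obtain ⟨q, hq, hqe⟩ := h.period
    refine hnp ⟨q, hq, ?_⟩
    have h1 := hqe 1 0
    have h2 := hqe 1 (0 + N)
    rw [mul_one] at h1 h2
    have h3 : u (0 + q) = u 0 := by
      rw [hue', hue' 0, h1, show (0 : ℤ) + q + N = 0 + N + q by ring, h2]
    have h4 := hu (0 + q) 0
    rw [h3, hu, sub_self, hD0, show (0 : ℤ) + q - 0 = q by ring, DD_natCast] at h4
    exact_mod_cast h4.symm
  have horth : ∀ i j : ℤ, i ≠ j → inner ℝ (e i) (e j) = 0 := by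
    intro i j hij
    by_contra h
    refine hnFO (hF.fo_of_ne (i := i - j) (sub_ne_zero.mpr hij) ?_)
    have h1 := hees (i - j) 0 j
    rw [sub_add_cancel, zero_add] at h1
    rw [← h1]
    exact h
  intro n hn
  have h1 := hu n 0
  rw [sub_zero, DD_natCast, hue' n, hue' 0, inner_add_left, inner_add_right, inner_add_right,
    real_inner_smul_left, real_inner_smul_right, real_inner_smul_left, real_inner_smul_right,
    zero_add, horth n 0 (by exact_mod_cast (by omega : n ≠ 0)),
    horth (n + N) 0 (by exact_mod_cast (by omega : n + N ≠ 0)),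
    horth (n + N) N (by exact_mod_cast (by omega : n + N ≠ N))] at h1
  split_ifs with h
  · rw [h]
  · rw [horth n N (by exact_mod_cast h)] at h1
    have h3 : ((d n : ℤ) : ℝ) = 0 := by linarith
    exact_mod_cast h3

end

end TatePole.Fs
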