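import Mathlib
import Pool.Agent.Lib.MP_058a58_ag.Fs.Cls2

/-!
# Classification of integer valued positive definite sequences with `d 0 = 2`
-/

open Filter Topology

namespace TatePole.Fs

variable {d : ℕ → ℤ}

/-- The classification: periodic (`d q = 2`), or one of three explicit laws. -/
theorem PD.classify (hd : PD d) : (∃ q : ℕ, 1 ≤ q ∧ d q = 2) ∨ Law d := by
  by_cases hnp : ∃ q : ℕ, 1 ≤ q ∧ d q = 2
  · exact Or.inl hnp
  right
  have hbd : ∀ n : ℕ, 1 ≤ n → d n = -1 ∨ d n = 0 ∨ d n = 1 := by
    intro n hn
    rcases hd.cases n hn with h | h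
    · exact absurd h hnp
    · exact h
  have hbd' : ∀ n : ℕ, 1 ≤ n → |d n| ≤ 1 := by
    intro n hn
    rcases hbd n hn with h | h | h <;> rw [h] <;> norm_num
  obtain ⟨H, i1, i2, i3, u, hu⟩ := hd.hilbert
  by_cases hinf : ∃ᶠ n in atTop, d n ≠ 0
  · exact law_of_infinite hd.zero hu hnp hbd' hinf
  · rw [not_frequently] at hinf
    simp only [ne_eq, not_not] at hinf
    obtain ⟨M, hM⟩ := eventually_atTop.mp hinf
    by_cases hall : ∀ n, 1 ≤ n → d n = 0
    · exact Or.inl hall
    · push Not at hall
      obtain ⟨n0, hn0, hne⟩ := hall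
      classical
      set N := Nat.findGreatest (fun n => d n ≠ 0) M with hNdef
      have hn0M : n0 ≤ M := by
        by_contra h
        exact hne (hM n0 (by omega))
      have h1 : d N ≠ 0 := Nat.findGreatest_spec (P := fun n => d n ≠ 0) hn0M hne
      have h2 : n0 ≤ N := Nat.le_findGreatest hn0M hne
      have hmax : ∀ n, N < n → d n = 0 := by
        intro n hn
        by_contra h
        rcases Nat.lt_or_ge M n with h3 | h3
        · exact h (hM n (by omega))
        · exact Nat.findGreatest_is_greatest hn h3 h
      have hdN : d N = 1 ∨ d N = -1 := by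
        rcases hbd N (by omega) with h | h | h
        · exact Or.inr h
        · exact absurd h h1
        · exact Or.inl h
      exact Or.inr (Or.inl ⟨N, by omega, d N, hdN,
        law_of_finite hd.zero hu hnp N (by omega) hdN hmax⟩)

end TatePole.Fs
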