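import Mathlib
import Pool.Agent.Lib.MP_058a58_ag.Fs.Stm
import Pool.Agent.Lib.MP_058a58_ag.Dedekind2
import Pool.Agent.Lib.MP_058a58_ag.Ch.Series

/-!
# The primes of a number field
-/

open NumberField Polynomial Filter Topology
open IsDedekindDomain (HeightOneSpectrum)

namespace TatePole.Fs

variable {K : Type*} [Field K] [NumberField K]

lemma two_le_Nv (v : HeightOneSpectrum (𝓞 K)) : 2 ≤ Nv v := by
  unfold Nv
  have h3 : Ideal.absNorm v.asIdeal ≠ 0 := fun h => v.ne_bot (Ideal.absNorm_eq_zero_iff.1 h)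
  have h4 : Ideal.absNorm v.asIdeal ≠ 1 := fun h =>
    v.isPrime.ne_top (Ideal.absNorm_eq_one_iff.1 h)
  omega

lemma summable_Nv {s : ℝ} (hs : 1 < s) :
    Summable fun v : HeightOneSpectrum (𝓞 K) => (Nv v : ℝ) ^ (-s) := by
  have h1 := Pool.Agent.Lib.MP_058a58_ag.Ch.summable_ideal K hs
  refine h1.comp_injective (i := fun v : HeightOneSpectrum (𝓞 K) =>
    (⟨v.asIdeal, mem_nonZeroDivisors_of_ne_zero v.ne_bot⟩ : nonZeroDivisors (Ideal (𝓞 K)))) ?_
  intro v w h
  exact HeightOneSpectrum.ext (congrArg Subtype.val h)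

/-- a series dominated by `N v ^ (-2)`, uniformly in `s > 1`, converges as `s → 1+` -/
lemma tendsto_dom {h : ℝ → HeightOneSpectrum (𝓞 K) → ℝ} {C : ℝ}
    (hb : ∀ s : ℝ, 1 < s → ∀ v, |h s v| ≤ C * (Nv v : ℝ) ^ (-(2 * s)))
    (hl : ∀ v, ∃ l : ℝ, Tendsto (fun s => h s v) (𝓝[>] 1) (𝓝 l)) :
    ∃ l : ℝ, Tendsto (fun s : ℝ => ∑' v, h s v) (𝓝[>] 1) (𝓝 l) := by
  choose l hl using hl
  have hC : ∀ v : HeightOneSpectrum (𝓞 K), 0 ≤ C := by
    intro v
    have h1 := (abs_nonneg _).trans (hb 2 (by norm_num) v)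
    have h2 : 0 < (Nv v : ℝ) ^ (-(2 * (2 : ℝ))) := by
      have := two_le_Nv v
      exact Real.rpow_pos_of_pos (by exact_mod_cast (by omega : 0 < Nv v)) _
    nlinarith
  refine ⟨∑' v, l v, tendsto_tsum_of_dominated_convergence
    (bound := fun v => C * (Nv v : ℝ) ^ (-(2 : ℝ))) ((summable_Nv (by norm_num)).mul_left C) hl ?_⟩
  filter_upwards [self_mem_nhdsWithin] with s hs v
  have hs' : (1 : ℝ) < s := hs
  rw [Real.norm_eq_abs]
  refine (hb s hs' v).trans (mul_le_mul_of_nonneg_left ?_ (hC v))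
  have := two_le_Nv v
  exact Real.rpow_le_rpow_of_exponent_le (by exact_mod_cast (by omega : 1 ≤ Nv v)) (by linarith)

lemma tendsto_TT {g : Ideal (𝓞 K) → ℝ}
    (hg : Summable fun v : HeightOneSpectrum (𝓞 K) => g v.asIdeal) :
    Tendsto (fun N => ∑ P ∈ Ded.TT K N, g P) atTop
      (𝓝 (∑' v : HeightOneSpectrum (𝓞 K), g v.asIdeal)) := by
  classical
  have hinj : Function.Injective fun v : HeightOneSpectrum (𝓞 K) => v.asIdeal :=
    fun v w h => HeightOneSpectrum.ext h
  have h1 : Tendsto (fun N => (Ded.TT K N).preimage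
      (fun v : HeightOneSpectrum (𝓞 K) => v.asIdeal) hinj.injOn) atTop atTop := by
    refine tendsto_atTop_finset_of_monotone ?_ fun v => ⟨Nv v, ?_⟩
    · intro N M hNM v hv
      rw [Finset.mem_preimage] at hv ⊢
      exact Ded.TT_mono K hNM hv
    · rw [Finset.mem_preimage, Ded.mem_TT]
      exact ⟨⟨le_rfl, v.ne_bot⟩, v.isPrime⟩
  refine (hg.hasSum.comp h1).congr fun N => ?_
  show ∑ v ∈ (Ded.TT K N).preimage (fun v : HeightOneSpectrum (𝓞 K) => v.asIdeal) hinj.injOn,
    g v.asIdeal = _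
  rw [Finset.sum_preimage' (fun v : HeightOneSpectrum (𝓞 K) => v.asIdeal) _ hinj.injOn g]
  refine Finset.sum_congr (Finset.filter_true_of_mem fun P hP => ?_) fun _ _ => rfl
  rw [Ded.mem_TT] at hP
  exact ⟨⟨P, hP.2, hP.1.2⟩, rfl⟩

theorem zk (K : Type*) [Field K] [NumberField K] : StmZK K := by
  refine ⟨two_le_Nv, fun s hs => summable_Nv hs, ?_⟩
  have hpos : ∀ v : HeightOneSpectrum (𝓞 K), (0 : ℝ) < Nv v := fun v => by
    have := two_le_Nv v
    exact_mod_cast (by omega : 0 < Nv v)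
  have hres := NumberField.tendsto_sub_one_mul_dedekindZeta_nhdsGT K
  have hκ := NumberField.dedekindZeta_residue_pos K
  have h1 : Tendsto (fun x : ℝ => (x - 1) * Ded.Z K x) (𝓝[>] 1)
      (𝓝 (NumberField.dedekindZeta_residue K)) := by
    have h2 : Tendsto (fun x : ℝ => (((x - 1) * Ded.Z K x : ℝ) : ℂ)) (𝓝[>] 1)
        (𝓝 ((NumberField.dedekindZeta_residue K : ℝ) : ℂ)) := by
      refine hres.congr' ?_
      filter_upwards [self_mem_nhdsWithin] with x hx
      have hx' : (1 : ℝ) < x := hx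
      rw [Ded.dedekindZeta_eq K (by linarith : x ≠ 0)]
      push_cast
      rfl
    exact (Complex.continuous_re.tendsto _).comp h2
  have h3 : Tendsto (fun x : ℝ => Real.log ((x - 1) * Ded.Z K x)) (𝓝[>] 1)
      (𝓝 (Real.log (NumberField.dedekindZeta_residue K))) :=
    (Real.continuousAt_log hκ.ne').tendsto.comp h1
  obtain ⟨lz, hlz⟩ := Ded.exists_z K
  obtain ⟨lh, hlh⟩ := tendsto_dom (K := K) (C := 1)
    (h := fun s v => Ded.f K s v.asIdeal - Real.log (1 + Ded.f K s v.asIdeal)) (by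
      intro s hs v
      have h4 := Ded.sub_log_le_sq K s v.asIdeal
      have h5 := Ded.log_le_self K s v.asIdeal
      rw [Ded.f_sq] at h4
      rw [abs_of_nonneg (by linarith), one_mul]
      exact h4) (by
      intro v
      have h4 : ContinuousAt (fun s : ℝ => Ded.f K s v.asIdeal -
          Real.log (1 + Ded.f K s v.asIdeal)) 1 := by
        have h5 : Continuous fun s : ℝ => Ded.f K s v.asIdeal := by
          unfold Ded.f
          exact (Real.continuous_const_rpow (hpos v).ne').comp continuous_neg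
        refine h5.continuousAt.sub (ContinuousAt.log ?_ ?_)
        · exact (continuous_const.add h5).continuousAt
        · have := Ded.f_nonneg K 1 v.asIdeal
          linarith
      exact ⟨_, h4.tendsto.mono_left nhdsWithin_le_nhds⟩)
  refine ⟨Real.log (NumberField.dedekindZeta_residue K) - lz + lh, ?_⟩
  refine ((h3.sub hlz).add hlh).congr' ?_
  filter_upwards [self_mem_nhdsWithin] with s hs
  have hs' : (1 : ℝ) < s := hs
  have hZ := Ded.one_le_Z K hs'
  have h7 : Real.log ((s - 1) * Ded.Z K s) = Real.log (Ded.Z K s) - Real.log (1 / (s - 1)) := by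
    rw [Real.log_mul (by linarith) (by linarith), one_div, Real.log_inv]
    ring
  have hsf : Summable fun v : HeightOneSpectrum (𝓞 K) => Ded.f K s v.asIdeal := summable_Nv hs'
  have hsl : Summable fun v : HeightOneSpectrum (𝓞 K) => Real.log (1 + Ded.f K s v.asIdeal) :=
    Summable.of_nonneg_of_le (fun v => Ded.log_nonneg' K s _) (fun v => Ded.log_le_self K s _) hsf
  have h8 : ∑' v : HeightOneSpectrum (𝓞 K), Real.log (1 + Ded.f K s v.asIdeal) =
      Real.log (Ded.Z K s) - Real.log (Ded.Z K (2 * s)) :=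
    tendsto_nhds_unique (tendsto_TT (g := fun P => Real.log (1 + Ded.f K s P)) hsl)
      (Ded.tendsto_log_prod K hs')
  have h9 : SS (fun _ : HeightOneSpectrum (𝓞 K) => (1 : ℝ)) s =
      ∑' v : HeightOneSpectrum (𝓞 K), Ded.f K s v.asIdeal := by
    unfold SS
    exact tsum_congr fun v => one_mul _
  rw [hsf.tsum_sub hsl, h8, h7, h9]
  ring

end TatePole.Fs
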