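import Mathlib
import Pool.Agent.Lib.MP_058a58_ag.Fs.ZK
import Pool.Agent.Lib.MP_058a58_ag.Ch.LogC

/-!
# The order of an Euler product over the primes of a number field and the sum of its traces
-/

open NumberField Polynomial Filter Topology
open IsDedekindDomain (HeightOneSpectrum)

namespace TatePole.Fs

variable {K : Type*} [Field K] [NumberField K]

lemma Nv_pos' (v : HeightOneSpectrum (𝓞 K)) : (0 : ℝ) < Nv v := by
  have := two_le_Nv v
  exact_mod_cast (by omega : 0 < Nv v)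

lemma Nv_cpow (v : HeightOneSpectrum (𝓞 K)) (x : ℝ) :
    (Nv v : ℂ) ^ (-(x : ℂ)) = (((Nv v : ℝ) ^ (-x) : ℝ) : ℂ) := by
  rw [Complex.ofReal_cpow (Nv_pos' v).le]
  push_cast
  rfl

lemma Nv_rpow_le_half (v : HeightOneSpectrum (𝓞 K)) {s : ℝ} (hs : 1 ≤ s) :
    (Nv v : ℝ) ^ (-s) ≤ 1 / 2 := by
  have h2 := two_le_Nv v
  have h2' : (2 : ℝ) ≤ (Nv v : ℝ) := by exact_mod_cast h2
  have h3 : (Nv v : ℝ) ^ (-s) ≤ (Nv v : ℝ) ^ (-1 : ℝ) :=
    Real.rpow_le_rpow_of_exponent_le (by linarith) (by linarith)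
  refine h3.trans ?_
  rw [Real.rpow_neg_one, one_div]
  exact inv_anti₀ (by norm_num) h2'

lemma norm_z (v : HeightOneSpectrum (𝓞 K)) {a : ℂ} (ha : ‖a‖ ≤ 1) (s : ℝ) :
    ‖a * (((Nv v : ℝ) ^ (-s) : ℝ) : ℂ)‖ ≤ (Nv v : ℝ) ^ (-s) := by
  rw [norm_mul, Complex.norm_real, Real.norm_of_nonneg (Real.rpow_nonneg (Nat.cast_nonneg _) _)]
  exact mul_le_of_le_one_left (Real.rpow_nonneg (Nat.cast_nonneg _) _) ha

/-- minus the logarithm of the local factor -/
noncomputable def Lr {J : Type*} [Fintype J] (w : J → HeightOneSpectrum (𝓞 K) → ℂ) (c : J → ℕ)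
    (s : ℝ) (v : HeightOneSpectrum (𝓞 K)) : ℝ :=
  - ∑ j, (c j : ℝ) * Real.log ‖1 - w j v * (((Nv v : ℝ) ^ (-s) : ℝ) : ℂ)‖

/-- the local factor is real and positive -/
lemma prod_eq_exp {J : Type*} [Fintype J] {w : J → HeightOneSpectrum (𝓞 K) → ℂ} {c : J → ℕ}
    {σ : Equiv.Perm J} (hw : ∀ j v, ‖w j v‖ ≤ 1)
    (hσ : ∀ j, c (σ j) = c j ∧ ∀ v, w (σ j) v = (starRingEnd ℂ) (w j v))
    {s : ℝ} (hs : 1 ≤ s) (v : HeightOneSpectrum (𝓞 K)) :
    ∏ j, (1 - w j v * (((Nv v : ℝ) ^ (-s) : ℝ) : ℂ)) ^ c j =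
      Complex.exp ((-Lr w c s v : ℝ) : ℂ) := by
  set r : ℝ := (Nv v : ℝ) ^ (-s) with hr
  have hz : ∀ j, ‖w j v * (r : ℂ)‖ ≤ 1 / 2 := fun j =>
    (norm_z v (hw j v) s).trans (Nv_rpow_le_half v hs)
  have hre : ∀ j, 0 < (1 - w j v * (r : ℂ)).re := by
    intro j
    have h1 := (Complex.abs_re_le_norm (w j v * (r : ℂ))).trans (hz j)
    rw [Complex.sub_re, Complex.one_re]
    have := (abs_le.mp h1).2
    linarith
  have hne : ∀ j, 1 - w j v * (r : ℂ) ≠ 0 := by
    intro j h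
    have := hre j
    rw [h, Complex.zero_re] at this
    exact lt_irrefl _ this
  set Λ : ℂ := ∑ j, (c j : ℂ) * Complex.log (1 - w j v * (r : ℂ)) with hΛ
  have hexp : Complex.exp Λ = ∏ j, (1 - w j v * (r : ℂ)) ^ c j := by
    rw [hΛ, Complex.exp_sum]
    refine Finset.prod_congr rfl fun j _ => ?_
    rw [Complex.exp_nat_mul, Complex.exp_log (hne j)]
  have hconj : (starRingEnd ℂ) Λ = Λ := by
    have h1 : (starRingEnd ℂ) Λ = ∑ j, (c (σ j) : ℂ) * Complex.log (1 - w (σ j) v * (r : ℂ)) := by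
      rw [hΛ, map_sum]
      refine Finset.sum_congr rfl fun j _ => ?_
      rw [map_mul, Complex.conj_natCast, (hσ j).1, (hσ j).2 v, ← Complex.log_conj]
      · rw [map_sub, map_one, map_mul, Complex.conj_ofReal]
      · intro h
        have h2 := hre j
        rw [Complex.arg_eq_pi_iff] at h
        linarith [h.1]
    rw [h1, hΛ]
    exact Equiv.sum_comp σ fun j => (c j : ℂ) * Complex.log (1 - w j v * (r : ℂ))
  have hreal : Λ = ((Λ.re : ℝ) : ℂ) := (Complex.conj_eq_iff_re.mp hconj).symm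
  have hre2 : Λ.re = -Lr w c s v := by
    rw [hΛ, Complex.re_sum]
    unfold Lr
    rw [neg_neg]
    refine Finset.sum_congr rfl fun j _ => ?_
    rw [← Complex.ofReal_natCast, Complex.re_ofReal_mul, Complex.log_re]
  rw [← hexp, hreal, hre2]

lemma Lr_sub_le {J : Type*} [Fintype J] {w : J → HeightOneSpectrum (𝓞 K) → ℂ} {c : J → ℕ}
    (hw : ∀ j v, ‖w j v‖ ≤ 1) {s : ℝ} (hs : 1 ≤ s) (v : HeightOneSpectrum (𝓞 K)) :
    |Lr w c s v - (∑ j, (c j : ℝ) * (w j v).re) * (Nv v : ℝ) ^ (-s)| ≤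
      (∑ j, (c j : ℝ)) * (Nv v : ℝ) ^ (-(2 * s)) := by
  set r : ℝ := (Nv v : ℝ) ^ (-s) with hr
  have hr2 : (Nv v : ℝ) ^ (-(2 * s)) = r ^ 2 := by
    rw [hr, ← Real.rpow_natCast, ← Real.rpow_mul (Nat.cast_nonneg _)]
    congr 1
    push_cast
    ring
  have hr0 : 0 ≤ r := Real.rpow_nonneg (Nat.cast_nonneg _) _
  have h1 : Lr w c s v - (∑ j, (c j : ℝ) * (w j v).re) * r =
      - ∑ j, (c j : ℝ) * (Real.log ‖1 - w j v * (r : ℂ)‖ + (w j v * (r : ℂ)).re) := by
    unfold Lr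
    rw [Finset.sum_mul, ← hr, sub_eq_add_neg, ← neg_add, ← Finset.sum_add_distrib]
    congr 1
    refine Finset.sum_congr rfl fun j _ => ?_
    rw [Complex.re_mul_ofReal]
    ring
  rw [h1, abs_neg, hr2, Finset.sum_mul]
  refine (Finset.abs_sum_le_sum_abs _ _).trans (Finset.sum_le_sum fun j _ => ?_)
  rw [abs_mul, Nat.abs_cast]
  refine mul_le_mul_of_nonneg_left ?_ (Nat.cast_nonneg _)
  have hz := norm_z v (hw j v) s
  refine (Pool.Agent.Lib.MP_058a58_ag.Ch.log_one_sub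
    (hz.trans (Nv_rpow_le_half v hs))).trans ?_
  exact pow_le_pow_left₀ (norm_nonneg _) hz 2

lemma continuous_Nv (v : HeightOneSpectrum (𝓞 K)) :
    Continuous fun s : ℝ => (Nv v : ℝ) ^ (-s) :=
  (Real.continuous_const_rpow (Nv_pos' v).ne').comp continuous_neg

lemma continuousAt_Lr {J : Type*} [Fintype J] {w : J → HeightOneSpectrum (𝓞 K) → ℂ} {c : J → ℕ}
    (hw : ∀ j v, ‖w j v‖ ≤ 1) (v : HeightOneSpectrum (𝓞 K)) :
    ContinuousAt (fun s : ℝ => Lr w c s v) 1 := by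
  unfold Lr
  refine ContinuousAt.neg (tendsto_finsetSum _ fun j _ => ?_)
  refine Tendsto.const_mul _ ?_
  have h1 : Continuous fun s : ℝ => ‖1 - w j v * (((Nv v : ℝ) ^ (-s) : ℝ) : ℂ)‖ :=
    (continuous_const.sub (continuous_const.mul
      (Complex.continuous_ofReal.comp (continuous_Nv v)))).norm
  refine (ContinuousAt.log h1.continuousAt ?_)
  have h2 := (norm_z v (hw j v) 1).trans (Nv_rpow_le_half v le_rfl)
  rw [norm_ne_zero_iff]
  intro h3
  have h4 : w j v * (((Nv v : ℝ) ^ (-1 : ℝ) : ℝ) : ℂ) = 1 := (sub_eq_zero.mp h3).symm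
  rw [h4, norm_one] at h2
  norm_num at h2

/-- [LOG] -/
theorem logK (K : Type*) [Field K] [NumberField K] : StmLOG K := by
  classical
  intro hzk S J _ w c σ P m hw hσ hP hPS k
  set g : HeightOneSpectrum (𝓞 K) → ℝ := fun v => ∑ j, (c j : ℝ) * (w j v).re with hg
  have hgb : Bd g := by
    refine ⟨∑ j, (c j : ℝ), fun v => ?_⟩
    refine (Finset.abs_sum_le_sum_abs _ _).trans (Finset.sum_le_sum fun j _ => ?_)
    rw [abs_mul, Nat.abs_cast]
    exact mul_le_of_le_one_right (Nat.cast_nonneg _)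
      ((Complex.abs_re_le_norm _).trans (hw j v))
  have hsg : ∀ s : ℝ, 1 < s → Summable fun v => g v * (Nv v : ℝ) ^ (-s) := by
    intro s hs
    obtain ⟨C, hC⟩ := hgb
    refine Summable.of_norm_bounded ((summable_Nv hs).mul_left C) fun v => ?_
    rw [norm_mul, Real.norm_eq_abs, Real.norm_of_nonneg (Real.rpow_nonneg (Nat.cast_nonneg _) _)]
    exact mul_le_mul_of_nonneg_right (hC v) (Real.rpow_nonneg (Nat.cast_nonneg _) _)
  -- the difference
  have hsd : ∀ s : ℝ, 1 < s → Summable fun v => Lr w c s v - g v * (Nv v : ℝ) ^ (-s) := by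
    intro s hs
    refine Summable.of_norm_bounded ((summable_Nv (K := K) (s := 2 * s) (by linarith)).mul_left
      (∑ j, (c j : ℝ))) fun v => ?_
    rw [Real.norm_eq_abs]
    exact Lr_sub_le hw hs.le v
  have hsL : ∀ s : ℝ, 1 < s → Summable fun v => Lr w c s v := by
    intro s hs
    refine ((hsd s hs).add (hsg s hs)).congr fun v => ?_
    ring
  obtain ⟨ld, hld⟩ := tendsto_dom (K := K) (C := ∑ j, (c j : ℝ))
    (h := fun s v => Lr w c s v - g v * (Nv v : ℝ) ^ (-s))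
    (fun s hs v => Lr_sub_le hw hs.le v)
    (fun v => ⟨_, ((continuousAt_Lr hw v).sub
      (continuous_const.mul (continuous_Nv v)).continuousAt).tendsto.mono_left
        nhdsWithin_le_nhds⟩)
  -- the factors at `S`
  set A : ℝ → ℂ := fun s => ∏ v ∈ S, (((P v).eval ((Nv v : ℂ) ^ (-((s + m : ℝ) : ℂ))))⁻¹ *
    (Complex.exp ((Lr w c s v : ℝ) : ℂ))⁻¹) with hA
  have hA1 : ∃ a : ℂ, a ≠ 0 ∧ Tendsto A (𝓝[>] 1) (𝓝 a) := by
    refine ⟨A 1, ?_, ?_⟩
    · rw [hA]
      refine Finset.prod_ne_zero_iff.mpr fun v hv => mul_ne_zero (inv_ne_zero ?_)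
        (inv_ne_zero (Complex.exp_ne_zero _))
      have h1 := hPS v hv
      rw [show (((1 : ℝ) + m : ℝ) : ℂ) = (m : ℂ) + 1 by push_cast; ring]
      exact h1
    · have hc : ContinuousAt A 1 := by
        rw [hA]
        refine tendsto_finsetProd _ fun v hv => ?_
        refine Tendsto.mul ?_ ?_
        · have h2 : Continuous fun s : ℝ =>
              (P v).eval ((Nv v : ℂ) ^ (-((s + m : ℝ) : ℂ))) := by
            refine (P v).continuous.comp ?_
            have h3 : (fun s : ℝ => (Nv v : ℂ) ^ (-((s + m : ℝ) : ℂ))) =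
                fun s : ℝ => (((Nv v : ℝ) ^ (-(s + m)) : ℝ) : ℂ) := by
              funext s
              exact Nv_cpow v (s + m)
            rw [h3]
            exact Complex.continuous_ofReal.comp
              ((continuous_Nv v).comp (continuous_id.add continuous_const))
          refine (h2.tendsto 1).inv₀ ?_
          have h1 := hPS v hv
          rw [show (((1 : ℝ) + m : ℝ) : ℂ) = (m : ℂ) + 1 by push_cast; ring]
          exact h1
        · refine Tendsto.inv₀ ?_ (Complex.exp_ne_zero _)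
          exact (Complex.continuous_exp.comp Complex.continuous_ofReal).continuousAt.tendsto.comp
            (continuousAt_Lr hw v).tendsto
      exact hc.tendsto.mono_left nhdsWithin_le_nhds
  -- the Euler product
  have hLF : ∀ s : ℝ, 1 < s → LF P (s + m) = A s * Complex.exp ((∑' v, Lr w c s v : ℝ) : ℂ) := by
    intro s hs
    have h1 : HasProd (fun v => Complex.exp ((Lr w c s v : ℝ) : ℂ))
        (Complex.exp ((∑' v, Lr w c s v : ℝ) : ℂ)) :=
      (Complex.hasSum_ofReal.mpr (hsL s hs).hasSum).cexp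
    have h2 : HasProd (fun v => ((P v).eval ((Nv v : ℂ) ^ (-((s + m : ℝ) : ℂ))))⁻¹ *
        (Complex.exp ((Lr w c s v : ℝ) : ℂ))⁻¹) (A s) := by
      refine hasProd_prod_of_ne_finset_one fun v hv => ?_
      rw [hP v hv s hs, Nv_cpow v s, prod_eq_exp hw hσ hs.le v, ← mul_inv,
        ← Complex.exp_add]
      push_cast
      rw [neg_add_cancel, Complex.exp_zero, inv_one]
    have h3 := h2.mul h1
    unfold LF
    rw [← h3.tprod_eq]
    refine tprod_congr fun v => ?_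
    rw [mul_assoc, inv_mul_cancel₀ (Complex.exp_ne_zero _), mul_one]
  -- the logarithm of `(s - 1) ^ (-k) * exp (...)`
  set E : ℝ → ℝ := fun s => k * Real.log (1 / (s - 1)) + ∑' v, Lr w c s v with hE
  have hH : ∀ s : ℝ, 1 < s → ((s - 1 : ℝ) : ℂ) ^ (-k) * LF P (s + m) =
      A s * ((Real.exp (E s) : ℝ) : ℂ) := by
    intro s hs
    have h0 : (0 : ℝ) < s - 1 := by linarith
    have h1 : ((s - 1 : ℝ) : ℂ) ^ (-k) =
        ((Real.exp (k * Real.log (1 / (s - 1))) : ℝ) : ℂ) := by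
      rw [one_div, Real.log_inv, ← Complex.ofReal_zpow]
      congr 1
      rw [← Real.rpow_intCast, Real.rpow_def_of_pos h0]
      congr 1
      push_cast
      ring
    rw [hLF s hs, h1, hE, Real.exp_add]
    push_cast
    ring
  have hshift : HasOrd P m k ↔ ∃ c : ℂ, c ≠ 0 ∧
      Tendsto (fun s : ℝ => ((s - 1 : ℝ) : ℂ) ^ (-k) * LF P (s + m)) (𝓝[>] 1) (𝓝 c) := by
    have h1 : Tendsto (fun s : ℝ => s + m) (𝓝[>] 1) (𝓝[>] ((m : ℝ) + 1)) := by
      refine tendsto_nhdsWithin_iff.mpr ⟨?_, ?_⟩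
      · have h2 : Tendsto (fun s : ℝ => s + m) (𝓝 1) (𝓝 (1 + m)) :=
          (continuous_id.add continuous_const).tendsto 1
        rw [add_comm (1 : ℝ)] at h2
        exact h2.mono_left nhdsWithin_le_nhds
      · filter_upwards [self_mem_nhdsWithin] with s hs
        have hs' : (1 : ℝ) < s := hs
        show (m : ℝ) + 1 < s + m
        linarith
    have h2 : Tendsto (fun s : ℝ => s - m) (𝓝[>] ((m : ℝ) + 1)) (𝓝[>] 1) := by
      refine tendsto_nhdsWithin_iff.mpr ⟨?_, ?_⟩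
      · have h2 : Tendsto (fun s : ℝ => s - m) (𝓝 ((m : ℝ) + 1)) (𝓝 ((m : ℝ) + 1 - m)) :=
          (continuous_id.sub continuous_const).tendsto _
        rw [add_sub_cancel_left] at h2
        exact h2.mono_left nhdsWithin_le_nhds
      · filter_upwards [self_mem_nhdsWithin] with s hs
        have hs' : (m : ℝ) + 1 < s := hs
        show (1 : ℝ) < s - m
        linarith
    constructor
    · rintro ⟨c, hc, h⟩
      refine ⟨c, hc, (h.comp h1).congr fun s => ?_⟩
      show ((s + m - (m + 1) : ℝ) : ℂ) ^ (-k) * LF P (s + m) = _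
      rw [show s + m - (m + 1) = s - 1 by ring]
    · rintro ⟨c, hc, h⟩
      refine ⟨c, hc, (h.comp h2).congr fun s => ?_⟩
      show ((s - m - 1 : ℝ) : ℂ) ^ (-k) * LF P (s - m + m) = _
      rw [show s - m - 1 = s - (m + 1) by ring, sub_add_cancel]
  obtain ⟨a, ha0, ha⟩ := hA1
  have hmid : (∃ c : ℂ, c ≠ 0 ∧
      Tendsto (fun s : ℝ => ((s - 1 : ℝ) : ℂ) ^ (-k) * LF P (s + m)) (𝓝[>] 1) (𝓝 c)) ↔
      ∃ l : ℝ, Tendsto E (𝓝[>] 1) (𝓝 l) := by
    constructor
    · rintro ⟨c, hc, h⟩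
      refine ⟨Real.log (‖c‖ / ‖a‖), ?_⟩
      have h1 : Tendsto (fun s => Real.log (‖((s - 1 : ℝ) : ℂ) ^ (-k) * LF P (s + m)‖ / ‖A s‖))
          (𝓝[>] 1) (𝓝 (Real.log (‖c‖ / ‖a‖))) :=
        (Real.continuousAt_log (div_ne_zero (norm_ne_zero_iff.mpr hc)
          (norm_ne_zero_iff.mpr ha0))).tendsto.comp
          (h.norm.div ha.norm (norm_ne_zero_iff.mpr ha0))
      refine h1.congr' ?_
      have hAne : ∀ᶠ s in 𝓝[>] (1 : ℝ), A s ≠ 0 := ha.eventually_ne ha0
      filter_upwards [self_mem_nhdsWithin, hAne] with s hs hAs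
      rw [hH s hs, norm_mul, mul_div_cancel_left₀ _ (norm_ne_zero_iff.mpr hAs), Complex.norm_real,
        Real.norm_of_nonneg (Real.exp_pos _).le, Real.log_exp]
    · rintro ⟨l, h⟩
      refine ⟨a * ((Real.exp l : ℝ) : ℂ), mul_ne_zero ha0
        (Complex.ofReal_ne_zero.mpr (Real.exp_pos l).ne'), ?_⟩
      have h1 : Tendsto (fun s => ((Real.exp (E s) : ℝ) : ℂ)) (𝓝[>] 1)
          (𝓝 ((Real.exp l : ℝ) : ℂ)) :=
        (Complex.continuous_ofReal.tendsto _).comp ((Real.continuous_exp.tendsto l).comp h)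
      refine (ha.mul h1).congr' ?_
      filter_upwards [self_mem_nhdsWithin] with s hs
      exact (hH s hs).symm
  rw [hshift, hmid]
  have hEs : ∀ s : ℝ, 1 < s → SS g s - (-(k : ℝ)) * Real.log (1 / (s - 1)) =
      E s - ∑' v, (Lr w c s v - g v * (Nv v : ℝ) ^ (-s)) := by
    intro s hs
    rw [hE, (hsL s hs).tsum_sub (hsg s hs)]
    unfold SS
    ring
  constructor
  · rintro ⟨l, h⟩
    refine ⟨l - ld, (h.sub hld).congr' ?_⟩
    filter_upwards [self_mem_nhdsWithin] with s hs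
    exact (hEs s hs).symm
  · rintro ⟨l, h⟩
    refine ⟨l + ld, (h.add hld).congr' ?_⟩
    filter_upwards [self_mem_nhdsWithin] with s hs
    rw [hEs s hs]
    ring

end TatePole.Fs
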