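import Mathlib
import Pool.Agent.Lib.MP_058a58_ag.Fs.Tree

/-!
# Positive definite sequences vanishing from the second to the sixth place

The first nonzero value is `-1`, or it is `1` and the next value is `-2`.
-/

namespace TatePole.Fs

variable {d : ℕ → ℤ}

/-- the value `2 s` forces the neighbour -/
theorem PD.ico_two (hd : PD d) (h1 : d 1 = -1) (k : ℕ) (s : ℤ) (hs : s * s = 1)
    (ha : d (k + 2) = 2 * s) (hb : d (k + 1) ≠ - s) : False := by
  have key : ∀ x y : ℤ, 0 ≤ 2 * (y * y) - 2 * (x * y) * (1 + s * d (k + 1)) := by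
    intro x y
    have hh := hd.psd (x :: y :: (List.replicate k 0 ++ [-(s * x)]))
    simp only [form, lin, lin_replicate, form_replicate, Nat.reduceAdd] at hh
    have e1 : 2 + k = k + 2 := by ring
    have e2 : 1 + k = k + 1 := by ring
    rw [e1, e2, h1, ha] at hh
    have e3 : 2 * x * x + 2 * x * (y * -1 + (-(s * x) * (2 * s) + 0)) +
        (2 * y * y + 2 * y * (-(s * x) * d (k + 1) + 0) +
          (2 * -(s * x) * -(s * x) + 2 * -(s * x) * 0 + 0)) =
        2 * (x * x) - 4 * (s * s) * (x * x) + 2 * (s * s) * (x * x) +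
          2 * (y * y) - 2 * (x * y) * (1 + s * d (k + 1)) := by ring
    rw [e3, hs] at hh
    linarith
  have hne : 1 + s * d (k + 1) ≠ 0 := by
    intro h
    apply hb
    have : s * (1 + s * d (k + 1)) = s + s * s * d (k + 1) := by ring
    rw [h, hs] at this
    linarith
  have h2 := key (1 + s * d (k + 1)) 1
  have h3 : 0 < (1 + s * d (k + 1)) * (1 + s * d (k + 1)) := mul_self_pos.mpr hne
  have h4 : 2 * ((1 : ℤ) * 1) - 2 * ((1 + s * d (k + 1)) * 1) * (1 + s * d (k + 1)) =
      2 * (1 - (1 + s * d (k + 1)) * (1 + s * d (k + 1))) := by ring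
  have h5 := key (2 * (1 + s * d (k + 1))) 1
  have h6 : 2 * ((1 : ℤ) * 1) - 2 * (2 * (1 + s * d (k + 1)) * 1) * (1 + s * d (k + 1)) =
      2 * (1 - 2 * ((1 + s * d (k + 1)) * (1 + s * d (k + 1)))) := by ring
  rw [h6] at h5
  linarith

lemma PD.ico_cases (hd : PD d) (n : ℕ) :
    d n = -2 ∨ d n = -1 ∨ d n = 0 ∨ d n = 1 ∨ d n = 2 := by
  have h := _root_.abs_le.mp (hd.abs_le n)
  omega

/-- the first nonzero value is `1`, far out -/
theorem PD.ico_far (hd : PD d) (k : ℕ) (h1 : d 1 = -1)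
    (hz : ∀ n, 2 ≤ n → n < k + 8 → d n = 0) (ha : d (k + 8) = 1) : d (k + 9) = -2 := by
  rcases hd.ico_cases (k + 9) with h | h | h | h | h
  · exact h
  · exfalso
    have hh := hd.psd (-11 :: -15 :: -10 :: -5 :: (List.replicate (k + 1) 0 ++ [4, 8, 12, 16, 9]))
    simp only [form, lin, lin_replicate, form_replicate, Nat.reduceAdd] at hh
    have e2 := hz 2 (by omega) (by omega)
    have e3 := hz 3 (by omega) (by omega)
    have e4 := hz 4 (by omega) (by omega)
    have f1 : d (k + 5) = 0 := hz _ (by omega) (by omega)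
    have f2 : d (k + 6) = 0 := hz _ (by omega) (by omega)
    have f3 : d (k + 7) = 0 := hz _ (by omega) (by omega)
    have f4 : d (k + 4) = 0 := hz _ (by omega) (by omega)
    have f5 : d (k + 3) = 0 := hz _ (by omega) (by omega)
    have f6 : d (k + 2) = 0 := hz _ (by omega) (by omega)
    have g' : ∀ a : ℕ, a + (k + 1) = k + (a + 1) := fun a => by ring
    have g'' : ∀ a b : ℕ, k + a + b = k + (a + b) := fun a b => by ring
    simp only [g', g'', Nat.reduceAdd, h1, e2, e3, e4, f1, f2, f3, f4, f5, f6, ha, h] at hh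
    norm_num at hh
  · exfalso
    have hh := hd.psd (-7 :: -6 :: (List.replicate (k + 5) 0 ++ [4, 8, 5]))
    simp only [form, lin, lin_replicate, form_replicate, Nat.reduceAdd] at hh
    have e2 := hz 2 (by omega) (by omega)
    have f1 : d (k + 6) = 0 := hz _ (by omega) (by omega)
    have f2 : d (k + 7) = 0 := hz _ (by omega) (by omega)
    have g' : ∀ a : ℕ, a + (k + 5) = k + (a + 5) := fun a => by ring
    have g'' : ∀ a b : ℕ, k + a + b = k + (a + b) := fun a b => by ring
    simp only [g', g'', Nat.reduceAdd, h1, e2, f1, f2, ha, h] at hh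
    norm_num at hh
  · exfalso
    have hh := hd.psd (-4 :: -3 :: (List.replicate (k + 6) 0 ++ [3, 2]))
    simp only [form, lin, lin_replicate, form_replicate, Nat.reduceAdd] at hh
    have f2 : d (k + 7) = 0 := hz _ (by omega) (by omega)
    have g' : ∀ a : ℕ, a + (k + 6) = k + (a + 6) := fun a => by ring
    have g'' : ∀ a b : ℕ, k + a + b = k + (a + b) := fun a b => by ring
    simp only [g', g'', Nat.reduceAdd, h1, f2, ha, h] at hh
    norm_num at hh
  · exact (hd.ico_two h1 (k + 7) 1 (by norm_num) (by rw [h]; norm_num) (by rw [ha]; norm_num)).elim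

theorem PD.ico_seven (hd : PD d) (h1 : d 1 = -1) (hz : ∀ n, 2 ≤ n → n ≤ 6 → d n = 0)
    (h7 : d 7 = 1) : d 8 = -2 := by
  have h2 := hz 2 (by norm_num) (by norm_num)
  have h3 := hz 3 (by norm_num) (by norm_num)
  have h4 := hz 4 (by norm_num) (by norm_num)
  have h5 := hz 5 (by norm_num) (by norm_num)
  have h6 := hz 6 (by norm_num) (by norm_num)
  rcases hd.ico_cases 8 with h8 | h8 | h8 | h8 | h8
  · exact h8
  · exfalso
    have hn := hd.null (l := [-2, -3, -2, -1, 0, 1, 2, 3, 2]) (by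
      simp only [form, lin, Nat.reduceAdd, h1, h2, h3, h4, h5, h6, h7, h8]
      norm_num) 1 le_rfl
    simp only [lin, Nat.reduceAdd, h1, h2, h3, h4, h5, h6, h7, h8] at hn
    omega
  · exfalso
    have hh := hd.psd [-3, -3, -2, -1, 0, 1, 2, 3, 1]
    simp only [form, lin, Nat.reduceAdd, h1, h2, h3, h4, h5, h6, h7, h8] at hh
    norm_num at hh
  · exfalso
    have hh := hd.psd [-10, -9, -6, -3, 0, 3, 6, 9, 2]
    simp only [form, lin, Nat.reduceAdd, h1, h2, h3, h4, h5, h6, h7, h8] at hh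
    norm_num at hh
  · exact (hd.ico_two h1 6 1 (by norm_num) (by rw [h8]; norm_num) (by rw [h7]; norm_num)).elim

/-- the first nonzero value after the sixth -/
theorem PD.ico (hd : PD d) (h1 : d 1 = -1) (hz6 : ∀ n, 2 ≤ n → n ≤ 6 → d n = 0) :
    (∀ n, 2 ≤ n → d n = 0) ∨ ∃ a, 7 ≤ a ∧ (∀ n, 2 ≤ n → n < a → d n = 0) ∧
      (d a = -1 ∨ (d a = 1 ∧ d (a + 1) = -2)) := by
  by_cases hall : ∀ n : ℕ, 2 ≤ n → d n = 0
  · exact Or.inl hall
  · right
    push Not at hall
    classical
    have hex : ∃ n, 2 ≤ n ∧ d n ≠ 0 := hall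
    obtain ⟨a, ha, hmin⟩ : ∃ a, (2 ≤ a ∧ d a ≠ 0) ∧ ∀ n, n < a → ¬ (2 ≤ n ∧ d n ≠ 0) :=
      ⟨Nat.find hex, Nat.find_spec hex, fun n hn => Nat.find_min hex hn⟩
    have hz : ∀ n, 2 ≤ n → n < a → d n = 0 := fun n hn hna => by
      by_contra hne
      exact hmin n hna ⟨hn, hne⟩
    have ha7 : 7 ≤ a := by
      by_contra h
      exact ha.2 (hz6 a ha.1 (by omega))
    refine ⟨a, ha7, hz, ?_⟩
    rcases hd.ico_cases a with h | h | h | h | h
    · exfalso
      obtain ⟨k, rfl⟩ := Nat.exists_eq_add_of_le' (show 2 ≤ a by omega)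
      exact hd.ico_two h1 k (-1) (by norm_num) (by rw [h]; norm_num)
        (by rw [hz (k + 1) (by omega) (by omega)]; norm_num)
    · exact Or.inl h
    · exact absurd h ha.2
    · right
      refine ⟨h, ?_⟩
      rcases Nat.lt_or_ge a 8 with h8 | h8
      · have : a = 7 := by omega
        subst this
        exact hd.ico_seven h1 hz6 h
      · obtain ⟨k, rfl⟩ := Nat.exists_eq_add_of_le' h8
        exact hd.ico_far k h1 hz h
    · exfalso
      obtain ⟨k, rfl⟩ := Nat.exists_eq_add_of_le' (show 2 ≤ a by omega)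
      exact hd.ico_two h1 k 1 (by norm_num) (by rw [h]; norm_num)
        (by rw [hz (k + 1) (by omega) (by omega)]; norm_num)

end TatePole.Fs
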