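import Mathlib
import Pool.Agent.Lib.MP_058a58_ag.Fs.Ord
import Pool.Agent.Lib.MP_058a58_ag.Fs.Gpar

/-!
# The `L`-functions of the even symmetric powers of a curve
-/

open NumberField Polynomial Filter Topology
open IsDedekindDomain (HeightOneSpectrum)

namespace TatePole.Fs

/-- `∑ z^j z'^(n-j) = sp n (z + z')` for `z z' = 1` -/
lemma sum_pow_sp (x : ℝ) (z z' : ℂ) (h1 : z * z' = 1) (h2 : z + z' = x) (n : ℕ) :
    ∑ j ∈ Finset.range (n + 1), z ^ j * z' ^ (n - j) = ((sp n x : ℝ) : ℂ) := by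
  induction n using Nat.twoStepInduction with
  | zero => simp [sp]
  | one =>
    rw [Finset.sum_range_succ, Finset.sum_range_succ, Finset.sum_range_zero]
    simp only [sp, ← h2]
    simp
    ring
  | more n ih1 ih2 =>
    have e : ((sp (n + 2) x : ℝ) : ℂ) = (z + z') * ((sp (n + 1) x : ℝ) : ℂ) -
        ((sp n x : ℝ) : ℂ) := by
      rw [h2]
      simp only [sp]
      push_cast
      ring
    rw [e, ← ih1, ← ih2]
    -- `S (n+2) = z^(n+2) + z' S (n+1)` and `S (n+1) = z^(n+1) + z' S n`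
    have a1 : ∑ j ∈ Finset.range (n + 2 + 1), z ^ j * z' ^ (n + 2 - j) =
        z ^ (n + 2) + z' * ∑ j ∈ Finset.range (n + 1 + 1), z ^ j * z' ^ (n + 1 - j) := by
      rw [Finset.sum_range_succ, Nat.sub_self, pow_zero, mul_one, Finset.mul_sum, add_comm]
      congr 1
      refine Finset.sum_congr rfl fun j hj => ?_
      have : n + 2 - j = (n + 1 - j) + 1 := by
        have := Finset.mem_range.mp hj
        omega
      rw [this]
      ring
    have a2 : ∑ j ∈ Finset.range (n + 1 + 1), z ^ j * z' ^ (n + 1 - j) =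
        z ^ (n + 1) + z' * ∑ j ∈ Finset.range (n + 1), z ^ j * z' ^ (n - j) := by
      rw [Finset.sum_range_succ, Nat.sub_self, pow_zero, mul_one, Finset.mul_sum, add_comm]
      congr 1
      refine Finset.sum_congr rfl fun j hj => ?_
      have : n + 1 - j = (n - j) + 1 := by
        have := Finset.mem_range.mp hj
        omega
      rw [this]
      ring
    rw [a1]
    linear_combination (-z) * a2 + (-(∑ j ∈ Finset.range (n + 1), z ^ j * z' ^ (n - j))) * h1

variable {K : Type*} [Field K] [NumberField K]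

theorem ORDS (hL : StmLOG K) (hz : StmZK K)
    (S : Finset (HeightOneSpectrum (𝓞 K)))
    (a : HeightOneSpectrum (𝓞 K) → ℂ) (ha : ∀ v ∉ S, ‖a v‖ ^ 2 = Nv v)
    (P : HeightOneSpectrum (𝓞 K) → ℂ[X]) (n : ℕ)
    (hP : ∀ v ∉ S, P v = symPoly (a v) n)
    (hbad : ∀ v ∈ S, (P v).eval ((Nv v : ℂ) ^ (-((n : ℂ) + 1))) ≠ 0) (k : ℤ) :
    HasOrd P n k ↔ Str (fun v => sp (2 * n) (2 * Real.cos (Complex.arg (a v)))) (-(k : ℝ)) := by
  have h := hL hz S (Fin (2 * n + 1)) inferInstance
    (fun j v => dir (a v) ^ (j : ℕ) * (starRingEnd ℂ) (dir (a v)) ^ (2 * n - j))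
    (fun _ => 1) Fin.revPerm P n ?_ ?_ ?_ hbad k
  · rw [h]
    have h2 : (fun v => ∑ j : Fin (2 * n + 1), (((1 : ℕ)) : ℝ) *
        (dir (a v) ^ (j : ℕ) * (starRingEnd ℂ) (dir (a v)) ^ (2 * n - j)).re) =
        fun v => sp (2 * n) (2 * Real.cos (Complex.arg (a v))) := by
      funext v
      have h3 : dir (a v) * (starRingEnd ℂ) (dir (a v)) = 1 := by
        rw [Complex.mul_conj, Complex.normSq_eq_norm_sq, norm_dir]
        norm_num
      have h4 : dir (a v) + (starRingEnd ℂ) (dir (a v)) =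
          ((2 * Real.cos (Complex.arg (a v)) : ℝ) : ℂ) := by
        rw [Complex.add_conj, dir_re]
      have h5 := congrArg Complex.re (sum_pow_sp _ _ _ h3 h4 (2 * n))
      rw [Complex.ofReal_re, Complex.re_sum] at h5
      rw [← h5, Finset.sum_range (fun j => (dir (a v) ^ j *
        (starRingEnd ℂ) (dir (a v)) ^ (2 * n - j)).re)]
      refine Finset.sum_congr rfl fun j _ => ?_
      rw [Nat.cast_one, one_mul]
    rw [h2]
  · intro j v
    rw [norm_mul, norm_pow, norm_pow, RCLike.norm_conj, norm_dir, one_pow, one_pow, one_mul]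
  · intro j
    refine ⟨rfl, fun v => ?_⟩
    rw [map_mul, map_pow, map_pow, Complex.conj_conj, Fin.revPerm_apply, Fin.val_rev, mul_comm]
    have hj := j.2
    congr 2
    · omega
    · omega
  · intro v hv s hs
    rw [hP v hv, symPoly, Polynomial.eval_prod, Finset.prod_range]
    refine Finset.prod_congr rfl fun j _ => ?_
    simp only [eval_sub, eval_one, eval_mul, eval_C, eval_X, pow_one]
    congr 1
    have hN : (Nv v : ℝ) ≠ 0 := by
      have := hz.1 v
      exact_mod_cast (by omega : Nv v ≠ 0)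
    have hNC : (Nv v : ℂ) ≠ 0 := by exact_mod_cast hN
    have e0 : (‖a v‖ : ℂ) ^ 2 = (Nv v : ℂ) := by
      rw [← Complex.ofReal_pow, ha v hv, Complex.ofReal_natCast]
    have e1 : a v ^ (j : ℕ) * (starRingEnd ℂ) (a v) ^ (2 * n - j) =
        (Nv v : ℂ) ^ n * (dir (a v) ^ (j : ℕ) * (starRingEnd ℂ) (dir (a v)) ^ (2 * n - j)) := by
      have h1 := eq_dir (a v)
      have h2 : (starRingEnd ℂ) (a v) = (‖a v‖ : ℂ) * (starRingEnd ℂ) (dir (a v)) := by
        conv_lhs => rw [h1]
        rw [map_mul, Complex.conj_ofReal]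
      rw [h2]
      conv_lhs => rw [show a v ^ (j : ℕ) = ((‖a v‖ : ℂ) * dir (a v)) ^ (j : ℕ) by rw [← h1]]
      rw [mul_pow, mul_pow]
      have h3 : (‖a v‖ : ℂ) ^ (j : ℕ) * (‖a v‖ : ℂ) ^ (2 * n - j) = (Nv v : ℂ) ^ n := by
        rw [← pow_add, ← e0, ← pow_mul]
        congr 1
        have := j.2
        omega
      rw [← h3]
      ring
    rw [e1]
    have e4 : (Nv v : ℂ) ^ (-((s + n : ℝ) : ℂ)) = (Nv v : ℂ) ^ (-(s : ℂ)) * ((Nv v : ℂ) ^ n)⁻¹ := by
      rw [← Complex.cpow_natCast, ← Complex.cpow_neg, ← Complex.cpow_add _ _ hNC]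
      congr 1
      push_cast
      ring
    rw [e4]
    have h5 : (Nv v : ℂ) ^ n ≠ 0 := pow_ne_zero _ hNC
    field_simp

end TatePole.Fs
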