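import Mathlib
import Pool.Agent.Lib.MP_058a58_ag.Fs.One
import Pool.Agent.Lib.MP_058a58_ag.Fs.Asm
import Pool.Agent.Lib.MP_058a58_ag.Fs.SymL
import Pool.Agent.Lib.MP_058a58_ag.Fs.Ico

/-!
# No concentration if `E^12` satisfies the formula and no symmetric power vanishes at the edge
-/

open NumberField Polynomial Filter Topology
open IsDedekindDomain (HeightOneSpectrum)

namespace TatePole.Fs

/-- [ICO] the first nonzero value after the sixth is `-1`, or it is `1` and followed by `-2` -/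
def StmICO : Prop :=
  ∀ d : ℕ → ℤ, PD d → d 1 = -1 → (∀ n, 2 ≤ n → n ≤ 6 → d n = 0) →
    (∀ n, 2 ≤ n → d n = 0) ∨ ∃ a, 7 ≤ a ∧ (∀ n, 2 ≤ n → n < a → d n = 0) ∧
      (d a = -1 ∨ (d a = 1 ∧ d (a + 1) = -2))

theorem ICO : StmICO := fun _ hd h1 hz => hd.ico h1 hz

/-- [E12] the twelfth power -/
def StmE12 (K : Type*) [Field K] [NumberField K] : Prop :=
  StmZK K → ∀ t : HeightOneSpectrum (𝓞 K) → ℝ, (∀ v, |t v| ≤ 2) → ∀ k : ℕ → ℤ,
    (∀ j, HasD (fun v => sp (2 * j) (t v)) (k j)) → (∀ j, 0 ≤ k j) →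
    HasD (fun v => ((1 + C (t v) * X + X ^ 2 : ℝ[X]) ^ 12).coeff 12) 226512 →
    ∀ j, 1 ≤ j → j ≤ 6 → k j = 0

variable {K : Type*} [Field K] [NumberField K]

lemma Gf_single {ι V : Type*} [Fintype ι] [DecidableEq ι] (t : ι → V → ℝ) (i : ι) (n m : ℕ)
    (v : V) : Gf t (Pi.single i n) m v =
      ((1 + C (t i v) * X + X ^ 2 : ℝ[X]) ^ n).coeff (2 * m) := by
  unfold Gf
  rw [Finset.prod_eq_single i (fun j _ hj => by rw [Pi.single_eq_of_ne hj, pow_zero])
      (fun h => absurd (Finset.mem_univ i) h), Pi.single_eq_same]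

theorem ONE2 (hico : StmICO) (h12 : StmE12 K) (hz : StmZK K) (θ : HeightOneSpectrum (𝓞 K) → ℝ)
    (hint : ∀ n : ℕ, ∃ k : ℤ, HasD (fun v => 2 * Real.cos (2 * n * θ v)) k)
    (hE : HasD (fun v => ((1 + C (2 * Real.cos (θ v)) * X + X ^ 2 : ℝ[X]) ^ 12).coeff 12) 226512)
    (hpos : ∀ (n : ℕ) (k : ℤ), HasD (fun v => sp (2 * n) (2 * Real.cos (θ v))) k → 0 ≤ k) :
    ∀ n : ℕ, 1 ≤ n → HasD (fun v => sp (2 * n) (2 * Real.cos (θ v))) 0 := by
  choose d hd using hint
  have hpd := pd_of_hasD hz θ d hd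
  have hbt : Bd (fun v => 2 * Real.cos (θ v)) := ⟨2, fun v => by
    have := Real.abs_cos_le_one (θ v)
    rw [abs_mul, abs_two]
    linarith⟩
  have key : ∀ n : ℕ, HasD (fun v => sp (2 * n) (2 * Real.cos (θ v)))
      ((1 + ∑ j ∈ Finset.range n, d (j + 1) : ℤ) : ℝ) := by
    intro n
    induction n with
    | zero => simpa [sp] using HasD.const (K := K) hz 1
    | succ n ih =>
      have h3 := HasD.add hz (hbt.sp _) (bd_cos θ (n + 1)) ih (hd (n + 1))
      have h4 := h3.congr fun v => (sp_even_cos (θ v) n).symm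
      rw [Finset.sum_range_succ]
      push_cast at h4 ⊢
      rw [← add_assoc]
      exact h4
  have hk0 := h12 hz (fun v => 2 * Real.cos (θ v)) (fun v => by
    have := Real.abs_cos_le_one (θ v)
    rw [abs_mul, abs_two]
    linarith) (fun n => 1 + ∑ j ∈ Finset.range n, d (j + 1)) key
    (fun j => hpos j _ (key j)) hE
  have g1 := hk0 1 (by norm_num) (by norm_num)
  have g2 := hk0 2 (by norm_num) (by norm_num)
  have g3 := hk0 3 (by norm_num) (by norm_num)
  have g4 := hk0 4 (by norm_num) (by norm_num)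
  have g5 := hk0 5 (by norm_num) (by norm_num)
  have g6 := hk0 6 (by norm_num) (by norm_num)
  simp only [Finset.sum_range_succ, Finset.sum_range_zero, zero_add, Nat.reduceAdd]
    at g1 g2 g3 g4 g5 g6
  have hz26 : ∀ n, 2 ≤ n → n ≤ 6 → d n = 0 := by
    intro n hn hn'
    interval_cases n <;> omega
  have hsum : ∀ a, (∀ n, 2 ≤ n → n < a → d n = 0) → ∀ n, 1 ≤ n → n < a →
      (1 + ∑ j ∈ Finset.range n, d (j + 1) : ℤ) = 0 := by
    intro a ha n hn
    induction n, hn using Nat.le_induction with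
    | base => intro _; simp; omega
    | succ n hn ih =>
      intro hna
      rw [Finset.sum_range_succ, ← add_assoc, ih (by omega), ha (n + 1) (by omega) hna, add_zero]
  rcases hico d hpd (by omega) hz26 with hall | ⟨a, ha7, hza, ha | ⟨ha, ha'⟩⟩
  · intro n hn
    have h1 := key n
    rw [hsum (n + 1) (fun m hm _ => hall m hm) n hn (by omega), Int.cast_zero] at h1
    exact h1
  · exfalso
    have h1 := hpos a _ (key a)
    obtain ⟨b, rfl⟩ := Nat.exists_eq_add_of_le' (show 1 ≤ a by omega)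
    rw [Finset.sum_range_succ, ← add_assoc, hsum (b + 1) hza b (by omega) (by omega), ha] at h1
    omega
  · exfalso
    have h1 := hpos (a + 1) _ (key (a + 1))
    obtain ⟨b, rfl⟩ := Nat.exists_eq_add_of_le' (show 1 ≤ a by omega)
    rw [Finset.sum_range_succ, Finset.sum_range_succ, ← add_assoc, ← add_assoc,
      hsum (b + 1) hza b (by omega) (by omega), ha, ha'] at h1
    omega

theorem assembly2 (hico : StmICO) (h12 : StmE12 K)
    (hz : StmZK K) (hL : StmLOG K) (hT : StmTRI K) (hPair : StmPAIR K)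
    (hG : StmGOUR K) (hR : StmRANK K) (r : ℕ)
    (S : Finset (HeightOneSpectrum (𝓞 K))) [DecidablePred (· ∈ S)]
    (α : Fin r → HeightOneSpectrum (𝓞 K) → ℂ) (hα : ∀ i, ∀ v ∉ S, ‖α i v‖ ^ 2 = Nv v)
    (P : (Fin r → ℕ) → ℕ → HeightOneSpectrum (𝓞 K) → ℂ[X])
    (hP : ∀ n m, ∀ v ∉ S, P n m v = localPoly (fun i => α i v) n m)
    (hbad : ∀ n m, ∀ v ∈ S, (P n m v).eval ((Nv v : ℂ) ^ (-((m : ℂ) + 1))) ≠ 0)
    (hord : ∀ (n : Fin r → ℕ) (m : ℕ), ∑ i, n i = 2 * m → ∃ k : ℤ, HasOrd (P n m) m k)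
    (h4 : ∀ i, HasOrd (P (Pi.single i 4) 2) 2 (-20))
    (h22 : ∀ i j, i ≠ j → HasOrd (P (Pi.single i 2 + Pi.single j 2) 2) 2 (-11)) :
    (∀ n m, HasOrd (P n m) m (-rank n m)) ∨
      ∃ i, (∃ q : ℕ, 1 ≤ q ∧ ∀ ε : ℝ, 0 < ε →
          DensZero {v | ε ≤ |Real.sin (q * Complex.arg (α i v))|}) ∧
        (¬ HasOrd (P (Pi.single i 12) 6) 6 (-226512) ∨
          ∃ (n : ℕ) (k : ℤ), 0 < k ∧
            HasOrd (fun v => if v ∈ S then 1 else symPoly (α i v) n) n k) := by
  have key := fun n m k => ORD hL hz S α hα (P n m) n m (hP n m) (hbad n m) k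
  have ht : ∀ (i : Fin r) (v : HeightOneSpectrum (𝓞 K)),
      |2 * Real.cos (Complex.arg (α i v))| ≤ 2 := fun i v => by
    have := Real.abs_cos_le_one (Complex.arg (α i v))
    rw [abs_mul, abs_two]
    linarith
  have hStr := hT hz (Fin r) inferInstance inferInstance
    (fun i v => 2 * Real.cos (Complex.arg (α i v))) ht fun n m hnm => by
      obtain ⟨k, hk⟩ := hord n m hnm
      refine ⟨-k, ?_⟩
      rw [Int.cast_neg]
      exact (key n m k).mp hk
  have hHas : ∀ g, Par (fun i v => 2 * Real.cos (Complex.arg (α i v))) 0 g →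
      ∃ k : ℤ, HasD g k := fun g hg => by
    obtain ⟨k, hk⟩ := hStr g hg
    exact ⟨k, hk.hasD⟩
  have hev := EVAL (HeightOneSpectrum (𝓞 K)) (Fin r) inferInstance inferInstance
    (fun i v => 2 * Real.cos (Complex.arg (α i v)))
  rw [or_iff_not_imp_right]
  intro hcon
  push Not at hcon
  -- Sato-Tate for each curve
  have hone : ∀ i (n : ℕ), 1 ≤ n →
      HasD (fun v => sp (2 * n) (2 * Real.cos (Complex.arg (α i v)))) 0 := by
    intro i
    have h1 := (((key _ _ _).mp (h4 i)).hasD).congr fun v => hev.1 i v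
    have h3 : (-(((-20 : ℤ)) : ℝ)) = 20 := by norm_num
    rw [h3] at h1
    rcases ONE K hz (fun v => Complex.arg (α i v)) (fun n => hHas _ (Par.cos i n)) h1 with h | h
    · exact h
    · obtain ⟨hE, hV⟩ := hcon i h
      refine ONE2 hico h12 hz (fun v => Complex.arg (α i v)) (fun n => hHas _ (Par.cos i n)) ?_ ?_
      · have h5 := (((key _ _ _).mp hE).hasD).congr fun v => Gf_single _ i 12 6 v
        have h6 : (-(((-226512 : ℤ)) : ℝ)) = 226512 := by norm_num
        rw [h6] at h5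
        exact h5
      · intro n k hk
        have h5 := Par.spA (t := fun i v => 2 * Real.cos (Complex.arg (α i v))) i (2 * n)
        rw [natCast_even_zmod2] at h5
        obtain ⟨k', hk'⟩ := hStr _ h5
        have h6 : (k : ℝ) = k' := hk.unique hk'.hasD
        have h7 : k = k' := by exact_mod_cast h6
        subst h7
        by_contra hneg
        refine hV n (-k) (by omega) ?_
        refine (ORDS hL hz S (α i) (hα i) _ n (fun v hv => if_neg hv) (fun v hv => ?_) (-k)).mpr ?_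
        · rw [if_pos hv, eval_one]
          exact one_ne_zero
        · rw [Int.cast_neg, neg_neg]
          exact hk'
  -- pairs
  have hpair : ∀ i j, i ≠ j → HasD (fun v => sp 2 (2 * Real.cos (Complex.arg (α i v))) *
      sp 2 (2 * Real.cos (Complex.arg (α j v)))) 0 := by
    intro i j hij
    refine hPair hz _ _ (ht i) (ht j) (hone i) (hone j) (hHas _ ?_) (hHas _ ?_) ?_
    · exact Par.mul (Par.var (t := fun i v => 2 * Real.cos (Complex.arg (α i v))) i) (Par.var j)
    · have h1 := Par.mul (Par.var (t := fun i v => 2 * Real.cos (Complex.arg (α i v))) i)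
        (Par.var j)
      exact (Par.mul h1 h1).ofEq fun v => by ring
    · have h1 := ((key _ _ _).mp (h22 i j hij)).hasD
      have h2 := h1.congr fun v => hev.2 i j hij v
      have h3 : (-(((-11 : ℤ)) : ℝ)) = 11 := by norm_num
      rw [h3] at h2
      exact h2
  have hall := hG hz (Fin r) inferInstance inferInstance
    (fun i v => 2 * Real.cos (Complex.arg (α i v))) ht hHas hone hpair
  have hrank := hR hz (Fin r) inferInstance inferInstance
    (fun i v => 2 * Real.cos (Complex.arg (α i v))) ht hall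
  intro n m
  rw [key n m (-rank n m), Int.cast_neg, neg_neg]
  obtain ⟨k, hk⟩ := hStr _ (GPAR _ (Fin r) inferInstance
    (fun i v => 2 * Real.cos (Complex.arg (α i v))) n m)
  rw [(hk.hasD.unique (hrank n m))] at hk
  exact hk

end TatePole.Fs
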