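import Mathlib
import Pool.Agent.Lib.MP_058a58_ag.Fs.Dens
import Pool.Agent.Lib.MP_058a58_ag.Fs.Coef

/-!
# The mean of the trace of Frobenius for powers of one curve, in terms of the cosine moments
-/

open NumberField Polynomial Filter Topology
open IsDedekindDomain (HeightOneSpectrum)

namespace TatePole.Fs

lemma coeff_one_add_C_mul (z : ℂ) (n a : ℕ) :
    ((1 + C z * X : ℂ[X]) ^ n).coeff a = (n.choose a : ℂ) * z ^ a := by
  rw [one_add_pow_expand, finsetSum_coeff]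
  simp only [coeff_C_mul, coeff_X_pow]
  by_cases h : a ≤ n
  · rw [Finset.sum_eq_single a]
    · rw [if_pos rfl, mul_one]
    · intro b _ hb
      rw [if_neg (Ne.symm hb), mul_zero]
    · intro h1
      exact absurd (Finset.mem_range.2 (by omega)) h1
  · rw [Nat.choose_eq_zero_of_lt (by omega), Nat.cast_zero, zero_mul]
    refine Finset.sum_eq_zero fun b hb => ?_
    have := Finset.mem_range.1 hb
    rw [if_neg (by omega), mul_zero]

/-- the even coefficients of `(1 + 2 cos θ T + T²)^N` -/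
lemma coeff_even (θ : ℝ) (N m : ℕ) :
    ((1 + C (2 * Real.cos θ) * X + X ^ 2 : ℝ[X]) ^ N).coeff (2 * m) =
      (N.choose m : ℝ) ^ 2 + ∑ j ∈ Finset.Icc 1 m,
        ((N.choose (m + j) : ℝ) * (N.choose (m - j) : ℝ)) * (2 * Real.cos (2 * j * θ)) := by
  set z : ℂ := Complex.exp ((θ : ℂ) * Complex.I) with hzdef
  have hz : ‖z‖ = 1 := Complex.norm_exp_ofReal_mul_I θ
  have hre : z.re = Real.cos θ := Complex.exp_ofReal_mul_I_re θ
  have hzz : z * (starRingEnd ℂ) z = 1 := by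
    rw [Complex.mul_conj, Complex.normSq_eq_norm_sq, hz]
    norm_num
  have hcos : ∀ J : ℕ, z ^ (2 * J) + (starRingEnd ℂ) z ^ (2 * J) =
      ((2 * Real.cos (2 * J * θ) : ℝ) : ℂ) := by
    intro J
    have h1 : z ^ (2 * J) = Complex.exp (((2 * J * θ : ℝ) : ℂ) * Complex.I) := by
      rw [hzdef, ← Complex.exp_nat_mul]
      congr 1
      push_cast
      ring
    rw [← map_pow, h1, Complex.add_conj, Complex.exp_ofReal_mul_I_re]
  have h1 : ((1 + C (2 * Real.cos θ) * X + X ^ 2 : ℝ[X]) ^ N).map Complex.ofRealHom =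
      (1 + C z * X : ℂ[X]) ^ N * (1 + C ((starRingEnd ℂ) z) * X : ℂ[X]) ^ N := by
    rw [Polynomial.map_pow, ← hre, ← factor_eq z hz, mul_pow]
  have h2 : ((((1 + C (2 * Real.cos θ) * X + X ^ 2 : ℝ[X]) ^ N).coeff (2 * m) : ℝ) : ℂ) =
      ∑ a ∈ Finset.range (2 * m + 1), ((N.choose a : ℂ) * z ^ a) *
        ((N.choose (2 * m - a) : ℂ) * (starRingEnd ℂ) z ^ (2 * m - a)) := by
    have h3 : ((((1 + C (2 * Real.cos θ) * X + X ^ 2 : ℝ[X]) ^ N).coeff (2 * m) : ℝ) : ℂ) =
        (((1 + C (2 * Real.cos θ) * X + X ^ 2 : ℝ[X]) ^ N).map Complex.ofRealHom).coeff (2 * m) := by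
      rw [coeff_map]
      rfl
    rw [h3, h1, coeff_mul, Finset.Nat.sum_antidiagonal_eq_sum_range_succ_mk]
    refine Finset.sum_congr rfl fun a _ => ?_
    rw [coeff_one_add_C_mul, coeff_one_add_C_mul]
  have h4 : (∑ a ∈ Finset.range (2 * m + 1), ((N.choose a : ℂ) * z ^ a) *
        ((N.choose (2 * m - a) : ℂ) * (starRingEnd ℂ) z ^ (2 * m - a))) =
      (N.choose m : ℂ) ^ 2 + ∑ j ∈ Finset.range m,
        ((N.choose (m + (j + 1)) : ℂ) * (N.choose (m - (j + 1)) : ℂ)) *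
          ((2 * Real.cos (2 * (j + 1 : ℕ) * θ) : ℝ) : ℂ) := by
    have e : 2 * m + 1 = (m + 1) + m := by ring
    have e2 : ∀ g : ℕ → ℂ, ∑ a ∈ Finset.range (2 * m + 1), g a =
        g m + ∑ j ∈ Finset.range m, (g (m - 1 - j) + g (m + 1 + j)) := by
      intro g
      rw [e, Finset.sum_range_add, Finset.sum_range_succ, ← Finset.sum_range_reflect g m,
        Finset.sum_add_distrib]
      ring
    rw [e2]
    congr 1
    · rw [show 2 * m - m = m by omega]
      have h5 : z ^ m * (starRingEnd ℂ) z ^ m = 1 := by rw [← mul_pow, hzz, one_pow]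
      linear_combination ((N.choose m : ℂ)) ^ 2 * h5
    · refine Finset.sum_congr rfl fun j hj => ?_
      have hjm := Finset.mem_range.1 hj
      rw [← hcos (j + 1)]
      obtain ⟨r, hr⟩ : ∃ r, m = r + (j + 1) := ⟨m - (j + 1), by omega⟩
      have a1 : m - 1 - j = r := by omega
      have a2 : 2 * m - (m - 1 - j) = m + (j + 1) := by omega
      have a3 : 2 * m - (m + 1 + j) = r := by omega
      have a4 : m - (j + 1) = r := by omega
      rw [a2, a3, a4, a1]
      have a5 : m + 1 + j = m + (j + 1) := by ring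
      rw [a5]
      have h5 : z ^ r * (starRingEnd ℂ) z ^ r = 1 := by rw [← mul_pow, hzz, one_pow]
      have h6 : (starRingEnd ℂ) z ^ (m + (j + 1)) =
          (starRingEnd ℂ) z ^ r * (starRingEnd ℂ) z ^ (2 * (j + 1)) := by
        rw [← pow_add]
        congr 1
        omega
      have h7 : z ^ (m + (j + 1)) = z ^ r * z ^ (2 * (j + 1)) := by
        rw [← pow_add]
        congr 1
        omega
      rw [h6, h7]
      linear_combination ((N.choose (m + (j + 1)) : ℂ) * (N.choose r : ℂ)) *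
        (z ^ (2 * (j + 1)) + (starRingEnd ℂ) z ^ (2 * (j + 1))) * h5
  have h5 : ∑ j ∈ Finset.Icc 1 m, ((N.choose (m + j) : ℝ) * (N.choose (m - j) : ℝ)) *
      (2 * Real.cos (2 * j * θ)) = ∑ j ∈ Finset.range m,
        ((N.choose (m + (j + 1)) : ℝ) * (N.choose (m - (j + 1)) : ℝ)) *
          (2 * Real.cos (2 * (j + 1 : ℕ) * θ)) := by
    rw [Finset.range_eq_Ico, Finset.sum_Ico_add' (fun j : ℕ => ((N.choose (m + j) : ℝ) *
      (N.choose (m - j) : ℝ)) * (2 * Real.cos (2 * (j : ℕ) * θ))) 0 m 1]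
    rfl
  rw [h5]
  have h6 := h2.trans h4
  apply Complex.ofReal_injective
  rw [h6]
  push_cast
  rfl

/-- [VAL3] -/
theorem VAL3 {K : Type*} [Field K] [NumberField K] (hz : StmZK K)
    {θ : HeightOneSpectrum (𝓞 K) → ℝ} {d : ℕ → ℤ}
    (hd : ∀ n : ℕ, HasD (fun v => 2 * Real.cos (2 * n * θ v)) (d n)) (N m : ℕ) :
    HasD (fun v => ((1 + C (2 * Real.cos (θ v)) * X + X ^ 2 : ℝ[X]) ^ N).coeff (2 * m))
      (((N.choose m : ℤ) ^ 2 + ∑ j ∈ Finset.Icc 1 m,
        d j * N.choose (m + j) * N.choose (m - j) : ℤ) : ℝ) := by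
  have hb : ∀ j : ℕ, Bd (fun v : HeightOneSpectrum (𝓞 K) => 2 * Real.cos (2 * j * θ v)) := by
    intro j
    refine ⟨2, fun v => ?_⟩
    rw [abs_mul, abs_of_pos (by norm_num : (0 : ℝ) < 2)]
    have := Real.abs_cos_le_one (2 * j * θ v)
    linarith
  have h1 : HasD (fun v : HeightOneSpectrum (𝓞 K) => (N.choose m : ℝ) ^ 2 +
      ∑ j ∈ Finset.Icc 1 m, ((N.choose (m + j) : ℝ) * (N.choose (m - j) : ℝ)) *
        (2 * Real.cos (2 * j * θ v))) ((N.choose m : ℝ) ^ 2 +
      ∑ j ∈ Finset.Icc 1 m, ((N.choose (m + j) : ℝ) * (N.choose (m - j) : ℝ)) * (d j : ℝ)) :=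
    HasD.add hz (Bd.const _) (Bd.sum _ fun j _ => (hb j).const_mul _) (HasD.const hz _)
      (HasD.sum hz _ (fun j _ => (hb j).const_mul _) fun j _ => (hd j).const_mul _)
  have h2 : (((N.choose m : ℤ) ^ 2 + ∑ j ∈ Finset.Icc 1 m,
      d j * N.choose (m + j) * N.choose (m - j) : ℤ) : ℝ) = (N.choose m : ℝ) ^ 2 +
      ∑ j ∈ Finset.Icc 1 m, ((N.choose (m + j) : ℝ) * (N.choose (m - j) : ℝ)) * (d j : ℝ) := by
    push_cast
    congr 1
    exact Finset.sum_congr rfl fun j _ => by ring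
  rw [h2]
  exact h1.congr fun v => (coeff_even (θ v) N m).symm

end TatePole.Fs
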