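import Mathlib
import Pool.Agent.Lib.MP_058a58_ag.Fs.One2
import Pool.Agent.Lib.MP_058a58_ag.Fs.Cls3
import Pool.Agent.Lib.MP_058a58_ag.Fs.Val3

/-!
# One curve: the explicit list of laws; assembly of version 3
-/

open NumberField Polynomial Filter Topology
open IsDedekindDomain (HeightOneSpectrum)

namespace TatePole.Fs

variable {K : Type*} [Field K] [NumberField K]

/-- the case of a periodic sequence -/
lemma conc_of_two (hz : StmZK K) (θ : HeightOneSpectrum (𝓞 K) → ℝ) {q : ℕ}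
    (h1 : HasD (fun v => 2 * Real.cos (2 * q * θ v)) 2) (ε : ℝ) (hε : 0 < ε) :
    DensZero {v | ε ≤ |Real.sin (q * θ v)|} := by
  have h2 : HasD (fun v => 4 * Real.sin (q * θ v) ^ 2) 0 := by
    have h3 := HasD.sub hz (Bd.const 2) (bd_cos θ q) (HasD.const hz 2) h1
    rw [sub_self] at h3
    refine h3.congr fun v => ?_
    rw [show 2 * (q : ℝ) * θ v = 2 * (q * θ v) by ring, Real.cos_two_mul]
    have := Real.sin_sq_add_cos_sq (q * θ v)
    linarith
  have hbs : Bd (fun v => 4 * Real.sin (q * θ v) ^ 2) := ⟨4, fun v => by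
    have := Real.sin_sq_le_one (q * θ v)
    rw [abs_of_nonneg (by positivity)]
    linarith⟩
  classical
  have hind : Bd (fun v => (({v | ε ≤ |Real.sin (q * θ v)|} :
      Set (HeightOneSpectrum (𝓞 K))).indicator (fun _ => (1 : ℝ)) v)) :=
    ⟨1, fun v => by
      show |({v | ε ≤ |Real.sin (q * θ v)|} : Set (HeightOneSpectrum (𝓞 K))).indicator
        (fun _ => (1 : ℝ)) v| ≤ 1
      rw [Set.indicator_apply]
      split_ifs <;> simp⟩
  have h5 : HasD (fun v => (({v | ε ≤ |Real.sin (q * θ v)|} :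
      Set (HeightOneSpectrum (𝓞 K))).indicator (fun _ => (1 : ℝ)) v)) 0 := by
    have h6 := h2.const_mul (1 / (4 * ε ^ 2))
    rw [mul_zero] at h6
    refine HasD.zero_of_le hz hind (hbs.const_mul _) (fun v => ?_) h6
    rw [Set.indicator_apply]
    split_ifs with hv
    · rw [abs_one]
      have hv' : ε ≤ |Real.sin (q * θ v)| := hv
      have h7 : ε ^ 2 ≤ Real.sin (q * θ v) ^ 2 := by
        rw [← sq_abs (Real.sin (q * θ v))]
        exact pow_le_pow_left₀ hε.le hv' 2
      rw [div_mul_eq_mul_div, le_div_iff₀ (by positivity)]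
      linarith
    · rw [abs_zero]
      positivity
  refine Tendsto.congr (fun s => ?_) h5
  unfold SS
  congr 1
  refine tsum_congr fun v => ?_
  show ({v | ε ≤ |Real.sin (q * θ v)|} : Set (HeightOneSpectrum (𝓞 K))).indicator
        (fun _ => (1 : ℝ)) v * (Nv v : ℝ) ^ (-s) = _
  rw [Set.indicator_apply, Set.indicator_apply]
  split_ifs
  · rw [one_mul]
  · rw [zero_mul]

/-- the densities of the even symmetric powers from `d` -/
lemma hasD_sp_sum (hz : StmZK K) (θ : HeightOneSpectrum (𝓞 K) → ℝ) (d : ℕ → ℤ)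
    (hd : ∀ n : ℕ, HasD (fun v => 2 * Real.cos (2 * n * θ v)) (d n)) (n : ℕ) :
    HasD (fun v => sp (2 * n) (2 * Real.cos (θ v)))
      ((1 + ∑ j ∈ Finset.range n, d (j + 1) : ℤ) : ℝ) := by
  have hbt : Bd (fun v => 2 * Real.cos (θ v)) := ⟨2, fun v => by
    have := Real.abs_cos_le_one (θ v)
    rw [abs_mul, abs_two]
    linarith⟩
  induction n with
  | zero => simpa [sp] using HasD.const (K := K) hz 1
  | succ n ih =>
    have h3 := HasD.add hz (hbt.sp _) (bd_cos θ (n + 1)) ih (hd (n + 1))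
    have h4 := h3.congr fun v => (sp_even_cos (θ v) n).symm
    rw [Finset.sum_range_succ]
    push_cast at h4 ⊢
    rw [← add_assoc]
    exact h4

theorem ONE3 (hz : StmZK K) (θ : HeightOneSpectrum (𝓞 K) → ℝ)
    (hint : ∀ n : ℕ, ∃ k : ℤ, HasD (fun v => 2 * Real.cos (2 * n * θ v)) k) :
    (∀ n : ℕ, 1 ≤ n → HasD (fun v => sp (2 * n) (2 * Real.cos (θ v))) 0) ∨
    (∃ q : ℕ, 1 ≤ q ∧ ∀ ε : ℝ, 0 < ε → DensZero {v | ε ≤ |Real.sin (q * θ v)|}) ∨
    ∃ c : ℕ → ℤ, OtherLaw c ∧ ∀ n : ℕ, HasD (fun v => 2 * Real.cos (2 * n * θ v)) (c n) := by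
  choose d hd using hint
  have hpd := pd_of_hasD hz θ d hd
  rcases hpd.classify with ⟨q, hq, hdq⟩ | h | ⟨k, hk, ε, hε, h⟩ | ⟨p, hp, ε, hε, h⟩
  · right; left
    refine ⟨q, hq, fun ε hε => conc_of_two hz θ ?_ ε hε⟩
    have h1 := hd q
    rw [hdq] at h1
    exact_mod_cast h1
  · right; right
    exact ⟨d, Or.inl h, hd⟩
  · by_cases hST : k = 1 ∧ ε = -1
    · left
      obtain ⟨rfl, rfl⟩ := hST
      intro n hn
      have h1 := hasD_sp_sum hz θ d hd n
      have h2 : (1 + ∑ j ∈ Finset.range n, d (j + 1) : ℤ) = 0 := by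
        induction n, hn using Nat.le_induction with
        | base => simp [h 1 le_rfl]
        | succ n hn ih =>
          have h3 := ih (hasD_sp_sum hz θ d hd n)
          rw [Finset.sum_range_succ, ← add_assoc, h3, h (n + 1) (by omega), if_neg (by omega),
            add_zero]
      rw [h2, Int.cast_zero] at h1
      exact h1
    · right; right
      exact ⟨d, Or.inr (Or.inl ⟨k, hk, ε, hε, hST, h⟩), hd⟩
  · right; right
    exact ⟨d, Or.inr (Or.inr ⟨p, hp, ε, hε, h⟩), hd⟩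

/-- [PAIR3] two curves -/
def StmPAIR3 (K : Type*) [Field K] [NumberField K] : Prop :=
  StmZK K → ∀ t u : HeightOneSpectrum (𝓞 K) → ℝ, (∀ v, |t v| ≤ 2) → (∀ v, |u v| ≤ 2) →
    (∀ n : ℕ, 1 ≤ n → HasD (fun v => sp (2 * n) (t v)) 0) →
    (∀ n : ℕ, 1 ≤ n → HasD (fun v => sp (2 * n) (u v)) 0) →
    (∃ k : ℤ, HasD (fun v => t v ^ 2 * u v ^ 2) k) →
    HasD (fun v => sp 2 (t v) * sp 2 (u v)) 0 ∨
      ∀ ε : ℝ, 0 < ε → DensZero {v | ε ≤ |t v ^ 2 - u v ^ 2|}

theorem assembly3 (h12 : StmE12 K) (hPair : StmPAIR3 K)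
    (hz : StmZK K) (hL : StmLOG K) (hT : StmTRI K)
    (hG : StmGOUR K) (hR : StmRANK K) (r : ℕ)
    (S : Finset (HeightOneSpectrum (𝓞 K))) [DecidablePred (· ∈ S)]
    (α : Fin r → HeightOneSpectrum (𝓞 K) → ℂ) (hα : ∀ i, ∀ v ∉ S, ‖α i v‖ ^ 2 = Nv v)
    (P : (Fin r → ℕ) → ℕ → HeightOneSpectrum (𝓞 K) → ℂ[X])
    (hP : ∀ n m, ∀ v ∉ S, P n m v = localPoly (fun i => α i v) n m)
    (hbad : ∀ n m, ∀ v ∈ S, (P n m v).eval ((Nv v : ℂ) ^ (-((m : ℂ) + 1))) ≠ 0)
    (hord : ∀ (n : Fin r → ℕ) (m : ℕ), ∑ i, n i = 2 * m → ∃ k : ℤ, HasOrd (P n m) m k) :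
    (∀ n m, HasOrd (P n m) m (-rank n m)) ∨
      (∃ i, (∃ q : ℕ, 1 ≤ q ∧ ∀ ε : ℝ, 0 < ε →
          DensZero {v | ε ≤ |Real.sin (q * Complex.arg (α i v))|}) ∧
        (¬ HasOrd (P (Pi.single i 12) 6) 6 (-226512) ∨
          ∃ (n : ℕ) (k : ℤ), 0 < k ∧
            HasOrd (fun v => if v ∈ S then 1 else symPoly (α i v) n) n k)) ∨
      (∃ i, ∃ c : ℕ → ℤ, OtherLaw c ∧
        ∀ N m, HasOrd (P (Pi.single i N) m) m (-lawRank c N m)) ∨
      (∃ i j, i ≠ j ∧ ∀ ε : ℝ, 0 < ε → DensZero {v | ε ≤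
        |(2 * Real.cos (Complex.arg (α i v))) ^ 2 - (2 * Real.cos (Complex.arg (α j v))) ^ 2|}) := by
  have key := fun n m k => ORD hL hz S α hα (P n m) n m (hP n m) (hbad n m) k
  have ht : ∀ (i : Fin r) (v : HeightOneSpectrum (𝓞 K)),
      |2 * Real.cos (Complex.arg (α i v))| ≤ 2 := fun i v => by
    have := Real.abs_cos_le_one (Complex.arg (α i v))
    rw [abs_mul, abs_two]
    linarith
  have hStr := hT hz (Fin r) inferInstance inferInstance
    (fun i v => 2 * Real.cos (Complex.arg (α i v))) ht fun n m hnm => by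
      obtain ⟨k, hk⟩ := hord n m hnm
      refine ⟨-k, ?_⟩
      rw [Int.cast_neg]
      exact (key n m k).mp hk
  have hHas : ∀ g, Par (fun i v => 2 * Real.cos (Complex.arg (α i v))) 0 g →
      ∃ k : ℤ, HasD g k := fun g hg => by
    obtain ⟨k, hk⟩ := hStr g hg
    exact ⟨k, hk.hasD⟩
  rw [or_iff_not_imp_right]
  intro hcon
  rw [not_or, not_or] at hcon
  obtain ⟨hB, hC, hDD⟩ := hcon
  push Not at hB
  -- Sato-Tate for each curve
  have hone : ∀ i (n : ℕ), 1 ≤ n →
      HasD (fun v => sp (2 * n) (2 * Real.cos (Complex.arg (α i v)))) 0 := by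
    intro i
    rcases ONE3 hz (fun v => Complex.arg (α i v)) (fun n => hHas _ (Par.cos i n)) with
      h | h | ⟨c, hc, hcd⟩
    · exact h
    · obtain ⟨hE, hV⟩ := hB i h
      refine ONE2 ICO h12 hz (fun v => Complex.arg (α i v)) (fun n => hHas _ (Par.cos i n)) ?_ ?_
      · have h5 := (((key _ _ _).mp hE).hasD).congr fun v => Gf_single _ i 12 6 v
        have h6 : (-(((-226512 : ℤ)) : ℝ)) = 226512 := by norm_num
        rw [h6] at h5
        exact h5
      · intro n k hk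
        have h5 := Par.spA (t := fun i v => 2 * Real.cos (Complex.arg (α i v))) i (2 * n)
        rw [natCast_even_zmod2] at h5
        obtain ⟨k', hk'⟩ := hStr _ h5
        have h6 : (k : ℝ) = k' := hk.unique hk'.hasD
        have h7 : k = k' := by exact_mod_cast h6
        subst h7
        by_contra hneg
        refine hV n (-k) (by omega) ?_
        refine (ORDS hL hz S (α i) (hα i) _ n (fun v hv => if_neg hv) (fun v hv => ?_) (-k)).mpr ?_
        · rw [if_pos hv, eval_one]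
          exact one_ne_zero
        · rw [Int.cast_neg, neg_neg]
          exact hk'
    · exfalso
      refine hC ⟨i, c, hc, fun N m => ?_⟩
      rw [key, Int.cast_neg, neg_neg]
      obtain ⟨k, hk⟩ := hStr _ (GPAR _ (Fin r) inferInstance
        (fun i v => 2 * Real.cos (Complex.arg (α i v))) (Pi.single i N) m)
      have h1 := VAL3 hz hcd N m
      have h2 := (hk.hasD).congr fun v => Gf_single _ i N m v
      have h3 := h2.unique h1
      rw [h3] at hk
      exact hk
  -- pairs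
  have hpair : ∀ i j, i ≠ j → HasD (fun v => sp 2 (2 * Real.cos (Complex.arg (α i v))) *
      sp 2 (2 * Real.cos (Complex.arg (α j v)))) 0 := by
    intro i j hij
    have h1 := Par.mul (Par.var (t := fun i v => 2 * Real.cos (Complex.arg (α i v))) i)
        (Par.var j)
    have h2 : Par (fun i v => 2 * Real.cos (Complex.arg (α i v))) 0
        (fun v => (2 * Real.cos (Complex.arg (α i v))) ^ 2 *
          (2 * Real.cos (Complex.arg (α j v))) ^ 2) :=
      (Par.mul h1 h1).ofEq fun v => by ring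
    rcases hPair hz _ _ (ht i) (ht j) (hone i) (hone j) (hHas _ h2) with h | h
    · exact h
    · exact absurd ⟨i, j, hij, h⟩ hDD
  have hall := hG hz (Fin r) inferInstance inferInstance
    (fun i v => 2 * Real.cos (Complex.arg (α i v))) ht hHas hone hpair
  have hrank := hR hz (Fin r) inferInstance inferInstance
    (fun i v => 2 * Real.cos (Complex.arg (α i v))) ht hall
  intro n m
  rw [key n m (-rank n m), Int.cast_neg, neg_neg]
  obtain ⟨k, hk⟩ := hStr _ (GPAR _ (Fin r) inferInstance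
    (fun i v => 2 * Real.cos (Complex.arg (α i v))) n m)
  rw [(hk.hasD.unique (hrank n m))] at hk
  exact hk

end TatePole.Fs
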