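import Mathlib
import Pool.Agent.Lib.MP_058a58_ag.Fs.GOUR

/-!
# Two curves
-/

open NumberField Polynomial Filter Topology
open IsDedekindDomain (HeightOneSpectrum)

namespace TatePole.Fs

theorem PAIR (K : Type*) [Field K] [NumberField K] : StmPAIR K := by
  intro hz t u ht hu h1t h1u ⟨k11, h11⟩ ⟨k22, h22⟩ hf
  have bt : Bd t := ⟨2, ht⟩
  have bu : Bd u := ⟨2, hu⟩
  have p2 : ∀ x : ℝ, sp 2 x = x ^ 2 - 1 := fun x => by
    simp only [sp]; ring
  have one : ∀ (w : HeightOneSpectrum (𝓞 K) → ℝ), (∀ v, |w v| ≤ 2) →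
      (∀ n : ℕ, 1 ≤ n → HasD (fun v => sp (2 * n) (w v)) 0) → ∀ (p : ℝ → ℝ) (m : ℝ), Ev p m →
      HasD (fun v => p (w v)) m := by
    intro w hw h p m hp
    exact Ind.one (ι := Unit) (t := fun _ => w) hz (fun _ => hw) () h hp
  have t2 : HasD (fun v => t v ^ 2) 1 := one t ht h1t (fun x => x ^ 2) 1 (Ev.sq 1)
  have u2 : HasD (fun v => u v ^ 2) 1 := one u hu h1u (fun x => x ^ 2) 1 (Ev.sq 1)
  have s2 : HasD (fun v => sp 2 (t v) ^ 2) 1 := one t ht h1t (fun x => sp 2 x ^ 2) 1 (Ev.sq 2)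
  have r2 : HasD (fun v => sp 2 (u v) ^ 2) 1 := one u hu h1u (fun x => sp 2 x ^ 2) 1 (Ev.sq 2)
  have b22 : Bd (fun v => t v ^ 2 * u v ^ 2) := (bt.pow 2).mul (bu.pow 2)
  have b11 : Bd (fun v => t v * u v) := bt.mul bu
  -- the relation from the fourfold
  have e1 : HasD (fun v => t v ^ 2 * u v ^ 2 + 2 * t v ^ 2 + 2 * u v ^ 2 + 8 * (t v * u v) + 6)
      ((k22 : ℝ) + 2 * 1 + 2 * 1 + 8 * (k11 : ℝ) + 6) := by
    have a1 := HasD.add hz b22 ((bt.pow 2).const_mul 2) h22 (t2.const_mul 2)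
    have a2 := HasD.add hz (b22.add ((bt.pow 2).const_mul 2)) ((bu.pow 2).const_mul 2) a1
      (u2.const_mul 2)
    have a3 := HasD.add hz ((b22.add ((bt.pow 2).const_mul 2)).add ((bu.pow 2).const_mul 2))
      (b11.const_mul 8) a2 (h11.const_mul 8)
    exact HasD.add hz (((b22.add ((bt.pow 2).const_mul 2)).add ((bu.pow 2).const_mul 2)).add
      (b11.const_mul 8)) (Bd.const 6) a3 (HasD.const hz 6)
  have e2 := hf.unique e1
  -- the product of the two characters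
  have bs : Bd (fun v => sp 2 (t v)) := Bd.sp bt 2
  have br : Bd (fun v => sp 2 (u v)) := Bd.sp bu 2
  have e3 : HasD (fun v => sp 2 (t v) * sp 2 (u v)) ((k22 : ℝ) - 1) := by
    have a1 := HasD.sub hz b22 (bt.pow 2) h22 t2
    have a2 := HasD.sub hz (b22.sub (bt.pow 2)) (bu.pow 2) a1 u2
    have a3 := HasD.add hz ((b22.sub (bt.pow 2)).sub (bu.pow 2)) (Bd.const 1) a2 (HasD.const hz 1)
    have a4 : HasD (fun v => sp 2 (t v) * sp 2 (u v)) ((k22 : ℝ) - 1 - 1 + 1) :=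
      a3.congr fun v => by rw [p2, p2]; ring
    have : (k22 : ℝ) - 1 - 1 + 1 = (k22 : ℝ) - 1 := by ring
    rwa [this] at a4
  have e4 : (0 : ℝ) ≤ 1 + 1 - 2 * ((k22 : ℝ) - 1) := by
    have a1 := HasD.add hz (bs.pow 2) (br.pow 2) s2 r2
    have a2 := HasD.sub hz ((bs.pow 2).add (br.pow 2)) ((bs.mul br).const_mul 2) a1
      (e3.const_mul 2)
    refine HasD.nonneg (fun v => ?_) a2
    nlinarith [sq_nonneg (sp 2 (t v) - sp 2 (u v))]
  have e5 : (0 : ℝ) ≤ 1 + 1 + 2 * ((k22 : ℝ) - 1) := by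
    have a1 := HasD.add hz (bs.pow 2) (br.pow 2) s2 r2
    have a2 := HasD.add hz ((bs.pow 2).add (br.pow 2)) ((bs.mul br).const_mul 2) a1
      (e3.const_mul 2)
    refine HasD.nonneg (fun v => ?_) a2
    nlinarith [sq_nonneg (sp 2 (t v) + sp 2 (u v))]
  have e6 : k22 + 8 * k11 = 1 := by
    have : (k22 : ℝ) + 8 * k11 = 1 := by linarith
    exact_mod_cast this
  have e7 : k22 ≤ 2 := by
    have : (k22 : ℝ) ≤ 2 := by linarith
    exact_mod_cast this
  have e8 : 0 ≤ k22 := by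
    have : (0 : ℝ) ≤ k22 := by linarith
    exact_mod_cast this
  have e9 : k22 = 1 := by omega
  rw [e9] at e3
  simpa using e3

end TatePole.Fs
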