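import Mathlib
import Pool.Agent.Lib.MP_058a58_ag.Fs.PAIR
import Pool.Agent.Lib.MP_058a58_ag.Fs.One3

/-!
# Two curves: independence or equality up to sign
-/

open NumberField Polynomial Filter Topology
open IsDedekindDomain (HeightOneSpectrum)

namespace TatePole.Fs

/-- Chebyshev's inequality -/
lemma densZero_of_sq {K : Type*} [Field K] [NumberField K] (hz : StmZK K)
    {g : HeightOneSpectrum (𝓞 K) → ℝ} (bg : Bd g) (hg : HasD (fun v => g v ^ 2) 0) (ε : ℝ)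
    (hε : 0 < ε) : DensZero {v | ε ≤ |g v|} := by
  classical
  have hind : Bd (fun v => (({v | ε ≤ |g v|} :
      Set (HeightOneSpectrum (𝓞 K))).indicator (fun _ => (1 : ℝ)) v)) :=
    ⟨1, fun v => by
      show |({v | ε ≤ |g v|} : Set (HeightOneSpectrum (𝓞 K))).indicator
        (fun _ => (1 : ℝ)) v| ≤ 1
      rw [Set.indicator_apply]
      split_ifs <;> simp⟩
  have h5 : HasD (fun v => (({v | ε ≤ |g v|} :
      Set (HeightOneSpectrum (𝓞 K))).indicator (fun _ => (1 : ℝ)) v)) 0 := by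
    have h6 := hg.const_mul (1 / ε ^ 2)
    rw [mul_zero] at h6
    refine HasD.zero_of_le hz hind ((bg.pow 2).const_mul _) (fun v => ?_) h6
    rw [Set.indicator_apply]
    split_ifs with hv
    · rw [abs_one]
      have hv' : ε ≤ |g v| := hv
      have h7 : ε ^ 2 ≤ g v ^ 2 := by
        rw [← sq_abs (g v)]
        exact pow_le_pow_left₀ hε.le hv' 2
      rw [div_mul_eq_mul_div, le_div_iff₀ (by positivity)]
      linarith
    · rw [abs_zero]
      positivity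
  refine Tendsto.congr (fun s => ?_) h5
  unfold SS
  congr 1
  refine tsum_congr fun v => ?_
  show ({v | ε ≤ |g v|} : Set (HeightOneSpectrum (𝓞 K))).indicator
        (fun _ => (1 : ℝ)) v * (Nv v : ℝ) ^ (-s) = _
  rw [Set.indicator_apply, Set.indicator_apply]
  split_ifs
  · rw [one_mul]
  · rw [zero_mul]

theorem PAIR3 (K : Type*) [Field K] [NumberField K] : StmPAIR3 K := by
  intro hz t u ht hu h1t h1u ⟨k22, h22⟩
  have bt : Bd t := ⟨2, ht⟩
  have bu : Bd u := ⟨2, hu⟩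
  have p2 : ∀ x : ℝ, sp 2 x = x ^ 2 - 1 := fun x => by
    simp only [sp]; ring
  have one : ∀ (w : HeightOneSpectrum (𝓞 K) → ℝ), (∀ v, |w v| ≤ 2) →
      (∀ n : ℕ, 1 ≤ n → HasD (fun v => sp (2 * n) (w v)) 0) → ∀ (p : ℝ → ℝ) (m : ℝ), Ev p m →
      HasD (fun v => p (w v)) m := by
    intro w hw h p m hp
    exact Ind.one (ι := Unit) (t := fun _ => w) hz (fun _ => hw) () h hp
  have t2 : HasD (fun v => t v ^ 2) 1 := one t ht h1t (fun x => x ^ 2) 1 (Ev.sq 1)
  have u2 : HasD (fun v => u v ^ 2) 1 := one u hu h1u (fun x => x ^ 2) 1 (Ev.sq 1)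
  have s2 : HasD (fun v => sp 2 (t v) ^ 2) 1 := one t ht h1t (fun x => sp 2 x ^ 2) 1 (Ev.sq 2)
  have r2 : HasD (fun v => sp 2 (u v) ^ 2) 1 := one u hu h1u (fun x => sp 2 x ^ 2) 1 (Ev.sq 2)
  have s3 : HasD (fun v => sp 2 (t v) ^ 2 * sp 2 (t v)) 1 :=
    one t ht h1t (fun x => sp 2 x ^ 2 * sp 2 x) 1 (Ev.sqtwo 2 (by norm_num))
  have r3 : HasD (fun v => sp 2 (u v) ^ 2 * sp 2 (u v)) 1 :=
    one u hu h1u (fun x => sp 2 x ^ 2 * sp 2 x) 1 (Ev.sqtwo 2 (by norm_num))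
  have b22 : Bd (fun v => t v ^ 2 * u v ^ 2) := (bt.pow 2).mul (bu.pow 2)
  have bs : Bd (fun v => sp 2 (t v)) := Bd.sp bt 2
  have br : Bd (fun v => sp 2 (u v)) := Bd.sp bu 2
  have e3 : HasD (fun v => sp 2 (t v) * sp 2 (u v)) ((k22 : ℝ) - 1) := by
    have a1 := HasD.sub hz b22 (bt.pow 2) h22 t2
    have a2 := HasD.sub hz (b22.sub (bt.pow 2)) (bu.pow 2) a1 u2
    have a3 := HasD.add hz ((b22.sub (bt.pow 2)).sub (bu.pow 2)) (Bd.const 1) a2 (HasD.const hz 1)
    have a4 : HasD (fun v => sp 2 (t v) * sp 2 (u v)) ((k22 : ℝ) - 1 - 1 + 1) :=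
      a3.congr fun v => by rw [p2, p2]; ring
    have : (k22 : ℝ) - 1 - 1 + 1 = (k22 : ℝ) - 1 := by ring
    rwa [this] at a4
  have f1 : HasD (fun v => (sp 2 (t v) - sp 2 (u v)) ^ 2) (1 + 1 - 2 * ((k22 : ℝ) - 1)) := by
    have a1 := HasD.add hz (bs.pow 2) (br.pow 2) s2 r2
    have a2 := HasD.sub hz ((bs.pow 2).add (br.pow 2)) ((bs.mul br).const_mul 2) a1
      (e3.const_mul 2)
    exact a2.congr fun v => by ring
  have f2 : HasD (fun v => (sp 2 (t v) + sp 2 (u v)) ^ 2) (1 + 1 + 2 * ((k22 : ℝ) - 1)) := by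
    have a1 := HasD.add hz (bs.pow 2) (br.pow 2) s2 r2
    have a2 := HasD.add hz ((bs.pow 2).add (br.pow 2)) ((bs.mul br).const_mul 2) a1
      (e3.const_mul 2)
    exact a2.congr fun v => by ring
  have e4 := HasD.nonneg (fun v => sq_nonneg _) f1
  have e5 := HasD.nonneg (fun v => sq_nonneg _) f2
  have e7 : k22 ≤ 2 := by
    have : (k22 : ℝ) ≤ 2 := by linarith
    exact_mod_cast this
  have e8 : 0 ≤ k22 := by
    have : (0 : ℝ) ≤ k22 := by linarith
    exact_mod_cast this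
  have e9 : k22 = 0 ∨ k22 = 1 ∨ k22 = 2 := by omega
  rcases e9 with rfl | rfl | rfl
  · -- `sp 2 t = - sp 2 u` in density: compare the cubes
    exfalso
    have g1 : HasD (fun v => (sp 2 (t v) + sp 2 (u v)) ^ 2) 0 := by
      have : (1 : ℝ) + 1 + 2 * (((0 : ℤ) : ℝ) - 1) = 0 := by norm_num
      rwa [this] at f2
    have g2 := HasD.mul_of_sq hz (bs.add br)
      (((bs.pow 2).sub (bs.mul br)).add (br.pow 2)) g1
    have g3 := HasD.add hz ((bs.pow 2).mul bs) ((br.pow 2).mul br) s3 r3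
    have g4 : HasD (fun v => (sp 2 (t v) + sp 2 (u v)) *
        (sp 2 (t v) ^ 2 - sp 2 (t v) * sp 2 (u v) + sp 2 (u v) ^ 2)) (1 + 1) :=
      g3.congr fun v => by ring
    have g5 := g2.unique g4
    norm_num at g5
  · left
    simpa using e3
  · right
    have g1 : HasD (fun v => (t v ^ 2 - u v ^ 2) ^ 2) 0 := by
      have : (1 : ℝ) + 1 - 2 * (((2 : ℤ) : ℝ) - 1) = 0 := by norm_num
      rw [this] at f1
      exact f1.congr fun v => by rw [p2, p2]; ring
    intro ε hε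
    exact densZero_of_sq hz ((bt.pow 2).sub (bu.pow 2)) g1 ε hε

end TatePole.Fs
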