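import Mathlib
import Pool.Agent.Lib.MP_058a58_ag.Fs.Dens
import Pool.Agent.Lib.MP_058a58_ag.Fs.Nar

/-!
# The density of the trace of Frobenius for independent Sato-Tate angles
-/

open NumberField Polynomial Filter Topology
open IsDedekindDomain (HeightOneSpectrum)

namespace TatePole.Fs

theorem rank_coeff {ι : Type*} [DecidableEq ι] (P : ι → ℝ[X]) (s : Finset ι) : ∀ k : ℕ,
    (∏ i ∈ s, P i).coeff k = ∑ κ ∈ Finset.piAntidiag s k, ∏ i ∈ s, (P i).coeff (κ i) := by
  induction s using Finset.cons_induction with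
  | empty =>
    intro k
    rw [Finset.prod_empty, Finset.piAntidiag_empty, coeff_one]
    by_cases hk : k = 0
    · subst hk
      simp
    · rw [if_neg hk, if_neg hk, Finset.sum_empty]
  | cons i s hi ih =>
    intro k
    rw [Finset.prod_cons, coeff_mul, Finset.piAntidiag_cons hi, Finset.sum_disjiUnion]
    refine Finset.sum_congr rfl fun p _ => ?_
    rw [Finset.sum_map, ih, Finset.mul_sum]
    refine Finset.sum_congr rfl fun κ hκ => ?_
    rw [Finset.prod_cons]
    have hκi : κ i = 0 := by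
      by_contra h
      exact hi ((Finset.mem_piAntidiag.1 hκ).2 i h)
    have e1 : (addRightEmbedding fun t => if t = i then p.1 else 0) κ i = p.1 := by
      simp [hκi]
    have e2 : ∀ j ∈ s, (addRightEmbedding fun t => if t = i then p.1 else 0) κ j = κ j := by
      intro j hj
      have hji : j ≠ i := fun h => hi (h ▸ hj)
      simp [hji]
    rw [e1]
    congr 1
    exact Finset.prod_congr rfl fun j hj => by rw [e2 j hj]

/-- the coefficient of `b 0` -/
def rankR (n k : ℕ) : ℤ :=
  if Even k then ((n.choose (k / 2) : ℤ) ^ 2 -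
      n.choose (k / 2 + 1) * n.choose (n + 1 - k / 2)) else 0

theorem rank_sum {ι : Type*} [Fintype ι] [DecidableEq ι] (n : ι → ℕ) (m : ℕ) :
    ∑ κ ∈ Finset.piAntidiag Finset.univ (2 * m), ∏ i, rankR (n i) (κ i) = rank n m := by
  unfold rank
  have h1 : ∑ κ ∈ Finset.piAntidiag Finset.univ (2 * m), ∏ i, rankR (n i) (κ i) =
      ∑ κ ∈ (Finset.piAntidiag (Finset.univ : Finset ι) (2 * m)).filter (fun f => ∀ i, 2 ∣ f i),
        ∏ i, rankR (n i) (κ i) := by
    rw [Finset.sum_filter_of_ne]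
    intro κ _ hne i
    by_contra hi
    refine hne (Finset.prod_eq_zero (Finset.mem_univ i) ?_)
    unfold rankR
    rw [if_neg]
    intro he
    exact hi he.two_dvd
  rw [h1, ← Finset.map_nsmul_piAntidiag_univ m two_ne_zero, Finset.sum_map]
  refine Finset.sum_congr rfl fun κ _ => Finset.prod_congr rfl fun i _ => ?_
  unfold rankR
  have e : (Function.Embedding.mk (fun f : ι → ℕ => 2 • f) (nsmul_right_injective two_ne_zero)) κ i
      = 2 * κ i := by
    simp
  have e2 : 2 * κ i / 2 = κ i := by omega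
  rw [e, if_pos (even_two_mul (κ i)), e2]

section
variable {K : Type*} [Field K] [NumberField K]

theorem rank_one_term (hz : StmZK K) {ι : Type} [Fintype ι] [DecidableEq ι]
    (t : ι → HeightOneSpectrum (𝓞 K) → ℝ) (ht : ∀ i v, |t i v| ≤ 2)
    (hd : ∀ a : ι → ℕ, a ≠ 0 → Even (∑ i, a i) → HasD (XX t a) 0)
    (n : ι → ℕ) (κ : ι → ℕ) (hκ : Even (∑ i, κ i)) :
    Bd (fun v => ∏ i, ((1 + C (t i v) * X + X ^ 2 : ℝ[X]) ^ n i).coeff (κ i)) ∧
    HasD (fun v => ∏ i, ((1 + C (t i v) * X + X ^ 2 : ℝ[X]) ^ n i).coeff (κ i))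
      ((∏ i, rankR (n i) (κ i) : ℤ) : ℝ) := by
  choose b hb1 hb2 hb3 using fun i => NAR (n i) (κ i)
  have hX : ∀ a : ι → ℕ, Bd (XX t a) := fun a =>
    Bd.prod Finset.univ fun i _ => Bd.sp ⟨2, ht i⟩ (a i)
  have hexp : (fun v => ∏ i, ((1 + C (t i v) * X + X ^ 2 : ℝ[X]) ^ n i).coeff (κ i)) =
      fun v => ∑ a ∈ Fintype.piFinset fun i => Finset.range (κ i + 1),
        (∏ i, (b i (a i) : ℝ)) * XX t a v := by
    funext v
    rw [Finset.prod_congr rfl fun i _ => hb1 i (t i v), Finset.prod_univ_sum]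
    refine Finset.sum_congr rfl fun a _ => ?_
    rw [XX, Finset.prod_mul_distrib]
  rw [hexp]
  refine ⟨Bd.sum _ fun a _ => (hX a).const_mul _, ?_⟩
  have hc : ((∏ i, rankR (n i) (κ i) : ℤ) : ℝ) =
      ∑ a ∈ Fintype.piFinset fun i => Finset.range (κ i + 1),
        if a = 0 then ∏ i, (b i 0 : ℝ) else 0 := by
    rw [Finset.sum_ite_eq', if_pos]
    · push_cast
      refine Finset.prod_congr rfl fun i _ => ?_
      rw [hb3 i]
      rfl
    · rw [Fintype.mem_piFinset]
      intro i
      simp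
  rw [hc]
  refine HasD.sum hz _ (fun a _ => (hX a).const_mul _) fun a _ => ?_
  by_cases ha : a = 0
  · rw [if_pos ha]
    subst ha
    have e : ∀ v, (∏ i, (b i 0 : ℝ)) = (∏ i, (b i ((0 : ι → ℕ) i) : ℝ)) * XX t 0 v := by
      intro v
      simp [XX, sp]
    exact (HasD.const hz _).congr e
  · rw [if_neg ha]
    by_cases hp : Even (∑ i, a i)
    · have h := (hd a ha hp).const_mul (∏ i, (b i (a i) : ℝ))
      rwa [mul_zero] at h
    · have h0 : ∏ i, (b i (a i) : ℝ) = 0 := by
        by_contra hne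
        apply hp
        have h1 : ∀ i, b i (a i) ≠ 0 := by
          intro i h
          exact hne (Finset.prod_eq_zero (Finset.mem_univ i) (by rw [h]; simp))
        have h2 : ((∑ i, a i : ℕ) : ZMod 2) = ((∑ i, κ i : ℕ) : ZMod 2) := by
          push_cast
          exact Finset.sum_congr rfl fun i _ => hb2 i (a i) (h1 i)
        rw [← ZMod.natCast_eq_zero_iff_even] at hκ ⊢
        rw [h2, hκ]
      have h := (HasD.const hz (0 : ℝ))
      refine h.congr fun v => ?_
      rw [h0, zero_mul]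

end

theorem RANK (K : Type*) [Field K] [NumberField K] : StmRANK K := by
  intro hz ι _ _ t ht hd n m
  have hG : Gf t n m = fun v => ∑ κ ∈ Finset.piAntidiag Finset.univ (2 * m),
      ∏ i, ((1 + C (t i v) * X + X ^ 2 : ℝ[X]) ^ n i).coeff (κ i) := by
    funext v
    rw [Gf, rank_coeff]
  have hk : ∀ κ ∈ Finset.piAntidiag (Finset.univ : Finset ι) (2 * m), Even (∑ i, κ i) := by
    intro κ hκ
    rw [(Finset.mem_piAntidiag.1 hκ).1]
    exact even_two_mul m
  rw [hG, ← rank_sum]
  push_cast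
  have h := HasD.sum hz (Finset.piAntidiag (Finset.univ : Finset ι) (2 * m))
    (fun κ hκ => (rank_one_term hz t ht hd n κ (hk κ hκ)).1)
    (fun κ hκ => (rank_one_term hz t ht hd n κ (hk κ hκ)).2)
  push_cast at h
  exact h

end TatePole.Fs
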