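import Mathlib
import Pool.Agent.Lib.MP_058a58_ag.Fs.Rank

/-!
# Values of the rank
-/

open NumberField Polynomial Filter Topology
open IsDedekindDomain (HeightOneSpectrum)

namespace TatePole.Fs

/-- one factor of the rank -/
def narR (n k : ℕ) : ℤ :=
  (n.choose k : ℤ) ^ 2 - n.choose (k + 1) * n.choose (n + 1 - k)

/-- the generating polynomial of `narR n` -/
noncomputable def narP (n : ℕ) : ℝ[X] := ∑ k ∈ Finset.range (n + 1), C ((narR n k : ℤ) : ℝ) * X ^ k

lemma narP_coeff (n k : ℕ) : (narP n).coeff k = ((narR n k : ℤ) : ℝ) := by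
  unfold narP
  rw [finsetSum_coeff]
  simp only [coeff_C_mul, coeff_X_pow]
  by_cases hk : k < n + 1
  · rw [Finset.sum_eq_single_of_mem k (Finset.mem_range.mpr hk) fun j _ hj => by
      rw [if_neg hj.symm, mul_zero]]
    rw [if_pos rfl, mul_one]
  · rw [Finset.sum_eq_zero fun j hj => by
      rw [if_neg (by have := Finset.mem_range.mp hj; omega), mul_zero]]
    unfold narR
    rw [Nat.choose_eq_zero_of_lt (show n < k by omega),
      Nat.choose_eq_zero_of_lt (show n < k + 1 by omega)]
    simp

lemma narP_zero : narP 0 = 1 := by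
  unfold narP
  rw [Finset.sum_range_succ, Finset.sum_range_zero, narR]
  simp

lemma rank_eq_coeff {ι : Type*} [Fintype ι] [DecidableEq ι] (n : ι → ℕ) (m : ℕ) :
    ((rank n m : ℤ) : ℝ) = (∏ i, narP (n i)).coeff m := by
  rw [rank_coeff, rank]
  push_cast
  refine Finset.sum_congr rfl fun κ _ => Finset.prod_congr rfl fun i _ => ?_
  rw [narP_coeff, narR]
  push_cast
  ring

lemma rank_single {ι : Type*} [Fintype ι] [DecidableEq ι] (i : ι) (a m : ℕ) :
    rank (Pi.single i a) m = narR a m := by
  have h : ((rank (Pi.single i a) m : ℤ) : ℝ) = ((narR a m : ℤ) : ℝ) := by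
    rw [rank_eq_coeff, Finset.prod_eq_single i (fun j _ hj => by
      rw [Pi.single_eq_of_ne hj, narP_zero]) (fun h => absurd (Finset.mem_univ i) h),
      Pi.single_eq_same, narP_coeff]
  exact_mod_cast h

lemma rank_pair {ι : Type*} [Fintype ι] [DecidableEq ι] (i j : ι) (hij : i ≠ j) (a b m : ℕ) :
    rank (Pi.single i a + Pi.single j b) m =
      ∑ p ∈ Finset.HasAntidiagonal.antidiagonal m, narR a p.1 * narR b p.2 := by
  have h : ((rank (Pi.single i a + Pi.single j b) m : ℤ) : ℝ) =
      ((∑ p ∈ Finset.HasAntidiagonal.antidiagonal m, narR a p.1 * narR b p.2 : ℤ) : ℝ) := by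
    rw [rank_eq_coeff, ← Finset.prod_subset (Finset.subset_univ {i, j}) (fun k _ hk => ?_),
      Finset.prod_pair hij]
    · simp only [Pi.add_apply, Pi.single_eq_same]
      rw [Pi.single_eq_of_ne hij, Pi.single_eq_of_ne hij.symm, add_zero, zero_add, coeff_mul]
      push_cast
      exact Finset.sum_congr rfl fun p _ => by rw [narP_coeff, narP_coeff]
    · simp only [Finset.mem_insert, Finset.mem_singleton, not_or] at hk
      rw [Pi.add_apply, Pi.single_eq_of_ne hk.1, Pi.single_eq_of_ne hk.2, add_zero, narP_zero]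
  exact_mod_cast h

lemma rank_four {ι : Type*} [Fintype ι] [DecidableEq ι] (i : ι) :
    rank (Pi.single i 4) 2 = 20 := by
  rw [rank_single]
  decide

lemma rank_twelve {ι : Type*} [Fintype ι] [DecidableEq ι] (i : ι) :
    rank (Pi.single i 12) 6 = 226512 := by
  rw [rank_single]
  norm_num [narR, Nat.choose]

lemma rank_two_two {ι : Type*} [Fintype ι] [DecidableEq ι] (i j : ι) (hij : i ≠ j) :
    rank (Pi.single i 2 + Pi.single j 2) 2 = 11 := by
  rw [rank_pair i j hij]
  decide

end TatePole.Fs
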