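import Mathlib
import Pool.Agent.Lib.MP_058a58_ag.Fs.One3
import Pool.Agent.Lib.MP_058a58_ag.Fs.ZK
import Pool.Agent.Lib.MP_058a58_ag.Fs.LogK
import Pool.Agent.Lib.MP_058a58_ag.Fs.CS
import Pool.Agent.Lib.MP_058a58_ag.Fs.GOUR
import Pool.Agent.Lib.MP_058a58_ag.Fs.PAIR
import Pool.Agent.Lib.MP_058a58_ag.Fs.Rank
import Pool.Agent.Lib.MP_058a58_ag.Fs.RankVal
import Pool.Agent.Lib.MP_058a58_ag.Fs.Tri
import Pool.Agent.Lib.MP_058a58_ag.Fs.E12S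
import Pool.Agent.Lib.MP_058a58_ag.Fs.Pair3

/-!
# Existence of the orders of poles forces their values
-/

open NumberField Polynomial Filter Topology
open IsDedekindDomain (HeightOneSpectrum)

namespace TatePole.Fs

/-- Version 3. -/
theorem rigidity (K : Type*) [Field K] [NumberField K] (r : ℕ)
    (S : Finset (HeightOneSpectrum (𝓞 K)))
    (α : Fin r → HeightOneSpectrum (𝓞 K) → ℂ) (hα : ∀ i, ∀ v ∉ S, ‖α i v‖ ^ 2 = Nv v)
    (P : (Fin r → ℕ) → ℕ → HeightOneSpectrum (𝓞 K) → ℂ[X])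
    (hP : ∀ n m, ∀ v ∉ S, P n m v = localPoly (fun i => α i v) n m)
    (hbad : ∀ n m, ∀ v ∈ S, (P n m v).eval ((Nv v : ℂ) ^ (-((m : ℂ) + 1))) ≠ 0)
    (hord : ∀ (n : Fin r → ℕ) (m : ℕ), ∑ i, n i = 2 * m → ∃ k : ℤ, HasOrd (P n m) m k) :
    (∀ n m, HasOrd (P n m) m (-rank n m)) ∨
    (∃ i, (∃ q : ℕ, 1 ≤ q ∧ ∀ ε : ℝ, 0 < ε →
        DensZero {v | ε ≤ |Real.sin (q * Complex.arg (α i v))|}) ∧
      (¬ HasOrd (P (Pi.single i 12) 6) 6 (-rank (Pi.single i 12) 6) ∨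
        ∃ (n : ℕ) (k : ℤ) (Q : HeightOneSpectrum (𝓞 K) → ℂ[X]), 0 < k ∧ (∀ v ∈ S, Q v = 1) ∧
          (∀ v ∉ S, Q v = symPoly (α i v) n) ∧ HasOrd Q n k)) ∨
    (∃ i, ∃ c : ℕ → ℤ, OtherLaw c ∧ ∀ N m, HasOrd (P (Pi.single i N) m) m (-lawRank c N m)) ∨
    (∃ i j, i ≠ j ∧ ∀ ε : ℝ, 0 < ε → DensZero {v | ε ≤
      |Real.cos (Complex.arg (α i v)) ^ 2 - Real.cos (Complex.arg (α j v)) ^ 2|}) := by
  classical
  rcases assembly3 (E12 K) (PAIR3 K) (zk K) (logK K) (TRI K) (GOUR K (cs K)) (RANK K) r S α hα P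
    hP hbad hord with h | ⟨i, h, h'⟩ | h | ⟨i, j, hij, h⟩
  · exact Or.inl h
  · right; left
    refine ⟨i, h, ?_⟩
    rcases h' with h' | ⟨n, k, hk, h'⟩
    · left
      rw [rank_twelve]
      exact h'
    · right
      exact ⟨n, k, _, hk, fun v hv => if_pos hv, fun v hv => if_neg hv, h'⟩
  · exact Or.inr (Or.inr (Or.inl h))
  · right; right; right
    refine ⟨i, j, hij, fun ε hε => ?_⟩
    have h1 := h (4 * ε) (by linarith)
    have h2 : {v | 4 * ε ≤ |(2 * Real.cos (Complex.arg (α i v))) ^ 2 -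
        (2 * Real.cos (Complex.arg (α j v))) ^ 2|} = {v | ε ≤
        |Real.cos (Complex.arg (α i v)) ^ 2 - Real.cos (Complex.arg (α j v)) ^ 2|} := by
      ext v
      simp only [Set.mem_ofPred_eq]
      rw [show (2 * Real.cos (Complex.arg (α i v))) ^ 2 - (2 * Real.cos (Complex.arg (α j v))) ^ 2 =
        4 * (Real.cos (Complex.arg (α i v)) ^ 2 - Real.cos (Complex.arg (α j v)) ^ 2) by ring,
        abs_mul, abs_of_pos (by norm_num : (0 : ℝ) < 4)]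
      constructor <;> intro h <;> linarith
    rw [h2] at h1
    exact h1

/-- Corollary (version 2): the formula for the fourfolds `E_i^4` and `E_i^2 × E_j^2` suffices. -/
theorem fourfolds (K : Type*) [Field K] [NumberField K] (r : ℕ)
    (S : Finset (HeightOneSpectrum (𝓞 K)))
    (α : Fin r → HeightOneSpectrum (𝓞 K) → ℂ) (hα : ∀ i, ∀ v ∉ S, ‖α i v‖ ^ 2 = Nv v)
    (P : (Fin r → ℕ) → ℕ → HeightOneSpectrum (𝓞 K) → ℂ[X])
    (hP : ∀ n m, ∀ v ∉ S, P n m v = localPoly (fun i => α i v) n m)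
    (hbad : ∀ n m, ∀ v ∈ S, (P n m v).eval ((Nv v : ℂ) ^ (-((m : ℂ) + 1))) ≠ 0)
    (hord : ∀ (n : Fin r → ℕ) (m : ℕ), ∑ i, n i = 2 * m → ∃ k : ℤ, HasOrd (P n m) m k)
    (h4 : ∀ i, HasOrd (P (Pi.single i 4) 2) 2 (-rank (Pi.single i 4) 2))
    (h22 : ∀ i j, i ≠ j → HasOrd (P (Pi.single i 2 + Pi.single j 2) 2) 2
      (-rank (Pi.single i 2 + Pi.single j 2) 2)) :
    (∀ n m, HasOrd (P n m) m (-rank n m)) ∨
    (∃ i, (∃ q : ℕ, 1 ≤ q ∧ ∀ ε : ℝ, 0 < ε →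
        DensZero {v | ε ≤ |Real.sin (q * Complex.arg (α i v))|}) ∧
      (¬ HasOrd (P (Pi.single i 12) 6) 6 (-rank (Pi.single i 12) 6) ∨
        ∃ (n : ℕ) (k : ℤ) (Q : HeightOneSpectrum (𝓞 K) → ℂ[X]), 0 < k ∧ (∀ v ∈ S, Q v = 1) ∧
          (∀ v ∉ S, Q v = symPoly (α i v) n) ∧ HasOrd Q n k)) := by
  classical
  rcases assembly2 ICO (E12 K) (zk K) (logK K) (TRI K) (PAIR K) (GOUR K (cs K)) (RANK K) r S α hα P
    hP hbad hord (fun i => by rw [← rank_four i]; exact h4 i)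
    (fun i j hij => by rw [← rank_two_two i j hij]; exact h22 i j hij) with h | ⟨i, h, h'⟩
  · exact Or.inl h
  · right
    refine ⟨i, h, ?_⟩
    rcases h' with h' | ⟨n, k, hk, h'⟩
    · left
      rw [rank_twelve]
      exact h'
    · right
      exact ⟨n, k, _, hk, fun v hv => if_pos hv, fun v hv => if_neg hv, h'⟩

end TatePole.Fs
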