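import Mathlib
import Pool.Agent.Lib.MP_058a58_ag.Fs.Main

/-!
# Final form: explicit orders in all alternatives
-/

open NumberField Polynomial Filter Topology
open IsDedekindDomain (HeightOneSpectrum)

namespace TatePole.Fs

lemma PD.shift_of_two {d : ℕ → ℤ} (hd : PD d) {q : ℕ} (hq : 1 ≤ q) (h : d q = 2) (n : ℕ) :
    d (n + q) = d n := by
  obtain ⟨k, rfl⟩ := Nat.exists_eq_add_of_le hq
  have h1 : form d (1 :: (List.replicate k 0 ++ [-1])) = 0 := by
    rw [form, lin_replicate, form_replicate]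
    simp only [lin, form]
    rw [h]
    norm_num
  have h2 := hd.null' h1 n
  rw [lin, lin_replicate] at h2
  simp only [lin] at h2
  rw [show n + 1 + k = n + (1 + k) by ring] at h2
  linarith

variable {K : Type*} [Field K] [NumberField K]

theorem ONE4 (hz : StmZK K) (θ : HeightOneSpectrum (𝓞 K) → ℝ)
    (hint : ∀ n : ℕ, ∃ k : ℤ, HasD (fun v => 2 * Real.cos (2 * n * θ v)) k) :
    (∀ n : ℕ, 1 ≤ n → HasD (fun v => sp (2 * n) (2 * Real.cos (θ v))) 0) ∨
    (∃ (q : ℕ) (c : ℕ → ℤ), 1 ≤ q ∧ c 0 = 2 ∧ (∀ j, c (j + q) = c j) ∧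
      (∀ n : ℕ, HasD (fun v => 2 * Real.cos (2 * n * θ v)) (c n)) ∧
      ∀ ε : ℝ, 0 < ε → DensZero {v | ε ≤ |Real.sin (q * θ v)|}) ∨
    ∃ c : ℕ → ℤ, OtherLaw c ∧ ∀ n : ℕ, HasD (fun v => 2 * Real.cos (2 * n * θ v)) (c n) := by
  choose d hd using hint
  have hpd := pd_of_hasD hz θ d hd
  rcases hpd.classify with ⟨q, hq, hdq⟩ | h | ⟨k, hk, ε, hε, h⟩ | ⟨p, hp, ε, hε, h⟩
  · right; left
    refine ⟨q, d, hq, hpd.zero, hpd.shift_of_two hq hdq, hd,
      fun ε hε => conc_of_two hz θ ?_ ε hε⟩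
    have h1 := hd q
    rw [hdq] at h1
    exact_mod_cast h1
  · right; right
    exact ⟨d, Or.inl h, hd⟩
  · by_cases hST : k = 1 ∧ ε = -1
    · left
      obtain ⟨rfl, rfl⟩ := hST
      intro n hn
      have h1 := hasD_sp_sum hz θ d hd n
      have h2 : (1 + ∑ j ∈ Finset.range n, d (j + 1) : ℤ) = 0 := by
        induction n, hn using Nat.le_induction with
        | base => simp [h 1 le_rfl]
        | succ n hn ih =>
          have h3 := ih (hasD_sp_sum hz θ d hd n)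
          rw [Finset.sum_range_succ, ← add_assoc, h3, h (n + 1) (by omega), if_neg (by omega),
            add_zero]
      rw [h2, Int.cast_zero] at h1
      exact h1
    · right; right
      exact ⟨d, Or.inr (Or.inl ⟨k, hk, ε, hε, hST, h⟩), hd⟩
  · right; right
    exact ⟨d, Or.inr (Or.inr ⟨p, hp, ε, hε, h⟩), hd⟩

theorem PAIR4 (hz : StmZK K) {t u : HeightOneSpectrum (𝓞 K) → ℝ} (ht : ∀ v, |t v| ≤ 2)
    (hu : ∀ v, |u v| ≤ 2)
    (h1t : ∀ n : ℕ, 1 ≤ n → HasD (fun v => sp (2 * n) (t v)) 0)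
    (h1u : ∀ n : ℕ, 1 ≤ n → HasD (fun v => sp (2 * n) (u v)) 0)
    (_hD : ∀ ε : ℝ, 0 < ε → DensZero {v | ε ≤ |t v ^ 2 - u v ^ 2|})
    (h22 : ∃ k : ℤ, HasD (fun v => t v ^ 2 * u v ^ 2) k)
    (h11 : ∃ k : ℤ, HasD (fun v => t v * u v) k)
    (hn0 : ¬ HasD (fun v => sp 2 (t v) * sp 2 (u v)) 0) :
    ∃ κ : ℤ, (κ = -1 ∨ κ = 0 ∨ κ = 1) ∧
      HasD (fun v => t v ^ 2 * u v ^ 2 + 2 * t v ^ 2 + 2 * u v ^ 2 + 8 * (t v * u v) + 6)
        ((12 + 8 * κ : ℤ) : ℝ) := by
  obtain ⟨k22, h22⟩ := h22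
  obtain ⟨κ, h11⟩ := h11
  have bt : Bd t := ⟨2, ht⟩
  have bu : Bd u := ⟨2, hu⟩
  have p2 : ∀ x : ℝ, sp 2 x = x ^ 2 - 1 := fun x => by
    simp only [sp]; ring
  have one : ∀ (w : HeightOneSpectrum (𝓞 K) → ℝ), (∀ v, |w v| ≤ 2) →
      (∀ n : ℕ, 1 ≤ n → HasD (fun v => sp (2 * n) (w v)) 0) → ∀ (p : ℝ → ℝ) (m : ℝ), Ev p m →
      HasD (fun v => p (w v)) m := by
    intro w hw h p m hp
    exact Ind.one (ι := Unit) (t := fun _ => w) hz (fun _ => hw) () h hp
  have t2 : HasD (fun v => t v ^ 2) 1 := one t ht h1t (fun x => x ^ 2) 1 (Ev.sq 1)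
  have u2 : HasD (fun v => u v ^ 2) 1 := one u hu h1u (fun x => x ^ 2) 1 (Ev.sq 1)
  have s2 : HasD (fun v => sp 2 (t v) ^ 2) 1 := one t ht h1t (fun x => sp 2 x ^ 2) 1 (Ev.sq 2)
  have r2 : HasD (fun v => sp 2 (u v) ^ 2) 1 := one u hu h1u (fun x => sp 2 x ^ 2) 1 (Ev.sq 2)
  have b22 : Bd (fun v => t v ^ 2 * u v ^ 2) := (bt.pow 2).mul (bu.pow 2)
  have b11 : Bd (fun v => t v * u v) := bt.mul bu
  have bs : Bd (fun v => sp 2 (t v)) := Bd.sp bt 2
  have br : Bd (fun v => sp 2 (u v)) := Bd.sp bu 2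
  have e3 : HasD (fun v => sp 2 (t v) * sp 2 (u v)) ((k22 : ℝ) - 1) := by
    have a1 := HasD.sub hz b22 (bt.pow 2) h22 t2
    have a2 := HasD.sub hz (b22.sub (bt.pow 2)) (bu.pow 2) a1 u2
    have a3 := HasD.add hz ((b22.sub (bt.pow 2)).sub (bu.pow 2)) (Bd.const 1) a2 (HasD.const hz 1)
    have a4 : HasD (fun v => sp 2 (t v) * sp 2 (u v)) ((k22 : ℝ) - 1 - 1 + 1) :=
      a3.congr fun v => by rw [p2, p2]; ring
    have : (k22 : ℝ) - 1 - 1 + 1 = (k22 : ℝ) - 1 := by ring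
    rwa [this] at a4
  have f1 : HasD (fun v => (sp 2 (t v) - sp 2 (u v)) ^ 2) (1 + 1 - 2 * ((k22 : ℝ) - 1)) := by
    have a1 := HasD.add hz (bs.pow 2) (br.pow 2) s2 r2
    have a2 := HasD.sub hz ((bs.pow 2).add (br.pow 2)) ((bs.mul br).const_mul 2) a1
      (e3.const_mul 2)
    exact a2.congr fun v => by ring
  have f2 : HasD (fun v => (sp 2 (t v) + sp 2 (u v)) ^ 2) (1 + 1 + 2 * ((k22 : ℝ) - 1)) := by
    have a1 := HasD.add hz (bs.pow 2) (br.pow 2) s2 r2
    have a2 := HasD.add hz ((bs.pow 2).add (br.pow 2)) ((bs.mul br).const_mul 2) a1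
      (e3.const_mul 2)
    exact a2.congr fun v => by ring
  have e4 := HasD.nonneg (fun v => sq_nonneg _) f1
  have e5 := HasD.nonneg (fun v => sq_nonneg _) f2
  have g1 : HasD (fun v => (t v + u v) ^ 2) (1 + 1 + 2 * (κ : ℝ)) := by
    have a1 := HasD.add hz (bt.pow 2) (bu.pow 2) t2 u2
    have a2 := HasD.add hz ((bt.pow 2).add (bu.pow 2)) (b11.const_mul 2) a1 (h11.const_mul 2)
    exact a2.congr fun v => by ring
  have g2 : HasD (fun v => (t v - u v) ^ 2) (1 + 1 - 2 * (κ : ℝ)) := by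
    have a1 := HasD.add hz (bt.pow 2) (bu.pow 2) t2 u2
    have a2 := HasD.sub hz ((bt.pow 2).add (bu.pow 2)) (b11.const_mul 2) a1 (h11.const_mul 2)
    exact a2.congr fun v => by ring
  have e6 := HasD.nonneg (fun v => sq_nonneg _) g1
  have e7 := HasD.nonneg (fun v => sq_nonneg _) g2
  have h1 : κ ≤ 1 := by
    have : (κ : ℝ) ≤ 1 := by linarith
    exact_mod_cast this
  have h2 : -1 ≤ κ := by
    have : (-1 : ℝ) ≤ κ := by linarith
    exact_mod_cast this
  have h3 : k22 ≤ 2 := by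
    have : (k22 : ℝ) ≤ 2 := by linarith
    exact_mod_cast this
  have h4 : 0 ≤ k22 := by
    have : (0 : ℝ) ≤ k22 := by linarith
    exact_mod_cast this
  -- the case `k22 = 0` is impossible, `k22 = 1` excluded by hypothesis
  have h5 : k22 = 2 := by
    have h6 : k22 = 0 ∨ k22 = 1 ∨ k22 = 2 := by omega
    rcases h6 with rfl | rfl | rfl
    · exfalso
      have s3 : HasD (fun v => sp 2 (t v) ^ 2 * sp 2 (t v)) 1 :=
        one t ht h1t (fun x => sp 2 x ^ 2 * sp 2 x) 1 (Ev.sqtwo 2 (by norm_num))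
      have r3 : HasD (fun v => sp 2 (u v) ^ 2 * sp 2 (u v)) 1 :=
        one u hu h1u (fun x => sp 2 x ^ 2 * sp 2 x) 1 (Ev.sqtwo 2 (by norm_num))
      have g1 : HasD (fun v => (sp 2 (t v) + sp 2 (u v)) ^ 2) 0 := by
        have : (1 : ℝ) + 1 + 2 * (((0 : ℤ) : ℝ) - 1) = 0 := by norm_num
        rwa [this] at f2
      have g2 := HasD.mul_of_sq hz (bs.add br)
        (((bs.pow 2).sub (bs.mul br)).add (br.pow 2)) g1
      have g3 := HasD.add hz ((bs.pow 2).mul bs) ((br.pow 2).mul br) s3 r3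
      have g4 : HasD (fun v => (sp 2 (t v) + sp 2 (u v)) *
          (sp 2 (t v) ^ 2 - sp 2 (t v) * sp 2 (u v) + sp 2 (u v) ^ 2)) (1 + 1) :=
        g3.congr fun v => by ring
      have g5 := g2.unique g4
      norm_num at g5
    · exfalso
      apply hn0
      simpa using e3
    · rfl
  refine ⟨κ, by omega, ?_⟩
  have a1 := HasD.add hz b22 ((bt.pow 2).const_mul 2) h22 (t2.const_mul 2)
  have a2 := HasD.add hz (b22.add ((bt.pow 2).const_mul 2)) ((bu.pow 2).const_mul 2) a1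
    (u2.const_mul 2)
  have a3 := HasD.add hz ((b22.add ((bt.pow 2).const_mul 2)).add ((bu.pow 2).const_mul 2))
    (b11.const_mul 8) a2 (h11.const_mul 8)
  have a4 := HasD.add hz (((b22.add ((bt.pow 2).const_mul 2)).add ((bu.pow 2).const_mul 2)).add
    (b11.const_mul 8)) (Bd.const 6) a3 (HasD.const hz 6)
  have e : (k22 : ℝ) + 2 * 1 + 2 * 1 + 8 * (κ : ℝ) + 6 = ((12 + 8 * κ : ℤ) : ℝ) := by
    rw [h5]
    push_cast
    ring
  rw [e] at a4
  exact a4

/-- Version 4. -/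
theorem rigidity4 (K : Type*) [Field K] [NumberField K] (r : ℕ)
    (S : Finset (HeightOneSpectrum (𝓞 K)))
    (α : Fin r → HeightOneSpectrum (𝓞 K) → ℂ) (hα : ∀ i, ∀ v ∉ S, ‖α i v‖ ^ 2 = Nv v)
    (P : (Fin r → ℕ) → ℕ → HeightOneSpectrum (𝓞 K) → ℂ[X])
    (hP : ∀ n m, ∀ v ∉ S, P n m v = localPoly (fun i => α i v) n m)
    (hbad : ∀ n m, ∀ v ∈ S, (P n m v).eval ((Nv v : ℂ) ^ (-((m : ℂ) + 1))) ≠ 0)
    (hord : ∀ (n : Fin r → ℕ) (m : ℕ), ∑ i, n i = 2 * m → ∃ k : ℤ, HasOrd (P n m) m k) :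
    (∀ n m, HasOrd (P n m) m (-rank n m)) ∨
    (∃ (i : Fin r) (q : ℕ) (c : ℕ → ℤ), 1 ≤ q ∧ c 0 = 2 ∧ (∀ j, c (j + q) = c j) ∧
      (∀ N m, HasOrd (P (Pi.single i N) m) m (-lawRank c N m)) ∧
      (∀ ε : ℝ, 0 < ε → DensZero {v | ε ≤ |Real.sin (q * Complex.arg (α i v))|}) ∧
      (¬ HasOrd (P (Pi.single i 12) 6) 6 (-rank (Pi.single i 12) 6) ∨
        ∃ (n : ℕ) (k : ℤ) (Q : HeightOneSpectrum (𝓞 K) → ℂ[X]), 0 < k ∧ (∀ v ∈ S, Q v = 1) ∧
          (∀ v ∉ S, Q v = symPoly (α i v) n) ∧ HasOrd Q n k)) ∨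
    (∃ (i : Fin r) (c : ℕ → ℤ), OtherLaw c ∧
      ∀ N m, HasOrd (P (Pi.single i N) m) m (-lawRank c N m)) ∨
    (∃ i j : Fin r, i ≠ j ∧
      (∃ κ : ℤ, (κ = -1 ∨ κ = 0 ∨ κ = 1) ∧
        HasOrd (P (Pi.single i 2 + Pi.single j 2) 2) 2 (-(12 + 8 * κ))) ∧
      ∀ ε : ℝ, 0 < ε → DensZero {v | ε ≤
        |Real.cos (Complex.arg (α i v)) ^ 2 - Real.cos (Complex.arg (α j v)) ^ 2|}) := by
  classical
  have hz := zk K
  have hL := logK K
  have key := fun n m k => ORD hL hz S α hα (P n m) n m (hP n m) (hbad n m) k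
  have ht : ∀ (i : Fin r) (v : HeightOneSpectrum (𝓞 K)),
      |2 * Real.cos (Complex.arg (α i v))| ≤ 2 := fun i v => by
    have := Real.abs_cos_le_one (Complex.arg (α i v))
    rw [abs_mul, abs_two]
    linarith
  have hStr := TRI K hz (Fin r) inferInstance inferInstance
    (fun i v => 2 * Real.cos (Complex.arg (α i v))) ht fun n m hnm => by
      obtain ⟨k, hk⟩ := hord n m hnm
      refine ⟨-k, ?_⟩
      rw [Int.cast_neg]
      exact (key n m k).mp hk
  have hHas : ∀ g, Par (fun i v => 2 * Real.cos (Complex.arg (α i v))) 0 g →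
      ∃ k : ℤ, HasD g k := fun g hg => by
    obtain ⟨k, hk⟩ := hStr g hg
    exact ⟨k, hk.hasD⟩
  have hev := EVAL (HeightOneSpectrum (𝓞 K)) (Fin r) inferInstance inferInstance
    (fun i v => 2 * Real.cos (Complex.arg (α i v)))
  -- an order from a density
  have hval : ∀ (n : Fin r → ℕ) (m : ℕ) (l : ℤ),
      HasD (Gf (fun i v => 2 * Real.cos (Complex.arg (α i v))) n m) l →
      HasOrd (P n m) m (-l) := by
    intro n m l hl
    rw [key, Int.cast_neg, neg_neg]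
    obtain ⟨k, hk⟩ := hStr _ (GPAR _ (Fin r) inferInstance
      (fun i v => 2 * Real.cos (Complex.arg (α i v))) n m)
    rw [hk.hasD.unique hl] at hk
    exact hk
  have hlaw : ∀ (i : Fin r) (c : ℕ → ℤ),
      (∀ n : ℕ, HasD (fun v => 2 * Real.cos (2 * n * Complex.arg (α i v))) (c n)) →
      ∀ N m, HasOrd (P (Pi.single i N) m) m (-lawRank c N m) := by
    intro i c hc N m
    have h1 := VAL3 hz hc N m
    rw [key, Int.cast_neg, neg_neg]
    obtain ⟨k, hk⟩ := hStr _ (GPAR _ (Fin r) inferInstance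
      (fun i v => 2 * Real.cos (Complex.arg (α i v))) (Pi.single i N) m)
    have h2 := (hk.hasD).congr fun v => Gf_single _ i N m v
    have h3 := h2.unique h1
    rw [h3] at hk
    exact hk
  rw [or_iff_not_imp_right]
  intro hcon
  rw [not_or, not_or] at hcon
  obtain ⟨hB, hC, hDD⟩ := hcon
  -- Sato-Tate for each curve
  have hone : ∀ i (n : ℕ), 1 ≤ n →
      HasD (fun v => sp (2 * n) (2 * Real.cos (Complex.arg (α i v)))) 0 := by
    intro i
    rcases ONE4 hz (fun v => Complex.arg (α i v)) (fun n => hHas _ (Par.cos i n)) with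
      h | ⟨q, c, hq, hc0, hcq, hcd, hconc⟩ | ⟨c, hc, hcd⟩
    · exact h
    · by_cases hE : HasOrd (P (Pi.single i 12) 6) 6 (-rank (Pi.single i 12) 6)
      · by_cases hV : ∃ (n : ℕ) (k : ℤ) (Q : HeightOneSpectrum (𝓞 K) → ℂ[X]), 0 < k ∧
            (∀ v ∈ S, Q v = 1) ∧ (∀ v ∉ S, Q v = symPoly (α i v) n) ∧ HasOrd Q n k
        · exact absurd ⟨i, q, c, hq, hc0, hcq, hlaw i c hcd, hconc, Or.inr hV⟩ hB
        · refine ONE2 ICO (E12 K) hz (fun v => Complex.arg (α i v))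
            (fun n => hHas _ (Par.cos i n)) ?_ ?_
          · rw [rank_twelve] at hE
            have h5 := (((key (Pi.single i 12) 6 (-226512)).mp hE).hasD).congr
              fun v => Gf_single _ i 12 6 v
            have h6 : (-(((-226512 : ℤ)) : ℝ)) = 226512 := by norm_num
            rw [h6] at h5
            exact h5
          · intro n k hk
            have h5 := Par.spA (t := fun i v => 2 * Real.cos (Complex.arg (α i v))) i (2 * n)
            rw [natCast_even_zmod2] at h5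
            obtain ⟨k', hk'⟩ := hStr _ h5
            have h6 : (k : ℝ) = k' := hk.unique hk'.hasD
            have h7 : k = k' := by exact_mod_cast h6
            subst h7
            by_contra hneg
            refine hV ⟨n, -k, fun v => if v ∈ S then 1 else symPoly (α i v) n, by omega,
              fun v hv => if_pos hv, fun v hv => if_neg hv, ?_⟩
            refine (ORDS hL hz S (α i) (hα i) _ n (fun v hv => if_neg hv) (fun v hv => ?_)
              (-k)).mpr ?_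
            · rw [if_pos hv, eval_one]
              exact one_ne_zero
            · rw [Int.cast_neg, neg_neg]
              exact hk'
      · exact absurd ⟨i, q, c, hq, hc0, hcq, hlaw i c hcd, hconc, Or.inl hE⟩ hB
    · exact absurd ⟨i, c, hc, hlaw i c hcd⟩ hC
  -- pairs
  have hpair : ∀ i j, i ≠ j → HasD (fun v => sp 2 (2 * Real.cos (Complex.arg (α i v))) *
      sp 2 (2 * Real.cos (Complex.arg (α j v)))) 0 := by
    intro i j hij
    have h1 := Par.mul (Par.var (t := fun i v => 2 * Real.cos (Complex.arg (α i v))) i)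
        (Par.var j)
    have h2 : Par (fun i v => 2 * Real.cos (Complex.arg (α i v))) 0
        (fun v => (2 * Real.cos (Complex.arg (α i v))) ^ 2 *
          (2 * Real.cos (Complex.arg (α j v))) ^ 2) :=
      (Par.mul h1 h1).ofEq fun v => by ring
    by_contra hn0
    rcases PAIR3 K hz _ _ (ht i) (ht j) (hone i) (hone j) (hHas _ h2) with h | h
    · exact hn0 h
    · obtain ⟨κ, hκ, hk⟩ := PAIR4 hz (ht i) (ht j) (hone i) (hone j) h (hHas _ h2)
        (hHas _ h1) hn0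
      refine hDD ⟨i, j, hij, ⟨κ, hκ, ?_⟩, fun ε hε => ?_⟩
      · refine hval _ _ _ ?_
        exact hk.congr fun v => (hev.2 i j hij v).symm
      · have h3 := h (4 * ε) (by linarith)
        have h4 : {v | 4 * ε ≤ |(2 * Real.cos (Complex.arg (α i v))) ^ 2 -
            (2 * Real.cos (Complex.arg (α j v))) ^ 2|} = {v | ε ≤
            |Real.cos (Complex.arg (α i v)) ^ 2 - Real.cos (Complex.arg (α j v)) ^ 2|} := by
          ext v
          simp only [Set.mem_ofPred_eq]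
          rw [show (2 * Real.cos (Complex.arg (α i v))) ^ 2 -
            (2 * Real.cos (Complex.arg (α j v))) ^ 2 =
            4 * (Real.cos (Complex.arg (α i v)) ^ 2 - Real.cos (Complex.arg (α j v)) ^ 2) by ring,
            abs_mul, abs_of_pos (by norm_num : (0 : ℝ) < 4)]
          constructor <;> intro h <;> linarith
        rw [h4] at h3
        exact h3
  have hall := GOUR K (cs K) hz (Fin r) inferInstance inferInstance
    (fun i v => 2 * Real.cos (Complex.arg (α i v))) ht hHas hone hpair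
  have hrank := RANK K hz (Fin r) inferInstance inferInstance
    (fun i v => 2 * Real.cos (Complex.arg (α i v))) ht hall
  exact fun n m => hval n m _ (hrank n m)

end TatePole.Fs
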