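import Mathlib
import Pool.Agent.Lib.MP_058a58_ag.Fs.Loc1
import Pool.Agent.Lib.MP_058a58_ag.Fs.Rank

/-!
# Triangularity and the rank formula, local versions
-/

open NumberField Polynomial Filter Topology
open IsDedekindDomain (HeightOneSpectrum)

namespace TatePole.Fs

variable {K : Type*} [Field K] [NumberField K]
variable {ι : Type} [Fintype ι] [DecidableEq ι] {t : ι → HeightOneSpectrum (𝓞 K) → ℝ}

/-- all monomials of even degree bounded by `N` -/
lemma MM_ISL (hz : StmZK K) (ht : ∀ i v, |t i v| ≤ 2) (N : ι → ℕ)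
    (hG : ∀ (n : ι → ℕ) (m : ℕ), (∀ i, n i ≤ N i) → ∑ i, n i = 2 * m → ∃ k : ℤ, Str (Gf t n m) k) :
    ∀ (m : ℕ) (n : ι → ℕ), (∀ i, n i ≤ N i) → ∑ i, n i = 2 * m → IS (MM t n) := by
  intro m
  induction m using Nat.strong_induction_on with
  | _ m ih =>
    intro n hnN hn
    set S := Fintype.piFinset fun i => Finset.range (n i + 1) with hS
    have hnS : n ∈ S := by
      rw [hS, Fintype.mem_piFinset]
      intro i
      rw [Finset.mem_range]
      omega
    let c : (ι → ℕ) → ℤ := fun a =>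
      (∏ i, ((n i).choose (a i) : ℤ)) * qq (∑ i, a i) (∑ i, (n i - a i)) (2 * m)
    have hc1 : c n = 1 := by
      show (∏ i, ((n i).choose (n i) : ℤ)) * qq (∑ i, n i) (∑ i, (n i - n i)) (2 * m) = 1
      have h1 : ∑ i, (n i - n i) = 0 := Finset.sum_eq_zero fun i _ => Nat.sub_self _
      have h2 : (∏ i, ((n i).choose (n i) : ℤ)) = 1 :=
        Finset.prod_eq_one fun i _ => by rw [Nat.choose_self, Nat.cast_one]
      rw [h1, h2, hn, qq_self, one_mul]
    have hrest : IS (fun v => ∑ a ∈ S.erase n, (c a : ℝ) * MM t a v) := by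
      refine IS.sum hz _ fun a ha => ?_
      obtain ⟨hne, haS⟩ := Finset.mem_erase.1 ha
      rw [hS, Fintype.mem_piFinset] at haS
      have hle : ∀ i, a i ≤ n i := fun i => Nat.lt_succ_iff.1 (Finset.mem_range.1 (haS i))
      have hlt : ∑ i, a i < ∑ i, n i := by
        obtain ⟨i, hi⟩ := Function.ne_iff.1 hne
        exact Finset.sum_lt_sum (fun j _ => hle j) ⟨i, Finset.mem_univ i, lt_of_le_of_ne (hle i) hi⟩
      rcases Nat.even_or_odd (∑ i, a i) with he | ho
      · obtain ⟨r, hr⟩ := he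
        exact (ih r (by omega) a (fun i => (hle i).trans (hnN i)) (by omega)).int_mul _
      · have h0 : c a = 0 := by
          show (∏ i, ((n i).choose (a i) : ℤ)) * qq (∑ i, a i) (∑ i, (n i - a i)) (2 * m) = 0
          rw [qq_odd ho ⟨m, two_mul m⟩, mul_zero]
        rw [h0]
        simp only [Int.cast_zero, zero_mul]
        exact IS.zero hz
    have hG' : IS (Gf t n m) := by
      refine ⟨?_, hG n m hnN hn⟩
      have h1 : Gf t n m = fun v => ∑ a ∈ S, (c a : ℝ) * MM t a v := funext fun v => Gf_expand t n m v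
      rw [h1]
      exact Bd.sum S fun a _ => (MM_bd ht a).const_mul _
    have h2 := IS.add hz hG' (hrest.int_mul (-1))
    have h3 : (fun v => Gf t n m v + ((-1 : ℤ) : ℝ) * ∑ a ∈ S.erase n, (c a : ℝ) * MM t a v) =
        MM t n := by
      funext v
      rw [Gf_expand t n m v, ← Finset.add_sum_erase S _ hnS]
      show (c n : ℝ) * MM t n v + (∑ a ∈ S.erase n, (c a : ℝ) * MM t a v) +
        ((-1 : ℤ) : ℝ) * ∑ a ∈ S.erase n, (c a : ℝ) * MM t a v = MM t n v
      rw [hc1]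
      push_cast
      ring
    rwa [h3] at h2

/-- all `Gf t n m` with `n ≤ N` -/
lemma Gf_ISL (hz : StmZK K) (N : ι → ℕ)
    (hM : ∀ (m : ℕ) (n : ι → ℕ), (∀ i, n i ≤ N i) → ∑ i, n i = 2 * m → IS (MM t n))
    (n : ι → ℕ) (m : ℕ) (hn : ∀ i, n i ≤ N i) : IS (Gf t n m) := by
  have h1 : Gf t n m = fun v => ∑ a ∈ Fintype.piFinset fun i => Finset.range (n i + 1),
      (((∏ i, ((n i).choose (a i) : ℤ)) * qq (∑ i, a i) (∑ i, (n i - a i)) (2 * m) : ℤ) : ℝ) *
        MM t a v := funext fun v => Gf_expand t n m v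
  rw [h1]
  refine IS.sum hz _ fun a ha => ?_
  rw [Fintype.mem_piFinset] at ha
  have hle : ∀ i, a i ≤ n i := fun i => Nat.lt_succ_iff.1 (Finset.mem_range.1 (ha i))
  rcases Nat.even_or_odd (∑ i, a i) with he | ho
  · obtain ⟨r, hr⟩ := he
    exact (hM r a (fun i => (hle i).trans (hn i)) (by omega)).int_mul _
  · rw [qq_odd ho ⟨m, two_mul m⟩, mul_zero, Int.cast_zero]
    simp only [zero_mul]
    exact IS.zero hz

/-- all characters with `a ≤ N` of even degree -/
lemma XX_ISL (hz : StmZK K) (N : ι → ℕ)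
    (hM : ∀ (m : ℕ) (n : ι → ℕ), (∀ i, n i ≤ N i) → ∑ i, n i = 2 * m → IS (MM t n))
    (a : ι → ℕ) (ha : ∀ i, a i ≤ N i) (hev : Even (∑ i, a i)) : IS (XX t a) := by
  have h1 : XX t a = fun v => ∑ b ∈ Fintype.piFinset fun i => Finset.range (a i + 1),
      ((∏ i, (spP (a i)).coeff (b i) : ℤ) : ℝ) * MM t b v := by
    funext v
    unfold XX MM
    rw [Finset.prod_congr rfl fun i _ => sp_sum (a i) (t i v), Finset.prod_univ_sum]
    refine Finset.sum_congr rfl fun b _ => ?_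
    rw [Finset.prod_mul_distrib]
    push_cast
    rfl
  rw [h1]
  refine IS.sum hz _ fun b hb => ?_
  rw [Fintype.mem_piFinset] at hb
  have hle : ∀ i, b i ≤ a i := fun i => Nat.lt_succ_iff.1 (Finset.mem_range.1 (hb i))
  by_cases h0 : ∏ i, (spP (a i)).coeff (b i) = 0
  · rw [h0, Int.cast_zero]
    simp only [zero_mul]
    exact IS.zero hz
  · have h2 : ∀ i, ((b i : ℕ) : ZMod 2) = a i := fun i =>
      spP_parity (a i) (b i) (fun h => h0 (Finset.prod_eq_zero (Finset.mem_univ i) h))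
    have h3 : Even (∑ i, b i) := by
      rw [← ZMod.natCast_eq_zero_iff_even] at hev ⊢
      rw [← hev]
      push_cast
      exact Finset.sum_congr rfl fun i _ => h2 i
    obtain ⟨r, hr⟩ := h3
    exact (hM r b (fun i => (hle i).trans (ha i)) (by omega)).int_mul _

/-- the expansion of `(1 + x T + T²)^n`, with the bound of the degree -/
lemma NARL (n k : ℕ) : ∃ b : ℕ → ℤ,
    (∀ x : ℝ, ((1 + C x * X + X ^ 2 : ℝ[X]) ^ n).coeff k =
      ∑ a ∈ Finset.range (k + 1), (b a : ℝ) * sp a x) ∧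
    (∀ a, b a ≠ 0 → (a : ZMod 2) = k) ∧ b 0 = rankR n k ∧
    (∀ a, n < a → a ≤ k → b a = 0) := by
  obtain ⟨b, h1, h2, h3⟩ := NAR n k
  refine ⟨b, h1, h2, h3, fun a ha hak => ?_⟩
  have h4 : ∀ x : ℝ, ∑ a ∈ Finset.range (n + 1),
      ((n.choose a : ℝ) * (X ^ a * (1 + X ^ 2) ^ (n - a) : ℝ[X]).coeff k) * x ^ a =
      ∑ a ∈ Finset.range (k + 1), (b a : ℝ) * sp a x := by
    intro x
    rw [← h1 x, expand_one, finsetSum_coeff]
    refine Finset.sum_congr rfl fun a _ => ?_
    rw [coeff_C_mul]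
    ring
  have h5 := trim n k (fun a => (b a : ℝ)) _ h4 a ha hak
  exact_mod_cast h5

/-- one term of the rank formula -/
theorem rank_one_termL (hz : StmZK K) (ht : ∀ i v, |t i v| ≤ 2) (n : ι → ℕ)
    (hd : ∀ a : ι → ℕ, (∀ i, a i ≤ n i) → a ≠ 0 → Even (∑ i, a i) → HasD (XX t a) 0)
    (κ : ι → ℕ) (hκ : Even (∑ i, κ i)) :
    Bd (fun v => ∏ i, ((1 + C (t i v) * X + X ^ 2 : ℝ[X]) ^ n i).coeff (κ i)) ∧
    HasD (fun v => ∏ i, ((1 + C (t i v) * X + X ^ 2 : ℝ[X]) ^ n i).coeff (κ i))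
      ((∏ i, rankR (n i) (κ i) : ℤ) : ℝ) := by
  choose b hb1 hb2 hb3 hb4 using fun i => NARL (n i) (κ i)
  have hX : ∀ a : ι → ℕ, Bd (XX t a) := fun a =>
    Bd.prod Finset.univ fun i _ => Bd.sp ⟨2, ht i⟩ (a i)
  have hexp : (fun v => ∏ i, ((1 + C (t i v) * X + X ^ 2 : ℝ[X]) ^ n i).coeff (κ i)) =
      fun v => ∑ a ∈ Fintype.piFinset fun i => Finset.range (κ i + 1),
        (∏ i, (b i (a i) : ℝ)) * XX t a v := by
    funext v
    rw [Finset.prod_congr rfl fun i _ => hb1 i (t i v), Finset.prod_univ_sum]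
    refine Finset.sum_congr rfl fun a _ => ?_
    rw [XX, Finset.prod_mul_distrib]
  rw [hexp]
  refine ⟨Bd.sum _ fun a _ => (hX a).const_mul _, ?_⟩
  have hc : ((∏ i, rankR (n i) (κ i) : ℤ) : ℝ) =
      ∑ a ∈ Fintype.piFinset fun i => Finset.range (κ i + 1),
        if a = 0 then ∏ i, (b i 0 : ℝ) else 0 := by
    rw [Finset.sum_ite_eq', if_pos]
    · push_cast
      refine Finset.prod_congr rfl fun i _ => ?_
      rw [hb3 i]
    · rw [Fintype.mem_piFinset]
      intro i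
      simp
  rw [hc]
  refine HasD.sum hz _ (fun a _ => (hX a).const_mul _) fun a ha' => ?_
  rw [Fintype.mem_piFinset] at ha'
  have hzero : (∏ i, (b i (a i) : ℝ)) = 0 →
      HasD (fun v => (∏ i, (b i (a i) : ℝ)) * XX t a v) 0 := by
    intro h0
    refine (HasD.const hz (0 : ℝ)).congr fun v => ?_
    rw [h0, zero_mul]
  by_cases ha : a = 0
  · rw [if_pos ha]
    subst ha
    have e : ∀ v, (∏ i, (b i 0 : ℝ)) = (∏ i, (b i ((0 : ι → ℕ) i) : ℝ)) * XX t 0 v := by
      intro v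
      simp [XX, sp]
    exact (HasD.const hz _).congr e
  · rw [if_neg ha]
    by_cases hle : ∀ i, a i ≤ n i
    · by_cases hp : Even (∑ i, a i)
      · have h := (hd a hle ha hp).const_mul (∏ i, (b i (a i) : ℝ))
        rwa [mul_zero] at h
      · refine hzero ?_
        by_contra hne
        apply hp
        have h1 : ∀ i, b i (a i) ≠ 0 := by
          intro i h
          exact hne (Finset.prod_eq_zero (Finset.mem_univ i) (by rw [h]; simp))
        have h2 : ((∑ i, a i : ℕ) : ZMod 2) = ((∑ i, κ i : ℕ) : ZMod 2) := by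
          push_cast
          exact Finset.sum_congr rfl fun i _ => hb2 i (a i) (h1 i)
        rw [← ZMod.natCast_eq_zero_iff_even] at hκ ⊢
        rw [h2, hκ]
    · push Not at hle
      obtain ⟨i, hi⟩ := hle
      refine hzero (Finset.prod_eq_zero (Finset.mem_univ i) ?_)
      have h1 := ha' i
      rw [Finset.mem_range] at h1
      rw [hb4 i (a i) hi (by omega)]
      simp

/-- [RANK], local version -/
theorem RANKL (hz : StmZK K) (ht : ∀ i v, |t i v| ≤ 2) (n : ι → ℕ)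
    (hd : ∀ a : ι → ℕ, (∀ i, a i ≤ n i) → a ≠ 0 → Even (∑ i, a i) → HasD (XX t a) 0) (m : ℕ) :
    HasD (Gf t n m) (rank n m) := by
  have hG : Gf t n m = fun v => ∑ κ ∈ Finset.piAntidiag Finset.univ (2 * m),
      ∏ i, ((1 + C (t i v) * X + X ^ 2 : ℝ[X]) ^ n i).coeff (κ i) := by
    funext v
    rw [Gf, rank_coeff]
  have hk : ∀ κ ∈ Finset.piAntidiag (Finset.univ : Finset ι) (2 * m), Even (∑ i, κ i) := by
    intro κ hκ
    rw [(Finset.mem_piAntidiag.1 hκ).1]
    exact even_two_mul m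
  rw [hG, ← rank_sum]
  push_cast
  have h := HasD.sum hz (Finset.piAntidiag (Finset.univ : Finset ι) (2 * m))
    (fun κ hκ => (rank_one_termL hz ht n hd κ (hk κ hκ)).1)
    (fun κ hκ => (rank_one_termL hz ht n hd κ (hk κ hκ)).2)
  push_cast at h
  exact h

end TatePole.Fs
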