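import Mathlib
import Pool.Agent.Lib.MP_058a58_ag.Fs.One4
import Pool.Agent.Lib.MP_058a58_ag.Fs.Loc3
import Pool.Agent.Lib.MP_058a58_ag.Fs.Loc4

/-!
# Final form: each product separately
-/

open NumberField Polynomial Filter Topology
open IsDedekindDomain (HeightOneSpectrum)

namespace TatePole.Fs

lemma Gf_two {ι V : Type*} [Fintype ι] [DecidableEq ι] (t : ι → V → ℝ) (e : Fin 2 → ι)
    (n : Fin 2 → ℕ) (m : ℕ) (v : V) :
    Gf (fun l v => t (e l) v) n m v =
      Gf t (Pi.single (e 0) (n 0) + Pi.single (e 1) (n 1)) m v := by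
  unfold Gf
  have h1 : ∀ (i : ι) (k : ℕ), (∏ j, (1 + C (t j v) * X + X ^ 2 : ℝ[X]) ^ (Pi.single i k : ι → ℕ) j) =
      (1 + C (t i v) * X + X ^ 2 : ℝ[X]) ^ k := by
    intro i k
    rw [Finset.prod_eq_single i (fun j _ hj => by rw [Pi.single_eq_of_ne hj, pow_zero])
      (fun h => absurd (Finset.mem_univ i) h), Pi.single_eq_same]
  rw [Fin.prod_univ_two]
  congr 1
  rw [← h1 (e 0) (n 0), ← h1 (e 1) (n 1), ← Finset.prod_mul_distrib]
  refine Finset.prod_congr rfl fun j _ => ?_
  rw [Pi.add_apply, pow_add]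

/-- Version 5. -/
theorem rigidity5 (K : Type*) [Field K] [NumberField K] (r : ℕ)
    (S : Finset (HeightOneSpectrum (𝓞 K)))
    (α : Fin r → HeightOneSpectrum (𝓞 K) → ℂ) (hα : ∀ i, ∀ v ∉ S, ‖α i v‖ ^ 2 = Nv v)
    (P : (Fin r → ℕ) → ℕ → HeightOneSpectrum (𝓞 K) → ℂ[X])
    (hP : ∀ n m, ∀ v ∉ S, P n m v = localPoly (fun i => α i v) n m)
    (hbad : ∀ n m, ∀ v ∈ S, (P n m v).eval ((Nv v : ℂ) ^ (-((m : ℂ) + 1))) ≠ 0) :
    (∃ (i j : Fin r) (a b m : ℕ), a + b = 2 * m ∧
      ∀ k : ℤ, ¬ HasOrd (P (Pi.single i a + Pi.single j b) m) m k) ∨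
    (∀ n : Fin r → ℕ, (∀ m, HasOrd (P n m) m (-rank n m)) ∨
      ∃ (n' : Fin r → ℕ) (m : ℕ),
        (∀ i, n' i ≤ 4 ^ ((Finset.univ.filter fun j => n j ≠ 0).card - 4) * n i) ∧
        ∑ i, n' i = 2 * m ∧ ∀ k : ℤ, ¬ HasOrd (P n' m) m k) ∨
    (∃ (i : Fin r) (q : ℕ) (c : ℕ → ℤ), 1 ≤ q ∧ c 0 = 2 ∧ (∀ j, c (j + q) = c j) ∧
      (∀ N m, HasOrd (P (Pi.single i N) m) m (-lawRank c N m)) ∧
      (∀ ε : ℝ, 0 < ε → DensZero {v | ε ≤ |Real.sin (q * Complex.arg (α i v))|}) ∧
      (¬ HasOrd (P (Pi.single i 12) 6) 6 (-rank (Pi.single i 12) 6) ∨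
        ∃ (n : ℕ) (k : ℤ) (Q : HeightOneSpectrum (𝓞 K) → ℂ[X]), 0 < k ∧ (∀ v ∈ S, Q v = 1) ∧
          (∀ v ∉ S, Q v = symPoly (α i v) n) ∧ HasOrd Q n k)) ∨
    (∃ (i : Fin r) (c : ℕ → ℤ), OtherLaw c ∧
      ∀ N m, HasOrd (P (Pi.single i N) m) m (-lawRank c N m)) ∨
    (∃ i j : Fin r, i ≠ j ∧
      (∃ κ : ℤ, (κ = -1 ∨ κ = 0 ∨ κ = 1) ∧
        HasOrd (P (Pi.single i 2 + Pi.single j 2) 2) 2 (-(12 + 8 * κ))) ∧
      ∀ ε : ℝ, 0 < ε → DensZero {v | ε ≤
        |Real.cos (Complex.arg (α i v)) ^ 2 - Real.cos (Complex.arg (α j v)) ^ 2|}) := by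
  classical
  by_cases h0 : ∃ (i j : Fin r) (a b m : ℕ), a + b = 2 * m ∧
      ∀ k : ℤ, ¬ HasOrd (P (Pi.single i a + Pi.single j b) m) m k
  · exact Or.inl h0
  right
  push Not at h0
  have hz := zk K
  have hL := logK K
  have key := fun n m k => ORD hL hz S α hα (P n m) n m (hP n m) (hbad n m) k
  have ht : ∀ (i : Fin r) (v : HeightOneSpectrum (𝓞 K)),
      |2 * Real.cos (Complex.arg (α i v))| ≤ 2 := fun i v => by
    have := Real.abs_cos_le_one (Complex.arg (α i v))
    rw [abs_mul, abs_two]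
    linarith
  -- two curves
  have hStr2 : ∀ (e : Fin 2 → Fin r) (g : HeightOneSpectrum (𝓞 K) → ℝ),
      Par (fun (l : Fin 2) v => 2 * Real.cos (Complex.arg (α (e l) v))) 0 g →
      ∃ k : ℤ, Str g k := by
    intro e
    refine TRI K hz (Fin 2) inferInstance inferInstance
      (fun l v => 2 * Real.cos (Complex.arg (α (e l) v))) (fun l v => ht (e l) v)
      fun n m hnm => ?_
    rw [Fin.sum_univ_two] at hnm
    obtain ⟨k, hk⟩ := h0 (e 0) (e 1) (n 0) (n 1) m hnm
    refine ⟨-k, ?_⟩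
    rw [Int.cast_neg]
    refine ((key _ m k).mp hk).congr fun v => ?_
    exact (Gf_two (fun i v => 2 * Real.cos (Complex.arg (α i v))) e n m v).symm
  have hHas2 : ∀ (e : Fin 2 → Fin r) (g : HeightOneSpectrum (𝓞 K) → ℝ),
      Par (fun (l : Fin 2) v => 2 * Real.cos (Complex.arg (α (e l) v))) 0 g →
      ∃ k : ℤ, HasD g k := fun e g hg => by
    obtain ⟨k, hk⟩ := hStr2 e g hg
    exact ⟨k, hk.hasD⟩
  have hev := EVAL (HeightOneSpectrum (𝓞 K)) (Fin r) inferInstance inferInstance
    (fun i v => 2 * Real.cos (Complex.arg (α i v)))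
  -- an order from a density
  have hval : ∀ (n : Fin r → ℕ) (m : ℕ) (l : ℤ),
      (∃ k : ℤ, Str (Gf (fun i v => 2 * Real.cos (Complex.arg (α i v))) n m) k) →
      HasD (Gf (fun i v => 2 * Real.cos (Complex.arg (α i v))) n m) l →
      HasOrd (P n m) m (-l) := by
    intro n m l hs hl
    rw [key, Int.cast_neg, neg_neg]
    obtain ⟨k, hk⟩ := hs
    rw [hk.hasD.unique hl] at hk
    exact hk
  have hcos : ∀ (i : Fin r) (n : ℕ),
      ∃ k : ℤ, HasD (fun v => 2 * Real.cos (2 * n * Complex.arg (α i v))) k := fun i n =>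
    hHas2 (fun _ => i) _ (Par.cos (θ := fun (_ : Fin 2) v => Complex.arg (α i v)) 0 n)
  have hlaw : ∀ (i : Fin r) (c : ℕ → ℤ),
      (∀ n : ℕ, HasD (fun v => 2 * Real.cos (2 * n * Complex.arg (α i v))) (c n)) →
      ∀ N m, HasOrd (P (Pi.single i N) m) m (-lawRank c N m) := by
    intro i c hc N m
    have h1 := VAL3 hz hc N m
    rw [key, Int.cast_neg, neg_neg]
    obtain ⟨k, hk⟩ := hStr2 (fun _ => i) _ (GPAR _ (Fin 2) inferInstance
      (fun l v => 2 * Real.cos (Complex.arg (α i v))) ![N, 0] m)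
    have h4 : ∀ v, Gf (fun (l : Fin 2) v => 2 * Real.cos (Complex.arg (α i v))) ![N, 0] m v =
        Gf (fun i v => 2 * Real.cos (Complex.arg (α i v))) (Pi.single i N) m v := by
      intro v
      have h5 := Gf_two (fun i v => 2 * Real.cos (Complex.arg (α i v))) (fun _ => i) ![N, 0] m v
      rw [h5]
      congr 1
      simp
    have hk' := hk.congr h4
    have h2 := (hk'.hasD).congr fun v => Gf_single _ i N m v
    have h3 := h2.unique h1
    rw [h3] at hk'
    exact hk'
  rw [or_iff_not_imp_right]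
  intro hcon
  rw [not_or, not_or] at hcon
  obtain ⟨hB, hC, hDD⟩ := hcon
  -- Sato-Tate for each curve
  have hone : ∀ i (n : ℕ), 1 ≤ n →
      HasD (fun v => sp (2 * n) (2 * Real.cos (Complex.arg (α i v)))) 0 := by
    intro i
    rcases ONE4 hz (fun v => Complex.arg (α i v)) (hcos i) with
      h | ⟨q, c, hq, hc0, hcq, hcd, hconc⟩ | ⟨c, hc, hcd⟩
    · exact h
    · by_cases hE : HasOrd (P (Pi.single i 12) 6) 6 (-rank (Pi.single i 12) 6)
      · by_cases hV : ∃ (n : ℕ) (k : ℤ) (Q : HeightOneSpectrum (𝓞 K) → ℂ[X]), 0 < k ∧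
            (∀ v ∈ S, Q v = 1) ∧ (∀ v ∉ S, Q v = symPoly (α i v) n) ∧ HasOrd Q n k
        · exact absurd ⟨i, q, c, hq, hc0, hcq, hlaw i c hcd, hconc, Or.inr hV⟩ hB
        · refine ONE2 ICO (E12 K) hz (fun v => Complex.arg (α i v)) (hcos i) ?_ ?_
          · rw [rank_twelve] at hE
            have h5 := (((key (Pi.single i 12) 6 (-226512)).mp hE).hasD).congr
              fun v => Gf_single _ i 12 6 v
            have h6 : (-(((-226512 : ℤ)) : ℝ)) = 226512 := by norm_num
            rw [h6] at h5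
            exact h5
          · intro n k hk
            have h5 := Par.spA (t := fun (l : Fin 2) v => 2 * Real.cos (Complex.arg (α i v))) 0
              (2 * n)
            rw [natCast_even_zmod2] at h5
            obtain ⟨k', hk'⟩ := hStr2 (fun _ => i) _ h5
            have h6 : (k : ℝ) = k' := hk.unique hk'.hasD
            have h7 : k = k' := by exact_mod_cast h6
            subst h7
            by_contra hneg
            refine hV ⟨n, -k, fun v => if v ∈ S then 1 else symPoly (α i v) n, by omega,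
              fun v hv => if_pos hv, fun v hv => if_neg hv, ?_⟩
            refine (ORDS hL hz S (α i) (hα i) _ n (fun v hv => if_neg hv) (fun v hv => ?_)
              (-k)).mpr ?_
            · rw [if_pos hv, eval_one]
              exact one_ne_zero
            · rw [Int.cast_neg, neg_neg]
              exact hk'
      · exact absurd ⟨i, q, c, hq, hc0, hcq, hlaw i c hcd, hconc, Or.inl hE⟩ hB
    · exact absurd ⟨i, c, hc, hlaw i c hcd⟩ hC
  -- pairs
  have hpair : ∀ i j, i ≠ j → HasD (fun v => sp 2 (2 * Real.cos (Complex.arg (α i v))) *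
      sp 2 (2 * Real.cos (Complex.arg (α j v)))) 0 := by
    intro i j hij
    have h1 := Par.mul (Par.var (t := fun (l : Fin 2) v =>
      2 * Real.cos (Complex.arg (α (![i, j] l) v))) 0) (Par.var 1)
    have h2 : Par (fun (l : Fin 2) v => 2 * Real.cos (Complex.arg (α (![i, j] l) v))) 0
        (fun v => (2 * Real.cos (Complex.arg (α i v))) ^ 2 *
          (2 * Real.cos (Complex.arg (α j v))) ^ 2) :=
      (Par.mul h1 h1).ofEq fun v => by simp; ring
    have h1' : ∃ k : ℤ, HasD (fun v => 2 * Real.cos (Complex.arg (α i v)) *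
        (2 * Real.cos (Complex.arg (α j v)))) k := hHas2 ![i, j] _ h1
    by_contra hn0
    rcases PAIR3 K hz _ _ (ht i) (ht j) (hone i) (hone j) (hHas2 _ _ h2) with h | h
    · exact hn0 h
    · obtain ⟨κ, hκ, hk⟩ := PAIR4 hz (ht i) (ht j) (hone i) (hone j) h (hHas2 _ _ h2)
        h1' hn0
      refine hDD ⟨i, j, hij, ⟨κ, hκ, ?_⟩, fun ε hε => ?_⟩
      · obtain ⟨k, hk3⟩ := h0 i j 2 2 2 rfl
        refine hval _ _ _ ⟨-k, ?_⟩ ?_
        · rw [Int.cast_neg]
          exact (key _ _ _).mp hk3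
        · exact hk.congr fun v => (hev.2 i j hij v).symm
      · have h3 := h (4 * ε) (by linarith)
        have h4 : {v | 4 * ε ≤ |(2 * Real.cos (Complex.arg (α i v))) ^ 2 -
            (2 * Real.cos (Complex.arg (α j v))) ^ 2|} = {v | ε ≤
            |Real.cos (Complex.arg (α i v)) ^ 2 - Real.cos (Complex.arg (α j v)) ^ 2|} := by
          ext v
          simp only [Set.mem_ofPred_eq]
          rw [show (2 * Real.cos (Complex.arg (α i v))) ^ 2 -
            (2 * Real.cos (Complex.arg (α j v))) ^ 2 =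
            4 * (Real.cos (Complex.arg (α i v)) ^ 2 - Real.cos (Complex.arg (α j v)) ^ 2) by ring,
            abs_mul, abs_of_pos (by norm_num : (0 : ℝ) < 4)]
          constructor <;> intro h <;> linarith
        rw [h4] at h3
        exact h3
  -- all characters of at most two curves
  have hpairs : ∀ a : Fin r → ℕ, (supp a).card ≤ 2 → a ≠ 0 → Even (∑ i, a i) →
      HasD (XX (fun i v => 2 * Real.cos (Complex.arg (α i v))) a) 0 := by
    intro a hca ha0 hev'
    have hsum : ∑ i, a i = ∑ i ∈ supp a, a i := by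
      symm
      refine Finset.sum_subset (Finset.subset_univ _) fun i _ hi => ?_
      by_contra h
      exact hi (mem_supp.2 h)
    have hc0 : (supp a).card ≠ 0 := by
      intro h
      rw [Finset.card_eq_zero] at h
      apply ha0
      funext i
      by_contra hi
      have : i ∈ supp a := mem_supp.2 hi
      rw [h] at this
      simp at this
    have hcc : (supp a).card = 1 ∨ (supp a).card = 2 := by omega
    rcases hcc with h1 | h2
    · obtain ⟨i, hi⟩ := Finset.card_eq_one.1 h1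
      rw [hsum, hi, Finset.sum_singleton] at hev'
      obtain ⟨c, hc⟩ := hev'
      have hai : a i ≠ 0 := mem_supp.1 (by rw [hi]; simp)
      refine (hone i c (by omega)).congr fun v => ?_
      rw [XX_supp, hi, Finset.prod_singleton, hc, ← two_mul]
    · obtain ⟨i, j, hij, hs⟩ := Finset.card_eq_two.1 h2
      have hG := GOUR K (cs K) hz (Fin 2) inferInstance inferInstance
        (fun (l : Fin 2) v => 2 * Real.cos (Complex.arg (α (![i, j] l) v)))
        (fun l v => ht (![i, j] l) v) (hHas2 ![i, j]) (fun l n hn => hone (![i, j] l) n hn)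
        (fun l l' hll => by
          fin_cases l <;> fin_cases l'
          · exact absurd rfl hll
          · exact hpair i j hij
          · exact hpair j i hij.symm
          · exact absurd rfl hll) ![a i, a j] ?_ ?_
      · refine hG.congr fun v => ?_
        rw [XX_supp (t := fun i v => 2 * Real.cos (Complex.arg (α i v))) a v, hs,
          Finset.prod_pair hij]
        unfold XX
        rw [Fin.prod_univ_two]
        rfl
      · intro h
        have h3 := congrFun h 0
        have hai : a i ≠ 0 := mem_supp.1 (by rw [hs]; simp)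
        exact hai h3
      · rw [Fin.sum_univ_two]
        rw [hsum, hs, Finset.sum_pair hij] at hev'
        exact hev'
  -- each product
  intro n
  by_cases hex : ∃ (n' : Fin r → ℕ) (m : ℕ),
      (∀ i, n' i ≤ 4 ^ ((Finset.univ.filter fun j => n j ≠ 0).card - 4) * n i) ∧
        ∑ i, n' i = 2 * m ∧ ∀ k : ℤ, ¬ HasOrd (P n' m) m k
  · exact Or.inr hex
  left
  push Not at hex
  have hM := MM_ISL hz ht (fun i => 4 ^ ((supp n).card - 4) * n i) fun n' m hn' hm => by
    obtain ⟨k, hk⟩ := hex n' m hn' hm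
    refine ⟨-k, ?_⟩
    rw [Int.cast_neg]
    exact (key n' m k).mp hk
  have hall : ∀ a : Fin r → ℕ, (∀ i, a i ≤ n i) → a ≠ 0 → Even (∑ i, a i) →
      HasD (XX (fun i v => 2 * Real.cos (Complex.arg (α i v))) a) 0 := by
    intro a ha ha0 hae
    refine GOURL hz ht hpairs (supp a).card a rfl ha0 hae fun b hb hbe => ?_
    have h1 : supp a ⊆ supp n := by
      intro i hi
      rw [mem_supp] at hi ⊢
      have := ha i
      omega
    have h2 := Finset.card_le_card h1
    have hb' : ∀ i, b i ≤ 4 ^ ((supp n).card - 4) * n i := fun i =>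
      calc b i ≤ 4 ^ ((supp a).card - 4) * a i := hb i
        _ ≤ 4 ^ ((supp n).card - 4) * a i :=
          Nat.mul_le_mul_right _ (Nat.pow_le_pow_right (by norm_num) (by omega))
        _ ≤ 4 ^ ((supp n).card - 4) * n i := Nat.mul_le_mul_left _ (ha i)
    obtain ⟨_, k, hk⟩ := XX_ISL hz (fun i => 4 ^ ((supp n).card - 4) * n i) hM b hb' hbe
    exact ⟨k, hk.hasD⟩
  intro m
  refine hval n m _ ?_ (RANKL hz ht n hall m)
  exact (Gf_ISL hz _ hM n m fun i => Nat.le_mul_of_pos_left _ (by positivity)).2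

end TatePole.Fs
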