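import Mathlib
import Pool.Agent.Lib.MP_058a58_ag.Fs.Can

/-!
# The Goursat-Ribet step, local version, with cancellation
-/

open NumberField Polynomial Filter Topology
open IsDedekindDomain (HeightOneSpectrum)

namespace TatePole.Fs

variable {K : Type*} [Field K] [NumberField K]
variable {ι : Type} [Fintype ι] [DecidableEq ι] {t : ι → HeightOneSpectrum (𝓞 K) → ℝ}

omit [Fintype ι] in
lemma cancelProd (hz : StmZK K) (ht : ∀ i v, |t i v| ≤ 2)
    (hone : ∀ i (n : ℕ), 1 ≤ n → HasD (fun v => sp (2 * n) (t i v)) 0) (a : ι → ℕ) (A : Finset ι)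
    {G : HeightOneSpectrum (𝓞 K) → ℝ} (bG : Bd G)
    (h : HasD (fun v => ((∏ i ∈ A, sp (a i) (t i v)) * G v) ^ 2) 0) :
    HasD (fun v => G v ^ 2) 0 := by
  induction A using Finset.induction_on with
  | empty => exact h.congr fun v => by rw [Finset.prod_empty, one_mul]
  | insert r A hr ih =>
    refine ih ?_
    have bA : Bd (fun v => (∏ i ∈ A, sp (a i) (t i v)) * G v) :=
      (Bd.prod A fun i _ => Bd.sp ⟨2, ht i⟩ (a i)).mul bG
    refine cancel hz (ht r) (hone r) (a r) bA (h.congr fun v => ?_)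
    rw [Finset.prod_insert hr]
    ring

/-- The existence of the means needed for `a`. -/
def ExH (t : ι → HeightOneSpectrum (𝓞 K) → ℝ) (a : ι → ℕ) : Prop :=
  ∀ (j : ℕ) (b : ι → ℕ), (∀ i, b i ≤ 2 ^ j * a i) →
    2 ^ j * ((supp b).card - 1) < (supp a).card → Even (∑ i, b i) → ∃ k : ℤ, HasD (XX t b) k

/-- [GOUR], local version with cancellation -/
theorem GOURM (hz : StmZK K) (ht : ∀ i v, |t i v| ≤ 2)
    (hpair : ∀ a : ι → ℕ, (supp a).card ≤ 2 → a ≠ 0 → Even (∑ i, a i) → HasD (XX t a) 0) :
    ∀ (s : ℕ) (a : ι → ℕ), (supp a).card = s → a ≠ 0 → Even (∑ i, a i) → ExH t a →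
      HasD (XX t a) 0 := by
  have hIset : ∀ B : Finset ι, B.card ≤ 2 → Ind t B := by
    intro B hBc c hc hc0
    refine hpair (fun i => 2 * c i) ?_ ?_ ?_
    · refine (Finset.card_le_card ?_).trans hBc
      intro i hi
      rw [mem_supp] at hi
      by_contra h
      exact hi (by rw [hc i h])
    · intro h
      apply hc0
      funext i
      have := congrFun h i
      simpa using this
    · rw [← Finset.mul_sum]; exact even_two_mul _
  have hone : ∀ i (n : ℕ), 1 ≤ n → HasD (fun v => sp (2 * n) (t i v)) 0 := by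
    intro i n hn
    have h1 := (hIset {i} (by simp)).prod hz ht (fun _ => sp (2 * n))
      (fun _ => if n = 0 then 1 else 0) (fun _ _ => Ev.sp2 n)
    simp only [Finset.prod_singleton] at h1
    rw [if_neg (by omega)] at h1
    exact h1
  intro s
  induction s using Nat.strong_induction_on with
  | _ s ih =>
    intro a hs ha0 hev hex
    by_cases h2 : s ≤ 2
    · exact hpair a (by omega) ha0 hev
    obtain ⟨k, hk⟩ := hex 0 a (fun i => by omega) (by omega) hev
    by_cases hk0 : k = 0
    · rw [hk0, Int.cast_zero] at hk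
      exact hk
    exfalso
    have bt : ∀ i, Bd (t i) := fun i => ⟨2, ht i⟩
    -- second moments of products over at most half of the support
    have hhalf : ∀ A : Finset ι, A.card ≤ (s + 1) / 2 →
        HasD (fun v => (∏ i ∈ A, sp (a i) (t i v)) ^ 2) 1 := by
      intro A hA
      have h3 := prodD hz ht (B := A) a (fun c hc1 hc2 hc0 => by
        have hcard : (supp (fun i => 2 * c i)).card ≤ (s + 1) / 2 := by
          refine (Finset.card_le_card ?_).trans hA
          intro i hi
          rw [mem_supp] at hi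
          by_contra h
          exact hi (by rw [hc1 i h])
        refine ih (supp (fun i => 2 * c i)).card (by omega) _ rfl ?_ ?_ ?_
        · intro h
          apply hc0
          funext i
          have := congrFun h i
          simpa using this
        · rw [← Finset.mul_sum]; exact even_two_mul _
        · intro j b hb hbc hbe
          have hcle : ∀ i, c i ≤ a i := fun i => by
            by_cases hi : i ∈ A
            · exact hc2 i hi
            · rw [hc1 i hi]; omega
          refine hex (j + 1) b (fun i => ?_) ?_ hbe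
          · calc b i ≤ 2 ^ j * (2 * c i) := hb i
              _ ≤ 2 ^ j * (2 * a i) := Nat.mul_le_mul_left _ (by have := hcle i; omega)
              _ = 2 ^ (j + 1) * a i := by ring
          · have h4 : 2 ^ (j + 1) * ((supp b).card - 1) = 2 * (2 ^ j * ((supp b).card - 1)) := by
              ring
            rw [h4]
            omega) (fun i x => sp (a i) x ^ 2) (fun _ => 1) (fun i _ => EvD.sq (a i))
      rw [Finset.prod_const_one] at h3
      refine h3.congr fun v => ?_
      rw [Finset.prod_pow]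
    -- the splitting
    obtain ⟨i, hi, j, hj, hij⟩ := Finset.one_lt_card.1 (by omega : 1 < (supp a).card)
    have hj' : j ∈ (supp a).erase i := Finset.mem_erase.2 ⟨hij.symm, hj⟩
    obtain ⟨T, hT⟩ : ∃ T, T = ((supp a).erase i).erase j := ⟨_, rfl⟩
    have hTc : T.card = s - 2 := by
      rw [hT, Finset.card_erase_of_mem hj', Finset.card_erase_of_mem hi, hs]
      omega
    have hiT : i ∉ T := by rw [hT]; simp
    have hjT : j ∉ T := by rw [hT]; simp
    obtain ⟨A, hAT, hAc⟩ := Finset.exists_subset_card_eq (s := T) (n := (s - 2) / 2) (by omega)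
    have hBc : (T \ A).card = s - 2 - (s - 2) / 2 := by
      rw [Finset.card_sdiff_of_subset hAT, hTc, hAc]
    have hiA : i ∉ A := fun h => hiT (hAT h)
    have hjA : j ∉ A := fun h => hjT (hAT h)
    have hiB : i ∉ T \ A := fun h => hiT (Finset.mem_sdiff.1 h).1
    have hjB : j ∉ T \ A := fun h => hjT (Finset.mem_sdiff.1 h).1
    obtain ⟨xi, hxi⟩ : ∃ x : HeightOneSpectrum (𝓞 K) → ℝ, x = fun v => sp (a i) (t i v) := ⟨_, rfl⟩
    obtain ⟨xj, hxj⟩ : ∃ x : HeightOneSpectrum (𝓞 K) → ℝ, x = fun v => sp (a j) (t j v) := ⟨_, rfl⟩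
    obtain ⟨f, hf⟩ : ∃ x : HeightOneSpectrum (𝓞 K) → ℝ,
      x = fun v => ∏ l ∈ A, sp (a l) (t l v) := ⟨_, rfl⟩
    obtain ⟨g, hg⟩ : ∃ x : HeightOneSpectrum (𝓞 K) → ℝ,
      x = fun v => ∏ l ∈ T \ A, sp (a l) (t l v) := ⟨_, rfl⟩
    have bi : Bd xi := by rw [hxi]; exact Bd.sp (bt i) _
    have bj : Bd xj := by rw [hxj]; exact Bd.sp (bt j) _
    have bf : Bd f := by rw [hf]; exact Bd.prod _ fun l _ => Bd.sp (bt l) (a l)
    have bg : Bd g := by rw [hg]; exact Bd.prod _ fun l _ => Bd.sp (bt l) (a l)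
    have hX : ∀ v, XX t a v = xi v * (xj v * (g v * f v)) := by
      intro v
      rw [XX_supp, ← Finset.mul_prod_erase _ _ hi, ← Finset.mul_prod_erase _ _ hj', ← hT,
        ← Finset.prod_sdiff hAT, hxi, hxj, hf, hg]
    have si : HasD (fun v => (xi v * f v) ^ 2) 1 := by
      have := hhalf (insert i A) (by rw [Finset.card_insert_of_notMem hiA]; omega)
      exact this.congr fun v => by rw [Finset.prod_insert hiA, hxi, hf]
    have sj : HasD (fun v => (xj v * f v) ^ 2) 1 := by
      have := hhalf (insert j A) (by rw [Finset.card_insert_of_notMem hjA]; omega)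
      exact this.congr fun v => by rw [Finset.prod_insert hjA, hxj, hf]
    have ui : HasD (fun v => (xi v * g v) ^ 2) 1 := by
      have := hhalf (insert i (T \ A)) (by rw [Finset.card_insert_of_notMem hiB]; omega)
      exact this.congr fun v => by rw [Finset.prod_insert hiB, hxi, hg]
    have uj : HasD (fun v => (xj v * g v) ^ 2) 1 := by
      have := hhalf (insert j (T \ A)) (by rw [Finset.card_insert_of_notMem hjB]; omega)
      exact this.congr fun v => by rw [Finset.prod_insert hjB, hxj, hg]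
    have k1 : HasD (fun v => xi v * f v * (xj v * g v)) k := hk.congr fun v => by rw [hX]; ring
    have k2 : HasD (fun v => xj v * f v * (xi v * g v)) k := hk.congr fun v => by rw [hX]; ring
    obtain ⟨hk1, _⟩ := cs K hz (fun v => xi v * f v) (fun v => xj v * g v) (fun _ => 1)
      (bi.mul bf) (bj.mul bg) (Bd.const 1) si uj k k1 hk0
    have hkk : (k : ℝ) * k = 1 := by
      rcases hk1 with rfl | rfl <;> norm_num
    have hval : (1 : ℝ) - 2 * k * k + k ^ 2 * 1 = 0 := by
      rw [sq, mul_assoc, hkk]; norm_num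
    obtain ⟨F, hF⟩ : ∃ x : HeightOneSpectrum (𝓞 K) → ℝ,
      x = fun v => xi v * f v - (k : ℝ) * (xj v * g v) := ⟨_, rfl⟩
    obtain ⟨F', hF'⟩ : ∃ x : HeightOneSpectrum (𝓞 K) → ℝ,
      x = fun v => xj v * f v - (k : ℝ) * (xi v * g v) := ⟨_, rfl⟩
    have bF : Bd F := by rw [hF]; exact (bi.mul bf).sub ((bj.mul bg).const_mul k)
    have bF' : Bd F' := by rw [hF']; exact (bj.mul bf).sub ((bi.mul bg).const_mul k)
    have n1 : HasD (fun v => F v ^ 2) 0 := by
      have h := HasD.sq_sub hz (bi.mul bf) (bj.mul bg) si uj k1 k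
      rw [hval] at h
      rw [hF]; exact h
    have n2 : HasD (fun v => F' v ^ 2) 0 := by
      have h := HasD.sq_sub hz (bj.mul bf) (bi.mul bg) sj ui k2 k
      rw [hval] at h
      rw [hF']; exact h
    have c1 : Bd (fun v => xi v ^ 2 * F v) := (bi.pow 2).mul bF
    have c2 : Bd (fun v => xi v * xj v * F' v) := (bi.mul bj).mul bF'
    have c3 : Bd (fun v => xj v ^ 2 * F' v) := (bj.pow 2).mul bF'
    have q1 := HasD.mul_of_sq hz bF c1 n1
    have q2 := HasD.mul_of_sq hz bF c2 n1
    have q3 := HasD.mul_of_sq hz bF' c3 n2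
    have q4 := HasD.sub hz (bF.mul c1) ((bF.mul c2).const_mul 2) q1 (q2.const_mul 2)
    have q5 := HasD.add hz ((bF.mul c1).sub ((bF.mul c2).const_mul 2)) (bF'.mul c3) q4 q3
    have bG : Bd (fun v => xi v ^ 2 - xj v ^ 2) := (bi.pow 2).sub (bj.pow 2)
    have q6 : HasD (fun v => ((∏ l ∈ A, sp (a l) (t l v)) * (xi v ^ 2 - xj v ^ 2)) ^ 2) 0 := by
      have : (0 : ℝ) - 2 * 0 + 0 = 0 := by norm_num
      rw [this] at q5
      refine q5.congr fun v => ?_
      have hfv : ∏ l ∈ A, sp (a l) (t l v) = f v := by rw [hf]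
      rw [hfv, hF, hF']
      ring
    have q7 := cancelProd hz ht hone a A bG q6
    have hai : 1 ≤ a i := Nat.one_le_iff_ne_zero.2 (mem_supp.1 hi)
    have q8 := HasD.mul_of_sq hz bG (Bd.sp (bt i) 2) q7
    have m1 : HasD (fun v => xi v ^ 2 * sp 2 (t i v)) 1 := by
      have := Ind.one hz ht i (hone i) (Ev.sqtwo (a i) hai)
      exact this.congr fun v => by rw [hxi]
    have m2 : HasD (fun v => xj v ^ 2 * sp 2 (t i v)) 0 := by
      have := (hIset {i, j} Finset.card_le_two).two hz ht hij (Ev.sp2 1) (Ev.sq (a j))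
      rw [if_neg one_ne_zero, zero_mul] at this
      exact this.congr fun v => by rw [hxj]; ring
    have m3 := HasD.sub hz ((bi.pow 2).mul (Bd.sp (bt i) 2)) ((bj.pow 2).mul (Bd.sp (bt i) 2))
      m1 m2
    have m4 := m3.unique (q8.congr fun v => by ring)
    norm_num at m4

end TatePole.Fs
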