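import Mathlib
import Pool.Agent.Lib.MP_058a58_ag.Fs.Dens

/-!
# The twelfth power
-/

open NumberField Polynomial Filter Topology
open IsDedekindDomain (HeightOneSpectrum)

namespace TatePole.Fs

lemma e12_term (t : ℝ) (m : ℕ) (hm : m ≤ 12) :
    ((C t * X : ℝ[X]) ^ m * (1 + X ^ 2) ^ (12 - m)).coeff 12 =
      t ^ m * if 2 ∣ 12 - m then ((12 - m).choose ((12 - m) / 2) : ℝ) else 0 := by
  have h1 : ((1 + X ^ 2 : ℝ[X]) ^ (12 - m)) = expand ℝ 2 ((1 + X) ^ (12 - m)) := by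
    rw [map_pow, map_add, map_one, expand_X]
  rw [mul_pow, ← C_pow, mul_assoc, coeff_C_mul, h1]
  congr 1
  have h2 : (12 : ℕ) = (12 - m) + m := by omega
  conv_lhs => rw [show (12 : ℕ) = (12 - m) + m by omega]
  rw [show 12 - m + m - m = 12 - m by omega, coeff_X_pow_mul, coeff_expand (by norm_num)]
  split_ifs with h
  · rw [coeff_one_add_X_pow]
  · rfl

lemma e12_coeff (t : ℝ) : ((1 + C t * X + X ^ 2 : ℝ[X]) ^ 12).coeff 12 =
    924 + 16632 * t ^ 2 + 34650 * t ^ 4 + 18480 * t ^ 6 + 2970 * t ^ 8 + 132 * t ^ 10 + t ^ 12 := by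
  have h1 : (1 + C t * X + X ^ 2 : ℝ[X]) = C t * X + (1 + X ^ 2) := by ring
  rw [h1, add_pow, finsetSum_coeff]
  have h2 : ∀ m ∈ Finset.range (12 + 1), ((C t * X : ℝ[X]) ^ m * (1 + X ^ 2) ^ (12 - m) *
      ((12 : ℕ).choose m : ℝ[X])).coeff 12 = (t ^ m *
      if 2 ∣ 12 - m then ((12 - m).choose ((12 - m) / 2) : ℝ) else 0) * ((12 : ℕ).choose m : ℝ) := by
    intro m hm
    rw [Finset.mem_range] at hm
    rw [← C_eq_natCast, coeff_mul_C, e12_term t m (by omega)]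
  rw [Finset.sum_congr rfl h2]
  simp only [Finset.sum_range_succ, Finset.sum_range_zero]
  norm_num [Nat.choose]
  ring

lemma e12_sp (t : ℝ) : ((1 + C t * X + X ^ 2 : ℝ[X]) ^ 12).coeff 12 =
    226512 * sp (2 * 0) t + 382239 * sp (2 * 1) t + 196625 * sp (2 * 2) t + 44044 * sp (2 * 3) t +
      4212 * sp (2 * 4) t + 143 * sp (2 * 5) t + sp (2 * 6) t := by
  rw [e12_coeff]
  simp only [sp]
  ring

variable {K : Type*} [Field K] [NumberField K]

theorem e12 (hz : StmZK K) (t : HeightOneSpectrum (𝓞 K) → ℝ) (ht : ∀ v, |t v| ≤ 2) (k : ℕ → ℤ)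
    (hk : ∀ j, HasD (fun v => sp (2 * j) (t v)) (k j)) (hk0 : ∀ j, 0 ≤ k j)
    (hE : HasD (fun v => ((1 + C (t v) * X + X ^ 2 : ℝ[X]) ^ 12).coeff 12) 226512) :
    ∀ j, 1 ≤ j → j ≤ 6 → k j = 0 := by
  have hb : ∀ j, Bd (fun v => sp (2 * j) (t v)) := fun j => Bd.sp ⟨2, ht⟩ _
  have hbc : ∀ (c : ℝ) (j : ℕ), Bd (fun v => c * sp (2 * j) (t v)) := fun c j =>
    (hb j).const_mul c
  have hkc : ∀ (c : ℝ) (j : ℕ), HasD (fun v => c * sp (2 * j) (t v)) (c * k j) := fun c j =>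
    (hk j).const_mul c
  have h1 := HasD.add hz (((((((hbc 226512 0).add (hbc 382239 1)).add (hbc 196625 2)).add
    (hbc 44044 3)).add (hbc 4212 4)).add (hbc 143 5))) (hb 6)
    (HasD.add hz ((((((hbc 226512 0).add (hbc 382239 1)).add (hbc 196625 2)).add
    (hbc 44044 3)).add (hbc 4212 4))) (hbc 143 5)
    (HasD.add hz (((((hbc 226512 0).add (hbc 382239 1)).add (hbc 196625 2)).add
    (hbc 44044 3))) (hbc 4212 4)
    (HasD.add hz ((((hbc 226512 0).add (hbc 382239 1)).add (hbc 196625 2))) (hbc 44044 3)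
    (HasD.add hz (((hbc 226512 0).add (hbc 382239 1))) (hbc 196625 2)
    (HasD.add hz (hbc 226512 0) (hbc 382239 1) (hkc 226512 0) (hkc 382239 1)) (hkc 196625 2))
    (hkc 44044 3)) (hkc 4212 4)) (hkc 143 5)) (hk 6)
  have h2 := (h1.congr fun v => (e12_sp (t v)).symm).unique hE
  have h3 : (k 0 : ℝ) = 1 := by
    have h4 : HasD (fun v => sp (2 * 0) (t v)) (1 : ℝ) :=
      (HasD.one hz).congr fun v => rfl
    exact (hk 0).unique h4
  rw [h3] at h2
  have h5 : (382239 * k 1 + 196625 * k 2 + 44044 * k 3 + 4212 * k 4 + 143 * k 5 + k 6 : ℤ) = 0 := by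
    have h6 : ((382239 * k 1 + 196625 * k 2 + 44044 * k 3 + 4212 * k 4 + 143 * k 5 + k 6 : ℤ) : ℝ) =
        0 := by
      push_cast
      linarith
    exact_mod_cast h6
  have a1 := hk0 1
  have a2 := hk0 2
  have a3 := hk0 3
  have a4 := hk0 4
  have a5 := hk0 5
  have a6 := hk0 6
  intro j hj1 hj2
  interval_cases j <;> omega

end TatePole.Fs
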