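import Mathlib
import Pool.Agent.Lib.MP_058a58_ag.Fs.E12
import Pool.Agent.Lib.MP_058a58_ag.Fs.One2

/-!
# The twelfth power, in the form of `StmE12`
-/

open NumberField

namespace TatePole.Fs

/-- [E12] -/
theorem E12 (K : Type*) [Field K] [NumberField K] : StmE12 K :=
  fun hz t ht k hk hk0 hE => e12 hz t ht k hk hk0 hE

end TatePole.Fs
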